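import Pool.Agent.Lib.MP_3d51eb_gt.SR.Spec2

/-!
# project SR: bijection of the rays, sharper range
-/

set_option autoImplicit false

noncomputable section

namespace ToricSR

open Finset MvPolynomial ToricPB

/-- rays with the same class have the same value on every relation -/
private lemma Bij2_same (h2 : StH2z) (n : ℕ) (K : Finset (Finset (Vec n))) (hK : IsFan K)
    {v v' : Vec n} (hv : v ∈ verts K) (hv' : v' ∈ verts K) (h : cls K v = cls K v') :
    fv K v = fv K v' := by
  refine LinearMap.ext (fun l => ?_)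
  have h3 : cl K (fun x => (fun w => if w = v then (1 : ℤ) else 0) x -
      (fun w => if w = v' then (1 : ℤ) else 0) x) = 0 := by
    rw [cl_sub, cl_single hv, cl_single hv', h, sub_self]
  have h4 := h2 n K hK _ h3 l.1 l.2
  rw [ev_sub, ev_single hv, ev_single hv'] at h4
  rw [fv_apply, fv_apply]
  linarith

open Classical in
private lemma Bij2_F (h2 : StH2z) (n : ℕ) (K : Finset (Finset (Vec n))) (hK : IsFan K) :
    ∃ F : Finset ((VK K) →ₗ[ℝ] ℝ), F.card ≤ nc K ∧ ∀ v ∈ verts K, fv K v ∈ F := by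
  refine ⟨((verts K).image (cls K)).image (fun c => if h : ∃ v ∈ verts K, cls K v = c then
    fv K h.choose else 0), Finset.card_image_le, fun v hv => ?_⟩
  refine Finset.mem_image.2 ⟨cls K v, Finset.mem_image_of_mem _ hv, ?_⟩
  have h : ∃ v' ∈ verts K, cls K v' = cls K v := ⟨v, hv, rfl⟩
  rw [dif_pos h]
  exact Bij2_same h2 n K hK h.choose_spec.1 hv h.choose_spec.2

private lemma Bij2_zero (h3 : StPerp) (n : ℕ) (K : Finset (Finset (Vec n))) (hK : IsFan K)
    (ψ : Vec n → ℤ) (h : ∀ l ∈ VK K, ev K ψ l = 0) : cl K ψ = 0 := by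
  obtain ⟨m, hm⟩ := h3 n K hK ψ h
  rw [cl_congr (χ := pr m) hm, cl_pr]

theorem tBij2 (h1 : StRel) (h2 : StH2z) (h3 : StPerp) (h4 : StDim) (h5 : StRk) (h6 : StPw)
    (h7 : StMomC) (h8 : StSgn) : StBij2 := by
  intro n K K' hK hK' hS φ hG hp
  have hex : ∀ w, ∃ χ : Vec n → ℤ, φ (cl K χ) = cls K' w := by
    intro w
    have ha : φ.symm (cls K' w) ∈ H2 K := by
      rw [hG, RingEquiv.apply_symm_apply]
      exact cls_mem w
    obtain ⟨χ, hχ⟩ := exists_cl ha
    exact ⟨χ, by rw [← hχ, RingEquiv.apply_symm_apply]⟩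
  choose χ hχ using hex
  have hd := h4 n K hK
  have hr := h5 n K hK
  obtain ⟨k, hk⟩ : ∃ k, k = nc K + n + 2 - (verts K).card := ⟨_, rfl⟩
  have hk1 : 1 ≤ k := by omega
  have hk2 : nc K + 2 - Module.finrank ℝ (VK K) = k := by omega
  have hNb : Nb K (2 * k + 1) := by
    intro s hs hc
    refine hS s hs ?_
    rw [← hk]
    omega
  have hpw := h6 n K K' hK hK' φ hG hp k hk1 hNb χ hχ
  obtain ⟨hs1, hs2⟩ := h8 n K K' hK hK'
  obtain ⟨u, hu, huv⟩ := h7 (VK K) n (verts K) (verts K') (fv K) (fun w => gv K (χ w)) (nc K) k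
    (fun x hx => Subtype.ext (funext (fun v => by
      by_cases hv : v ∈ verts K
      · exact hx v hv
      · exact VK_out x.2 hv)))
    (Bij2_F h2 n K hK) hk2 (fun x => hpw x.1 x.2)
    (fun w hw h0 => by
      obtain ⟨l, hl, hne⟩ := (hs2 φ hG w hw (χ w) (hχ w)).2
      exact hne (LinearMap.congr_fun h0 ⟨l, hl⟩))
    (fun v hv h0 => by
      obtain ⟨a, ha, -, hav⟩ := h1 n K hK v hv
      have h9 : ((a v : ℤ) : ℝ) = 0 := LinearMap.congr_fun h0 ⟨_, ha⟩
      rw [hav] at h9
      norm_num at h9)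
    (fun v hv v' hv' c hc => by
      have h9 : c = 1 := hs1 v hv v' hv' c (fun l hl => LinearMap.congr_fun hc ⟨l, hl⟩)
      rw [hc, h9, one_smul])
    (fun w hw v hv c hc => by
      rcases (hs2 φ hG w hw (χ w) (hχ w)).1 v hv c
        (fun l hl => LinearMap.congr_fun hc ⟨l, hl⟩) with h9 | h9
      · left
        rw [hc, h9, one_smul]
      · right
        refine LinearMap.ext (fun l => ?_)
        rw [hc, h9, LinearMap.neg_apply, LinearMap.smul_apply, smul_eq_mul]
        ring)
  classical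
  refine ⟨u, fun v => if gv K (χ (u v)) = fv K v then 1 else -1, hu, fun v => ?_, fun v hv => ?_⟩
  · by_cases h : gv K (χ (u v)) = fv K v
    · exact Or.inl (if_pos h)
    · exact Or.inr (if_neg h)
  · by_cases h : gv K (χ (u v)) = fv K v
    · have h9 : cl K (fun x => (χ (u v)) x - (fun w => if w = v then (1 : ℤ) else 0) x) = 0 := by
        refine Bij2_zero h3 n K hK _ (fun l hl => ?_)
        rw [ev_sub, ev_single hv]
        have h10 : ev K (χ (u v)) l = l v := LinearMap.congr_fun h ⟨l, hl⟩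
        rw [h10, sub_self]
      rw [cl_sub, cl_single hv, sub_eq_zero] at h9
      simp only [if_pos h, one_smul]
      rw [← h9, hχ]
    · have h' : gv K (χ (u v)) = -fv K v := (huv v hv).resolve_left h
      have h9 : cl K (fun x => (χ (u v)) x + (fun w => if w = v then (1 : ℤ) else 0) x) = 0 := by
        refine Bij2_zero h3 n K hK _ (fun l hl => ?_)
        rw [ev_add, ev_single hv]
        have h10 : ev K (χ (u v)) l = -l v := LinearMap.congr_fun h' ⟨l, hl⟩
        rw [h10, neg_add_cancel]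
      rw [cl_add, cl_single hv] at h9
      have h11 : cls K v = -cl K (χ (u v)) := (neg_eq_of_add_eq_zero_right h9).symm
      simp only [if_neg h]
      rw [h11, map_neg, hχ, neg_smul, one_smul]

end ToricSR
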