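import Pool.Agent.Lib.MP_3d51eb_gt.SR.Spec

/-!
# project SR: module Cone (theorem tCon)

A ring isomorphism that maps the classes of the rays to the classes of the rays up to signs identifies the
cones: a set of rays is a cone iff the product of the classes is not zero.
-/

set_option autoImplicit false

noncomputable section

namespace ToricSR

open Finset MvPolynomial ToricPB

private lemma Con_sq {n : ℕ} (ε : Vec n → ℤ) (hε : ∀ v, ε v = 1 ∨ ε v = -1) (s : Finset (Vec n)) :
    (∏ v ∈ s, ε v) * (∏ v ∈ s, ε v) = 1 := by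
  rw [← Finset.prod_mul_distrib]
  refine Finset.prod_eq_one (fun v _ => ?_)
  rcases hε v with h | h <;> rw [h] <;> norm_num

private lemma Con_mon {n : ℕ} {K K' : Finset (Finset (Vec n))} (φ : Coh K ≃+* Coh K')
    (u : Vec n → Vec n) (ε : Vec n → ℤ) (hu : Set.InjOn u (verts K))
    (h : ∀ v ∈ verts K, φ (cls K v) = ε v • cls K' (u v)) (s : Finset (Vec n)) (hs : s ⊆ verts K) :
    φ (mon K s) = (∏ v ∈ s, ε v) • mon K' (s.image u) := by
  have hinj : Set.InjOn u (s : Set (Vec n)) := hu.mono (by exact_mod_cast hs)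
  rw [mon, map_prod, mon, Finset.prod_image hinj, zsmul_eq_mul, Int.cast_prod, ← Finset.prod_mul_distrib]
  refine Finset.prod_congr rfl (fun v hv => ?_)
  rw [h v (hs hv), zsmul_eq_mul]

theorem tCon (h1 : StNz) : StCon := by
  intro n K K' hK hK' φ u ε hu hε h s hs
  have hm := Con_mon φ u ε hu.injOn h s hs
  have hsq := Con_sq ε hε s
  constructor
  · intro hsK
    by_contra hc
    have h2 : mon K' (s.image u) = 0 := mon_eq_zero hc
    rw [h2, smul_zero] at hm
    exact h1 n K hK s hsK ((map_eq_zero_iff φ φ.injective).1 hm)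
  · intro hsK'
    by_contra hc
    have h2 : mon K s = 0 := mon_eq_zero hc
    rw [h2, map_zero] at hm
    have h3 : mon K' (s.image u) = 0 := by
      have h4 : ((∏ v ∈ s, ε v) * (∏ v ∈ s, ε v)) • mon K' (s.image u) = 0 := by
        rw [mul_smul, ← hm, smul_zero]
      rwa [hsq, one_smul] at h4
    exact h1 n K' hK' _ hsK' h3

end ToricSR
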