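import Pool.Agent.Lib.MP_3d51eb_gt.SR.Spec
import Pool.Agent.Lib.MP_3d51eb_gt.PB.Dual
import Pool.Agent.Lib.MP_3d51eb_gt.PB.Uq
import Pool.Agent.Lib.MP_3d51eb_gt.PB.Loc
import Pool.Agent.Lib.MP_3d51eb_gt.PB.Gen
import Pool.Agent.Lib.MP_3d51eb_gt.PB.Near

/-!
# project SR: the dimension of the space of linear relations between the rays
-/

set_option autoImplicit false

noncomputable section

namespace ToricSR

open Finset MvPolynomial ToricPB

variable {n : ℕ}

private theorem Dim_max (K : Finset (Finset (Vec n))) (hK : IsFan K) :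
    ∃ σ ∈ K, ∀ x : Fin n → ℝ, ∃ c : Vec n → ℝ, x = lin σ c := by
  obtain ⟨s, ⟨hs, _⟩, _⟩ := hK.cover 0
  have h0 : (∅ : Finset (Vec n)) ∈ K := hK.down s hs ∅ (Finset.empty_subset _)
  have hr : InRel (∅ : Finset (Vec n)) (0 : Fin n → ℝ) :=
    ⟨fun _ => 1, fun v hv => absurd hv (Finset.notMem_empty v), by simp [lin]⟩
  obtain ⟨σ, hσ, _, hc, _⟩ := tNear tDual (tUq tDual) (tLoc tDual (tUq tDual)) tGen n K hK
    Set.univ isOpen_univ ∅ h0 0 (Set.mem_univ _) hr
  exact ⟨σ, hσ, ((tDual n σ (hK.smooth σ hσ)).2.2.2 hc).2⟩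

private def Dim_f (K : Finset (Finset (Vec n))) :
    ({v // v ∈ verts K} → ℝ) →ₗ[ℝ] (Fin n → ℝ) where
  toFun l := ∑ v : {v // v ∈ verts K}, l v • toR v.1
  map_add' a b := by
    simp only [Pi.add_apply, add_smul, Finset.sum_add_distrib]
  map_smul' c a := by
    simp only [Pi.smul_apply, smul_eq_mul, mul_smul, Finset.smul_sum, RingHom.id_apply]

private def Dim_E (K : Finset (Finset (Vec n))) :
    ({v // v ∈ verts K} → ℝ) →ₗ[ℝ] (Vec n → ℝ) where
  toFun l := fun v => if h : v ∈ verts K then l ⟨v, h⟩ else 0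
  map_add' a b := by
    funext v
    by_cases h : v ∈ verts K <;> simp [h]
  map_smul' c a := by
    funext v
    by_cases h : v ∈ verts K <;> simp [h]

private theorem Dim_in (K : Finset (Finset (Vec n))) (l : {v // v ∈ verts K} → ℝ) (v : Vec n)
    (h : v ∈ verts K) : Dim_E K l v = l ⟨v, h⟩ := dif_pos h

private theorem Dim_out (K : Finset (Finset (Vec n))) (l : {v // v ∈ verts K} → ℝ) (v : Vec n)
    (h : v ∉ verts K) : Dim_E K l v = 0 := dif_neg h

private theorem Dim_inj (K : Finset (Finset (Vec n))) : Function.Injective (Dim_E K) := by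
  intro a b hab
  funext v
  have h := congrFun hab v.1
  rw [Dim_in K a v.1 v.2, Dim_in K b v.1 v.2] at h
  exact h

private theorem Dim_apply (K : Finset (Finset (Vec n))) (l : {v // v ∈ verts K} → ℝ)
    (i : Fin n) : Dim_f K l i = ∑ v : {v // v ∈ verts K}, (v.1 i : ℝ) * l v := by
  have h : Dim_f K l = ∑ v : {v // v ∈ verts K}, l v • toR v.1 := rfl
  rw [h, Finset.sum_apply]
  refine Finset.sum_congr rfl fun v _ => ?_
  rw [Pi.smul_apply, smul_eq_mul, mul_comm]
  rfl

private theorem Dim_sum (K : Finset (Finset (Vec n))) (l : {v // v ∈ verts K} → ℝ)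
    (i : Fin n) : ∑ v ∈ verts K, (v i : ℝ) * Dim_E K l v = Dim_f K l i := by
  rw [Dim_apply, ← Finset.sum_coe_sort (verts K) (fun v => (v i : ℝ) * Dim_E K l v)]
  refine Finset.sum_congr rfl fun v _ => ?_
  rw [Dim_in K l v.1 v.2]

private theorem Dim_eq (K : Finset (Finset (Vec n))) :
    VK K = (LinearMap.ker (Dim_f K)).map (Dim_E K) := by
  ext l
  rw [Submodule.mem_map]
  constructor
  · intro hl
    have he : Dim_E K (fun v => l v.1) = l := by
      funext v
      by_cases h : v ∈ verts K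
      · exact Dim_in K _ v h
      · rw [Dim_out K _ v h, VK_out hl h]
    refine ⟨fun v => l v.1, ?_, he⟩
    rw [LinearMap.mem_ker]
    funext i
    rw [← Dim_sum, he]
    exact VK_rel hl i
  · rintro ⟨l', hl', rfl⟩
    rw [LinearMap.mem_ker] at hl'
    refine VK_mk (fun v hv => Dim_out K l' v hv) fun i => ?_
    rw [Dim_sum, hl']
    rfl

private theorem Dim_surj (K : Finset (Finset (Vec n))) (hK : IsFan K) :
    Function.Surjective (Dim_f K) := by
  intro x
  obtain ⟨σ, hσ, h⟩ := Dim_max K hK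
  obtain ⟨c, hc⟩ := h x
  refine ⟨fun v => if v.1 ∈ σ then c v.1 else 0, ?_⟩
  have h1 : Dim_f K (fun v => if v.1 ∈ σ then c v.1 else 0) =
      ∑ v : {v // v ∈ verts K}, (if v.1 ∈ σ then c v.1 else 0) • toR v.1 := rfl
  rw [h1, hc, lin,
    Finset.sum_coe_sort (verts K) (fun v => (if v ∈ σ then c v else 0) • toR v)]
  have hsub : σ ⊆ verts K := fun v hv => Finset.mem_biUnion.2 ⟨σ, hσ, hv⟩
  rw [← Finset.sum_subset hsub (fun v _ hv => by rw [if_neg hv, zero_smul])]
  exact Finset.sum_congr rfl fun v hv => by rw [if_pos hv]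

theorem tDim : StDim := by
  intro n K hK
  have h1 : Module.finrank ℝ (VK K) = Module.finrank ℝ (LinearMap.ker (Dim_f K)) := by
    rw [Dim_eq K]
    exact (LinearEquiv.finrank_eq (Submodule.equivMapOfInjective (Dim_E K) (Dim_inj K)
      (LinearMap.ker (Dim_f K)))).symm
  have h2 := LinearMap.finrank_range_add_finrank_ker (Dim_f K)
  rw [LinearMap.range_eq_top.2 (Dim_surj K hK), finrank_top, Module.finrank_fintype_fun_eq_card,
    Module.finrank_fintype_fun_eq_card, Fintype.card_fin, Fintype.card_coe] at h2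
  rw [h1, add_comm]
  exact h2

end ToricSR
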