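import Pool.Agent.Lib.MP_3d51eb_gt.SR.Spec

/-!
# project SR: the generating function of the elementary symmetric functions
-/

set_option autoImplicit false

noncomputable section

namespace ToricSR

open Finset MvPolynomial ToricPB

private lemma Es_prod {n : ℕ} (t : Finset (Vec n)) (a : Vec n → ℝ) :
    (∏ v ∈ t, (Polynomial.C (a v) * Polynomial.X ^ 2) : Polynomial ℝ) =
      Polynomial.C (∏ v ∈ t, a v) * Polynomial.X ^ (2 * t.card) := by
  rw [Finset.prod_mul_distrib, Finset.prod_const, map_prod, ← pow_mul]

private lemma Es_coeff {n : ℕ} (t : Finset (Vec n)) (a : Vec n → ℝ) (j : ℕ) :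
    (∏ v ∈ t, (Polynomial.C (a v) * Polynomial.X ^ 2) : Polynomial ℝ).coeff (2 * j) =
      if t.card = j then ∏ v ∈ t, a v else 0 := by
  rw [Es_prod, Polynomial.coeff_C_mul_X_pow]
  by_cases h : t.card = j
  · rw [if_pos h, if_pos (by omega)]
  · rw [if_neg h, if_neg (by omega)]

theorem tEs : StEs := by
  intro n S a j
  classical
  rw [Finset.prod_one_add, Polynomial.finsetSum_coeff, Finset.esymm_map_val]
  rw [Finset.sum_congr rfl (fun t _ => Es_coeff t a j), ← Finset.sum_filter]
  refine Finset.sum_congr ?_ (fun _ _ => rfl)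
  ext t
  rw [Finset.mem_filter, Finset.mem_powerset, Finset.mem_powersetCard]

end ToricSR
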