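import Pool.Agent.Lib.MP_3d51eb_gt.SR.Spec

/-!
# Second cohomology

If the class `cl K ψ` of a fan vanishes, then `ψ` is orthogonal to all linear relations of the
rays: truncated polynomials modulo `X ^ 2` see the linear part.
-/

set_option autoImplicit false

noncomputable section

namespace ToricSR

open Finset MvPolynomial ToricPB

private lemma H2z_lt (a : ℝ) (h : lt 2 a = 0) : a = 0 := by
  rw [lt_eq] at h
  have h1 := Ideal.mem_span_singleton.1 (Ideal.Quotient.eq_zero_iff_mem.1 h)
  have h2 := Polynomial.X_pow_dvd_iff.1 h1 1 (by norm_num)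
  rw [Polynomial.coeff_C_mul, Polynomial.coeff_X_one, mul_one] at h2
  exact h2

theorem tH2z (h1 : StHom) : StH2z := by
  intro n K hK ψ hψ l hl
  obtain ⟨Ψ, -, hΨ⟩ := h1 n K 2 (Nb_two hK) l hl
  have h2 := hΨ ψ
  rw [hψ, map_zero] at h2
  exact H2z_lt _ h2.symm

end ToricSR
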