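import Pool.Agent.Lib.MP_3d51eb_gt.SR.Spec2

/-!
# MP_3d51eb_gt, project SR, module Mbg (helper40): a bijection from equal fibres
-/

set_option autoImplicit false

noncomputable section

namespace ToricSR

open Finset MvPolynomial ToricPB

open Classical in
private def Mbg_fib {X α : Type} (S : Finset X) (a : X → α) (c : α) :
    {x : {v : X // v ∈ S} // a x.1 = c} ≃ {v : X // v ∈ S.filter (fun v => a v = c)} :=
  (Equiv.subtypeSubtypeEquivSubtypeInter (fun v => v ∈ S) (fun v => a v = c)).trans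
    (Equiv.subtypeEquivRight fun v => by rw [Finset.mem_filter])

open Classical in
private theorem Mbg_gen {X α : Type} (S S' : Finset X) (a b : X → α)
    (h : ∀ c, (S.filter (fun v => a v = c)).card = (S'.filter (fun w => b w = c)).card) :
    ∃ u : X → X, Set.BijOn u S S' ∧ ∀ v ∈ S, a v = b (u v) := by
  have e : ∀ c, {x : {v : X // v ∈ S} // a x.1 = c} ≃ {x : {v : X // v ∈ S'} // b x.1 = c} := by
    intro c
    exact (Mbg_fib S a c).trans ((Finset.equivOfCardEq (h c)).trans (Mbg_fib S' b c).symm)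
  obtain ⟨E, hE⟩ : ∃ E : {v : X // v ∈ S} ≃ {v : X // v ∈ S'}, ∀ x, b (E x).1 = a x.1 :=
    ⟨Equiv.ofFiberEquiv (f := fun x : {v : X // v ∈ S} => a x.1)
      (g := fun x : {v : X // v ∈ S'} => b x.1) e, fun x => Equiv.ofFiberEquiv_map e x⟩
  obtain ⟨u, hu⟩ : ∃ u : X → X, ∀ (v : X) (hv : v ∈ S), u v = (E ⟨v, hv⟩).1 :=
    ⟨fun v => if hv : v ∈ S then (E ⟨v, hv⟩).1 else v, fun v hv => dif_pos hv⟩
  refine ⟨u, ⟨?_, ?_, ?_⟩, ?_⟩
  · intro v hv
    rw [hu v hv]
    exact (E ⟨v, hv⟩).2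
  · intro v hv w hw hvw
    rw [hu v hv, hu w hw] at hvw
    have h1 := E.injective (Subtype.ext hvw)
    exact congrArg Subtype.val h1
  · intro w hw
    refine ⟨(E.symm ⟨w, hw⟩).1, (E.symm ⟨w, hw⟩).2, ?_⟩
    rw [hu _ (E.symm ⟨w, hw⟩).2]
    simp
  · intro v hv
    rw [hu v hv]
    exact (hE ⟨v, hv⟩).symm

theorem tMbg : StMbg := by
  classical
  intro n α S S' a b h
  refine Mbg_gen S S' a b fun c => ?_
  have h1 := h c
  rw [Finset.card_filter, Finset.card_filter] at h1 ⊢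
  exact h1

end ToricSR
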