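import Pool.Agent.Lib.MP_3d51eb_gt.SR.Spec

set_option autoImplicit false

/-! # project SR: a non-cone contains a missing face -/

noncomputable section

namespace ToricSR

open Finset MvPolynomial ToricPB

theorem tMf : StMf := by
  intro n K s
  induction s using Finset.strongInduction with
  | H s ih =>
    intro hs hsK
    by_cases h : ∀ x ∈ s, s.erase x ∈ K
    · refine ⟨s, ?_, Finset.Subset.refl _⟩
      rw [mf, Finset.mem_filter, Finset.mem_powerset]
      exact ⟨hs, hsK, h⟩
    · push Not at h
      obtain ⟨x, hx, hxK⟩ := h
      obtain ⟨B, hB, hBs⟩ := ih (s.erase x) (Finset.erase_ssubset hx)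
        ((Finset.erase_subset _ _).trans hs) hxK
      exact ⟨B, hB, hBs.trans (Finset.erase_subset _ _)⟩

end ToricSR
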