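import Pool.Agent.Lib.MP_3d51eb_gt.SR.Spec2

/-!
# project SR: moments, part A

If the power sums of degree `2 * k` of two families of linear functionals agree, every functional of
the second family is a multiple of one of the first family. Otherwise the selection lemma gives `k`
vectors such that every functional of the first family kills one of them and `g w` kills none; the
polarised power sum on the doubled list is zero on the left and positive on the right.
-/

set_option autoImplicit false

noncomputable section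

namespace ToricSR

open Finset MvPolynomial ToricPB

private theorem MomA_sq {V : Type} [AddCommGroup V] [Module ℝ V] (H : List V)
    (f : V →ₗ[ℝ] ℝ) : ((H ++ H).map f).prod = (H.map f).prod * (H.map f).prod := by
  rw [List.map_append, List.prod_append]

private theorem MomA_zero {V : Type} [AddCommGroup V] [Module ℝ V] (H : List V)
    (f : V →ₗ[ℝ] ℝ) (h : ∃ x ∈ H, f x = 0) : (H.map f).prod = 0 := by
  obtain ⟨x, hx, h0⟩ := h
  exact List.prod_eq_zero (List.mem_map.2 ⟨x, hx, h0⟩)

private theorem MomA_ne {V : Type} [AddCommGroup V] [Module ℝ V] (H : List V)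
    (f : V →ₗ[ℝ] ℝ) (h : ∀ x ∈ H, f x ≠ 0) : (H.map f).prod ≠ 0 := by
  refine List.prod_ne_zero ?_
  intro h0
  obtain ⟨x, hx, hx0⟩ := List.mem_map.1 h0
  exact h x hx hx0

theorem tMomA (h1 : StPol) (h2 : StSel) : StMomA := by
  classical
  intro V _ _ _ n S S' f g D k hker hF hk hpow hg w hw
  by_contra hcon
  have hcon' : ∀ v ∈ S, ∀ c : ℝ, g w ≠ c • f v := by
    intro v hv c hc
    exact hcon ⟨v, hv, c, hc⟩
  obtain ⟨F, hFc, hFm⟩ := hF
  have hsub : S.image f ⊆ F := by
    intro a ha
    obtain ⟨v, hv, rfl⟩ := Finset.mem_image.1 ha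
    exact hFm v hv
  have hcard : (S.image f).card ≤ D := (Finset.card_le_card hsub).trans hFc
  have hker' : ∀ x : V, (∀ a ∈ S.image f, a x = 0) → x = 0 := by
    intro x hx
    exact hker x (fun v hv => hx (f v) (Finset.mem_image_of_mem f hv))
  have hne : ∀ a ∈ S.image f, ∀ c : ℝ, g w ≠ c • a := by
    intro a ha c
    obtain ⟨v, hv, rfl⟩ := Finset.mem_image.1 ha
    exact hcon' v hv c
  obtain ⟨H, hlen, hH0, hH1⟩ :=
    h2 V (S.image f) (S.image f) (g w) D hker' hcard (Finset.Subset.refl _) (hg w hw) hne
  have hlen2 : (H ++ H).length = 2 * k := by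
    rw [List.length_append, hlen, hk]; ring
  have hpol := h1 V n S S' f g (2 * k) hpow (H ++ H) hlen2
  have hL : ∑ v ∈ S, ((H ++ H).map (f v)).prod = 0 := by
    refine Finset.sum_eq_zero (fun v hv => ?_)
    rw [MomA_sq, MomA_zero H (f v) (hH0 (f v) (Finset.mem_image_of_mem f hv)), mul_zero]
  rw [hL] at hpol
  have hnn : ∀ w' ∈ S', 0 ≤ ((H ++ H).map (g w')).prod := by
    intro w' _
    rw [MomA_sq]
    exact mul_self_nonneg _
  have hle : ((H ++ H).map (g w)).prod ≤ ∑ w' ∈ S', ((H ++ H).map (g w')).prod :=
    Finset.single_le_sum (f := fun w' => ((H ++ H).map (g w')).prod) hnn hw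
  rw [← hpol, MomA_sq] at hle
  have hpos : 0 < (H.map (g w)).prod * (H.map (g w)).prod :=
    mul_self_pos.2 (MomA_ne H (g w) hH1)
  exact absurd hle (not_le.2 hpos)

end ToricSR
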