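import Pool.Agent.Lib.MP_3d51eb_gt.SR.Spec2

/-!
# project SR: moments, part B
-/

set_option autoImplicit false

noncomputable section

namespace ToricSR

open Finset MvPolynomial ToricPB

private lemma MomB_app {V : Type} (H : List V) (φ : V → ℝ) :
    ((H ++ H).map φ).prod = ((H.map φ).prod) ^ 2 := by
  rw [List.map_append, List.prod_append, sq]

private lemma MomB_neg {V : Type} [AddCommGroup V] [Module ℝ V] (φ : V →ₗ[ℝ] ℝ) (H : List V) :
    ((H.map (-φ)).prod) ^ 2 = ((H.map φ).prod) ^ 2 := by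
  induction H with
  | nil => simp
  | cons h t ih =>
    simp only [List.map_cons, List.prod_cons, mul_pow, LinearMap.neg_apply, neg_sq]
    rw [ih]

private lemma MomB_zero {V : Type} [AddCommGroup V] [Module ℝ V] (φ : V →ₗ[ℝ] ℝ) (H : List V)
    (h : ∃ x ∈ H, φ x = 0) : (H.map φ).prod = 0 := by
  obtain ⟨x, hx, h0⟩ := h
  exact List.prod_eq_zero (List.mem_map.2 ⟨x, hx, h0⟩)

private lemma MomB_ne {V : Type} [AddCommGroup V] [Module ℝ V] (φ : V →ₗ[ℝ] ℝ) (H : List V)
    (h : ∀ x ∈ H, φ x ≠ 0) : (H.map φ).prod ≠ 0 := by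
  refine List.prod_ne_zero ?_
  intro hm
  obtain ⟨x, hx, h0⟩ := List.mem_map.1 hm
  exact h x hx h0

private lemma MomB_sum {α : Type} (S : Finset α) (p : α → Prop) [DecidablePred p] (P : ℝ) :
    ∑ v ∈ S, (if p v then P else 0) = ((S.filter p).card : ℝ) * P := by
  rw [← Finset.sum_filter, Finset.sum_const, nsmul_eq_mul]

theorem tMomB (h1 : StPol) (h2 : StSel) : StMomB := by
  classical
  intro V _ _ _ n S S' f g D k hker hF hk hpow hf0 hpair hg v0 hv0
  obtain ⟨F, hFc, hFm⟩ := hF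
  have hsub : S.image f ⊆ F := by
    intro φ hφ
    obtain ⟨v, hv, rfl⟩ := Finset.mem_image.1 hφ
    exact hFm v hv
  have hker' : ∀ x : V, (∀ φ ∈ S.image f, φ x = 0) → x = 0 := fun x hx =>
    hker x fun v hv => hx (f v) (Finset.mem_image_of_mem f hv)
  obtain ⟨H, hHl, hH0, hHp⟩ := h2 V (S.image f) ((S.image f).filter (fun φ => φ ≠ f v0)) (f v0) D
    hker' ((Finset.card_le_card hsub).trans hFc) (Finset.filter_subset _ _) (hf0 v0 hv0) (by
      intro φ hφ c hc
      obtain ⟨hφ1, hφ2⟩ := Finset.mem_filter.1 hφ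
      obtain ⟨v, hv, rfl⟩ := Finset.mem_image.1 hφ1
      exact hφ2 (hpair v0 hv0 v hv c hc).symm)
  have hlen : (H ++ H).length = 2 * k := by
    rw [List.length_append, hHl, hk]
    omega
  have hpol := h1 V n S S' f g (2 * k) hpow (H ++ H) hlen
  have hP : (((H.map (f v0)).prod) ^ 2 : ℝ) ≠ 0 := pow_ne_zero 2 (MomB_ne (f v0) H hHp)
  have hL : ∀ v ∈ S, ((H ++ H).map (f v)).prod =
      if f v = f v0 then ((H.map (f v0)).prod) ^ 2 else 0 := by
    intro v hv
    rw [MomB_app]
    by_cases hc : f v = f v0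
    · rw [if_pos hc, hc]
    · rw [if_neg hc, MomB_zero (f v) H (hH0 (f v)
        (Finset.mem_filter.2 ⟨Finset.mem_image_of_mem f hv, hc⟩))]
      norm_num
  have hR : ∀ w ∈ S', ((H ++ H).map (g w)).prod =
      if (g w = f v0 ∨ g w = -f v0) then ((H.map (f v0)).prod) ^ 2 else 0 := by
    intro w hw
    rw [MomB_app]
    by_cases hc : g w = f v0 ∨ g w = -f v0
    · rw [if_pos hc]
      rcases hc with hc | hc
      · rw [hc]
      · rw [hc]
        exact MomB_neg (f v0) H
    · rw [if_neg hc]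
      obtain ⟨v, hv, hgv⟩ := hg w hw
      have hne : f v ≠ f v0 := by
        intro he
        rw [he] at hgv
        exact hc hgv
      obtain ⟨x, hx, hx0⟩ := hH0 (f v) (Finset.mem_filter.2 ⟨Finset.mem_image_of_mem f hv, hne⟩)
      have hgx : g w x = 0 := by
        rcases hgv with h | h
        · rw [h, hx0]
        · rw [h, LinearMap.neg_apply, hx0, neg_zero]
      rw [MomB_zero (g w) H ⟨x, hx, hgx⟩]
      norm_num
  rw [Finset.sum_congr rfl hL, Finset.sum_congr rfl hR, MomB_sum, MomB_sum] at hpol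
  have := mul_right_cancel₀ hP hpol
  exact_mod_cast this

end ToricSR
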