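import Pool.Agent.Lib.MP_3d51eb_gt.SR.Spec

/-!
# project SR: Newton identities for multisets
-/

set_option autoImplicit false

noncomputable section

namespace ToricSR

open Finset MvPolynomial ToricPB

private theorem Nw_exists (A : Multiset ℝ) :
    ∃ (n : ℕ) (f : Fin n → ℝ), (Finset.univ : Finset (Fin n)).val.map f = A := by
  induction A using Quotient.inductionOn with
  | h l =>
    refine ⟨l.length, l.get, ?_⟩
    rw [Fin.univ_val_map, List.ofFn_get]
    rfl

private theorem Nw_psum {n : ℕ} (f : Fin n → ℝ) (k : ℕ) :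
    aeval f (psum (Fin n) ℝ k) =
      (((Finset.univ : Finset (Fin n)).val.map f).map (fun x => x ^ k)).sum := by
  rw [psum, map_sum, Multiset.map_map]
  simp only [map_pow, aeval_X]
  rfl

private theorem Nw_newton (A : Multiset ℝ) (k : ℕ) (h : 0 < k) :
    (A.map (fun x => x ^ k)).sum = (-1) ^ (k + 1) * k * A.esymm k -
      ∑ a ∈ antidiagonal k with a.1 ∈ Set.Ioo 0 k,
        (-1) ^ a.1 * A.esymm a.1 * (A.map (fun x => x ^ a.2)).sum := by
  obtain ⟨n, f, rfl⟩ := Nw_exists A
  have h1 := congrArg (aeval f) (psum_eq_mul_esymm_sub_sum (Fin n) ℝ k h)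
  rw [map_sub, map_sum, Nw_psum] at h1
  rw [h1]
  simp only [map_mul, map_pow, map_neg, map_one, map_natCast, aeval_esymm_eq_multiset_esymm,
    Nw_psum]

theorem tNw : StNw := by
  intro A B M hAB j
  induction j using Nat.strong_induction_on with
  | _ j ih =>
    intro h1 h2
    rw [Nw_newton A j h1, Nw_newton B j h1, hAB j h2]
    congr 1
    apply Finset.sum_congr rfl
    intro a ha
    rw [Finset.mem_filter, HasAntidiagonal.mem_antidiagonal] at ha
    obtain ⟨h3, h4, h5⟩ := ha
    rw [hAB a.1 (by omega), ih a.2 (by omega) (by omega) (by omega)]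

end ToricSR
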