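import Pool.Agent.Lib.MP_3d51eb_gt.SR.Spec
import Pool.Agent.Lib.MP_3d51eb_gt.PB.All

set_option autoImplicit false

/-!
# MP_3d51eb_gt, project SR: the monomials of the cones are not zero
-/

noncomputable section

namespace ToricSR

open Finset MvPolynomial ToricPB

theorem tNz : StNz := by
  intro n K hK s hs h0
  obtain ⟨σ, hσ, hsσ, hcard, _⟩ := aNear n K hK Set.univ isOpen_univ s hs _ (Set.mem_univ _)
    (InRel.one s)
  have h1 : mon K σ = 0 := by
    have h2 : (∏ v ∈ σ \ s, cls K v) * ∏ v ∈ s, cls K v = ∏ v ∈ σ, cls K v :=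
      Finset.prod_sdiff hsσ
    unfold mon at h0 ⊢
    rw [← h2, h0, mul_zero]
  have h3 : (1 : ℤ) = 0 := aDeg n K hK σ hσ hcard 1 (by rw [h1, smul_zero])
  exact one_ne_zero h3

end ToricSR
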