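import Pool.Agent.Lib.MP_3d51eb_gt.SR.Spec
import Pool.Agent.Lib.MP_3d51eb_gt.PB.All

/-!
# project SR: functions on the rays which are orthogonal to all linear relations are linear

For a maximal cone `σ` let `u` interpolate `a` on `σ`; for another ray `w = ∑ c v • v` (sum over
`σ`) the relation `δ_w - ∑ c v • δ_v` gives `a w = ∑ c v * a v = pr u w`.
-/

set_option autoImplicit false

noncomputable section

namespace ToricSR

open Finset MvPolynomial ToricPB

/-- the relation which expresses `w` by the cone `σ` -/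
private def Perp_rel {n : ℕ} (σ : Finset (Vec n)) (w : Vec n) (c : Vec n → ℤ) (x : Vec n) : ℝ :=
  if x = w then 1 else if x ∈ σ then -(c x : ℝ) else 0

private lemma Perp_sum {n : ℕ} {K : Finset (Finset (Vec n))} {σ : Finset (Vec n)} {w : Vec n}
    (hσ : σ ∈ K) (hw : w ∈ verts K) (hwσ : w ∉ σ) (c : Vec n → ℤ) (f : Vec n → ℝ) :
    ∑ v ∈ verts K, f v * Perp_rel σ w c v = f w - ∑ v ∈ σ, f v * (c v : ℝ) := by
  have hsub : insert w σ ⊆ verts K := by
    intro x hx
    rcases Finset.mem_insert.1 hx with h | h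
    · rw [h]; exact hw
    · exact mem_verts_of_mem hσ h
  rw [← Finset.sum_subset hsub (fun x _ hx => ?_), Finset.sum_insert hwσ]
  · have h1 : Perp_rel σ w c w = 1 := by simp [Perp_rel]
    have h2 : ∑ v ∈ σ, f v * Perp_rel σ w c v = ∑ v ∈ σ, -(f v * (c v : ℝ)) := by
      refine Finset.sum_congr rfl fun v hv => ?_
      have hvw : v ≠ w := fun h => hwσ (h ▸ hv)
      simp [Perp_rel, hvw, hv]
    rw [h1, h2, Finset.sum_neg_distrib]
    ring
  · rw [Finset.mem_insert, not_or] at hx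
    simp [Perp_rel, hx.1, hx.2]

theorem tPerp : StPerp := by
  intro n K hK a ha
  obtain ⟨σ, hσ, -, hcard, -⟩ := aNear n K hK Set.univ isOpen_univ ∅ hK.empty_mem 0
    (Set.mem_univ _) ⟨fun _ => 1, by simp, by simp [lin]⟩
  obtain ⟨u, hu⟩ := (aInt n σ (hK.smooth σ hσ)).1 a
  refine ⟨u, fun w hw => ?_⟩
  by_cases hwσ : w ∈ σ
  · exact (hu w hwσ).symm
  obtain ⟨c, hc⟩ := ((aDual n σ (hK.smooth σ hσ)).2.2.2 hcard).1 w
  have hl : Perp_rel σ w c ∈ VK K := by
    refine VK_mk (fun v hv => ?_) (fun i => ?_)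
    · have h1 : v ≠ w := fun h => hv (h ▸ hw)
      have h2 : v ∉ σ := fun h => hv (mem_verts_of_mem hσ h)
      simp [Perp_rel, h1, h2]
    · rw [Perp_sum hσ hw hwσ c (fun v => (v i : ℝ))]
      have h1 : w i = ∑ v ∈ σ, c v * v i := by
        conv_lhs => rw [hc]
        simp [Finset.sum_apply]
      rw [h1]
      push_cast
      rw [sub_eq_zero]
      exact Finset.sum_congr rfl fun v _ => by ring
  have h1 := ha _ hl
  rw [ev, Perp_sum hσ hw hwσ c (fun v => (a v : ℝ)), sub_eq_zero] at h1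
  have h2 : a w = ∑ v ∈ σ, a v * c v := by exact_mod_cast h1
  rw [h2]
  conv_rhs => rw [hc]
  rw [pr_sum]
  refine Finset.sum_congr rfl fun v hv => ?_
  rw [pr_smul, hu v hv, mul_comm]

end ToricSR
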