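import Pool.Agent.Lib.MP_3d51eb_gt.SR.Spec2

/-!
# project SR, module Pol: polarization of sums of powers of functionals
-/

set_option autoImplicit false

noncomputable section

namespace ToricSR

open Finset MvPolynomial ToricPB

/-- the derivative at zero of a sum of powers of affine functions -/
private lemma Pol_deriv {ι : Type} (S : Finset ι) (α a b : ι → ℝ) (N : ℕ) :
    HasDerivAt (fun t : ℝ => ∑ v ∈ S, α v * (a v + t * b v) ^ (N + 1))
      (∑ v ∈ S, α v * (((N + 1 : ℕ) : ℝ) * a v ^ N * b v)) 0 := by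
  apply HasDerivAt.fun_sum
  intro v _
  have h1 : HasDerivAt (fun t : ℝ => a v + t * b v) (b v) 0 := by
    have := ((hasDerivAt_id (0 : ℝ)).mul_const (b v)).const_add (a v)
    simpa using this
  have h2 := (h1.pow (N + 1)).const_mul (α v)
  simpa using h2

/-- one derivative -/
private lemma Pol_step {V : Type} [AddCommGroup V] [Module ℝ V] {n : ℕ} (S S' : Finset (Vec n))
    (f g : Vec n → V →ₗ[ℝ] ℝ) (α β : Vec n → ℝ) (N : ℕ)
    (H : ∀ x, ∑ v ∈ S, α v * f v x ^ (N + 1) = ∑ w ∈ S', β w * g w x ^ (N + 1)) (h x : V) :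
    ∑ v ∈ S, α v * f v h * f v x ^ N = ∑ w ∈ S', β w * g w h * g w x ^ N := by
  have h1 := Pol_deriv S α (fun v => f v x) (fun v => f v h) N
  have h2 := Pol_deriv S' β (fun w => g w x) (fun w => g w h) N
  have h3 : (fun t : ℝ => ∑ v ∈ S, α v * (f v x + t * f v h) ^ (N + 1)) =
      fun t : ℝ => ∑ w ∈ S', β w * (g w x + t * g w h) ^ (N + 1) := by
    funext t
    have := H (x + t • h)
    simpa only [map_add, map_smul, smul_eq_mul] using this
  rw [h3] at h1
  have h4 := h1.unique h2
  have h5 : ((N + 1 : ℕ) : ℝ) ≠ 0 := by positivity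
  apply mul_left_cancel₀ h5
  rw [Finset.mul_sum, Finset.mul_sum]
  calc ∑ v ∈ S, ((N + 1 : ℕ) : ℝ) * (α v * f v h * f v x ^ N)
      = ∑ v ∈ S, α v * (((N + 1 : ℕ) : ℝ) * f v x ^ N * f v h) :=
        Finset.sum_congr rfl (fun v _ => by ring)
    _ = ∑ w ∈ S', β w * (((N + 1 : ℕ) : ℝ) * g w x ^ N * g w h) := h4
    _ = ∑ w ∈ S', ((N + 1 : ℕ) : ℝ) * (β w * g w h * g w x ^ N) :=
        Finset.sum_congr rfl (fun v _ => by ring)

/-- the induction -/
private lemma Pol_gen {V : Type} [AddCommGroup V] [Module ℝ V] {n : ℕ} (S S' : Finset (Vec n))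
    (f g : Vec n → V →ₗ[ℝ] ℝ) (H : List V) : ∀ (α β : Vec n → ℝ) (e : ℕ),
    (∀ x, ∑ v ∈ S, α v * f v x ^ (H.length + e) = ∑ w ∈ S', β w * g w x ^ (H.length + e)) →
    ∀ x, ∑ v ∈ S, α v * (H.map (f v)).prod * f v x ^ e =
      ∑ w ∈ S', β w * (H.map (g w)).prod * g w x ^ e := by
  induction H with
  | nil =>
    intro α β e h x
    simpa using h x
  | cons h0 H ih =>
    intro α β e h x
    have h1 : ∀ y, ∑ v ∈ S, (α v * f v h0) * f v y ^ (H.length + e) =
        ∑ w ∈ S', (β w * g w h0) * g w y ^ (H.length + e) := by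
      intro y
      refine Pol_step S S' f g α β (H.length + e) (fun z => ?_) h0 y
      have h3 := h z
      rw [List.length_cons, show H.length + 1 + e = H.length + e + 1 by ring] at h3
      exact h3
    have h2 := ih (fun v => α v * f v h0) (fun w => β w * g w h0) e h1 x
    simp only [List.map_cons, List.prod_cons]
    calc ∑ v ∈ S, α v * (f v h0 * (H.map (f v)).prod) * f v x ^ e
        = ∑ v ∈ S, α v * f v h0 * (H.map (f v)).prod * f v x ^ e :=
          Finset.sum_congr rfl (fun v _ => by ring)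
      _ = ∑ w ∈ S', β w * g w h0 * (H.map (g w)).prod * g w x ^ e := h2
      _ = ∑ w ∈ S', β w * (g w h0 * (H.map (g w)).prod) * g w x ^ e :=
          Finset.sum_congr rfl (fun v _ => by ring)

/-- Polarization. -/
theorem tPol : StPol := by
  intro V _ _ n S S' f g M hM H hH
  have h1 := Pol_gen S S' f g H (fun _ => 1) (fun _ => 1) 0 (fun x => by
    rw [hH, add_zero]
    simpa using hM x) 0
  simpa using h1

end ToricSR
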