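import Pool.Agent.Lib.MP_3d51eb_gt.SR.Spec

/-!
# project SR, module Pr: transfer of the Pontrjagin classes
-/

set_option autoImplicit false

noncomputable section

namespace ToricSR

open Finset MvPolynomial ToricPB

private lemma Pr_one (N : ℕ) (a : ℝ) : 1 + lt N a ^ 2 =
    (Ideal.Quotient.mk (Ideal.span {(Polynomial.X : Polynomial ℝ) ^ N})
      (1 + Polynomial.C (a ^ 2) * Polynomial.X ^ 2) : Tr N) := by
  rw [lt_eq, ← map_pow, ← map_one (Ideal.Quotient.mk (Ideal.span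
    {(Polynomial.X : Polynomial ℝ) ^ N})), ← map_add]
  congr 1
  rw [mul_pow, Polynomial.C_pow]

theorem tPr (h1 : StHom) (h2 : StEs) : StPr := by
  intro n K K' hK hK' φ hφ hp N hN l hl l' hl' hll j hj
  obtain ⟨Ψ, hΨ1, hΨ2⟩ := h1 n K' N hN l' hl'
  have e1 : Ψ (pont K') = Ideal.Quotient.mk (Ideal.span {(Polynomial.X : Polynomial ℝ) ^ N})
      (∏ w ∈ verts K', (1 + Polynomial.C (l' w ^ 2) * Polynomial.X ^ 2)) := by
    rw [pont, map_prod, map_prod]
    refine Finset.prod_congr rfl fun w _ => ?_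
    rw [map_add, map_one, map_pow, hΨ1, Pr_one]
  have e2 : Ψ (φ (pont K)) = Ideal.Quotient.mk (Ideal.span {(Polynomial.X : Polynomial ℝ) ^ N})
      (∏ v ∈ verts K, (1 + Polynomial.C (l v ^ 2) * Polynomial.X ^ 2)) := by
    rw [pont, map_prod, map_prod, map_prod]
    refine Finset.prod_congr rfl fun v _ => ?_
    have h3 : φ (cls K v) ∈ H2 K' := (hφ _).1 (Submodule.subset_span ⟨v, rfl⟩)
    obtain ⟨ψ, hψ⟩ := exists_cl h3
    rw [map_add, map_add, map_one, map_one, map_pow, map_pow, hψ, hΨ2, ← hll v ψ hψ, Pr_one]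
  rw [hp, e1] at e2
  have h4 := Ideal.Quotient.eq.1 e2
  rw [Ideal.mem_span_singleton, Polynomial.X_pow_dvd_iff] at h4
  have h5 := h4 (2 * j) hj
  rw [Polynomial.coeff_sub, h2, h2, sub_eq_zero] at h5
  exact h5.symm

end ToricSR
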