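import Pool.Agent.Lib.MP_3d51eb_gt.SR.Spec2

/-!
# project SR: power sums

The `2 k`-th power sums of the values of a relation on the rays of the first fan and on the classes
of the rays of the second fan agree.
-/

set_option autoImplicit false

noncomputable section

namespace ToricSR

open Finset MvPolynomial ToricPB

theorem tPw (h1 : StTr) (h2 : StPr) (h3 : StNw) : StPw := by
  intro n K K' hK hK' φ hφ hp k hk hNb χ hχ l hl
  have hg : Grd K' K φ.symm := by
    intro y
    have h := hφ (φ.symm y)
    rw [RingEquiv.apply_symm_apply] at h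
    exact h.symm
  have hps : φ.symm (pont K') = pont K := by
    rw [← hp, RingEquiv.symm_apply_apply]
  have hχs : ∀ w, φ.symm (cls K' w) = cl K (χ w) := by
    intro w
    rw [← hχ w, RingEquiv.symm_apply_apply]
  obtain ⟨l', hl', ha, _⟩ := h1 n K' K hK' hK φ.symm hg l hl
  have hl'w : ∀ w, l' w = ev K (χ w) l := fun w => ha w (χ w) (hχs w)
  have hes := h2 n K' K hK' hK φ.symm hg hps (2 * k + 1) hNb l' hl' l hl ha
  have hsum := h3 ((verts K').val.map (fun w => l' w ^ 2)) ((verts K).val.map (fun v => l v ^ 2)) k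
    (fun j hj => hes j (by omega)) k hk le_rfl
  rw [Multiset.map_map, Multiset.map_map] at hsum
  have e1 : (Multiset.map ((fun x : ℝ => x ^ k) ∘ fun w => l' w ^ 2) (verts K').val).sum =
      ∑ w ∈ verts K', (ev K (χ w) l) ^ (2 * k) := by
    refine Finset.sum_congr rfl fun w _ => ?_
    show (l' w ^ 2) ^ k = (ev K (χ w) l) ^ (2 * k)
    rw [← pow_mul, hl'w w]
  have e2 : (Multiset.map ((fun x : ℝ => x ^ k) ∘ fun v => l v ^ 2) (verts K).val).sum =
      ∑ v ∈ verts K, l v ^ (2 * k) := by
    refine Finset.sum_congr rfl fun v _ => ?_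
    show (l v ^ 2) ^ k = l v ^ (2 * k)
    rw [← pow_mul]
  rw [e1, e2] at hsum
  exact hsum.symm

end ToricSR
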