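import Pool.Agent.Lib.MP_3d51eb_gt.SR.Spec2
import Pool.Agent.Lib.MP_3d51eb_gt.PB.Dual
import Pool.Agent.Lib.MP_3d51eb_gt.PB.Uq
import Pool.Agent.Lib.MP_3d51eb_gt.PB.Loc
import Pool.Agent.Lib.MP_3d51eb_gt.PB.Gen
import Pool.Agent.Lib.MP_3d51eb_gt.PB.Near

/-!
# project SR: integral nonnegative relations between the rays of a complete fan
-/

set_option autoImplicit false

noncomputable section

namespace ToricSR

open Finset MvPolynomial ToricPB

private lemma Rel_cone {n : ℕ} (K : Finset (Finset (Vec n))) (hK : IsFan K) (v : Vec n) :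
    ∃ σ ∈ K, ∃ b : Vec n → ℤ, (∀ w ∈ σ, 0 ≤ b w) ∧ -v = ∑ w ∈ σ, b w • w := by
  classical
  obtain ⟨κ, ⟨hκ, hin⟩, _⟩ := hK.cover (toR (-v))
  obtain ⟨σ, hσ, hsub, hc, _⟩ := tNear tDual (tUq tDual) (tLoc tDual (tUq tDual)) tGen n K hK
    Set.univ isOpen_univ κ hκ (toR (-v)) (Set.mem_univ _) hin
  have hd := tDual n σ (hK.smooth σ hσ)
  obtain ⟨b, hb⟩ := (hd.2.2.2 hc).1 (-v)
  obtain ⟨c, hcpos, hcv⟩ := hin
  refine ⟨σ, hσ, b, ?_, hb⟩
  have h1 : lin σ (fun w => if w ∈ κ then c w else 0) = toR (-v) := by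
    rw [lin_subset hsub _ (fun w _ hw => if_neg hw), hcv]
    exact lin_congr (fun w hw => if_pos hw)
  have h2 : lin σ (fun w => (b w : ℝ) - (if w ∈ κ then c w else 0)) = 0 := by
    rw [lin_sub, h1, lin_int, ← hb, sub_self]
  intro w hw
  have h3 := hd.2.2.1 _ h2 w hw
  have h4 : (0 : ℝ) ≤ (b w : ℝ) := by
    by_cases hk : w ∈ κ
    · rw [if_pos hk] at h3
      have := hcpos w hk
      linarith
    · rw [if_neg hk] at h3
      linarith
  exact_mod_cast h4

theorem tRel : StRel := by
  intro n K hK v hv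
  classical
  obtain ⟨σ, hσ, b, hb0, hb⟩ := Rel_cone K hK v
  have hsub : σ ⊆ verts K := fun w hw => mem_verts_of_mem hσ hw
  have hvσ : v ∉ σ := by
    intro hvs
    have hd := tDual n σ (hK.smooth σ hσ)
    have h1 : lin σ (fun w => (b w : ℝ) + (if w = v then (1 : ℝ) else 0)) = 0 := by
      rw [lin_add, lin_int, ← hb, lin_single hvs, toR_neg]
      exact neg_add_cancel _
    have h2 := hd.2.2.1 _ h1 v hvs
    rw [if_pos rfl] at h2
    have h3 : (0 : ℝ) ≤ (b v : ℝ) := by exact_mod_cast hb0 v hvs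
    linarith
  refine ⟨fun w => (if w = v then 1 else 0) + (if w ∈ σ then b w else 0), ?_, ?_, ?_⟩
  · refine VK_mk (fun w hw => ?_) (fun i => ?_)
    · have h1 : w ≠ v := fun h => hw (h ▸ hv)
      have h2 : w ∉ σ := fun h => hw (hsub h)
      simp [h1, h2]
    · have hz : ∑ w ∈ verts K, w i * ((if w = v then 1 else 0) + (if w ∈ σ then b w else 0)) =
          (0 : ℤ) := by
        simp only [mul_add, Finset.sum_add_distrib]
        have e1 : ∑ w ∈ verts K, w i * (if w = v then 1 else 0) = v i := by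
          simp [Finset.sum_ite_eq', hv]
        have e2 : ∑ w ∈ verts K, w i * (if w ∈ σ then b w else 0) = ∑ w ∈ σ, w i * b w := by
          rw [← Finset.sum_subset hsub (fun w _ hw => by rw [if_neg hw, mul_zero])]
          exact Finset.sum_congr rfl (fun w hw => by rw [if_pos hw])
        have e3 : ∑ w ∈ σ, w i * b w = -v i := by
          have h := congrFun hb i
          rw [Finset.sum_apply] at h
          have h' : (-v) i = -v i := rfl
          rw [h'] at h
          rw [h]
          refine Finset.sum_congr rfl (fun w _ => ?_)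
          rw [Pi.smul_apply, smul_eq_mul, mul_comm]
        rw [e1, e2, e3]
        exact add_neg_cancel _
      have hz' := congrArg (fun z : ℤ => (z : ℝ)) hz
      simp only [Int.cast_sum, Int.cast_mul, Int.cast_zero] at hz'
      exact hz'
  · intro w
    have h1 : (0 : ℤ) ≤ (if w = v then 1 else 0) := by split_ifs <;> norm_num
    have h2 : (0 : ℤ) ≤ (if w ∈ σ then b w else 0) := by
      split_ifs with h
      · exact hb0 w h
      · exact le_refl 0
    exact add_nonneg h1 h2
  · show (if v = v then (1 : ℤ) else 0) + (if v ∈ σ then b v else 0) = 1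
    rw [if_pos rfl, if_neg hvσ, add_zero]

end ToricSR
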