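import Pool.Agent.Lib.MP_3d51eb_gt.SR.Spec2

/-!
# project SR: rank of the space of relations

The value `l v` of a relation `l` at a ray `v` depends only on the class `cls K v`, so the dimension
of `VK K` is at most the number `nc K` of different classes.
-/

set_option autoImplicit false

noncomputable section

namespace ToricSR

open Finset MvPolynomial ToricPB

private lemma Rk_eq (h2 : StH2z) {n : ℕ} {K : Finset (Finset (Vec n))} (hK : IsFan K)
    {v v' : Vec n} (hv : v ∈ verts K) (hv' : v' ∈ verts K) (h : cls K v = cls K v')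
    {l : Vec n → ℝ} (hl : l ∈ VK K) : l v = l v' := by
  have h0 : cl K (fun w => (if w = v then (1 : ℤ) else 0) - (if w = v' then (1 : ℤ) else 0)) = 0 := by
    rw [cl_sub (fun w => if w = v then (1 : ℤ) else 0) (fun w => if w = v' then (1 : ℤ) else 0),
      cl_single hv, cl_single hv', h, sub_self]
  have h1 := h2 n K hK _ h0 l hl
  rw [ev_sub K (fun w => if w = v then (1 : ℤ) else 0) (fun w => if w = v' then (1 : ℤ) else 0),
    ev_single hv, ev_single hv'] at h1
  exact sub_eq_zero.1 h1

open Classical in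
private lemma Rk_fin (h2 : StH2z) {n : ℕ} {K : Finset (Finset (Vec n))} (hK : IsFan K) :
    Module.finrank ℝ (VK K) ≤ nc K := by
  have hrep : ∀ c : {c // c ∈ (verts K).image (cls K)}, ∃ v ∈ verts K, cls K v = c.1 :=
    fun c => Finset.mem_image.1 c.2
  choose rep hrep1 hrep2 using hrep
  let F : (VK K) →ₗ[ℝ] ({c // c ∈ (verts K).image (cls K)} → ℝ) :=
    { toFun := fun l c => l.1 (rep c)
      map_add' := fun _ _ => rfl
      map_smul' := fun _ _ => rfl }
  have hF : Function.Injective F := by
    intro l l' h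
    refine Subtype.ext (funext (fun v => ?_))
    by_cases hv : v ∈ verts K
    · have hc : cls K v ∈ (verts K).image (cls K) := Finset.mem_image_of_mem _ hv
      have e : l.1 (rep ⟨cls K v, hc⟩) = l'.1 (rep ⟨cls K v, hc⟩) := congrFun h ⟨cls K v, hc⟩
      have e1 := Rk_eq h2 hK hv (hrep1 ⟨cls K v, hc⟩) (hrep2 ⟨cls K v, hc⟩).symm l.2
      have e2 := Rk_eq h2 hK hv (hrep1 ⟨cls K v, hc⟩) (hrep2 ⟨cls K v, hc⟩).symm l'.2
      rw [e1, e2, e]
    · rw [VK_out l.2 hv, VK_out l'.2 hv]
  have h3 := LinearMap.finrank_le_finrank_of_injective hF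
  rw [Module.finrank_fintype_fun_eq_card, Fintype.card_coe] at h3
  exact h3

/-- rank of the space of relations -/
theorem tRk (h1 : StDim) (h2 : StH2z) : StRk := by
  intro n K hK
  have h3 := h1 n K hK
  have h4 := Rk_fin h2 hK
  omega

end ToricSR
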