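import Pool.Agent.Lib.MP_3d51eb_gt.SR.Spec2

/-!
# MP_3d51eb_gt, project SR, module Sel (helper89): selection of vectors
-/

set_option autoImplicit false

noncomputable section

namespace ToricSR

open Finset MvPolynomial ToricPB

/-- a functional which is not a multiple of `f` does not vanish on the kernel of `f` -/
private theorem Sel_one {V : Type} [AddCommGroup V] [Module ℝ V] (f p : V →ₗ[ℝ] ℝ)
    (h : ∀ c : ℝ, p ≠ c • f) : ∃ x : V, f x = 0 ∧ p x ≠ 0 := by
  by_contra hcon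
  push Not at hcon
  have h1 : p ∈ Submodule.span ℝ (Set.range (fun _ : Unit => f)) := by
    refine mem_span_of_iInf_ker_le_ker (𝕜 := ℝ) ?_
    intro x hx
    rw [Submodule.mem_iInf] at hx
    have h2 : f x = 0 := by
      have := hx ()
      rwa [LinearMap.mem_ker] at this
    rw [LinearMap.mem_ker]
    exact hcon x h2
  rw [Set.range_const, Submodule.mem_span_singleton] at h1
  obtain ⟨c, hc⟩ := h1
  exact h c hc.symm

theorem tSel : StSel := by
  classical
  intro V _ _ _ F G p D hF hFD hGF hp hpG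
  obtain ⟨B, hBF, hBs, hBi⟩ := exists_linearIndependent ℝ (F : Set (V →ₗ[ℝ] ℝ))
  have hBfin : B.Finite := F.finite_toSet.subset hBF
  obtain ⟨B', hB'⟩ : ∃ B' : Finset (V →ₗ[ℝ] ℝ), (B' : Set (V →ₗ[ℝ] ℝ)) = B :=
    ⟨hBfin.toFinset, by simp⟩
  subst hB'
  have hBF' : B' ⊆ F := by exact_mod_cast hBF
  -- the coordinates
  obtain ⟨L, hL⟩ : ∃ L : V →ₗ[ℝ] ({x // x ∈ B'} → ℝ), ∀ x b, L x b = (b : V →ₗ[ℝ] ℝ) x :=
    ⟨LinearMap.pi (fun b => (b : V →ₗ[ℝ] ℝ)), fun x b => rfl⟩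
  have hinj : Function.Injective L := by
    rw [← LinearMap.ker_eq_bot, LinearMap.ker_eq_bot']
    intro x hx
    refine hF x fun f hf => ?_
    have h1 : f ∈ Submodule.span ℝ ((B' : Finset (V →ₗ[ℝ] ℝ)) : Set (V →ₗ[ℝ] ℝ)) := by
      rw [hBs]
      exact Submodule.subset_span hf
    have h2 : Submodule.span ℝ ((B' : Finset (V →ₗ[ℝ] ℝ)) : Set (V →ₗ[ℝ] ℝ)) ≤
        LinearMap.ker (Module.Dual.eval ℝ V x) := by
      rw [Submodule.span_le]
      intro b hb
      rw [SetLike.mem_coe, LinearMap.mem_ker, Module.Dual.eval_apply]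
      have h3 := hL x ⟨b, hb⟩
      rw [hx] at h3
      exact h3.symm
    have h3 := h2 h1
    rwa [LinearMap.mem_ker, Module.Dual.eval_apply] at h3
  have hle1 : Module.finrank ℝ V ≤ B'.card := by
    have h1 := LinearMap.finrank_le_finrank_of_injective hinj
    rw [Module.finrank_fintype_fun_eq_card, Fintype.card_coe] at h1
    exact h1
  have hle2 : B'.card ≤ Module.finrank ℝ V := by
    have h1 := hBi.fintype_card_le_finrank
    rw [show Module.finrank ℝ (V →ₗ[ℝ] ℝ) = Module.finrank ℝ V from Subspace.dual_finrank_eq] at h1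
    have h2 : Fintype.card ((B' : Finset (V →ₗ[ℝ] ℝ)) : Set (V →ₗ[ℝ] ℝ)) = B'.card := by
      rw [← Nat.card_eq_fintype_card, Nat.card_coe_set_eq, Set.ncard_coe_finset]
    rw [← h2]
    exact h1
  have hr : B'.card = Module.finrank ℝ V := le_antisymm hle2 hle1
  obtain ⟨e, he⟩ : ∃ e : V ≃ₗ[ℝ] ({x // x ∈ B'} → ℝ), ∀ x, e x = L x :=
    ⟨LinearMap.linearEquivOfInjective L hinj (by
      rw [Module.finrank_fintype_fun_eq_card, Fintype.card_coe, hr]), fun x => rfl⟩
  -- a coordinate vector on which p does not vanish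
  obtain ⟨b0, hb0⟩ : ∃ b0 : {x // x ∈ B'}, p (e.symm (Pi.single b0 1)) ≠ 0 := by
    by_contra hcon
    push Not at hcon
    apply hp
    have hq : p ∘ₗ e.symm.toLinearMap = 0 := by
      refine LinearMap.pi_ext' fun b => LinearMap.ext_ring ?_
      simpa using hcon b
    ext x
    have h1 : p x = (p ∘ₗ e.symm.toLinearMap) (e x) := by simp
    rw [h1, hq]
    simp
  obtain ⟨h0, hh0⟩ : ∃ h0, h0 = e.symm (Pi.single b0 (1 : ℝ)) := ⟨_, rfl⟩
  have hph0 : p h0 ≠ 0 := by rw [hh0]; exact hb0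
  have hz : ∀ b ∈ B'.erase (b0 : V →ₗ[ℝ] ℝ), b h0 = 0 := by
    intro b hb
    obtain ⟨hne, hbB⟩ := mem_erase.1 hb
    have h1 : b h0 = L h0 ⟨b, hbB⟩ := (hL h0 ⟨b, hbB⟩).symm
    rw [h1, ← he, hh0, LinearEquiv.apply_symm_apply]
    exact Pi.single_eq_of_ne (fun h2 => hne (congrArg Subtype.val h2)) _
  -- the other vectors
  have hex : ∀ f : V →ₗ[ℝ] ℝ, ∃ h : V, f ∈ G → f h = 0 ∧ p h ≠ 0 := by
    intro f
    by_cases hf : f ∈ G
    · obtain ⟨x, hx⟩ := Sel_one f p (hpG f hf)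
      exact ⟨x, fun _ => hx⟩
    · exact ⟨0, fun h => absurd h hf⟩
  choose hh hhh using hex
  obtain ⟨E, hE⟩ : ∃ E : Finset (V →ₗ[ℝ] ℝ), E = G \ B'.erase (b0 : V →ₗ[ℝ] ℝ) := ⟨_, rfl⟩
  have hB1 : (B'.erase (b0 : V →ₗ[ℝ] ℝ)).card = B'.card - 1 := card_erase_of_mem b0.2
  have hBpos : 1 ≤ B'.card := card_pos.2 ⟨_, b0.2⟩
  have hBle : B'.card ≤ F.card := card_le_card hBF'
  have hEc : E.card ≤ F.card - (B'.card - 1) := by
    rw [hE, ← hB1, ← card_sdiff_of_subset ((erase_subset _ _).trans hBF')]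
    exact card_le_card (sdiff_subset_sdiff hGF le_rfl)
  refine ⟨E.toList.map hh ++ List.replicate (D + 2 - Module.finrank ℝ V - E.card) h0, ?_, ?_, ?_⟩
  · rw [List.length_append, List.length_map, Finset.length_toList, List.length_replicate]
    omega
  · intro f hf
    by_cases hfE : f ∈ E
    · exact ⟨hh f, List.mem_append_left _ (List.mem_map_of_mem (Finset.mem_toList.2 hfE)), (hhh f hf).1⟩
    · have h1 : f ∈ B'.erase (b0 : V →ₗ[ℝ] ℝ) := by
        by_contra h2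
        exact hfE (by rw [hE]; exact mem_sdiff.2 ⟨hf, h2⟩)
      refine ⟨h0, List.mem_append_right _ (List.mem_replicate.2 ⟨?_, rfl⟩), hz f h1⟩
      omega
  · intro h hhm
    rcases List.mem_append.1 hhm with h1 | h1
    · obtain ⟨f, hf, rfl⟩ := List.mem_map.1 h1
      have h2 := Finset.mem_toList.1 hf
      rw [hE, mem_sdiff] at h2
      exact (hhh f h2.1).2
    · rw [(List.mem_replicate.1 h1).2]
      exact hph0

end ToricSR
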