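import Pool.Agent.Lib.MP_3d51eb_gt.SR.Spec2

/-!
# project SR: Sgn, the signs
-/

set_option autoImplicit false

noncomputable section

namespace ToricSR

open Finset MvPolynomial ToricPB

/-- the value of a class on an integral relation is an integer -/
private lemma Sgn_int {n : ℕ} (K : Finset (Finset (Vec n))) (ψ a : Vec n → ℤ) :
    ev K ψ (fun w => (a w : ℝ)) = ((∑ v ∈ verts K, ψ v * a v : ℤ) : ℝ) := by
  rw [ev]
  push_cast
  rfl

theorem tSgn (h1 : StRel) (h2 : StTr) : StSgn := by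
  intro n K K' hK hK'
  refine ⟨?_, ?_⟩
  · intro v hv v' hv' c hc
    obtain ⟨a, ha, _, hav⟩ := h1 n K hK v hv
    obtain ⟨b, hb, hb0, hbv⟩ := h1 n K hK v' hv'
    have e1 : ((a v : ℤ) : ℝ) = c * ((a v' : ℤ) : ℝ) := hc _ ha
    have e2 : ((b v : ℤ) : ℝ) = c * ((b v' : ℤ) : ℝ) := hc _ hb
    rw [hbv, Int.cast_one, mul_one] at e2
    rw [hav, Int.cast_one, ← e2] at e1
    have e3 : b v * a v' = 1 := by exact_mod_cast e1.symm
    have e4 : b v = 1 := by
      rcases Int.eq_one_or_neg_one_of_mul_eq_one e3 with h | h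
      · exact h
      · have := hb0 v
        omega
    rw [← e2, e4, Int.cast_one]
  · intro φ hφ w hw χ hχ
    obtain ⟨a', ha', _, haw⟩ := h1 n K' hK' w hw
    obtain ⟨l, hl, hl1, hl2⟩ := h2 n K K' hK hK' φ hφ _ ha'
    have e1 : ev K χ l = 1 := by
      rw [hl2 χ (fun x => if x = w then 1 else 0) (by rw [cl_single hw]; exact hχ), ev_single hw]
      show ((a' w : ℤ) : ℝ) = 1
      rw [haw, Int.cast_one]
    refine ⟨?_, l, hl, by rw [e1]; exact one_ne_zero⟩
    intro v hv c hc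
    obtain ⟨a, ha, _, hav⟩ := h1 n K hK v hv
    obtain ⟨ψ, hψ⟩ := exists_cl ((hφ (cls K v)).1 (cls_mem v))
    have e2 : l v = ev K' ψ (fun x => (a' x : ℝ)) := hl1 v ψ hψ
    rw [Sgn_int] at e2
    have e3 : ev K χ (fun x => (a x : ℝ)) = c * ((a v : ℤ) : ℝ) := hc _ ha
    rw [Sgn_int, hav, Int.cast_one, mul_one] at e3
    have e4 : ev K χ l = c * l v := hc l hl
    rw [e1, e2, ← e3] at e4
    have e5 : (∑ x ∈ verts K, χ x * a x) * (∑ x ∈ verts K', ψ x * a' x) = 1 := by
      exact_mod_cast e4.symm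
    rcases Int.eq_one_or_neg_one_of_mul_eq_one e5 with h | h
    · left
      rw [← e3, h, Int.cast_one]
    · right
      rw [← e3, h, Int.cast_neg, Int.cast_one]

end ToricSR
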