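import Pool.Agent.Lib.MP_3d51eb_gt.SR.Spec2

set_option autoImplicit false

/-! # project SR: assembly of part 1, sharper range -/

noncomputable section

namespace ToricSR

open Finset MvPolynomial ToricPB

theorem tThmA2 (h1 : StBij2) (h2 : StRay) (h3 : StCon) : ThmA2 := by
  intro n K K' hK hK' hS φ hφ hp
  obtain ⟨u, ε, hu, hε, hcls⟩ := h1 n K K' hK hK' hS φ hφ hp
  obtain ⟨g, hg⟩ := h2 n K K' hK hK' φ u ε hu hε hcls
  have hcon := h3 n K K' hK hK' φ u ε hu hε hcls
  have himg : ∀ s : Finset (Vec n), s ⊆ verts K →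
      s.image u = s.image (fun v => ε v • g v) := by
    intro s hs
    refine Finset.image_congr (fun v hv => ?_)
    exact hg v (hs hv)
  refine ⟨g, ε, hε, ?_, fun v hv => by rw [← hg v hv]; exact hcls v hv⟩
  ext s'
  rw [Finset.mem_image]
  constructor
  · intro hs'
    have hsub : (verts K).filter (fun v => u v ∈ s') ⊆ verts K := Finset.filter_subset _ _
    have hi : ((verts K).filter (fun v => u v ∈ s')).image u = s' := by
      ext w
      rw [Finset.mem_image]
      constructor
      · rintro ⟨v, hv, rfl⟩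
        exact (Finset.mem_filter.1 hv).2
      · intro hw
        have hwK : w ∈ verts K' := mem_verts_of_mem hs' hw
        obtain ⟨v, hv, rfl⟩ := hu.surjOn hwK
        exact ⟨v, Finset.mem_filter.2 ⟨hv, hw⟩, rfl⟩
    refine ⟨(verts K).filter (fun v => u v ∈ s'), ?_, ?_⟩
    · rw [hcon _ hsub, hi]; exact hs'
    · rw [← himg _ hsub, hi]
  · rintro ⟨s, hs, rfl⟩
    have hsub : s ⊆ verts K := fun v hv => mem_verts_of_mem hs hv
    rw [← himg s hsub, ← hcon s hsub]
    exact hs

end ToricSR
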