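import Pool.Agent.Lib.MP_3d51eb_gt.SR.Spec2

set_option autoImplicit false

/-! # project SR: assembly of part 2, sharper range -/

noncomputable section

namespace ToricSR

open Finset MvPolynomial ToricPB

private lemma ThmB2_nc {n : ℕ} (K : Finset (Finset (Vec n))) : nc K ≤ (verts K).card := by
  classical
  unfold nc
  exact Finset.card_image_le

theorem tThmB2 (h1 : StWInv) (h2 : StWEv) : ThmB2 := by
  intro n K hK
  refine ⟨fun m L hW => ?_, ?_⟩
  · obtain ⟨hL, hnc, hc, _⟩ := h1 n m K L hK hW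
    refine ⟨hL, fun h s hs hcard => h s hs ?_⟩
    have := ThmB2_nc K
    omega
  · obtain ⟨m, L, hW, hNb⟩ := h2 (2 * n + 4) n K hK
    obtain ⟨hL, -, -, -⟩ := h1 n m K L hK hW
    refine ⟨m, L, hW, fun m' L' hW' s hs hc => ?_⟩
    obtain ⟨-, -, -, h⟩ := h1 m m' L L' hL hW'
    exact h _ hNb s hs (by omega)

end ToricSR
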