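import Pool.Agent.Lib.MP_3d51eb_gt.SR.Spec

/-!
# project SR: transfer of relations
-/

set_option autoImplicit false

noncomputable section

namespace ToricSR

open Finset MvPolynomial ToricPB

private lemma Tr_cl_sum {n m : ℕ} (K : Finset (Finset (Vec n))) (S : Finset (Vec m))
    (c : Vec m → ℤ) (Ψ : Vec m → Vec n → ℤ) :
    cl K (fun w => ∑ v ∈ S, c v * Ψ v w) = ∑ v ∈ S, c v • cl K (Ψ v) := by
  unfold cl
  simp only [Finset.sum_smul, Finset.smul_sum, mul_smul]
  rw [Finset.sum_comm]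

private lemma Tr_ev_sum {n m : ℕ} (K : Finset (Finset (Vec n))) (S : Finset (Vec m))
    (c : Vec m → ℤ) (Ψ : Vec m → Vec n → ℤ) (l : Vec n → ℝ) :
    ev K (fun w => ∑ v ∈ S, c v * Ψ v w) l = ∑ v ∈ S, (c v : ℝ) * ev K (Ψ v) l := by
  unfold ev
  simp only [Finset.mul_sum]
  rw [Finset.sum_comm]
  refine Finset.sum_congr rfl fun v _ => ?_
  push_cast
  rw [Finset.sum_mul]
  exact Finset.sum_congr rfl fun w _ => by ring

theorem tTr (h1 : StH2z) : StTr := by
  intro n K K' hK hK' φ hφ l' hl'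
  have hex : ∀ v : Vec n, ∃ ψ : Vec n → ℤ, φ (cls K v) = cl K' ψ := fun v =>
    exists_cl ((hφ (cls K v)).1 (cls_mem v))
  choose Ψ hΨ using hex
  -- the value depends only on the class
  have hW : ∀ ψ χ : Vec n → ℤ, cl K' ψ = cl K' χ → ev K' ψ l' = ev K' χ l' := by
    intro ψ χ h
    have h2 : cl K' (fun v => ψ v - χ v) = 0 := by rw [cl_sub, h, sub_self]
    have h3 := h1 n K' hK' _ h2 l' hl'
    rw [ev_sub] at h3
    exact sub_eq_zero.1 h3
  -- transfer of classes
  have hcl : ∀ χ : Vec n → ℤ,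
      φ (cl K χ) = cl K' (fun w => ∑ v ∈ verts K, χ v * Ψ v w) := by
    intro χ
    rw [Tr_cl_sum, cl, map_sum]
    refine Finset.sum_congr rfl fun v _ => ?_
    rw [map_zsmul, hΨ]
  have hev : ∀ χ : Vec n → ℤ, ev K' (fun w => ∑ v ∈ verts K, χ v * Ψ v w) l' =
      ev K χ (fun v => ev K' (Ψ v) l') := by
    intro χ
    rw [Tr_ev_sum]
    rfl
  refine ⟨fun v => ev K' (Ψ v) l', VK_mk ?_ ?_, ?_, ?_⟩
  · intro v hv
    have h2 := hΨ v
    rw [cls_eq_zero hv, map_zero] at h2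
    exact h1 n K' hK' _ h2.symm l' hl'
  · intro i
    have h2 : ∀ v : Vec n, pr (Pi.single i 1) v = v i := by
      intro v
      simp [pr, Pi.single_apply]
    have h3 := hcl (pr (Pi.single i 1))
    rw [cl_pr, map_zero] at h3
    have h4 := h1 n K' hK' _ h3.symm l' hl'
    rw [hev] at h4
    rw [← h4]
    unfold ev
    exact Finset.sum_congr rfl fun v _ => by rw [h2]
  · intro v ψ h
    exact hW _ _ ((hΨ v).symm.trans h)
  · intro χ ψ h
    rw [← hev]
    exact hW _ _ ((hcl χ).symm.trans h)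

end ToricSR
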