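import Pool.Agent.Lib.MP_3d51eb_gt.SR.Spec

/-!
# project SR: bases of the lattice with one more coordinate
-/

set_option autoImplicit false

noncomputable section

namespace ToricSR

open Finset MvPolynomial ToricPB

private theorem Up_aa {a : ℤ} (ha : a = 1 ∨ a = -1) : a * a = 1 := by
  rcases ha with rfl | rfl <;> norm_num

/-- the coordinates -/
private def Up_e {n : ℕ} (b : Module.Basis (Fin n) ℤ (Vec n)) (y : Vec n) (a : ℤ)
    (ha : a * a = 1) : Vec (n + 1) ≃ₗ[ℤ] (Fin (n + 1) → ℤ) where
  toFun := fun x => Fin.cons (a * x 0) (b.equivFun (Fin.tail x - (a * x 0) • y))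
  map_add' := by
    intro x z
    funext j
    refine Fin.cases ?_ (fun j => ?_) j
    · simp [mul_add]
    · have h1 : Fin.tail (x + z) - (a * (x + z) 0) • y =
          (Fin.tail x - (a * x 0) • y) + (Fin.tail z - (a * z 0) • y) := by
        funext i
        simp only [Fin.tail, Pi.add_apply, Pi.sub_apply, Pi.smul_apply, smul_eq_mul]
        ring
      rw [h1, map_add]
      simp
  map_smul' := by
    intro r x
    funext j
    refine Fin.cases ?_ (fun j => ?_) j
    · simp only [Fin.cons_zero, Pi.smul_apply, smul_eq_mul, RingHom.id_apply]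
      ring
    · have h1 : Fin.tail (r • x) - (a * (r • x) 0) • y = r • (Fin.tail x - (a * x 0) • y) := by
        funext i
        simp only [Fin.tail, Pi.sub_apply, Pi.smul_apply, smul_eq_mul]
        ring
      rw [h1, map_smul]
      simp
  invFun := fun c => c 0 • up a y + up 0 (b.equivFun.symm (Fin.tail c))
  left_inv := by
    intro x
    funext j
    refine Fin.cases ?_ (fun j => ?_) j
    · simp only [up, Fin.cons_zero, Pi.add_apply, Pi.smul_apply, smul_eq_mul, add_zero]
      rw [mul_right_comm, ha, one_mul]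
    · simp only [up, Fin.cons_zero, Fin.cons_succ, Pi.add_apply, Pi.smul_apply, smul_eq_mul,
        Fin.tail_cons, LinearEquiv.symm_apply_apply, Pi.sub_apply]
      simp only [Fin.tail]
      ring
  right_inv := by
    intro c
    have h0 : a * (c 0 • up a y + up 0 (b.equivFun.symm (Fin.tail c))) 0 = c 0 := by
      simp only [up, Fin.cons_zero, Pi.add_apply, Pi.smul_apply, smul_eq_mul, add_zero]
      rw [mul_left_comm, ha, mul_one]
    have h1 : Fin.tail (c 0 • up a y + up 0 (b.equivFun.symm (Fin.tail c))) - c 0 • y =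
        b.equivFun.symm (Fin.tail c) := by
      funext i
      simp only [Fin.tail, up, Fin.cons_succ, Pi.add_apply, Pi.sub_apply, Pi.smul_apply, smul_eq_mul]
      ring
    change Fin.cons (a * (c 0 • up a y + up 0 (b.equivFun.symm (Fin.tail c))) 0)
      (b.equivFun (Fin.tail (c 0 • up a y + up 0 (b.equivFun.symm (Fin.tail c))) -
        (a * (c 0 • up a y + up 0 (b.equivFun.symm (Fin.tail c))) 0) • y)) = c
    rw [h0, h1, LinearEquiv.apply_symm_apply]
    exact Fin.cons_self_tail c

private theorem Up_b {n : ℕ} (b : Module.Basis (Fin n) ℤ (Vec n)) (i : Fin n) :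
    b.equivFun.symm (Pi.single i 1) = b i := by
  rw [Module.Basis.equivFun_symm_apply, Finset.sum_eq_single i]
  · rw [Pi.single_eq_same, one_smul]
  · intro j _ hj
    rw [Pi.single_eq_of_ne hj, zero_smul]
  · intro h
    exact absurd (Finset.mem_univ i) h

theorem tUp : StUp := by
  intro n b y a ha
  have haa := Up_aa ha
  refine ⟨Module.Basis.ofEquivFun (Up_e b y a haa), ?_⟩
  have hB : ∀ i, Module.Basis.ofEquivFun (Up_e b y a haa) i =
      (Up_e b y a haa).symm (Pi.single i 1) := by
    intro i
    rw [Module.Basis.coe_ofEquivFun]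
  intro v hv
  rw [Finset.mem_insert] at hv
  rcases hv with rfl | hv
  · refine ⟨0, ?_⟩
    rw [hB]
    change (Pi.single 0 1 : Fin (n + 1) → ℤ) 0 • up a y +
      up 0 (b.equivFun.symm (Fin.tail (Pi.single 0 1 : Fin (n + 1) → ℤ))) = up a y
    have h1 : Fin.tail (Pi.single 0 1 : Fin (n + 1) → ℤ) = 0 := by
      funext i
      simp [Fin.tail]
    rw [h1, map_zero, Pi.single_eq_same, one_smul]
    funext j
    refine Fin.cases ?_ (fun j => ?_) j
    · simp [up]
    · simp [up]
  · obtain ⟨w, hw, rfl⟩ := mem_lift.1 hv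
    obtain ⟨i, -, rfl⟩ := Finset.mem_image.1 hw
    refine ⟨i.succ, ?_⟩
    rw [hB]
    change (Pi.single i.succ 1 : Fin (n + 1) → ℤ) 0 • up a y +
      up 0 (b.equivFun.symm (Fin.tail (Pi.single i.succ 1 : Fin (n + 1) → ℤ))) = up 0 (b i)
    have h1 : Fin.tail (Pi.single i.succ 1 : Fin (n + 1) → ℤ) = Pi.single i 1 := by
      funext j
      by_cases h : j = i
      · subst h
        simp [Fin.tail]
      · rw [Pi.single_eq_of_ne h]
        simp only [Fin.tail]
        rw [Pi.single_eq_of_ne]
        intro h2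
        exact h (Fin.succ_inj.1 h2)
    have h2 : (Pi.single i.succ 1 : Fin (n + 1) → ℤ) 0 = 0 :=
      Pi.single_eq_of_ne (Fin.succ_ne_zero i).symm 1
    rw [h1, h2, zero_smul, zero_add, Up_b]

end ToricSR
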