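import Pool.Agent.Lib.MP_3d51eb_gt.SR.Spec
import Pool.Agent.Lib.MP_3d51eb_gt.PB.UniOf

/-!
# project SR: a lattice basis for the new cones of a simplicial wedge
-/

set_option autoImplicit false

noncomputable section

namespace ToricSR

open Finset MvPolynomial ToricPB

private lemma Up2_coord {n : ℕ} (b : Module.Basis (Fin n) ℤ (Vec n)) (y : Vec n) :
    ∃ γ : Vec n → ℤ, y = ∑ w ∈ univ.image b, γ w • w := by
  refine ⟨fun w => ∑ i, if b i = w then b.repr y i else 0, ?_⟩
  rw [Finset.sum_image (fun i _ k _ h => b.injective h)]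
  conv_lhs => rw [← b.sum_repr y]
  refine Finset.sum_congr rfl (fun i _ => ?_)
  have h : (∑ k, if b k = b i then b.repr y k else 0) = b.repr y i := by
    rw [Finset.sum_eq_single i]
    · simp
    · intro k _ hk
      rw [if_neg]
      intro h
      exact hk (b.injective h)
    · simp
  beta_reduce
  rw [h]

private lemma Up2_zero {n : ℕ} (a : ℤ) (w : Vec n) : up a w 0 = a := by simp [up]

private lemma Up2_succ {n : ℕ} (a : ℤ) (w : Vec n) (i : Fin n) : up a w i.succ = w i := by
  simp [up]

theorem tUp2 (h1 : StUp) : StUp2 := by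
  intro n b v hj
  clear h1
  obtain ⟨j, rfl⟩ := hj
  have hv : b j ∈ univ.image b := Finset.mem_image_of_mem b (Finset.mem_univ j)
  have hn : 0 < n := j.pos
  have h1 : (w1 : Vec (n + 1)) ∉ insert (w2 (b j)) (lift ((univ.image b).erase (b j))) := by
    rw [Finset.mem_insert]
    rintro (h | h)
    · exact w1_ne_w2 h
    · exact w1_notMem_lift h
  have h2 : w2 (b j) ∉ lift ((univ.image b).erase (b j)) := w2_notMem_lift
  refine tUniOf (n + 1) _ ?_ ?_
  · rw [Finset.card_insert_of_notMem h1, Finset.card_insert_of_notMem h2, card_lift,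
      Finset.card_erase_of_mem hv, Finset.card_image_of_injective _ b.injective,
      Finset.card_univ, Fintype.card_fin]
    omega
  · intro y
    obtain ⟨γ, hγ⟩ := Up2_coord b (fun i => y i.succ)
    rw [← Finset.add_sum_erase _ _ hv] at hγ
    have h3 : (w2 (b j) : Vec (n + 1)) ≠ w1 := fun h => w1_ne_w2 h.symm
    refine ⟨fun x => if x = w1 then y 0 + γ (b j) else if x = w2 (b j) then γ (b j)
      else γ (fun i => x i.succ), ?_⟩
    have e1 : ∑ x ∈ lift ((univ.image b).erase (b j)), (if x = w1 then y 0 + γ (b j)
        else if x = w2 (b j) then γ (b j) else γ (fun i => x i.succ)) • x =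
        ∑ w ∈ (univ.image b).erase (b j), γ w • (up 0 w : Vec (n + 1)) := by
      rw [lift, Finset.sum_image (fun _ _ _ _ h => up_zero_injective h)]
      refine Finset.sum_congr rfl (fun w _ => ?_)
      have a1 : (up 0 w : Vec (n + 1)) ≠ w1 := by
        intro h
        have := (up_inj h).1
        omega
      have a2 : (up 0 w : Vec (n + 1)) ≠ w2 (b j) := by
        intro h
        have := (up_inj h).1
        omega
      rw [if_neg a1, if_neg a2]
      simp only [Up2_succ]
    rw [Finset.sum_insert h1, Finset.sum_insert h2, e1]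
    beta_reduce
    rw [if_pos rfl, if_neg h3, if_pos rfl]
    funext k
    refine Fin.cases ?_ (fun i => ?_) k
    · simp only [w1, w2, Pi.add_apply, Pi.smul_apply, Finset.sum_apply, Up2_zero, smul_eq_mul,
        mul_zero, Finset.sum_const_zero]
      ring
    · have h4 := congrFun hγ i
      simp only [Pi.add_apply, Pi.smul_apply, Finset.sum_apply, smul_eq_mul] at h4
      simp only [w1, w2, Pi.add_apply, Pi.smul_apply, Finset.sum_apply, Up2_succ, smul_eq_mul,
        Pi.zero_apply, mul_zero, zero_add]
      exact h4

end ToricSR
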