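import Pool.Agent.Lib.MP_3d51eb_gt.SR.Spec

/-!
# MP_3d51eb_gt, project SR: coordinates of the relative interiors of the cones of a wedge
-/

set_option autoImplicit false

noncomputable section

namespace ToricSR

open Finset MvPolynomial ToricPB

private lemma WCo_up {n : ℕ} (a : ℤ) (w : Vec n) :
    toR (up a w) = (Fin.cons (a : ℝ) (toR w) : Fin (n + 1) → ℝ) := by
  funext i
  refine Fin.cases ?_ (fun j => ?_) i
  · simp [toR, up]
  · simp [toR, up]

private lemma WCo_smul {n : ℕ} (a b : ℝ) (x : Fin n → ℝ) :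
    a • (Fin.cons b x : Fin (n + 1) → ℝ) = (Fin.cons (a * b) (a • x) : Fin (n + 1) → ℝ) := by
  funext i
  refine Fin.cases ?_ (fun j => ?_) i
  · simp
  · simp

private lemma WCo_add {n : ℕ} (a b : ℝ) (x y : Fin n → ℝ) :
    (Fin.cons a x : Fin (n + 1) → ℝ) + (Fin.cons b y : Fin (n + 1) → ℝ) =
      (Fin.cons (a + b) (x + y) : Fin (n + 1) → ℝ) := by
  funext i
  refine Fin.cases ?_ (fun j => ?_) i
  · simp
  · simp

private lemma WCo_inj {n : ℕ} {a b : ℝ} {x y : Fin n → ℝ}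
    (h : (Fin.cons a x : Fin (n + 1) → ℝ) = (Fin.cons b y : Fin (n + 1) → ℝ)) :
    a = b ∧ x = y := by
  constructor
  · have := congrFun h 0
    simpa using this
  · funext i
    have := congrFun h i.succ
    simpa using this

private lemma WCo_lift {n : ℕ} (t : Finset (Vec n)) (c : Vec (n + 1) → ℝ) :
    lin (lift t) c = (Fin.cons 0 (lin t (fun w => c (up 0 w))) : Fin (n + 1) → ℝ) := by
  classical
  rw [lin, lift, Finset.sum_image (fun x _ y _ h => up_zero_injective h)]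
  induction t using Finset.induction_on with
  | empty =>
    funext i
    refine Fin.cases ?_ (fun j => ?_) i
    · simp
    · simp [lin]
  | insert a s ha ih =>
    rw [Finset.sum_insert ha, ih, lin_insert ha, WCo_up, WCo_smul, WCo_add]
    simp

private lemma WCo_lin1 {n : ℕ} (t : Finset (Vec n)) (c : Vec (n + 1) → ℝ) :
    lin (insert w1 (lift t)) c =
      (Fin.cons (c w1) (lin t (fun w => c (up 0 w))) : Fin (n + 1) → ℝ) := by
  rw [lin_insert w1_notMem_lift, WCo_lift, w1, WCo_up, WCo_smul, WCo_add, toR_zero]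
  simp

private lemma WCo_lin2 {n : ℕ} (t : Finset (Vec n)) (v : Vec n) (c : Vec (n + 1) → ℝ) :
    lin (insert (w2 v) (lift t)) c =
      (Fin.cons (-(c (w2 v))) (c (w2 v) • toR v + lin t (fun w => c (up 0 w))) :
        Fin (n + 1) → ℝ) := by
  rw [lin_insert w2_notMem_lift, WCo_lift]
  rw [show toR (w2 v) = (Fin.cons (((-1 : ℤ) : ℝ)) (toR v) : Fin (n + 1) → ℝ) from WCo_up _ _,
    WCo_smul, WCo_add]
  simp

private lemma WCo_lin3 {n : ℕ} (t : Finset (Vec n)) (v : Vec n) (c : Vec (n + 1) → ℝ) :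
    lin (insert w1 (insert (w2 v) (lift t))) c =
      (Fin.cons (c w1 - c (w2 v)) (c (w2 v) • toR v + lin t (fun w => c (up 0 w))) :
        Fin (n + 1) → ℝ) := by
  have h : (w1 : Vec (n + 1)) ∉ insert (w2 v) (lift t) := by
    rw [Finset.mem_insert]
    rintro (h | h)
    · exact w1_ne_w2 h
    · exact w1_notMem_lift h
  rw [lin_insert h, WCo_lin2]
  rw [show toR (w1 : Vec (n + 1)) = (Fin.cons (((1 : ℤ) : ℝ)) (toR (0 : Vec n)) :
    Fin (n + 1) → ℝ) from WCo_up _ _, WCo_smul, WCo_add, toR_zero]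
  simp [sub_eq_add_neg]

open Classical in
/-- a coefficient function with given values -/
private def WCo_c {n : ℕ} (v : Vec n) (β γ : ℝ) (c : Vec n → ℝ) : Vec (n + 1) → ℝ := fun y =>
  if y = w1 then β else if y = w2 v then γ else c (Fin.tail y)

private lemma WCo_c1 {n : ℕ} (v : Vec n) (β γ : ℝ) (c : Vec n → ℝ) :
    WCo_c v β γ c w1 = β := by
  simp [WCo_c]

private lemma WCo_c2 {n : ℕ} (v : Vec n) (β γ : ℝ) (c : Vec n → ℝ) :
    WCo_c v β γ c (w2 v) = γ := by
  have h : w2 v ≠ (w1 : Vec (n + 1)) := fun h => w1_ne_w2 h.symm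
  simp [WCo_c, h]

private lemma WCo_c0 {n : ℕ} (v : Vec n) (β γ : ℝ) (c : Vec n → ℝ) (w : Vec n) :
    WCo_c v β γ c (up 0 w) = c w := by
  have h1 : up 0 w ≠ (w1 : Vec (n + 1)) := by
    intro h
    have := (up_inj h).1
    omega
  have h2 : up 0 w ≠ w2 v := by
    intro h
    have := (up_inj h).1
    omega
  have h3 : Fin.tail (up 0 w) = w := by
    funext i
    simp [Fin.tail, up]
  simp [WCo_c, h1, h2, h3]

private lemma WCo_pos {n : ℕ} {t : Finset (Vec n)} {v : Vec n} {β γ : ℝ} {c : Vec n → ℝ}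
    (hc : ∀ w ∈ t, 0 < c w) : ∀ y ∈ lift t, 0 < WCo_c v β γ c y := by
  intro y hy
  obtain ⟨w, hw, rfl⟩ := mem_lift.1 hy
  rw [WCo_c0]
  exact hc w hw

/-- TASK WCo -/
theorem tWCo : StWCo := by
  intro n t v r x
  refine ⟨⟨?_, ?_⟩, ⟨?_, ?_⟩, ⟨?_, ?_⟩, ⟨?_, ?_⟩⟩
  · rintro ⟨c, hc, h⟩
    rw [WCo_lift] at h
    obtain ⟨h1, h2⟩ := WCo_inj h
    exact ⟨h1, fun w => c (up 0 w), fun w hw => hc _ (up_mem_lift.2 hw), h2⟩
  · rintro ⟨rfl, c, hc, rfl⟩
    refine ⟨WCo_c v 1 1 c, WCo_pos hc, ?_⟩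
    rw [WCo_lift]
    simp only [WCo_c0]
  · rintro ⟨c, hc, h⟩
    rw [WCo_lin1] at h
    obtain ⟨h1, h2⟩ := WCo_inj h
    refine ⟨?_, fun w => c (up 0 w), fun w hw => hc _ (mem_insert_of_mem (up_mem_lift.2 hw)), h2⟩
    rw [h1]
    exact hc _ (mem_insert_self _ _)
  · rintro ⟨hr, c, hc, rfl⟩
    refine ⟨WCo_c v r 1 c, ?_, ?_⟩
    · intro y hy
      rcases Finset.mem_insert.1 hy with rfl | hy
      · rw [WCo_c1]; exact hr
      · exact WCo_pos hc y hy
    · rw [WCo_lin1]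
      simp only [WCo_c0, WCo_c1]
  · rintro ⟨c, hc, h⟩
    rw [WCo_lin2] at h
    obtain ⟨h1, h2⟩ := WCo_inj h
    have h3 : 0 < c (w2 v) := hc _ (mem_insert_self _ _)
    refine ⟨by rw [h1]; linarith, fun w => c (up 0 w),
      fun w hw => hc _ (mem_insert_of_mem (up_mem_lift.2 hw)), ?_⟩
    rw [h1, h2]
    module
  · rintro ⟨hr, c, hc, h⟩
    refine ⟨WCo_c v 1 (-r) c, ?_, ?_⟩
    · intro y hy
      rcases Finset.mem_insert.1 hy with rfl | hy
      · rw [WCo_c2]; linarith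
      · exact WCo_pos hc y hy
    · rw [WCo_lin2]
      simp only [WCo_c0, WCo_c2]
      rw [← h, neg_neg]
      congr 1
      module
  · rintro ⟨c, hc, h⟩
    rw [WCo_lin3] at h
    obtain ⟨h1, h2⟩ := WCo_inj h
    have h3 : 0 < c w1 := hc _ (mem_insert_self _ _)
    have h4 : 0 < c (w2 v) := hc _ (mem_insert_of_mem (mem_insert_self _ _))
    refine ⟨c (w2 v), h4, by rw [h1]; linarith, fun w => c (up 0 w),
      fun w hw => hc _ (mem_insert_of_mem (mem_insert_of_mem (up_mem_lift.2 hw))), ?_⟩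
    rw [h2]
    module
  · rintro ⟨γ, hγ, hr, c, hc, h⟩
    refine ⟨WCo_c v (r + γ) γ c, ?_, ?_⟩
    · intro y hy
      rcases Finset.mem_insert.1 hy with rfl | hy
      · rw [WCo_c1]; exact hr
      · rcases Finset.mem_insert.1 hy with rfl | hy
        · rw [WCo_c2]; exact hγ
        · exact WCo_pos hc y hy
    · rw [WCo_lin3]
      simp only [WCo_c0, WCo_c1, WCo_c2]
      rw [← h]
      have e1 : r + γ - γ = r := by ring
      have e2 : γ • toR v + (x - γ • toR v) = x := by module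
      rw [e1, e2]

end ToricSR
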