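import Pool.Agent.Lib.MP_3d51eb_gt.SR.Spec

/-!
# project SR: the wedge is closed under passing to faces
-/

set_option autoImplicit false

noncomputable section

namespace ToricSR

open Finset MvPolynomial ToricPB

theorem tWDown : StWDown := by
  classical
  intro n K v hK _ s hs T hT
  obtain ⟨t0, ht0, hv0, h⟩ := mem_wedge.1 hs
  obtain ⟨t, ht⟩ : ∃ t, t = t0.filter (fun w => up 0 w ∈ T) := ⟨_, rfl⟩
  have htt : t ⊆ t0 := by
    rw [ht]
    exact Finset.filter_subset _ _
  have htK : t ∈ K := hK.down _ ht0 _ htt
  have hvt : v ∉ t := fun h => hv0 (htt h)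
  have hs0 : ∀ x ∈ s, x = w1 ∨ x = w2 v ∨ x ∈ lift t0 := by
    intro x hx
    rcases h with rfl | rfl | rfl | ⟨_, rfl⟩
    · exact Or.inr (Or.inr hx)
    · rcases Finset.mem_insert.1 hx with h | h
      · exact Or.inl h
      · exact Or.inr (Or.inr h)
    · rcases Finset.mem_insert.1 hx with h | h
      · exact Or.inr (Or.inl h)
      · exact Or.inr (Or.inr h)
    · rcases Finset.mem_insert.1 hx with h | h
      · exact Or.inl h
      · rcases Finset.mem_insert.1 h with h | h
        · exact Or.inr (Or.inl h)
        · exact Or.inr (Or.inr h)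
  have hcases : ∀ x ∈ T, x = w1 ∨ x = w2 v ∨ x ∈ lift t := by
    intro x hx
    rcases hs0 x (hT hx) with h1 | h1 | h1
    · exact Or.inl h1
    · exact Or.inr (Or.inl h1)
    · obtain ⟨w, hw, rfl⟩ := mem_lift.1 h1
      refine Or.inr (Or.inr (up_mem_lift.2 ?_))
      rw [ht]
      exact Finset.mem_filter.2 ⟨hw, hx⟩
  have hlift : ∀ x ∈ lift t, x ∈ T := by
    intro x hx
    obtain ⟨w, hw, rfl⟩ := mem_lift.1 hx
    rw [ht] at hw
    exact (Finset.mem_filter.1 hw).2
  by_cases h1 : w1 ∈ T
  · by_cases h2 : w2 v ∈ T
    · have hi : insert v t0 ∈ K := by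
        have a := hT h1
        have b := hT h2
        rcases h with rfl | rfl | rfl | ⟨h3, rfl⟩
        · exact absurd a w1_notMem_lift
        · rcases Finset.mem_insert.1 b with b | b
          · exact absurd b.symm w1_ne_w2
          · exact absurd b w2_notMem_lift
        · rcases Finset.mem_insert.1 a with a | a
          · exact absurd a w1_ne_w2
          · exact absurd a w1_notMem_lift
        · exact h3
      refine mem_wedge.2 ⟨t, htK, hvt, Or.inr (Or.inr (Or.inr
        ⟨hK.down _ hi _ (Finset.insert_subset_insert _ htt), ?_⟩))⟩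
      ext x
      rw [Finset.mem_insert, Finset.mem_insert]
      refine ⟨hcases x, ?_⟩
      rintro (rfl | rfl | h)
      · exact h1
      · exact h2
      · exact hlift x h
    · refine mem_wedge.2 ⟨t, htK, hvt, Or.inr (Or.inl ?_)⟩
      ext x
      rw [Finset.mem_insert]
      constructor
      · intro hx
        rcases hcases x hx with h3 | h3 | h3
        · exact Or.inl h3
        · exact absurd (h3 ▸ hx) h2
        · exact Or.inr h3
      · rintro (rfl | h3)
        · exact h1
        · exact hlift x h3
  · by_cases h2 : w2 v ∈ T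
    · refine mem_wedge.2 ⟨t, htK, hvt, Or.inr (Or.inr (Or.inl ?_))⟩
      ext x
      rw [Finset.mem_insert]
      constructor
      · intro hx
        rcases hcases x hx with h3 | h3 | h3
        · exact absurd (h3 ▸ hx) h1
        · exact Or.inl h3
        · exact Or.inr h3
      · rintro (rfl | h3)
        · exact h2
        · exact hlift x h3
    · refine mem_wedge.2 ⟨t, htK, hvt, Or.inl ?_⟩
      ext x
      constructor
      · intro hx
        rcases hcases x hx with h3 | h3 | h3
        · exact absurd (h3 ▸ hx) h1
        · exact absurd (h3 ▸ hx) h2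
        · exact h3
      · exact hlift x

end ToricSR
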