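import Pool.Agent.Lib.MP_3d51eb_gt.SR.Spec
import Pool.Agent.Lib.MP_3d51eb_gt.PB.Uq
import Pool.Agent.Lib.MP_3d51eb_gt.PB.Dual

/-!
# project SR, module WEx: every vector lies in the relative interior of a cone of the wedge
-/

set_option autoImplicit false

noncomputable section

namespace ToricSR

open Finset MvPolynomial ToricPB

private lemma WEx_split {n : ℕ} {s : Finset (Vec n)} {v : Vec n} (hv : v ∈ s) (a : Vec n → ℝ) :
    lin s a = a v • toR v + lin (s.erase v) a := by
  have h := lin_insert (Finset.notMem_erase v s) a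
  rwa [Finset.insert_erase hv] at h

private lemma WEx_neg (h1 : StWCo) {n : ℕ} {K : Finset (Finset (Vec n))} {v : Vec n} (hK : IsFan K)
    {r : ℝ} {x : Fin n → ℝ} (hr : r < 0) {s : Finset (Vec n)} (hs : s ∈ K) {a : Vec n → ℝ}
    (ha : ∀ w ∈ s, 0 < a w) (hx : x = lin s a) (h : v ∈ s → r + a v ≤ 0) :
    ∃ t ∈ wedge K v, InRel t (Fin.cons r x : Fin (n + 1) → ℝ) := by
  obtain ⟨t, ⟨ht, b, hb, hxb⟩, -⟩ := hK.cover (x + r • toR v)
  have hvt : v ∉ t := by
    intro hvt
    have e : lin s a = lin t (Function.update b v (b v - r)) := by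
      rw [WEx_split hvt]
      have e1 : lin (t.erase v) (Function.update b v (b v - r)) = lin (t.erase v) b :=
        lin_congr (fun w hw => Function.update_of_ne (Finset.ne_of_mem_erase hw) _ _)
      rw [e1, Function.update_self, ← hx]
      have e2 := hxb
      rw [WEx_split hvt] at e2
      have e3 : x = b v • toR v + lin (t.erase v) b - r • toR v := by
        rw [← e2]; abel
      rw [e3, sub_smul]; abel
    have hb' : ∀ w ∈ t, 0 < Function.update b v (b v - r) w := by
      intro w hw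
      by_cases hwv : w = v
      · subst hwv
        rw [Function.update_self]
        have := hb w hw
        linarith
      · rw [Function.update_of_ne hwv]
        exact hb w hw
    obtain ⟨hst, hab⟩ := (tUq tDual n K hK).1 s hs t ht a _ ha hb' e
    have hvs : v ∈ s := by rw [hst]; exact hvt
    have h2 := hab v hvs
    rw [Function.update_self] at h2
    have h3 := h hvs
    have h4 := hb v hvt
    linarith
  refine ⟨insert (w2 v) (lift t), mem_wedge.2 ⟨t, ht, hvt, Or.inr (Or.inr (Or.inl rfl))⟩, ?_⟩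
  rw [(h1 n t v r x).2.2.1]
  exact ⟨hr, b, hb, hxb⟩

theorem tWEx (h1 : StWCo) : StWEx := by
  intro n K v hK _hv y
  obtain ⟨r, x, rfl⟩ : ∃ (r : ℝ) (x : Fin n → ℝ), y = Fin.cons r x :=
    ⟨y 0, Fin.tail y, (Fin.cons_self_tail y).symm⟩
  obtain ⟨s, ⟨hs, a, ha, hxa⟩, -⟩ := hK.cover x
  by_cases hvs : v ∈ s
  · by_cases hr : 0 < r + a v
    · refine ⟨insert w1 (insert (w2 v) (lift (s.erase v))), mem_wedge.2 ⟨s.erase v,
        hK.down s hs _ (Finset.erase_subset _ _), Finset.notMem_erase v s,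
        Or.inr (Or.inr (Or.inr ⟨by rwa [Finset.insert_erase hvs], rfl⟩))⟩, ?_⟩
      rw [(h1 n (s.erase v) v r x).2.2.2]
      refine ⟨a v, ha v hvs, hr, a, fun w hw => ha w (Finset.mem_of_mem_erase hw), ?_⟩
      rw [hxa, WEx_split hvs]
      abel
    · have hav := ha v hvs
      exact WEx_neg h1 hK (by linarith) hs ha hxa (fun _ => by linarith)
  · rcases lt_trichotomy r 0 with hr | hr | hr
    · exact WEx_neg h1 hK hr hs ha hxa (fun h => absurd h hvs)
    · refine ⟨lift s, mem_wedge.2 ⟨s, hs, hvs, Or.inl rfl⟩, ?_⟩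
      rw [(h1 n s v r x).1]
      exact ⟨hr, a, ha, hxa⟩
    · refine ⟨insert w1 (lift s), mem_wedge.2 ⟨s, hs, hvs, Or.inr (Or.inl rfl)⟩, ?_⟩
      rw [(h1 n s v r x).2.1]
      exact ⟨hr, a, ha, hxa⟩

end ToricSR
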