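import Pool.Agent.Lib.MP_3d51eb_gt.SR.Spec

set_option autoImplicit false

/-! # project SR: the simplicial wedge is a fan -/

noncomputable section

namespace ToricSR

open Finset MvPolynomial ToricPB

theorem tWFan (h1 : StWDown) (h2 : StWSm) (h3 : StWEx) (h4 : StWUq) : StWFan := by
  intro n K v hK hv
  refine ⟨fun s hs t ht => h1 n K v hK hv s hs t ht, fun s hs => h2 n K v hK hv s hs,
    fun x => ?_⟩
  obtain ⟨s, hs, hx⟩ := h3 n K v hK hv x
  exact ⟨s, ⟨hs, hx⟩, fun t ht => h4 n K v hK hv x t ht.1 s hs ht.2 hx⟩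

end ToricSR
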