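import Pool.Agent.Lib.MP_3d51eb_gt.SR.Spec2

set_option autoImplicit false

/-! # project SR: invariants of iterated wedges -/

noncomputable section

namespace ToricSR

open Finset MvPolynomial ToricPB

private lemma WInv_card {n : ℕ} {K : Finset (Finset (Vec n))} (hK : IsFan K) {v : Vec n}
    (hv : v ∈ verts K) : (verts (wedge K v)).card = (verts K).card + 1 := by
  rw [verts_wedge hK hv, Finset.card_insert_of_notMem, Finset.card_insert_of_notMem w2_notMem_lift,
    card_lift, Finset.card_erase_of_mem hv]
  · have : 0 < (verts K).card := Finset.card_pos.2 ⟨v, hv⟩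
    omega
  · rw [Finset.mem_insert, not_or]
    exact ⟨w1_ne_w2, w1_notMem_lift⟩

theorem tWInv (h1 : StWFan) (h2 : StWNc) (h3 : StWNb) : StWInv := by
  intro n m K L hK hW
  induction hW with
  | refl K => exact ⟨hK, le_refl _, rfl, fun _ h => h⟩
  | step m K L v _ hv ih =>
    obtain ⟨hL, hnc, hc, hNb⟩ := ih hK
    have hF := h1 m L v hL hv
    refine ⟨hF, (h2 m L v hL hv hF).trans hnc, ?_, fun N h => h3 m L v hL hv N (hNb N h)⟩
    rw [WInv_card hL hv]
    omega

end ToricSR
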