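import Pool.Agent.Lib.MP_3d51eb_gt.SR.Spec

/-!
# project SR: the measure decreases under a wedge
-/

set_option autoImplicit false

noncomputable section

namespace ToricSR

open Finset MvPolynomial ToricPB

open Classical in
/-- the image of a missing face -/
private def WMu_img {n : ℕ} (v : Vec n) (B : Finset (Vec n)) : Finset (Vec (n + 1)) :=
  if v ∈ B then insert w1 (insert (w2 v) (lift (B.erase v))) else lift B

private theorem WMu_card_in {n : ℕ} {v : Vec n} {B : Finset (Vec n)} (h : v ∈ B) :
    (WMu_img v B).card = B.card + 1 := by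
  have h1 : (w2 v) ∉ lift (B.erase v) := w2_notMem_lift
  have h2 : (w1 : Vec (n + 1)) ∉ insert (w2 v) (lift (B.erase v)) := by
    intro hh
    rcases Finset.mem_insert.1 hh with hh | hh
    · exact w1_ne_w2 hh
    · exact w1_notMem_lift hh
  have h3 : WMu_img v B = insert w1 (insert (w2 v) (lift (B.erase v))) := by
    rw [WMu_img, if_pos h]
  rw [h3, Finset.card_insert_of_notMem h2, Finset.card_insert_of_notMem h1, card_lift,
    Finset.card_erase_of_mem h]
  have h4 : 0 < B.card := Finset.card_pos.2 ⟨v, h⟩
  omega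

private theorem WMu_card_out {n : ℕ} {v : Vec n} {B : Finset (Vec n)} (h : v ∉ B) :
    (WMu_img v B).card = B.card := by
  rw [WMu_img, if_neg h, card_lift]

private theorem WMu_card_le {n : ℕ} (v : Vec n) (B : Finset (Vec n)) :
    B.card ≤ (WMu_img v B).card := by
  by_cases h : v ∈ B
  · rw [WMu_card_in h]
    omega
  · rw [WMu_card_out h]

private theorem WMu_sum {α β : Type*} [DecidableEq β] (s : Finset α) (f : α → β) (g : β → ℕ) :
    ∑ x ∈ s.image f, g x ≤ ∑ a ∈ s, g (f a) := by
  classical
  induction s using Finset.induction_on with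
  | empty => simp
  | insert a s ha ih =>
    rw [Finset.image_insert, Finset.sum_insert ha]
    by_cases h : f a ∈ s.image f
    · rw [Finset.insert_eq_of_mem h]
      omega
    · rw [Finset.sum_insert h]
      omega

theorem tWMu (h1 : StWMf) : StWMu := by
  classical
  intro n K v T hK hv B hB hvB hT
  have hsub : mf (wedge K v) ⊆ (mf K).image (WMu_img v) := by
    intro S hS
    obtain ⟨B', hB', h⟩ := h1 n K v hK hv S hS
    refine Finset.mem_image.2 ⟨B', hB', ?_⟩
    rcases h with ⟨h2, h3⟩ | ⟨h2, h3⟩
    · rw [WMu_img, if_neg h2, h3]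
    · rw [WMu_img, if_pos h2, h3]
  calc ∑ S ∈ mf (wedge K v), (T + 1 - S.card)
      ≤ ∑ S ∈ (mf K).image (WMu_img v), (T + 1 - S.card) := Finset.sum_le_sum_of_subset hsub
    _ ≤ ∑ B' ∈ mf K, (T + 1 - (WMu_img v B').card) :=
        WMu_sum (mf K) (WMu_img v) (fun S => T + 1 - S.card)
    _ < ∑ B' ∈ mf K, (T + 1 - B'.card) := by
        refine Finset.sum_lt_sum (fun B' _ => ?_) ⟨B, hB, ?_⟩
        · have := WMu_card_le v B'
          omega
        · rw [WMu_card_in hvB]
          omega

end ToricSR
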