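import Pool.Agent.Lib.MP_3d51eb_gt.SR.Spec

/-!
# project SR: neighbourliness persists under simplicial wedges
-/

set_option autoImplicit false

noncomputable section

namespace ToricSR

open Finset MvPolynomial ToricPB

private lemma WNb_core {n : ℕ} (K : Finset (Finset (Vec n))) (v : Vec n) (hK : IsFan K)
    (hv : v ∈ verts K) (N : ℕ) (h : Nb K N) : Nb (wedge K v) N := by
  classical
  intro S hS hc
  rw [verts_wedge hK hv] at hS
  obtain ⟨t, ht⟩ : ∃ t : Finset (Vec n), t = ((verts K).erase v).filter (fun w => up 0 w ∈ S) :=
    ⟨_, rfl⟩
  have hvt : v ∉ t := by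
    rw [ht]
    intro hh
    exact (Finset.mem_erase.1 (Finset.mem_filter.1 hh).1).1 rfl
  have htK : t ⊆ verts K := by
    intro x hx
    rw [ht] at hx
    exact (Finset.mem_erase.1 (Finset.mem_filter.1 hx).1).2
  have hlS : ∀ x, x ∈ lift t → x ∈ S := by
    intro x hx
    obtain ⟨w, hw, rfl⟩ := mem_lift.1 hx
    rw [ht] at hw
    exact (Finset.mem_filter.1 hw).2
  have hSl : ∀ x, x ∈ S → x = w1 ∨ x = w2 v ∨ x ∈ lift t := by
    intro x hx
    have h1 := hS hx
    rw [Finset.mem_insert, Finset.mem_insert] at h1
    rcases h1 with h1 | h1 | h1
    · exact Or.inl h1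
    · exact Or.inr (Or.inl h1)
    · refine Or.inr (Or.inr ?_)
      obtain ⟨w, hw, rfl⟩ := mem_lift.1 h1
      refine up_mem_lift.2 ?_
      rw [ht]
      exact Finset.mem_filter.2 ⟨hw, hx⟩
  have hcl : (lift t).card = t.card := card_lift t
  have hle : (lift t).card ≤ S.card := Finset.card_le_card (fun x hx => hlS x hx)
  have htm : t ∈ K := h t htK (by omega)
  refine mem_wedge.2 ⟨t, htm, hvt, ?_⟩
  by_cases h1 : (w1 : Vec (n + 1)) ∈ S
  · by_cases h2 : w2 v ∈ S
    · refine Or.inr (Or.inr (Or.inr ⟨?_, ?_⟩))
      · refine h (insert v t) (Finset.insert_subset hv htK) ?_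
        have h3 : insert w1 (insert (w2 v) (lift t)) ⊆ S := by
          intro x hx
          rw [Finset.mem_insert, Finset.mem_insert] at hx
          rcases hx with rfl | rfl | hx
          · exact h1
          · exact h2
          · exact hlS x hx
        have h4 := Finset.card_le_card h3
        have h5 : (insert w1 (insert (w2 v) (lift t))).card = t.card + 2 := by
          rw [Finset.card_insert_of_notMem, Finset.card_insert_of_notMem w2_notMem_lift, hcl]
          rw [Finset.mem_insert]
          rintro (h6 | h6)
          · exact w1_ne_w2 h6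
          · exact w1_notMem_lift h6
        have h6 := Finset.card_insert_le v t
        omega
      · ext x
        rw [Finset.mem_insert, Finset.mem_insert]
        constructor
        · exact hSl x
        · rintro (rfl | rfl | hx)
          · exact h1
          · exact h2
          · exact hlS x hx
    · refine Or.inr (Or.inl ?_)
      ext x
      rw [Finset.mem_insert]
      constructor
      · intro hx
        rcases hSl x hx with h3 | h3 | h3
        · exact Or.inl h3
        · exact absurd (h3 ▸ hx) h2
        · exact Or.inr h3
      · rintro (rfl | hx)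
        · exact h1
        · exact hlS x hx
  · by_cases h2 : w2 v ∈ S
    · refine Or.inr (Or.inr (Or.inl ?_))
      ext x
      rw [Finset.mem_insert]
      constructor
      · intro hx
        rcases hSl x hx with h3 | h3 | h3
        · exact absurd (h3 ▸ hx) h1
        · exact Or.inl h3
        · exact Or.inr h3
      · rintro (rfl | hx)
        · exact h2
        · exact hlS x hx
    · refine Or.inl ?_
      ext x
      constructor
      · intro hx
        rcases hSl x hx with h3 | h3 | h3
        · exact absurd (h3 ▸ hx) h1
        · exact absurd (h3 ▸ hx) h2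
        · exact h3
      · exact hlS x

/-- `StWNb` holds. -/
theorem tWNb : StWNb := fun _ K v hK hv N h => WNb_core K v hK hv N h

end ToricSR
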