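import Pool.Agent.Lib.MP_3d51eb_gt.SR.Spec

/-!
# project SR: the number of classes of a simplicial wedge
-/

set_option autoImplicit false

noncomputable section

namespace ToricSR

open Finset MvPolynomial ToricPB

variable {n : ℕ}

private lemma WNc_pr (t a : ℤ) (u x : Vec n) : pr (up t u) (up a x) = t * a + pr u x := by
  simp [pr, up, Fin.sum_univ_succ]

/-- the linear relation of `up t u` in the wedge -/
private lemma WNc_rel {K : Finset (Finset (Vec n))} (hK : IsFan K) {v : Vec n}
    (hv : v ∈ verts K) (t : ℤ) (u : Vec n) :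
    t • cls (wedge K v) w1 + ((pr u v - t) • cls (wedge K v) (w2 v) +
      ∑ w ∈ (verts K).erase v, pr u w • cls (wedge K v) (up 0 w)) = 0 := by
  have h := lin_rel (K := wedge K v) (up t u)
  rw [verts_wedge hK hv, Finset.sum_insert, Finset.sum_insert w2_notMem_lift] at h
  · rw [← h]
    congr 1
    · rw [w1, WNc_pr, pr_zero, mul_one, add_zero]
    · congr 1
      · rw [w2, WNc_pr]
        congr 1
        ring
      · rw [lift, Finset.sum_image (fun a _ b _ hab => up_zero_injective hab)]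
        refine Finset.sum_congr rfl (fun w _ => ?_)
        rw [WNc_pr, mul_zero, zero_add]
  · rw [Finset.mem_insert]
    rintro (h | h)
    · exact w1_ne_w2 h
    · exact w1_notMem_lift h

/-- the classes of `w1` and `w2` agree -/
private lemma WNc_A {K : Finset (Finset (Vec n))} (hK : IsFan K) {v : Vec n}
    (hv : v ∈ verts K) : cls (wedge K v) w1 = cls (wedge K v) (w2 v) := by
  have h := WNc_rel hK hv 1 0
  have h0 : ∑ w ∈ (verts K).erase v, pr (0 : Vec n) w • cls (wedge K v) (up 0 w) = 0 :=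
    Finset.sum_eq_zero (fun w _ => by rw [pr_zero_left, zero_smul])
  rw [h0, pr_zero_left, add_zero, one_smul, zero_sub, neg_smul, one_smul] at h
  exact eq_of_sub_eq_zero (by rw [sub_eq_add_neg]; exact h)

/-- the linear form for two rays of the same class -/
private lemma WNc_u (h1 : StH2z) (h2 : StPerp) {K : Finset (Finset (Vec n))} (hK : IsFan K)
    {w w' : Vec n} (hw : w ∈ verts K) (hw' : w' ∈ verts K) (hc : cls K w = cls K w') :
    ∃ u : Vec n, ∀ x ∈ verts K, pr u x = (if x = w then 1 else 0) - (if x = w' then 1 else 0) := by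
  obtain ⟨u, hu⟩ := h2 n K hK (fun x => (if x = w then 1 else 0) - (if x = w' then 1 else 0))
    (h1 n K hK _ (by rw [cl_sub, cl_single hw, cl_single hw', hc, sub_self]))
  exact ⟨u, fun x hx => (hu x hx).symm⟩

/-- two rays different from `v` -/
private lemma WNc_B (h1 : StH2z) (h2 : StPerp) {K : Finset (Finset (Vec n))} (hK : IsFan K)
    {v w w' : Vec n} (hv : v ∈ verts K) (hw : w ∈ verts K) (hw' : w' ∈ verts K) (hwv : w ≠ v)
    (hwv' : w' ≠ v) (hc : cls K w = cls K w') :
    cls (wedge K v) (up 0 w) = cls (wedge K v) (up 0 w') := by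
  obtain ⟨u, hu⟩ := WNc_u h1 h2 hK hw hw' hc
  have h := WNc_rel hK hv 0 u
  have h0 : ∑ x ∈ (verts K).erase v, pr u x • cls (wedge K v) (up 0 x) =
      cls (wedge K v) (up 0 w) - cls (wedge K v) (up 0 w') := by
    rw [Finset.sum_congr rfl (fun x hx => by rw [hu x (Finset.mem_of_mem_erase hx)])]
    simp only [sub_smul, ite_smul, one_smul, zero_smul, Finset.sum_sub_distrib,
      Finset.sum_ite_eq', Finset.mem_erase, hw, hw', hwv, hwv', ne_eq, not_false_eq_true,
      and_self, if_true]
  rw [h0, hu v hv, if_neg hwv.symm, if_neg hwv'.symm, sub_self, sub_self, zero_smul, zero_smul,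
    zero_add, zero_add] at h
  exact sub_eq_zero.1 h

/-- the ray `v` and another ray -/
private lemma WNc_C (h1 : StH2z) (h2 : StPerp) {K : Finset (Finset (Vec n))} (hK : IsFan K)
    {v w' : Vec n} (hv : v ∈ verts K) (hw' : w' ∈ verts K)
    (hwv' : w' ≠ v) (hc : cls K v = cls K w') :
    cls (wedge K v) w1 = cls (wedge K v) (up 0 w') := by
  obtain ⟨u, hu⟩ := WNc_u h1 h2 hK hv hw' hc
  have h := WNc_rel hK hv 1 u
  have h0 : ∑ x ∈ (verts K).erase v, pr u x • cls (wedge K v) (up 0 x) =
      - cls (wedge K v) (up 0 w') := by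
    rw [Finset.sum_congr rfl (fun x hx => by
      rw [hu x (Finset.mem_of_mem_erase hx), if_neg (Finset.ne_of_mem_erase hx), zero_sub])]
    simp only [neg_smul, ite_smul, one_smul, zero_smul, Finset.sum_neg_distrib,
      Finset.sum_ite_eq', Finset.mem_erase, hw', hwv', ne_eq, not_false_eq_true,
      and_self, if_true]
  rw [h0, hu v hv, if_pos rfl, if_neg hwv'.symm, sub_zero, sub_self, zero_smul, one_smul,
    zero_add] at h
  exact eq_of_sub_eq_zero (by rw [sub_eq_add_neg]; exact h)

/-- the collapse -/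
private def WNc_c (v : Vec n) (x : Vec (n + 1)) : Vec n := if x 0 = 0 then Fin.tail x else v

private lemma WNc_c_up (v w : Vec n) : WNc_c v (up 0 w) = w := by
  simp [WNc_c, up]

private lemma WNc_c_w1 (v : Vec n) : WNc_c v w1 = v := by
  simp [WNc_c, w1, up]

private lemma WNc_c_w2 (v : Vec n) : WNc_c v (w2 v) = v := by
  simp [WNc_c, w2, up]

private lemma WNc_main (h1 : StH2z) (h2 : StPerp) {K : Finset (Finset (Vec n))} (hK : IsFan K)
    {v : Vec n} (hv : v ∈ verts K) {x y : Vec (n + 1)} (hx : x ∈ verts (wedge K v))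
    (hy : y ∈ verts (wedge K v)) (h : cls K (WNc_c v x) = cls K (WNc_c v y)) :
    cls (wedge K v) x = cls (wedge K v) y := by
  have key : ∀ z ∈ verts (wedge K v), (WNc_c v z = v ∧ cls (wedge K v) z = cls (wedge K v) w1) ∨
      ∃ w ∈ verts K, w ≠ v ∧ z = up 0 w := by
    intro z hz
    rw [verts_wedge hK hv, Finset.mem_insert, Finset.mem_insert, mem_lift] at hz
    rcases hz with rfl | rfl | ⟨w, hw, rfl⟩
    · exact Or.inl ⟨WNc_c_w1 v, rfl⟩
    · exact Or.inl ⟨WNc_c_w2 v, (WNc_A hK hv).symm⟩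
    · rw [Finset.mem_erase] at hw
      exact Or.inr ⟨w, hw.2, hw.1, rfl⟩
  rcases key x hx with ⟨hx1, hx2⟩ | ⟨w, hw, hwv, rfl⟩
  · rcases key y hy with ⟨hy1, hy2⟩ | ⟨w', hw', hwv', rfl⟩
    · rw [hx2, hy2]
    · rw [hx1, WNc_c_up] at h
      rw [hx2]
      exact WNc_C h1 h2 hK hv hw' hwv' h
  · rcases key y hy with ⟨hy1, hy2⟩ | ⟨w', hw', hwv', rfl⟩
    · rw [hy1, WNc_c_up] at h
      rw [hy2]
      exact (WNc_C h1 h2 hK hv hw hwv h.symm).symm
    · rw [WNc_c_up, WNc_c_up] at h
      exact WNc_B h1 h2 hK hv hw hw' hwv hwv' h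

private lemma WNc_mem {K : Finset (Finset (Vec n))} (hK : IsFan K)
    {v : Vec n} (hv : v ∈ verts K) {x : Vec (n + 1)} (hx : x ∈ verts (wedge K v)) :
    WNc_c v x ∈ verts K := by
  rw [verts_wedge hK hv, Finset.mem_insert, Finset.mem_insert, mem_lift] at hx
  rcases hx with rfl | rfl | ⟨w, hw, rfl⟩
  · rw [WNc_c_w1]; exact hv
  · rw [WNc_c_w2]; exact hv
  · rw [WNc_c_up]; exact Finset.mem_of_mem_erase hw

theorem tWNc (h1 : StH2z) (h2 : StPerp) : StWNc := by
  intro n K v hK hv _
  classical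
  have hch : ∀ a : Coh (wedge K v), ∃ x : Vec (n + 1),
      a ∈ (verts (wedge K v)).image (cls (wedge K v)) →
      x ∈ verts (wedge K v) ∧ cls (wedge K v) x = a := by
    intro a
    by_cases ha : a ∈ (verts (wedge K v)).image (cls (wedge K v))
    · obtain ⟨x, hx, hxa⟩ := Finset.mem_image.1 ha
      exact ⟨x, fun _ => ⟨hx, hxa⟩⟩
    · exact ⟨0, fun h => absurd h ha⟩
  choose g hg using hch
  have key : ((verts (wedge K v)).image (cls (wedge K v))).card ≤
      ((verts K).image (cls K)).card := by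
    refine Finset.card_le_card_of_injOn (fun a => cls K (WNc_c v (g a))) ?_ ?_
    · intro a ha
      exact Finset.mem_coe.2 (Finset.mem_image_of_mem _
        (WNc_mem hK hv (hg a (Finset.mem_coe.1 ha)).1))
    · intro a ha b hb hab
      have ha' := hg a (Finset.mem_coe.1 ha)
      have hb' := hg b (Finset.mem_coe.1 hb)
      rw [← ha'.2, ← hb'.2]
      exact WNc_main h1 h2 hK hv ha'.1 hb'.1 hab
  unfold nc
  exact key

end ToricSR
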