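import Pool.Agent.Lib.MP_3d51eb_gt.SR.Spec

/-!
# MP_3d51eb_gt, project SR, module WSm: the cones of a simplicial wedge are smooth
-/

set_option autoImplicit false

noncomputable section

namespace ToricSR

open Finset MvPolynomial ToricPB

private lemma WSm_mono {m : ℕ} {s t : Finset (Vec m)} (h : s ⊆ t) (ht : Uni t) : Uni s := by
  obtain ⟨b, hb⟩ := ht
  exact ⟨b, fun x hx => hb x (h hx)⟩

private lemma WSm_sub {n : ℕ} {t : Finset (Vec n)} {b : Module.Basis (Fin n) ℤ (Vec n)}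
    (h : ∀ x ∈ t, ∃ i, b i = x) : t ⊆ univ.image b := by
  intro x hx
  obtain ⟨i, hi⟩ := h x hx
  exact mem_image.2 ⟨i, mem_univ i, hi⟩

theorem tWSm (h1 : StUp) (h2 : StUp2) : StWSm := by
  intro n K v hK hv s hs
  obtain ⟨t, ht, hvt, h⟩ := mem_wedge.1 hs
  obtain ⟨b, hb⟩ := hK.smooth t ht
  have hsub : lift t ⊆ lift (univ.image b) := lift_subset.2 (WSm_sub hb)
  rcases h with rfl | rfl | rfl | ⟨h3, rfl⟩
  · exact WSm_mono (hsub.trans (subset_insert _ _)) (h1 n b 0 1 (Or.inl rfl))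
  · exact WSm_mono (insert_subset_insert w1 hsub) (h1 n b 0 1 (Or.inl rfl))
  · exact WSm_mono (insert_subset_insert (w2 v) hsub) (h1 n b v (-1) (Or.inr rfl))
  · obtain ⟨c, hc⟩ := hK.smooth _ h3
    refine WSm_mono ?_ (h2 n c v (hc v (mem_insert_self v t)))
    refine insert_subset_insert _ (insert_subset_insert _ (lift_subset.2 ?_))
    intro x hx
    refine mem_erase.2 ⟨?_, WSm_sub hc (mem_insert_of_mem hx)⟩
    rintro rfl
    exact hvt hx

end ToricSR
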