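import Pool.Agent.Lib.MP_3d51eb_gt.SR.Spec

/-!
# project SR, module WUq: uniqueness of the cone of a simplicial wedge through a point
-/

set_option autoImplicit false

noncomputable section

namespace ToricSR

open Finset MvPolynomial ToricPB

variable {n : ℕ}

private lemma WUq_ins {t : Finset (Vec n)} {v : Vec n} (hv : v ∉ t) {y : Fin n → ℝ} {γ : ℝ}
    (hγ : 0 < γ) (h : InRel t y) : InRel (insert v t) (y + γ • toR v) := by
  obtain ⟨c, hc, rfl⟩ := h
  refine ⟨fun w => if w = v then γ else c w, fun w hw => ?_, ?_⟩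
  · by_cases hwv : w = v
    · simpa [hwv] using hγ
    · have := hc w (by simpa [hwv] using hw)
      simpa [hwv] using this
  · rw [lin_insert hv]
    have : lin t (fun w => if w = v then γ else c w) = lin t c := by
      refine lin_congr fun w hw => ?_
      have : w ≠ v := by rintro rfl; exact hv hw
      simp [this]
    rw [this]
    simp [add_comm]

/-- the four types of the cones of the wedge through the point `(r, x)` -/
private def WUq_T (K : Finset (Finset (Vec n))) (v : Vec n) (r : ℝ) (x : Fin n → ℝ)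
    (S : Finset (Vec (n + 1))) : Prop :=
  ∃ t ∈ K, v ∉ t ∧ ((r = 0 ∧ InRel t x ∧ S = lift t) ∨
    (0 < r ∧ InRel t x ∧ S = insert w1 (lift t)) ∨
    (r < 0 ∧ InRel t (x + r • toR v) ∧ S = insert (w2 v) (lift t)) ∨
    (insert v t ∈ K ∧ InRel (insert v t) x ∧ InRel (insert v t) (x + r • toR v) ∧
      S = insert w1 (insert (w2 v) (lift t))))

private lemma WUq_type (h1 : StWCo) {K : Finset (Finset (Vec n))} {v : Vec n} {r : ℝ}
    {x : Fin n → ℝ} {S : Finset (Vec (n + 1))} (hS : S ∈ wedge K v)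
    (h : InRel S (Fin.cons r x : Fin (n + 1) → ℝ)) : WUq_T K v r x S := by
  obtain ⟨t, ht, hvt, hc⟩ := mem_wedge.1 hS
  obtain ⟨c1, c2, c3, c4⟩ := h1 n t v r x
  refine ⟨t, ht, hvt, ?_⟩
  rcases hc with rfl | rfl | rfl | ⟨hvK, rfl⟩
  · obtain ⟨a, b⟩ := c1.1 h
    exact Or.inl ⟨a, b, rfl⟩
  · obtain ⟨a, b⟩ := c2.1 h
    exact Or.inr (Or.inl ⟨a, b, rfl⟩)
  · obtain ⟨a, b⟩ := c3.1 h
    exact Or.inr (Or.inr (Or.inl ⟨a, b, rfl⟩))
  · obtain ⟨γ, a, b, c⟩ := c4.1 h
    refine Or.inr (Or.inr (Or.inr ⟨hvK, ?_, ?_, rfl⟩))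
    · have := WUq_ins hvt a c
      rwa [sub_add_cancel] at this
    · have := WUq_ins hvt b c
      have e : x - γ • toR v + (r + γ) • toR v = x + r • toR v := by
        rw [add_smul]; abel
      rwa [e] at this

/-- UNIQUENESS. -/
theorem tWUq (h1 : StWCo) : StWUq := by
  intro n K v hK _ X s hs t ht hsX htX
  rw [← Fin.cons_self_tail X] at hsX htX
  obtain ⟨a, ha, hva, hA⟩ := WUq_type h1 hs hsX
  obtain ⟨b, hb, hvb, hB⟩ := WUq_type h1 ht htX
  generalize X 0 = r at hA hB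
  generalize Fin.tail X = x at hA hB
  rcases hA with ⟨a1, a2, rfl⟩ | ⟨a1, a2, rfl⟩ | ⟨a1, a2, rfl⟩ | ⟨a1, a2, a3, rfl⟩ <;>
    rcases hB with ⟨b1, b2, rfl⟩ | ⟨b1, b2, rfl⟩ | ⟨b1, b2, rfl⟩ | ⟨b1, b2, b3, rfl⟩
  · rw [hK.uniq ha hb a2 b2]
  · exact absurd a1 b1.ne'
  · exact absurd a1 b1.ne
  · exact absurd (hK.uniq ha b1 a2 b2 ▸ Finset.mem_insert_self v b) hva
  · exact absurd b1 a1.ne'
  · rw [hK.uniq ha hb a2 b2]
  · exact absurd (a1.trans b1) (lt_irrefl _)
  · exact absurd (hK.uniq ha b1 a2 b2 ▸ Finset.mem_insert_self v b) hva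
  · exact absurd b1 a1.ne
  · exact absurd (a1.trans b1) (lt_irrefl _)
  · rw [hK.uniq ha hb a2 b2]
  · exact absurd (hK.uniq ha b1 a2 b3 ▸ Finset.mem_insert_self v b) hva
  · exact absurd (hK.uniq hb a1 b2 a2 ▸ Finset.mem_insert_self v a) hvb
  · exact absurd (hK.uniq hb a1 b2 a2 ▸ Finset.mem_insert_self v a) hvb
  · exact absurd (hK.uniq hb a1 b2 a3 ▸ Finset.mem_insert_self v a) hvb
  · have h := hK.uniq a1 b1 a2 b2
    have h' : a = b := by
      rw [← Finset.erase_insert hva, ← Finset.erase_insert hvb, h]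
    rw [h']

end ToricSR
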