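import Pool.Agent.Lib.MP_3d51eb_gt.SR.Hom
import Pool.Agent.Lib.MP_3d51eb_gt.SR.Perp
import Pool.Agent.Lib.MP_3d51eb_gt.SR.H2z
import Pool.Agent.Lib.MP_3d51eb_gt.SR.Nz
import Pool.Agent.Lib.MP_3d51eb_gt.SR.Tr
import Pool.Agent.Lib.MP_3d51eb_gt.SR.Es
import Pool.Agent.Lib.MP_3d51eb_gt.SR.Pr
import Pool.Agent.Lib.MP_3d51eb_gt.SR.Nw
import Pool.Agent.Lib.MP_3d51eb_gt.SR.Dim
import Pool.Agent.Lib.MP_3d51eb_gt.SR.Cone
import Pool.Agent.Lib.MP_3d51eb_gt.SR.Ray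
import Pool.Agent.Lib.MP_3d51eb_gt.SR.WDown
import Pool.Agent.Lib.MP_3d51eb_gt.SR.Up
import Pool.Agent.Lib.MP_3d51eb_gt.SR.Up2
import Pool.Agent.Lib.MP_3d51eb_gt.SR.WSm
import Pool.Agent.Lib.MP_3d51eb_gt.SR.WCo
import Pool.Agent.Lib.MP_3d51eb_gt.SR.WEx
import Pool.Agent.Lib.MP_3d51eb_gt.SR.WUq
import Pool.Agent.Lib.MP_3d51eb_gt.SR.WFan
import Pool.Agent.Lib.MP_3d51eb_gt.SR.WNc
import Pool.Agent.Lib.MP_3d51eb_gt.SR.WNb
import Pool.Agent.Lib.MP_3d51eb_gt.SR.WMf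
import Pool.Agent.Lib.MP_3d51eb_gt.SR.WMu
import Pool.Agent.Lib.MP_3d51eb_gt.SR.Mf
import Pool.Agent.Lib.MP_3d51eb_gt.SR.Rel
import Pool.Agent.Lib.MP_3d51eb_gt.SR.Pol
import Pool.Agent.Lib.MP_3d51eb_gt.SR.Sel
import Pool.Agent.Lib.MP_3d51eb_gt.SR.Rk
import Pool.Agent.Lib.MP_3d51eb_gt.SR.Pw
import Pool.Agent.Lib.MP_3d51eb_gt.SR.MomA
import Pool.Agent.Lib.MP_3d51eb_gt.SR.MomB
import Pool.Agent.Lib.MP_3d51eb_gt.SR.Mbg
import Pool.Agent.Lib.MP_3d51eb_gt.SR.MomC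
import Pool.Agent.Lib.MP_3d51eb_gt.SR.Sgn
import Pool.Agent.Lib.MP_3d51eb_gt.SR.Bij2
import Pool.Agent.Lib.MP_3d51eb_gt.SR.WEv
import Pool.Agent.Lib.MP_3d51eb_gt.SR.ThmA2
import Pool.Agent.Lib.MP_3d51eb_gt.SR.WInv
import Pool.Agent.Lib.MP_3d51eb_gt.SR.ThmB2

set_option autoImplicit false

/-! # project SR: assembly -/

namespace ToricSR

theorem aHom : StHom := tHom
theorem aPerp : StPerp := tPerp
theorem aH2z : StH2z := tH2z aHom
theorem aNz : StNz := tNz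
theorem aTr : StTr := tTr aH2z
theorem aEs : StEs := tEs
theorem aPr : StPr := tPr aHom aEs
theorem aNw : StNw := tNw
theorem aDim : StDim := tDim
theorem aCon : StCon := tCon aNz
theorem aRay : StRay := tRay aH2z aPerp
theorem aWDown : StWDown := tWDown
theorem aUp : StUp := tUp
theorem aUp2 : StUp2 := tUp2 aUp
theorem aWSm : StWSm := tWSm aUp aUp2
theorem aWCo : StWCo := tWCo
theorem aWEx : StWEx := tWEx aWCo
theorem aWUq : StWUq := tWUq aWCo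
theorem aWFan : StWFan := tWFan aWDown aWSm aWEx aWUq
theorem aWNc : StWNc := tWNc aH2z aPerp
theorem aWNb : StWNb := tWNb
theorem aWMf : StWMf := tWMf
theorem aWMu : StWMu := tWMu aWMf
theorem aMf : StMf := tMf
theorem aRel : StRel := tRel
theorem aPol : StPol := tPol
theorem aSel : StSel := tSel
theorem aRk : StRk := tRk aDim aH2z
theorem aPw : StPw := tPw aTr aPr aNw
theorem aMomA : StMomA := tMomA aPol aSel
theorem aMomB : StMomB := tMomB aPol aSel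
theorem aMbg : StMbg := tMbg
theorem aMomC : StMomC := tMomC aMomA aMomB aMbg
theorem aSgn : StSgn := tSgn aRel aTr
theorem aBij2 : StBij2 := tBij2 aRel aH2z aPerp aDim aRk aPw aMomC aSgn
theorem aWEv : StWEv := tWEv aWFan aWMu aMf
theorem aThmA2 : ThmA2 := tThmA2 aBij2 aRay aCon
theorem aWInv : StWInv := tWInv aWFan aWNc aWNb
theorem aThmB2 : ThmB2 := tThmB2 aWInv aWEv

end ToricSR
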