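import Pool.Agent.Lib.MP_3d51eb_gt.SR.SpecJ

/-!
# project SR: Fb, large fibres of the J-construction
-/

set_option autoImplicit false

noncomputable section

namespace ToricSR

open Finset MvPolynomial ToricPB

theorem tFb : StFb := by
  classical
  intro n m K L ρ J k hK hJ hk s hs hc
  obtain ⟨_, h2, h3⟩ := hJ
  refine (h3 s hs).2 ?_
  refine Nb_two hK _ (Finset.filter_subset _ _) ?_
  by_contra hcon
  have hgt : 1 < ((verts K).filter (fun v => ∀ x ∈ verts L, ρ x = v → x ∈ s)).card := by omega
  obtain ⟨a, ha, b, hb, hab⟩ := Finset.one_lt_card.1 hgt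
  rw [Finset.mem_filter] at ha hb
  have ea := h2 a ha.1
  have eb := h2 b hb.1
  have ja := hk a ha.1
  have jb := hk b hb.1
  have hdis : Disjoint ((verts L).filter (fun x => ρ x = a)) ((verts L).filter (fun x => ρ x = b)) := by
    rw [Finset.disjoint_left]
    intro x hx hx'
    rw [Finset.mem_filter] at hx hx'
    exact hab (hx.2.symm.trans hx'.2)
  have hsub : (verts L).filter (fun x => ρ x = a) ∪ (verts L).filter (fun x => ρ x = b) ⊆ s := by
    intro x hx
    rcases Finset.mem_union.1 hx with hx | hx
    · rw [Finset.mem_filter] at hx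
      exact ha.2 x hx.1 hx.2
    · rw [Finset.mem_filter] at hx
      exact hb.2 x hx.1 hx.2
  have hle := Finset.card_le_card hsub
  rw [Finset.card_union_of_disjoint hdis] at hle
  omega

end ToricSR
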