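import Pool.Agent.Lib.MP_3d51eb_gt.SR.SpecJ

set_option autoImplicit false

/-! # project SR: iterated wedges are J-constructions -/

noncomputable section

namespace ToricSR

open Finset MvPolynomial ToricPB

lemma isJ_refl {n : ℕ} (K : Finset (Finset (Vec n))) : IsJ K K id (fun _ => 1) := by
  refine ⟨fun x hx => hx, fun v hv => ?_, fun s hs => ?_⟩
  · have : (verts K).filter (fun x => id x = v) = {v} := by
      ext x
      rw [Finset.mem_filter, Finset.mem_singleton]
      constructor
      · exact fun h => h.2
      · rintro rfl; exact ⟨hv, rfl⟩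
    rw [this, Finset.card_singleton]
  · have : (verts K).filter (fun v => ∀ x ∈ verts K, id x = v → x ∈ s) = s := by
      ext v
      rw [Finset.mem_filter]
      constructor
      · exact fun h => h.2 v h.1 rfl
      · intro h
        refine ⟨hs h, fun x _ hxv => ?_⟩
        have hx : x = v := hxv
        rw [hx]; exact h
    rw [this]

theorem tJa (h1 : StSt2) (h2 : StWInv) : StJa := by
  intro n m K L hK hW
  induction hW with
  | refl K => exact ⟨id, fun _ => 1, isJ_refl K, fun _ _ => le_refl _⟩
  | step m K L v hW hv ih =>
    obtain ⟨ρ, J, hJ, h1J⟩ := ih hK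
    refine ⟨_, _, h1 n m K L ρ J v (h2 n m K L hK hW).1 hv hJ, fun u hu => ?_⟩
    have := h1J u hu
    show 1 ≤ J u + _
    omega

end ToricSR
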