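import Pool.Agent.Lib.MP_3d51eb_gt.SR.SpecJ

set_option autoImplicit false

/-! # project SR: every J occurs -/

noncomputable section

namespace ToricSR

open Finset MvPolynomial ToricPB

private lemma Jb_congr {n m : ℕ} {K : Finset (Finset (Vec n))} {L : Finset (Finset (Vec m))}
    {ρ : Vec m → Vec n} {J J' : Vec n → ℕ} (h : IsJ K L ρ J) (hJ : ∀ v ∈ verts K, J v = J' v) :
    IsJ K L ρ J' :=
  ⟨h.1, fun v hv => by rw [h.2.1 v hv, hJ v hv], h.2.2⟩

private lemma Jb_refl {n : ℕ} (K : Finset (Finset (Vec n))) : IsJ K K id (fun _ => 1) := by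
  refine ⟨fun x hx => hx, fun v hv => ?_, fun s hs => ?_⟩
  · have : (verts K).filter (fun x => id x = v) = {v} := by
      ext x
      rw [Finset.mem_filter, Finset.mem_singleton]
      constructor
      · exact fun h => h.2
      · rintro rfl; exact ⟨hv, rfl⟩
    rw [this, Finset.card_singleton]
  · have : (verts K).filter (fun v => ∀ x ∈ verts K, id x = v → x ∈ s) = s := by
      ext v
      rw [Finset.mem_filter]
      constructor
      · exact fun h => h.2 v h.1 rfl
      · intro h
        refine ⟨hs h, fun x _ hxv => ?_⟩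
        have hx : x = v := hxv
        rw [hx]; exact h
    rw [this]

theorem tJb (h1 : StSt2) (h2 : StWInv) : StJb := by
  intro n K hK
  suffices H : ∀ N : ℕ, ∀ J : Vec n → ℕ, (∀ v ∈ verts K, 1 ≤ J v) →
      ∑ v ∈ verts K, (J v - 1) = N → ∃ (m : ℕ) (L : Finset (Finset (Vec m)))
        (ρ : Vec m → Vec n), Wedges n K m L ∧ IsJ K L ρ J from fun J hJ => H _ J hJ rfl
  intro N
  induction N with
  | zero =>
    intro J hJ hs
    refine ⟨n, K, id, Wedges.refl n K, Jb_congr (Jb_refl K) (fun v hv => ?_)⟩
    have h3 := (Finset.sum_eq_zero_iff.1 hs) v hv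
    have h4 := hJ v hv
    omega
  | succ N ih =>
    intro J hJ hs
    obtain ⟨v0, hv0, hne⟩ : ∃ v ∈ verts K, J v - 1 ≠ 0 := by
      by_contra hc
      push Not at hc
      rw [Finset.sum_eq_zero hc] at hs
      omega
    have hsum : ∑ v ∈ verts K, ((fun v => if v = v0 then J v - 1 else J v) v - 1) = N := by
      rw [← Finset.add_sum_erase _ _ hv0] at hs ⊢
      have e : ∑ v ∈ (verts K).erase v0, ((fun v => if v = v0 then J v - 1 else J v) v - 1) =
          ∑ v ∈ (verts K).erase v0, (J v - 1) :=
        Finset.sum_congr rfl (fun v hv => by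
          show (if v = v0 then J v - 1 else J v) - 1 = _
          rw [if_neg (Finset.ne_of_mem_erase hv)])
      rw [e]
      show (if v0 = v0 then J v0 - 1 else J v0) - 1 + _ = N
      rw [if_pos rfl]
      omega
    obtain ⟨m, L, ρ, hW, hIJ⟩ := ih (fun v => if v = v0 then J v - 1 else J v) (by
      intro v hv
      show 1 ≤ if v = v0 then J v - 1 else J v
      split_ifs with h
      · rw [h]; omega
      · exact hJ v hv) hsum
    have hc := hIJ.2.1 v0 hv0
    have hc' : ((verts L).filter (fun x => ρ x = v0)).card = J v0 - 1 := by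
      rw [hc]; simp
    obtain ⟨x, hx⟩ := Finset.card_pos.1 (by rw [hc']; omega :
      0 < ((verts L).filter (fun x => ρ x = v0)).card)
    rw [Finset.mem_filter] at hx
    refine ⟨m + 1, wedge L x, _, Wedges.step n m K L x hW hx.1,
      Jb_congr (h1 n m K L ρ _ x (h2 n m K L hK hW).1 hx.1 hIJ) (fun v hv => ?_)⟩
    show (if v = v0 then J v - 1 else J v) + (if v = ρ x then 1 else 0) = J v
    rw [hx.2]
    have := hJ v hv
    split_ifs with h
    · omega
    · rfl

end ToricSR
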