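import Pool.Agent.Lib.MP_3d51eb_gt.SR.SpecJ

/-!
# MP_3d51eb_gt, project SR: one wedge is a J-construction (module St1, helper69)
-/

set_option autoImplicit false

noncomputable section

namespace ToricSR

open Finset MvPolynomial ToricPB

private lemma St1_up_ne_w1 {n : ℕ} (w : Vec n) : up 0 w ≠ (w1 : Vec (n + 1)) := fun h => by
  have := (up_inj h).1
  omega

private lemma St1_up_ne_w2 {n : ℕ} (v w : Vec n) : up 0 w ≠ w2 v := fun h => by
  have := (up_inj h).1
  omega

/-- membership of the rays of the wedge -/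
private lemma St1_mem {n : ℕ} {K : Finset (Finset (Vec n))} (hK : IsFan K) {v : Vec n}
    (hv : v ∈ verts K) (y : Vec (n + 1)) : y ∈ verts (wedge K v) ↔
      y = w1 ∨ y = w2 v ∨ ∃ w ∈ verts K, w ≠ v ∧ y = up 0 w := by
  rw [verts_wedge hK hv, Finset.mem_insert, Finset.mem_insert, mem_lift]
  constructor
  · rintro (h | h | ⟨w, hw, h⟩)
    · exact Or.inl h
    · exact Or.inr (Or.inl h)
    · exact Or.inr (Or.inr ⟨w, (Finset.mem_erase.1 hw).2, (Finset.mem_erase.1 hw).1, h.symm⟩)
  · rintro (h | h | ⟨w, hw, hne, h⟩)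
    · exact Or.inl h
    · exact Or.inr (Or.inl h)
    · exact Or.inr (Or.inr ⟨w, Finset.mem_erase.2 ⟨hne, hw⟩, h.symm⟩)

private lemma St1_ne {n : ℕ} {K : Finset (Finset (Vec n))} (hK : IsFan K) {v : Vec n}
    (hv : v ∈ verts K) {S : Finset (Vec (n + 1))} {w : Vec n} (hw : w ∈ verts K) (hne : w ≠ v) :
    (∀ y ∈ verts (wedge K v), col v y = w → y ∈ S) ↔ up 0 w ∈ S := by
  constructor
  · intro h
    exact h _ ((St1_mem hK hv _).2 (Or.inr (Or.inr ⟨w, hw, hne, rfl⟩))) (col_up v w)
  · intro h y hy hc
    rcases (St1_mem hK hv y).1 hy with rfl | rfl | ⟨w', _, _, rfl⟩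
    · rw [col_w1] at hc
      exact absurd hc.symm hne
    · rw [col_w2] at hc
      exact absurd hc.symm hne
    · rw [col_up] at hc
      rw [hc]
      exact h

private lemma St1_self {n : ℕ} {K : Finset (Finset (Vec n))} (hK : IsFan K) {v : Vec n}
    (hv : v ∈ verts K) {S : Finset (Vec (n + 1))} :
    (∀ y ∈ verts (wedge K v), col v y = v → y ∈ S) ↔ w1 ∈ S ∧ w2 v ∈ S := by
  constructor
  · intro h
    exact ⟨h _ ((St1_mem hK hv _).2 (Or.inl rfl)) (col_w1 v),
      h _ ((St1_mem hK hv _).2 (Or.inr (Or.inl rfl))) (col_w2 v)⟩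
  · rintro ⟨h1, h2⟩ y hy hc
    rcases (St1_mem hK hv y).1 hy with rfl | rfl | ⟨w', _, hne, rfl⟩
    · exact h1
    · exact h2
    · rw [col_up] at hc
      exact absurd hc hne

theorem tSt1 : StSt1 := by
  intro n K v hK hv S hS
  set F := (verts K).filter (fun w => ∀ y ∈ verts (wedge K v), col v y = w → y ∈ S) with hF
  have hFm : ∀ w, w ∈ F ↔ w ∈ verts K ∧ ∀ y ∈ verts (wedge K v), col v y = w → y ∈ S := by
    intro w
    rw [hF, Finset.mem_filter]
  have hFv : v ∈ F ↔ w1 ∈ S ∧ w2 v ∈ S := by
    rw [hFm, St1_self hK hv]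
    exact ⟨fun h => h.2, fun h => ⟨hv, h⟩⟩
  have hFw : ∀ w, w ≠ v → (w ∈ F ↔ w ∈ verts K ∧ up 0 w ∈ S) := by
    intro w hne
    rw [hFm]
    constructor
    · rintro ⟨h1, h2⟩
      exact ⟨h1, (St1_ne hK hv h1 hne).1 h2⟩
    · rintro ⟨h1, h2⟩
      exact ⟨h1, (St1_ne hK hv h1 hne).2 h2⟩
  constructor
  · intro h
    obtain ⟨t, ht, hvt, hc⟩ := mem_wedge.1 h
    rcases hc with rfl | rfl | rfl | ⟨hi, rfl⟩
    · refine hK.down t ht F (fun w hw => ?_)
      have hne : w ≠ v := by
        rintro rfl
        exact w1_notMem_lift (hFv.1 hw).1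
      exact up_mem_lift.1 ((hFw w hne).1 hw).2
    · refine hK.down t ht F (fun w hw => ?_)
      have hne : w ≠ v := by
        rintro rfl
        rcases Finset.mem_insert.1 (hFv.1 hw).2 with h' | h'
        · exact w1_ne_w2 h'.symm
        · exact w2_notMem_lift h'
      rcases Finset.mem_insert.1 ((hFw w hne).1 hw).2 with h' | h'
      · exact absurd h' (St1_up_ne_w1 w)
      · exact up_mem_lift.1 h'
    · refine hK.down t ht F (fun w hw => ?_)
      have hne : w ≠ v := by
        rintro rfl
        rcases Finset.mem_insert.1 (hFv.1 hw).1 with h' | h'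
        · exact w1_ne_w2 h'
        · exact w1_notMem_lift h'
      rcases Finset.mem_insert.1 ((hFw w hne).1 hw).2 with h' | h'
      · exact absurd h' (St1_up_ne_w2 v w)
      · exact up_mem_lift.1 h'
    · refine hK.down _ hi F (fun w hw => ?_)
      by_cases hne : w = v
      · rw [hne]
        exact Finset.mem_insert_self _ _
      · refine Finset.mem_insert_of_mem ?_
        rcases Finset.mem_insert.1 ((hFw w hne).1 hw).2 with h' | h'
        · exact absurd h' (St1_up_ne_w1 w)
        · rcases Finset.mem_insert.1 h' with h' | h'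
          · exact absurd h' (St1_up_ne_w2 v w)
          · exact up_mem_lift.1 h'
  · intro h
    have ht : F.erase v ∈ K := hK.down F h _ (Finset.erase_subset _ _)
    have hl : ∀ x, x ∈ lift (F.erase v) ↔ x ∈ S ∧ x ≠ w1 ∧ x ≠ w2 v := by
      intro x
      rw [mem_lift]
      constructor
      · rintro ⟨w, hw, rfl⟩
        obtain ⟨hne, hw'⟩ := Finset.mem_erase.1 hw
        exact ⟨((hFw w hne).1 hw').2, St1_up_ne_w1 w, St1_up_ne_w2 v w⟩
      · rintro ⟨hx, h1, h2⟩
        rcases (St1_mem hK hv x).1 (hS hx) with h' | h' | ⟨w, hw, hne, rfl⟩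
        · exact absurd h' h1
        · exact absurd h' h2
        · exact ⟨w, Finset.mem_erase.2 ⟨hne, (hFw w hne).2 ⟨hw, hx⟩⟩, rfl⟩
    refine mem_wedge.2 ⟨F.erase v, ht, Finset.notMem_erase _ _, ?_⟩
    by_cases h1 : (w1 : Vec (n + 1)) ∈ S
    · by_cases h2 : w2 v ∈ S
      · refine Or.inr (Or.inr (Or.inr ⟨?_, ?_⟩))
        · rw [Finset.insert_erase (hFv.2 ⟨h1, h2⟩)]
          exact h
        · ext x
          rw [Finset.mem_insert, Finset.mem_insert, hl]
          constructor
          · intro hx
            by_cases e1 : x = w1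
            · exact Or.inl e1
            · by_cases e2 : x = w2 v
              · exact Or.inr (Or.inl e2)
              · exact Or.inr (Or.inr ⟨hx, e1, e2⟩)
          · rintro (rfl | rfl | hx)
            · exact h1
            · exact h2
            · exact hx.1
      · refine Or.inr (Or.inl ?_)
        ext x
        rw [Finset.mem_insert, hl]
        constructor
        · intro hx
          by_cases e1 : x = w1
          · exact Or.inl e1
          · refine Or.inr ⟨hx, e1, ?_⟩
            rintro rfl
            exact h2 hx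
        · rintro (rfl | hx)
          · exact h1
          · exact hx.1
    · by_cases h2 : w2 v ∈ S
      · refine Or.inr (Or.inr (Or.inl ?_))
        ext x
        rw [Finset.mem_insert, hl]
        constructor
        · intro hx
          by_cases e2 : x = w2 v
          · exact Or.inl e2
          · refine Or.inr ⟨hx, ?_, e2⟩
            rintro rfl
            exact h1 hx
        · rintro (rfl | hx)
          · exact h2
          · exact hx.1
      · refine Or.inl ?_
        ext x
        rw [hl]
        constructor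
        · intro hx
          refine ⟨hx, ?_, ?_⟩
          · rintro rfl
            exact h1 hx
          · rintro rfl
            exact h2 hx
        · exact fun hx => hx.1

end ToricSR
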