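import Pool.Agent.Lib.MP_3d51eb_gt.SR.SpecJ

/-!
# project SR, module St2: one step of the J-construction
-/

set_option autoImplicit false

noncomputable section

namespace ToricSR

open Finset MvPolynomial ToricPB

private lemma St2_col_mem {m : ℕ} {L : Finset (Finset (Vec m))} (hL : IsFan L) {v : Vec m}
    (hv : v ∈ verts L) {y : Vec (m + 1)} (hy : y ∈ verts (wedge L v)) : col v y ∈ verts L := by
  rw [verts_wedge hL hv, Finset.mem_insert, Finset.mem_insert] at hy
  rcases hy with rfl | rfl | hy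
  · rw [col_w1]; exact hv
  · rw [col_w2]; exact hv
  · obtain ⟨w, hw, rfl⟩ := mem_lift.1 hy
    rw [col_up]
    exact (Finset.mem_erase.1 hw).2

private lemma St2_filter_lift {m n : ℕ} (ρ : Vec m → Vec n) (v : Vec m) (u : Vec n)
    (t : Finset (Vec m)) : (lift t).filter (fun y => ρ (col v y) = u) =
      lift (t.filter (fun x => ρ x = u)) := by
  ext y
  rw [Finset.mem_filter, mem_lift, mem_lift]
  constructor
  · rintro ⟨⟨w, hw, rfl⟩, h⟩
    rw [col_up] at h
    exact ⟨w, Finset.mem_filter.2 ⟨hw, h⟩, rfl⟩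
  · rintro ⟨w, hw, rfl⟩
    rw [Finset.mem_filter] at hw
    refine ⟨⟨w, hw.1, rfl⟩, ?_⟩
    rw [col_up]
    exact hw.2

private lemma St2_card {m n : ℕ} {L : Finset (Finset (Vec m))} (hL : IsFan L) {v : Vec m}
    (hv : v ∈ verts L) (ρ : Vec m → Vec n) (u : Vec n) :
    ((verts (wedge L v)).filter (fun y => ρ (col v y) = u)).card =
      ((verts L).filter (fun x => ρ x = u)).card + if u = ρ v then 1 else 0 := by
  obtain ⟨t, ht⟩ : ∃ t, t = (verts L).erase v := ⟨_, rfl⟩
  have hvt : v ∉ t := by rw [ht]; exact Finset.notMem_erase v _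
  have hL' : verts L = insert v t := by rw [ht]; exact (Finset.insert_erase hv).symm
  rw [verts_wedge hL hv, ← ht, hL', Finset.filter_insert, Finset.filter_insert,
    Finset.filter_insert, col_w1, col_w2, St2_filter_lift]
  by_cases h : ρ v = u
  · rw [if_pos h, if_pos h, if_pos h, if_pos h.symm]
    rw [Finset.card_insert_of_notMem, Finset.card_insert_of_notMem,
      Finset.card_insert_of_notMem, card_lift]
    · exact fun hmem => hvt (Finset.mem_filter.1 hmem).1
    · exact w2_notMem_lift
    · rw [Finset.mem_insert, not_or]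
      exact ⟨w1_ne_w2, w1_notMem_lift⟩
  · rw [if_neg h, if_neg h, if_neg h, if_neg (Ne.symm h), card_lift, add_zero]

theorem tSt2 (h1 : StSt1) : StSt2 := by
  intro n m K L ρ J v hL hv hJ
  obtain ⟨ha, hb, hc⟩ := hJ
  refine ⟨fun y hy => ha _ (St2_col_mem hL hv hy), fun u hu => ?_, fun S hS => ?_⟩
  · rw [St2_card hL hv ρ u, hb u hu]
  · rw [h1 m L v hL hv S hS, hc _ (Finset.filter_subset _ _)]
    have e : (verts K).filter (fun u => ∀ x ∈ verts L, ρ x = u →
        x ∈ (verts L).filter (fun w => ∀ y ∈ verts (wedge L v), col v y = w → y ∈ S)) =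
        (verts K).filter (fun u => ∀ y ∈ verts (wedge L v), ρ (col v y) = u → y ∈ S) := by
      refine Finset.filter_congr fun u _ => ⟨fun h y hy hyu => ?_, fun h x hx hxu => ?_⟩
      · exact (Finset.mem_filter.1 (h (col v y) (St2_col_mem hL hv hy) hyu)).2 y hy rfl
      · refine Finset.mem_filter.2 ⟨hx, fun y hy hyx => h y hy ?_⟩
        rw [hyx]
        exact hxu
    rw [e]

end ToricSR
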