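import Pool.Agent.Lib.MP_3d51eb_gt.SR.Spec2
import Pool.Agent.Lib.MP_3d51eb_gt.SR.DefsJ

set_option autoImplicit false

/-!
# project SR: iterated wedges are J-constructions
-/

noncomputable section

namespace ToricSR

open Finset MvPolynomial ToricPB

/-- collapse of the rays of the wedge at `v`: `w1, w2 ↦ v`, `up 0 w ↦ w` -/
def col {n : ℕ} (v : Vec n) (y : Vec (n + 1)) : Vec n :=
  if y = w1 then v else fun i => y i.succ

lemma col_w1 {n : ℕ} (v : Vec n) : col v w1 = v := by simp [col]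

lemma col_w2 {n : ℕ} (v : Vec n) : col v (w2 v) = v := by
  rw [col, if_neg (Ne.symm w1_ne_w2)]
  funext i
  simp [w2, up]

lemma col_up {n : ℕ} (v w : Vec n) : col v (up 0 w) = w := by
  have h : up 0 w ≠ (w1 : Vec (n + 1)) := fun h => by
    have := (up_inj h).1
    omega
  rw [col, if_neg h]
  funext i
  simp [up]

/-- ONE STEP. `verts_wedge`, `mem_wedge`, `col_w1`, `col_w2`, `col_up`. Let `t` be the set of the rays
`w ≠ v` of `K` with `up 0 w ∈ S`. If `w1, w2 ∈ S` the set on the right is `insert v t`, and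
`S = insert w1 (insert (w2 v) (lift t))`; otherwise it is `t`, and `S` is `lift t`, possibly with one of
`w1`, `w2`. -/
def StSt1 : Prop := ∀ (n : ℕ) (K : Finset (Finset (Vec n))) (v : Vec n), IsFan K →
  v ∈ verts K → ∀ S ⊆ verts (wedge K v), S ∈ wedge K v ↔
    (verts K).filter (fun w => ∀ y ∈ verts (wedge K v), col v y = w → y ∈ S) ∈ K

/-- STEP. First clause: `verts_wedge` (`col v y ∈ verts L`). Cardinalities: the fibre of `u` in
`verts (wedge L v)` is the lift of the fibre of `u` in `verts L` if `ρ v ≠ u`, and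
`insert w1 (insert (w2 v) (lift (fibre.erase v)))` if `ρ v = u`. Third clause: `StSt1` and the
hypothesis for the set `T` of the `w ∈ verts L` whose copies under `col v` lie in `S`; the set of the
`u` all of whose copies lie in `T` is the set of the `u` all of whose copies under `ρ ∘ col v` lie in
`S` (every `w ∈ verts L` is `col v y` for a ray `y` of the wedge). -/
def StSt2 : Prop := ∀ (n m : ℕ) (K : Finset (Finset (Vec n))) (L : Finset (Finset (Vec m)))
  (ρ : Vec m → Vec n) (J : Vec n → ℕ) (v : Vec m), IsFan L → v ∈ verts L → IsJ K L ρ J →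
  IsJ K (wedge L v) (fun y => ρ (col v y)) (fun u => J u + if u = ρ v then 1 else 0)

/-- ALL iterated wedges. Induction: `StSt2`; start: `ρ = id`, `J = 1` (`s` is its own set of full
copies). -/
def StJa : Prop := ∀ (n m : ℕ) (K : Finset (Finset (Vec n))) (L : Finset (Finset (Vec m))),
  IsFan K → Wedges n K m L → ∃ (ρ : Vec m → Vec n) (J : Vec n → ℕ), IsJ K L ρ J ∧
    ∀ v ∈ verts K, 1 ≤ J v

/-- ALL `J` occur. Induction on `∑ v ∈ verts K, (J v - 1)`. If it is zero: `L = K`, `ρ = id`.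
Otherwise `J v0 ≥ 2`, `v0 ∈ verts K`; apply the induction hypothesis to `J0` (`J0 v0 = J v0 - 1`, `J0 = J`
elsewhere); `x ∈ verts L` with `ρ x = v0` (`J0 v0 ≥ 1`); `StSt2` for the wedge at `x` (`IsFan L` from
`StWInv`); the new `J` agrees with `J` on `verts K`. -/
def StJb : Prop := ∀ (n : ℕ) (K : Finset (Finset (Vec n))), IsFan K → ∀ J : Vec n → ℕ,
  (∀ v ∈ verts K, 1 ≤ J v) → ∃ (m : ℕ) (L : Finset (Finset (Vec m))) (ρ : Vec m → Vec n),
    Wedges n K m L ∧ IsJ K L ρ J

/-- LARGE FIBRES. The set `F` of the rays `v` of `K` all of whose copies lie in `s`: two different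
elements would give `2 * (k + 1) ≤ s.card`. So `F.card ≤ 1 < 2`, `F ∈ K` (`Nb_two`), `s ∈ L`. -/
def StFb : Prop := ∀ (n m : ℕ) (K : Finset (Finset (Vec n))) (L : Finset (Finset (Vec m)))
  (ρ : Vec m → Vec n) (J : Vec n → ℕ) (k : ℕ), IsFan K → IsJ K L ρ J →
  (∀ v ∈ verts K, k + 1 ≤ J v) → ∀ s ⊆ verts L, s.card ≤ 2 * k + 1 → s ∈ L

end ToricSR
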