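import Pool.Agent.Lib.MP_3d51eb_gt.SR.Spec3
import Pool.Agent.Lib.MP_3d51eb_gt.SR.SpecJ

set_option autoImplicit false

/-! # project SR: explicit J -/

noncomputable section

namespace ToricSR

open Finset MvPolynomial ToricPB

theorem tThmJ (h1 : ThmB2) (h2 : StJa) (h3 : StJb) (h4 : StFb) (n : ℕ)
    (K : Finset (Finset (Vec n))) (hK : IsFan K) :
    (∀ (m : ℕ) (L : Finset (Finset (Vec m))), Wedges n K m L → IsFan L ∧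
      (∃ (ρ : Vec m → Vec n) (J : Vec n → ℕ), IsJ K L ρ J ∧ ∀ v ∈ verts K, 1 ≤ J v) ∧
      ((∀ s ⊆ verts L, s.card ≤ 2 * n + 4 → s ∈ L) → Stab L) ∧
      ∀ (ρ : Vec m → Vec n) (J : Vec n → ℕ), IsJ K L ρ J → (∀ v ∈ verts K, n + 3 ≤ J v) →
        Stab L) ∧
    ∀ J : Vec n → ℕ, (∀ v ∈ verts K, 1 ≤ J v) →
      ∃ (m : ℕ) (L : Finset (Finset (Vec m))) (ρ : Vec m → Vec n), Wedges n K m L ∧
        IsJ K L ρ J := by
  refine ⟨fun m L hW => ?_, h3 n K hK⟩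
  obtain ⟨hL, hS⟩ := (h1 n K hK).1 m L hW
  refine ⟨hL, h2 n m K L hK hW, hS, fun ρ J hJ hv => hS (fun s hs hc => ?_)⟩
  exact h4 n m K L ρ J (n + 2) hK hJ hv s hs (by omega)

theorem tThmUJ (h1 : ThmUB) (h2 : StJa) (h3 : StJb) (h4 : StFb) (n : ℕ)
    (K : Finset (Finset (Vec n))) (hK : IsFan K) (hU : Unim K) :
    (∀ (m : ℕ) (L : Finset (Finset (Vec m))), Wedges n K m L → IsFan L ∧ Unim L ∧
      (∃ (ρ : Vec m → Vec n) (J : Vec n → ℕ), IsJ K L ρ J ∧ ∀ v ∈ verts K, 1 ≤ J v) ∧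
      ∀ (ρ : Vec m → Vec n) (J : Vec n → ℕ), IsJ K L ρ J → (∀ v ∈ verts K, 3 ≤ J v) →
        ∀ s ⊆ verts L, s.card ≤ 4 → s ∈ L) ∧
    ∀ J : Vec n → ℕ, (∀ v ∈ verts K, 1 ≤ J v) →
      ∃ (m : ℕ) (L : Finset (Finset (Vec m))) (ρ : Vec m → Vec n), Wedges n K m L ∧
        IsJ K L ρ J := by
  refine ⟨fun m L hW => ?_, h3 n K hK⟩
  obtain ⟨hL, hUL⟩ := (h1 n K hK hU).1 m L hW
  refine ⟨hL, hUL, h2 n m K L hK hW, fun ρ J hJ hv s hs hc => ?_⟩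
  exact h4 n m K L ρ J 2 hK hJ hv s hs (by omega)

end ToricSR
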