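import Pool.Agent.Lib.MP_3d51eb_gt.SR.All
import Pool.Agent.Lib.MP_3d51eb_gt.SR.St1
import Pool.Agent.Lib.MP_3d51eb_gt.SR.St2
import Pool.Agent.Lib.MP_3d51eb_gt.SR.Ja
import Pool.Agent.Lib.MP_3d51eb_gt.SR.Jb
import Pool.Agent.Lib.MP_3d51eb_gt.SR.Fb
import Pool.Agent.Lib.MP_3d51eb_gt.SR.ThmJ

set_option autoImplicit false

/-! # project SR: assembly, explicit J -/

namespace ToricSR

theorem aSt1 : StSt1 := tSt1
theorem aSt2 : StSt2 := tSt2 aSt1
theorem aJa : StJa := tJa aSt2 aWInv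
theorem aJb : StJb := tJb aSt2 aWInv
theorem aFb : StFb := tFb

end ToricSR
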