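import Pool.Agent.Lib.MP_3d51eb_gt.SR.Spec6

/-!
# project SR: bijection of the rays, circuits with bounded entries (adapted from SR/BijU.lean)
-/

set_option autoImplicit false

noncomputable section

namespace ToricSR

open Finset MvPolynomial ToricPB

private lemma Bij6_zero (h3 : StPerp) (n : ℕ) (K : Finset (Finset (Vec n))) (hK : IsFan K)
    (ψ : Vec n → ℤ) (h : ∀ l ∈ VK K, ev K ψ l = 0) : cl K ψ = 0 := by
  obtain ⟨m, hm⟩ := h3 n K hK ψ h
  rw [cl_congr (χ := pr m) hm, cl_pr]

theorem tBij6 (h1 : StRel) (h2 : StPerp) (h3 : StQ6) (h4 : StIi) (h5 : StSp6) (h6 : StCnt)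
    (h7 : StBf6) (h8 : StSgn) (h9 : StCard) : StBij6 := by
  intro n K K' hK hK' M hM hC hN φ hG hp
  have hex : ∀ w, ∃ χ : Vec n → ℤ, φ (cl K χ) = cls K' w := by
    intro w
    have ha : φ.symm (cls K' w) ∈ H2 K := by
      rw [hG, RingEquiv.apply_symm_apply]
      exact cls_mem w
    obtain ⟨χ, hχ⟩ := exists_cl ha
    exact ⟨χ, by rw [← hχ, RingEquiv.apply_symm_apply]⟩
  choose χ hχ using hex
  have hQ : QP K (verts K') χ M := h3 n K K' hK hK' φ M hN hp χ hχ
  obtain ⟨hs1, hs2⟩ := h8 n K K' hK hK'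
  have hkf : ∀ v ∈ verts K, fv K v ≠ 0 := by
    intro v hv h0
    obtain ⟨a, ha, -, hav⟩ := h1 n K hK v hv
    have h10 : ((a v : ℤ) : ℝ) = 0 := LinearMap.congr_fun h0 ⟨_, ha⟩
    rw [hav] at h10
    norm_num at h10
  have hkg : ∀ w ∈ verts K', gv K (χ w) ≠ 0 := by
    intro w hw h0
    obtain ⟨l, hl, hne⟩ := (hs2 φ hG w hw (χ w) (hχ w)).2
    exact hne (LinearMap.congr_fun h0 ⟨l, hl⟩)
  obtain ⟨hr1, hr2⟩ := h6 (VK K) n (verts K) (verts K') (fv K) (fun w => gv K (χ w))
    {z : VK K | ∃ c : Vec n → ℤ, ZM M c ∧ z.1 = rl c}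
    (fun x hx => by
      refine Subtype.ext (funext fun v => ?_)
      by_cases hv : v ∈ verts K
      · exact hx v hv
      · exact VK_out x.2 hv)
    (fun x => h5 n K M hC x)
    (fun z hz => by
      obtain ⟨c, hc, hz1⟩ := hz
      have hcV : rl c ∈ VK K := hz1 ▸ z.2
      have h10 := h4 n K (verts K') χ M hM hQ c hcV hc
      rw [← hz1] at h10
      exact h10)
    hkf hkg (h9 n K K' hK hK' φ hG)
  obtain ⟨u, hu, huv⟩ := h7 (VK K) n (verts K) (verts K') (fv K) (fun w => gv K (χ w)) hr1 hr2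
    (fun v hv v' hv' c hc => by
      have h9 : c = 1 := hs1 v hv v' hv' c (fun l hl => LinearMap.congr_fun hc ⟨l, hl⟩)
      rw [hc, h9, one_smul])
    (fun w hw v hv c hc => by
      rcases (hs2 φ hG w hw (χ w) (hχ w)).1 v hv c
        (fun l hl => LinearMap.congr_fun hc ⟨l, hl⟩) with h9 | h9
      · left
        rw [hc, h9, one_smul]
      · right
        refine LinearMap.ext (fun l => ?_)
        rw [hc, h9, LinearMap.neg_apply, LinearMap.smul_apply, smul_eq_mul]
        ring)
  classical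
  refine ⟨u, fun v => if gv K (χ (u v)) = fv K v then 1 else -1, hu, fun v => ?_, fun v hv => ?_⟩
  · by_cases h : gv K (χ (u v)) = fv K v
    · exact Or.inl (if_pos h)
    · exact Or.inr (if_neg h)
  · by_cases h : gv K (χ (u v)) = fv K v
    · have h9 : cl K (fun x => (χ (u v)) x - (fun w => if w = v then (1 : ℤ) else 0) x) = 0 := by
        refine Bij6_zero h2 n K hK _ (fun l hl => ?_)
        rw [ev_sub, ev_single hv]
        have h10 : ev K (χ (u v)) l = l v := LinearMap.congr_fun h ⟨l, hl⟩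
        rw [h10, sub_self]
      rw [cl_sub, cl_single hv, sub_eq_zero] at h9
      simp only [if_pos h, one_smul]
      rw [← h9, hχ]
    · have h' : gv K (χ (u v)) = -fv K v := (huv v hv).resolve_left h
      have h9 : cl K (fun x => (χ (u v)) x + (fun w => if w = v then (1 : ℤ) else 0) x) = 0 := by
        refine Bij6_zero h2 n K hK _ (fun l hl => ?_)
        rw [ev_add, ev_single hv]
        have h10 : ev K (χ (u v)) l = -l v := LinearMap.congr_fun h' ⟨l, hl⟩
        rw [h10, neg_add_cancel]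
      rw [cl_add, cl_single hv] at h9
      have h11 : cls K v = -cl K (χ (u v)) := (neg_eq_of_add_eq_zero_right h9).symm
      simp only [if_neg h]
      rw [h11, map_neg, hχ, neg_smul, one_smul]

end ToricSR
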