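import Pool.Agent.Lib.MP_3d51eb_gt.SR.Spec3

/-!
# project SR: module Ca

Every nonzero real relation between the rays dominates a conformal relation of minimal support.
-/

set_option autoImplicit false

noncomputable section

namespace ToricSR

open Finset MvPolynomial ToricPB

private lemma Ca_core {ι : Type} (W : Submodule ℝ (ι → ℝ)) (S : Finset ι)
    (hS : ∀ l ∈ W, ∀ v, v ∉ S → l v = 0) (l : ι → ℝ) (hl : l ∈ W) (hl0 : l ≠ 0) :
    ∃ m ∈ W, m ≠ 0 ∧ (∀ v, m v ≠ 0 → 0 < m v * l v) ∧
      ∀ m' ∈ W, (∀ v, m' v ≠ 0 → m v ≠ 0) → ∃ a : ℝ, m' = a • m := by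
  classical
  let P : ℕ → Prop := fun k => ∃ m ∈ W, m ≠ 0 ∧ (∀ v, m v ≠ 0 → 0 < m v * l v) ∧
    (S.filter (fun v => m v ≠ 0)).card = k
  have hP : ∃ k, P k := ⟨_, l, hl, hl0, fun v hv => mul_self_pos.mpr hv, rfl⟩
  obtain ⟨m, hm, hm0, hml, hmk⟩ := Nat.find_spec hP
  refine ⟨m, hm, hm0, hml, ?_⟩
  -- the case of a common sign
  have key : ∀ m' ∈ W, (∀ v, m' v ≠ 0 → m v ≠ 0) → (∃ v, 0 < m' v * m v) → ∃ a : ℝ, m' = a • m := by
    intro m' hm' hsub hv
    by_contra hc
    set T := S.filter (fun v => 0 < m' v * m v) with hT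
    have hTne : T.Nonempty := by
      obtain ⟨v, hv⟩ := hv
      refine ⟨v, mem_filter.mpr ⟨?_, hv⟩⟩
      by_contra hvS
      rw [hS m hm v hvS, mul_zero] at hv
      exact lt_irrefl _ hv
    obtain ⟨v1, hv1, hmin⟩ := exists_min_image T (fun v => m v / m' v) hTne
    have hv1' : 0 < m' v1 * m v1 := (mem_filter.mp hv1).2
    have hm'1 : m' v1 ≠ 0 := fun h => by
      rw [h, zero_mul] at hv1'
      exact lt_irrefl _ hv1'
    have hm1 : m v1 ≠ 0 := hsub v1 hm'1
    set t := m v1 / m' v1 with ht
    have ht0 : t ≠ 0 := div_ne_zero hm1 hm'1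
    have hmem : m - t • m' ∈ W := W.sub_mem hm (W.smul_mem t hm')
    have hne : m - t • m' ≠ 0 := by
      intro h
      apply hc
      refine ⟨t⁻¹, ?_⟩
      rw [sub_eq_zero.mp h, smul_smul, inv_mul_cancel₀ ht0, one_smul]
    have hval : ∀ v, (m - t • m') v = m v - t * m' v := fun v => by
      simp
    have hsupp : ∀ v, (m - t • m') v ≠ 0 → m v ≠ 0 := by
      intro v hv h
      apply hv
      have h2 : m' v = 0 := by
        by_contra h3
        exact hsub v h3 h
      rw [hval, h, h2, mul_zero, sub_zero]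
    have hsign : ∀ v, (m - t • m') v ≠ 0 → 0 < (m - t • m') v * l v := by
      intro v hv
      have h1 := hsupp v hv
      have h2 := hml v h1
      have h3 : 0 ≤ (m v - t * m' v) * m v := by
        rcases le_or_gt (m' v * m v) 0 with h4 | h4
        · have ht1 : 0 < t := by
            rw [ht]
            have : 0 < m v1 / m' v1 := by
              rw [div_eq_mul_inv]
              have h5 : m v1 * (m' v1)⁻¹ = (m' v1 * m v1) * ((m' v1)⁻¹ * (m' v1)⁻¹) := by
                field_simp
              rw [h5]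
              exact mul_pos hv1' (mul_self_pos.mpr (inv_ne_zero hm'1))
            exact this
          nlinarith [mul_self_nonneg (m v), mul_nonneg ht1.le (neg_nonneg.mpr h4)]
        · have hvT : v ∈ T := by
            refine mem_filter.mpr ⟨?_, h4⟩
            by_contra hvS
            exact h1 (hS m hm v hvS)
          have h5 : t ≤ m v / m' v := hmin v hvT
          have h6 : m' v ≠ 0 := fun h => by
            rw [h, zero_mul] at h4
            exact lt_irrefl _ h4
          have h7 : t * (m' v * m v) ≤ (m v / m' v) * (m' v * m v) :=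
            mul_le_mul_of_nonneg_right h5 h4.le
          have h8 : (m v / m' v) * (m' v * m v) = m v * m v := by
            field_simp
          nlinarith
      rw [hval] at hv ⊢
      have h9 : (m v - t * m' v) * m v ≠ 0 := mul_ne_zero hv h1
      have h10 : 0 < (m v - t * m' v) * m v := lt_of_le_of_ne h3 (Ne.symm h9)
      have h11 : 0 < ((m v - t * m' v) * l v) * (m v * m v) := by
        have := mul_pos h10 h2
        nlinarith
      exact (pos_iff_pos_of_mul_pos h11).mpr (mul_self_pos.mpr h1)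
    have hlt : (S.filter (fun v => (m - t • m') v ≠ 0)).card < (S.filter (fun v => m v ≠ 0)).card := by
      apply card_lt_card
      rw [ssubset_iff_of_subset]
      · refine ⟨v1, mem_filter.mpr ⟨(mem_filter.mp hv1).1, hm1⟩, ?_⟩
        intro h
        apply (mem_filter.mp h).2
        rw [hval, ht, div_mul_cancel₀ _ hm'1, sub_self]
      · intro v hv
        rw [mem_filter] at hv ⊢
        exact ⟨hv.1, hsupp v hv.2⟩
    rw [hmk] at hlt
    exact Nat.find_min hP hlt ⟨_, hmem, hne, hsign, rfl⟩
  intro m' hm' hsub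
  by_cases hz : ∀ v, m' v = 0
  · exact ⟨0, by rw [zero_smul]; exact funext hz⟩
  · push Not at hz
    obtain ⟨v, hv⟩ := hz
    have h1 := hsub v hv
    rcases lt_or_gt_of_ne (mul_ne_zero hv h1) with h2 | h2
    · obtain ⟨a, ha⟩ := key (-m') (W.neg_mem hm') (fun v hv => hsub v (fun h => hv (by simp [h])))
        ⟨v, by simp only [Pi.neg_apply]; linarith⟩
      exact ⟨-a, by rw [neg_smul, ← ha, neg_neg]⟩
    · exact key m' hm' hsub ⟨v, h2⟩

theorem tCa : StCa := fun _ K l hl hl0 =>
  Ca_core (VK K) (verts K) (fun _ h _ hv => VK_out h hv) l hl hl0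

end ToricSR
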