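import Pool.Agent.Lib.MP_3d51eb_gt.SR.Spec

/-!
# MP_3d51eb_gt, project SR: the number of rays is determined by the ring
-/

set_option autoImplicit false

noncomputable section

namespace ToricSR

open Finset MvPolynomial ToricPB

private lemma Card_ev_add {n : ℕ} (K : Finset (Finset (Vec n))) (ψ : Vec n → ℤ)
    (a b : Vec n → ℝ) : ev K ψ (a + b) = ev K ψ a + ev K ψ b := by
  simp only [ev, ← Finset.sum_add_distrib]
  exact Finset.sum_congr rfl (fun v _ => by rw [Pi.add_apply]; ring)

private lemma Card_ev_smul {n : ℕ} (K : Finset (Finset (Vec n))) (ψ : Vec n → ℤ) (c : ℝ)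
    (a : Vec n → ℝ) : ev K ψ (c • a) = c * ev K ψ a := by
  simp only [ev, Finset.mul_sum]
  exact Finset.sum_congr rfl (fun v _ => by rw [Pi.smul_apply, smul_eq_mul]; ring)

private lemma Card_ev_zero {n : ℕ} (K : Finset (Finset (Vec n))) (ψ : Vec n → ℤ) :
    ev K ψ 0 = 0 := by
  simp [ev]

private lemma Card_finite {n : ℕ} (K : Finset (Finset (Vec n))) : Module.Finite ℝ (VK K) := by
  let f : VK K →ₗ[ℝ] (verts K → ℝ) :=
    { toFun := fun l v => l.1 v.1
      map_add' := fun _ _ => rfl
      map_smul' := fun _ _ => rfl }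
  refine Module.Finite.of_injective f ?_
  intro a b hab
  apply Subtype.ext
  funext v
  by_cases hv : v ∈ verts K
  · exact congrFun hab ⟨v, hv⟩
  · rw [VK_out a.2 hv, VK_out b.2 hv]

private lemma Card_le (h1 : StTr) {n : ℕ} {K K' : Finset (Finset (Vec n))} (hK : IsFan K)
    (hK' : IsFan K') (φ : Coh K ≃+* Coh K') (hφ : Grd K K' φ) :
    Module.finrank ℝ (VK K') ≤ Module.finrank ℝ (VK K) := by
  have hψ : ∀ v : Vec n, ∃ ψ : Vec n → ℤ, φ (cls K v) = cl K' ψ := fun v =>
    exists_cl ((hφ (cls K v)).1 (cls_mem v))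
  choose ψ hψ using hψ
  have hTr := h1 n K K' hK hK' φ hφ
  have hmem : ∀ l' : Vec n → ℝ, l' ∈ VK K' → (fun v => ev K' (ψ v) l') ∈ VK K := by
    intro l' hl'
    obtain ⟨l, hl, h2, _⟩ := hTr l' hl'
    have h3 : (fun v => ev K' (ψ v) l') = l := by
      funext v
      exact (h2 v (ψ v) (hψ v)).symm
    rw [h3]
    exact hl
  let f : VK K' →ₗ[ℝ] VK K :=
    { toFun := fun l' => ⟨fun v => ev K' (ψ v) l'.1, hmem l'.1 l'.2⟩
      map_add' := by
        intro a b
        apply Subtype.ext
        funext v
        exact Card_ev_add K' (ψ v) a.1 b.1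
      map_smul' := by
        intro c a
        apply Subtype.ext
        funext v
        exact Card_ev_smul K' (ψ v) c a.1 }
  have hinj : Function.Injective f := by
    rw [injective_iff_map_eq_zero]
    intro l' h0
    apply Subtype.ext
    funext w
    show l'.1 w = 0
    by_cases hw : w ∈ verts K'
    · obtain ⟨l, hl, h2, h3⟩ := hTr l'.1 l'.2
      have hl0 : l = 0 := by
        funext v
        have h4 : l v = ev K' (ψ v) l'.1 := h2 v (ψ v) (hψ v)
        have h5 := congrFun (congrArg Subtype.val h0) v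
        rw [h4]
        exact h5
      have hy : φ.symm (cls K' w) ∈ H2 K := by
        rw [hφ, φ.apply_symm_apply]
        exact cls_mem w
      obtain ⟨χ, hχ⟩ := exists_cl hy
      have h6 : φ (cl K χ) = cl K' (fun x => if x = w then 1 else 0) := by
        rw [← hχ, φ.apply_symm_apply, cl_single hw]
      have h7 := h3 χ _ h6
      rw [hl0, Card_ev_zero, ev_single hw] at h7
      exact h7.symm
    · exact VK_out l'.2 hw
  have := Card_finite K
  exact LinearMap.finrank_le_finrank_of_injective hinj

/-- **Card.** The number of rays. -/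
theorem tCard (h1 : StTr) (h2 : StDim) : StCard := by
  intro n K K' hK hK' φ hφ
  have hφ' : Grd K' K φ.symm := by
    intro y
    rw [hφ (φ.symm y), φ.apply_symm_apply]
  have e1 := Card_le h1 hK hK' φ hφ
  have e2 := Card_le h1 hK' hK φ.symm hφ'
  have e3 := h2 n K hK
  have e4 := h2 n K' hK'
  omega

end ToricSR
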