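import Pool.Agent.Lib.MP_3d51eb_gt.SR.Spec6

/-! # project SR: conformal decomposition, circuits with bounded entries -/

set_option autoImplicit false

noncomputable section

namespace ToricSR

open Finset MvPolynomial ToricPB

/-- the rays where a relation does not vanish -/
private def Cd4_supp {n : ℕ} (K : Finset (Finset (Vec n))) (l : Vec n → ℝ) :
    Finset (Vec n) := by
  classical
  exact (verts K).filter (fun v => l v ≠ 0)

private lemma Cd4_mem {n : ℕ} {K : Finset (Finset (Vec n))} {l : Vec n → ℝ} (hl : l ∈ VK K)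
    {v : Vec n} : v ∈ Cd4_supp K l ↔ l v ≠ 0 := by
  classical
  rw [Cd4_supp, Finset.mem_filter]
  constructor
  · exact fun h => h.2
  · intro h
    refine ⟨?_, h⟩
    by_contra hv
    exact h (VK_out hl hv)

private lemma Cd4_pos {y x : ℝ} (h : 0 < y * x) : 0 < x / y ∧ x = x / y * y := by
  have hy : y ≠ 0 := by
    intro h0
    rw [h0, zero_mul] at h
    exact lt_irrefl _ h
  have hyy : 0 < y * y := mul_self_pos.2 hy
  refine ⟨?_, by rw [div_mul_cancel₀ _ hy]⟩
  have h2 : x / y = y * x / (y * y) := by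
    rw [mul_div_mul_left _ _ hy]
  rw [h2]
  exact div_pos h hyy

theorem tCd4 (h1 : StCirc4) : StCd4 := by
  classical
  intro n K M hM
  suffices H : ∀ N : ℕ, ∀ l ∈ VK K, (Cd4_supp K l).card ≤ N →
      ∃ A : List (ℝ × (Vec n → ℤ)),
      (∀ p ∈ A, 0 < p.1 ∧ rl p.2 ∈ VK K ∧ ZM M p.2 ∧ ∀ v, p.2 v ≠ 0 → 0 < rl p.2 v * l v) ∧
      l = (A.map (fun p => p.1 • rl p.2)).sum from fun l hl => H _ l hl le_rfl
  intro N
  induction N with
  | zero =>
    intro l hl hc
    have hs : Cd4_supp K l = ∅ := Finset.card_eq_zero.1 (Nat.le_zero.1 hc)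
    refine ⟨[], by simp, ?_⟩
    simp only [List.map_nil, List.sum_nil]
    funext v
    by_contra hv
    have := (Cd4_mem hl).2 hv
    rw [hs] at this
    exact absurd this (Finset.notMem_empty v)
  | succ N ih =>
    intro l hl hcard
    by_cases hl0 : l = 0
    · exact ⟨[], by simp, by simp [hl0]⟩
    obtain ⟨c, hcV, hcZ, ⟨v1, hv1⟩, hcl⟩ := h1 n K M hM l hl hl0
    -- the support of c
    have hcK : ∀ v, c v ≠ 0 → v ∈ verts K := by
      intro v hv
      by_contra hvn
      exact hv (by simpa [rl] using VK_out hcV hvn)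
    have hT : ((verts K).filter (fun v => c v ≠ 0)).Nonempty :=
      ⟨v1, Finset.mem_filter.2 ⟨hcK v1 hv1, hv1⟩⟩
    obtain ⟨v0, hv0, hmin⟩ := Finset.exists_min_image _ (fun v => l v / rl c v) hT
    rw [Finset.mem_filter] at hv0
    have ha : 0 < l v0 / rl c v0 := (Cd4_pos (hcl v0 hv0.2)).1
    obtain ⟨a, hadef⟩ : ∃ a : ℝ, a = l v0 / rl c v0 := ⟨_, rfl⟩
    rw [← hadef] at ha
    obtain ⟨l', hl'⟩ : ∃ l' : Vec n → ℝ, l' = l - a • rl c := ⟨_, rfl⟩
    have hl'V : l' ∈ VK K := by
      rw [hl']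
      exact Submodule.sub_mem _ hl (Submodule.smul_mem _ _ hcV)
    have hval : ∀ v, c v ≠ 0 → l' v = (l v / rl c v - a) * rl c v ∧ 0 ≤ l v / rl c v - a := by
      intro v hv
      have h2 := Cd4_pos (hcl v hv)
      refine ⟨?_, ?_⟩
      · rw [hl', sub_mul, ← h2.2]
        rfl
      · rw [hadef]
        exact sub_nonneg.2 (hmin v (Finset.mem_filter.2 ⟨hcK v hv, hv⟩))
    have hval0 : ∀ v, c v = 0 → l' v = l v := by
      intro v hv
      rw [hl']
      show l v - a * rl c v = _
      simp [rl, hv]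
    have hconf : ∀ v, l' v ≠ 0 → ∃ t : ℝ, 0 < t ∧ l v = t * l' v := by
      intro v hv
      by_cases hcv : c v = 0
      · exact ⟨1, one_pos, by rw [hval0 v hcv, one_mul]⟩
      · obtain ⟨h3, h4⟩ := hval v hcv
        have h5 := Cd4_pos (hcl v hcv)
        have h6 : 0 < l v / rl c v - a := by
          rcases h4.lt_or_eq with h | h
          · exact h
          · exact absurd (by rw [h3, ← h, zero_mul]) hv
        refine ⟨l v / rl c v / (l v / rl c v - a), div_pos h5.1 h6, ?_⟩
        rw [h3, ← mul_assoc, div_mul_cancel₀ _ h6.ne', ← h5.2]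
    have hsub : Cd4_supp K l' ⊆ (Cd4_supp K l).erase v0 := by
      intro v hv
      rw [Cd4_mem hl'V] at hv
      rw [Finset.mem_erase, Cd4_mem hl]
      constructor
      · rintro rfl
        obtain ⟨h3, _⟩ := hval v hv0.2
        exact hv (by rw [h3, hadef, sub_self, zero_mul])
      · obtain ⟨t, ht, h3⟩ := hconf v hv
        rw [h3]
        exact mul_ne_zero ht.ne' hv
    have hmem0 : v0 ∈ Cd4_supp K l := by
      rw [Cd4_mem hl]
      intro h
      have h3 := hcl v0 hv0.2
      rw [h, mul_zero] at h3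
      exact lt_irrefl _ h3
    have hcard' : (Cd4_supp K l').card ≤ N := by
      have h3 := Finset.card_le_card hsub
      rw [Finset.card_erase_of_mem hmem0] at h3
      omega
    obtain ⟨A, hA, hsum⟩ := ih l' hl'V hcard'
    refine ⟨(a, c) :: A, ?_, ?_⟩
    · intro p hp
      rcases List.mem_cons.1 hp with rfl | hp
      · exact ⟨ha, hcV, hcZ, hcl⟩
      · obtain ⟨h3, h4, h5, h6⟩ := hA p hp
        refine ⟨h3, h4, h5, fun v hv => ?_⟩
        have h7 := h6 v hv
        have hne : l' v ≠ 0 := by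
          intro h
          rw [h, mul_zero] at h7
          exact lt_irrefl _ h7
        obtain ⟨t, ht, h8⟩ := hconf v hne
        rw [h8, mul_left_comm]
        exact mul_pos ht h7
    · rw [List.map_cons, List.sum_cons, ← hsum, hl']
      abel

end ToricSR
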