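import Pool.Agent.Lib.MP_3d51eb_gt.SR.Bas

set_option autoImplicit false

/-!
# project SR: counting nonzero values on circuits

Two finite families `f`, `g` of functionals, `g` not smaller than `f`, and a set `C` of vectors which spans all the flats
of `f`, such that on every vector of `C` at most as many `g w` as `f v` are not zero. Then `f` and `g` have
the same classes of parallel functionals, with the same cardinalities.
-/

noncomputable section

namespace ToricSR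

open Finset ToricPB

open Classical in
/-- COUNTING. Induction on flats. -/
def StCnt6 : Prop := ∀ (V : Type) [AddCommGroup V] [Module ℝ V] (n : ℕ)
  (S S' : Finset (Vec n)) (f g : Vec n → V →ₗ[ℝ] ℝ) (C : Set V),
  (∀ U ⊆ S, ∀ x, (∀ v ∈ U, f v x = 0) →
    x ∈ Submodule.span ℝ {c | c ∈ C ∧ ∀ v ∈ U, f v c = 0}) →
  (∀ c ∈ C, (S'.filter (fun w => g w c ≠ 0)).card ≤ (S.filter (fun v => f v c ≠ 0)).card) →
  (∀ v ∈ S, f v ≠ 0) → (∀ w ∈ S', g w ≠ 0) → S.card ≤ S'.card →
  (∀ w ∈ S', ∃ v ∈ S, ∃ c : ℝ, g w = c • f v) ∧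
  ∀ v0 ∈ S, (S.filter (fun v => ∃ c : ℝ, f v = c • f v0)).card =
    (S'.filter (fun w => ∃ c : ℝ, g w = c • f v0)).card

private def ny {V : Type} [AddCommGroup V] [Module ℝ V] {n : ℕ} (f : Vec n → V →ₗ[ℝ] ℝ)
    (U : Finset (Vec n)) (h : V →ₗ[ℝ] ℝ) : Prop := ∃ x, (∀ v ∈ U, f v x = 0) ∧ h x ≠ 0

private lemma ny_mono {V : Type} [AddCommGroup V] [Module ℝ V] {n : ℕ} {f : Vec n → V →ₗ[ℝ] ℝ}
    {U : Finset (Vec n)} {u : Vec n} {h : V →ₗ[ℝ] ℝ} (H : ny f (insert u U) h) : ny f U h := by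
  obtain ⟨x, h1, h2⟩ := H
  exact ⟨x, fun v hv => h1 v (Finset.mem_insert_of_mem hv), h2⟩

private lemma ny_par {V : Type} [AddCommGroup V] [Module ℝ V] {n : ℕ} {f : Vec n → V →ₗ[ℝ] ℝ}
    {U : Finset (Vec n)} {u : Vec n} (hu : ny f U (f u)) :
    ∃ x0, (∀ v ∈ U, f v x0 = 0) ∧ ∀ h : V →ₗ[ℝ] ℝ, ¬ ny f (insert u U) h →
      ∀ x, (∀ v ∈ U, f v x = 0) → h x = f u x * h x0 := by
  obtain ⟨y, hy1, hy2⟩ := hu
  obtain ⟨x0, hx0⟩ : ∃ x0, x0 = (f u y)⁻¹ • y := ⟨_, rfl⟩
  have h1 : ∀ v ∈ U, f v x0 = 0 := by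
    intro v hv
    rw [hx0, map_smul, hy1 v hv, smul_zero]
  have h2 : f u x0 = 1 := by
    rw [hx0, map_smul, smul_eq_mul, inv_mul_cancel₀ hy2]
  refine ⟨x0, h1, fun h hn x hx => ?_⟩
  have h5 : h (x - f u x • x0) = 0 := by
    by_contra h6
    apply hn
    refine ⟨x - f u x • x0, fun v hv => ?_, h6⟩
    rcases Finset.mem_insert.1 hv with rfl | hv
    · rw [map_sub, map_smul, h2, smul_eq_mul, mul_one, sub_self]
    · rw [map_sub, map_smul, hx v hv, h1 v hv, smul_zero, sub_self]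
  rw [map_sub, map_smul, smul_eq_mul, sub_eq_zero] at h5
  exact h5

open Classical in
private lemma step6 {V : Type} [AddCommGroup V] [Module ℝ V] {n : ℕ}
    {S S' : Finset (Vec n)} {f g : Vec n → V →ₗ[ℝ] ℝ} {C : Set V}
    (hC : ∀ U ⊆ S, ∀ x, (∀ v ∈ U, f v x = 0) →
      x ∈ Submodule.span ℝ {c | c ∈ C ∧ ∀ v ∈ U, f v c = 0})
    (hN : ∀ c ∈ C, (S'.filter (fun w => g w c ≠ 0)).card ≤
      (S.filter (fun v => f v c ≠ 0)).card)
    (U : Finset (Vec n)) (hU : U ⊆ S)
    (hPR : ∀ u ∈ S.filter (fun v => ny f U (f v)),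
      ((S.filter (fun v => ny f U (f v))).filter (fun v => ¬ ny f (insert u U) (f v))).card ≤
      ((S'.filter (fun w => ny f U (g w))).filter (fun w => ¬ ny f (insert u U) (g w))).card) :
    (S'.filter (fun w => ny f U (g w))).card ≤ (S.filter (fun v => ny f U (f v))).card ∧
    (∀ u ∈ S.filter (fun v => ny f U (f v)),
      ((S.filter (fun v => ny f U (f v))).filter (fun v => ¬ ny f (insert u U) (f v))).card =
      ((S'.filter (fun w => ny f U (g w))).filter
        (fun w => ¬ ny f (insert u U) (g w))).card) ∧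
    ∀ w ∈ S'.filter (fun w => ny f U (g w)), ∃ u ∈ S.filter (fun v => ny f U (f v)),
      ¬ ny f (insert u U) (g w) := by
  obtain ⟨A, hAd⟩ : ∃ A, A = S.filter (fun v => ny f U (f v)) := ⟨_, rfl⟩
  obtain ⟨B, hBd⟩ : ∃ B, B = S'.filter (fun w => ny f U (g w)) := ⟨_, rfl⟩
  rw [← hAd, ← hBd] at hPR ⊢
  obtain ⟨P, hPd⟩ : ∃ P : Vec n → Finset (Vec n),
      P = fun u => A.filter (fun v => ¬ ny f (insert u U) (f v)) := ⟨_, rfl⟩
  obtain ⟨R, hRd⟩ : ∃ R : Vec n → Finset (Vec n),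
      R = fun u => B.filter (fun w => ¬ ny f (insert u U) (g w)) := ⟨_, rfl⟩
  have hPR' : ∀ u ∈ A, (P u).card ≤ (R u).card := by
    intro u hu
    rw [hPd, hRd]
    exact hPR u hu
  have memA : ∀ u, u ∈ A ↔ u ∈ S ∧ ny f U (f u) := by
    intro u
    rw [hAd, Finset.mem_filter]
  have memB : ∀ w, w ∈ B ↔ w ∈ S' ∧ ny f U (g w) := by
    intro w
    rw [hBd, Finset.mem_filter]
  have memP : ∀ u v, v ∈ P u ↔ v ∈ A ∧ ¬ ny f (insert u U) (f v) := by
    intro u v
    rw [hPd]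
    exact Finset.mem_filter
  have memR : ∀ u w, w ∈ R u ↔ w ∈ B ∧ ¬ ny f (insert u U) (g w) := by
    intro u w
    rw [hRd]
    exact Finset.mem_filter
  -- `w ∈ R u`: the same zeros
  have zR : ∀ u ∈ A, ∀ w ∈ R u, ∀ x, (∀ v ∈ U, f v x = 0) → (f u x = 0 ↔ g w x = 0) := by
    intro u hu w hw x hx
    obtain ⟨hw1, hw2⟩ := (memR u w).1 hw
    obtain ⟨hwS, y, hy1, hy2⟩ := (memB w).1 hw1
    obtain ⟨x0, h1, h5⟩ := ny_par ((memA u).1 hu).2
    have hz0 : g w x0 ≠ 0 := by
      intro h0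
      apply hy2
      rw [h5 (g w) hw2 y hy1, h0, mul_zero]
    rw [h5 (g w) hw2 x hx]
    constructor
    · intro h
      rw [h, zero_mul]
    · intro h
      exact (mul_eq_zero.1 h).resolve_right hz0
  have TP : ∀ u ∈ A, ∀ u' ∈ A, ∀ w, w ∈ R u → w ∈ R u' → u' ∈ P u := by
    intro u hu u' hu' w hw hw'
    obtain ⟨hw1, hw2⟩ := (memR u w).1 hw
    rw [memP]
    refine ⟨hu', ?_⟩
    rintro ⟨x, hx1, hx2⟩
    have hxU : ∀ v ∈ U, f v x = 0 := fun v hv => hx1 v (Finset.mem_insert_of_mem hv)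
    have h7 : g w x = 0 := by
      by_contra h8
      exact hw2 ⟨x, hx1, h8⟩
    exact hx2 ((zR u' hu' w hw' x hxU).2 h7)
  have selfP : ∀ u ∈ A, u ∈ P u := by
    intro u hu
    rw [memP]
    refine ⟨hu, ?_⟩
    rintro ⟨x, hx1, hx2⟩
    exact hx2 (hx1 u (Finset.mem_insert_self _ _))
  have Ppos : ∀ u ∈ A, (0 : ℝ) < ((P u).card : ℝ) := by
    intro u hu
    exact_mod_cast Finset.card_pos.2 ⟨u, selfP u hu⟩
  obtain ⟨T, hTd⟩ : ∃ T : Vec n → Finset (Vec n), T = fun w => A.filter (fun u => w ∈ R u) :=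
    ⟨_, rfl⟩
  have memT : ∀ w u, u ∈ T w ↔ u ∈ A ∧ w ∈ R u := by
    intro w u
    rw [hTd]
    exact Finset.mem_filter
  -- weights
  have wt : ∀ w, ∑ u ∈ T w, (1 : ℝ) / ((P u).card : ℝ) ≤ 1 := by
    intro w
    rcases Finset.eq_empty_or_nonempty (T w) with h0 | hne
    · rw [h0, Finset.sum_empty]
      exact zero_le_one
    · have hc : (0 : ℝ) < ((T w).card : ℝ) := by exact_mod_cast Finset.card_pos.2 hne
      calc ∑ u ∈ T w, (1 : ℝ) / ((P u).card : ℝ) ≤ ∑ _u ∈ T w, (1 : ℝ) / ((T w).card : ℝ) := by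
            refine Finset.sum_le_sum fun u hu => ?_
            obtain ⟨hu1, hu2⟩ := (memT w u).1 hu
            refine one_div_le_one_div_of_le hc ?_
            have : T w ⊆ P u := by
              intro u' hu'
              obtain ⟨h1, h2⟩ := (memT w u').1 hu'
              exact TP u hu1 u' h1 w hu2 h2
            exact_mod_cast Finset.card_le_card this
        _ = 1 := by
            rw [Finset.sum_const, nsmul_eq_mul]
            field_simp
  -- exchange of sums
  have exch : ∀ F : Vec n → ℝ, ∑ w ∈ B, ∑ u ∈ T w, F u / ((P u).card : ℝ) =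
      ∑ u ∈ A, ((R u).card : ℝ) * (F u / ((P u).card : ℝ)) := by
    intro F
    have h1 : ∀ w ∈ B, ∑ u ∈ T w, F u / ((P u).card : ℝ) =
        ∑ u ∈ A, if w ∈ R u then F u / ((P u).card : ℝ) else 0 := by
      intro w _
      rw [hTd, Finset.sum_filter]
    rw [Finset.sum_congr rfl h1, Finset.sum_comm]
    refine Finset.sum_congr rfl fun u _ => ?_
    rw [← Finset.sum_filter]
    have h2 : B.filter (fun w => w ∈ R u) = R u := by
      ext w
      rw [Finset.mem_filter]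
      exact ⟨fun h => h.2, fun h => ⟨((memR u w).1 h).1, h⟩⟩
    rw [h2, Finset.sum_const, nsmul_eq_mul]
  -- indicator of nonzero values
  obtain ⟨I, hI⟩ : ∃ I : ℝ → ℝ, I = fun t => if t ≠ 0 then 1 else 0 := ⟨_, rfl⟩
  have I0 : ∀ t, 0 ≤ I t := by
    intro t
    rw [hI]
    simp only
    split_ifs
    · exact zero_le_one
    · exact le_refl _
  have I1 : ∀ t, t ≠ 0 → I t = 1 := by
    intro t ht
    rw [hI]
    exact if_pos ht
  have Iz : I 0 = 0 := by
    rw [hI]
    exact if_neg (fun h => h rfl)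
  have IR : ∀ u ∈ A, ∀ w ∈ R u, ∀ x, (∀ v ∈ U, f v x = 0) → I (f u x) = I (g w x) := by
    intro u hu w hw x hx
    by_cases h : f u x = 0
    · rw [h, (zR u hu w hw x hx).1 h]
    · rw [I1 _ h, I1 _ (fun h2 => h ((zR u hu w hw x hx).2 h2))]
  -- sums over `A`, `B`
  have sA : ∀ c ∈ C, (∀ v ∈ U, f v c = 0) → ∑ w ∈ B, I (g w c) ≤ ∑ v ∈ A, I (f v c) := by
    intro c hc hx
    have h1 : ∑ v ∈ A, I (f v c) = ((S.filter (fun v => f v c ≠ 0)).card : ℝ) := by
      have h2 : ∑ v ∈ A, I (f v c) = ∑ v ∈ S, I (f v c) := by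
        rw [hAd]
        refine Finset.sum_filter_of_ne fun v hv hne => ⟨c, hx, fun h0 => hne ?_⟩
        rw [h0, Iz]
      rw [h2, hI, Finset.sum_ite, Finset.sum_const_zero, add_zero, Finset.sum_const,
        nsmul_eq_mul, mul_one]
    have h3 : ∑ w ∈ B, I (g w c) = ((S'.filter (fun v => g v c ≠ 0)).card : ℝ) := by
      have h2 : ∑ v ∈ B, I (g v c) = ∑ v ∈ S', I (g v c) := by
        rw [hBd]
        refine Finset.sum_filter_of_ne fun v hv hne => ⟨c, hx, fun h0 => hne ?_⟩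
        rw [h0, Iz]
      rw [h2, hI, Finset.sum_ite, Finset.sum_const_zero, add_zero, Finset.sum_const,
        nsmul_eq_mul, mul_one]
    rw [h1, h3]
    exact_mod_cast hN c hc
  -- the chain
  have c1 : ∀ x, ∀ u ∈ A, I (f u x) ≤ ((R u).card : ℝ) * (I (f u x) / ((P u).card : ℝ)) := by
    intro x u hu
    have h1 := Ppos u hu
    have h2 : ((P u).card : ℝ) ≤ ((R u).card : ℝ) := by exact_mod_cast hPR' u hu
    rw [mul_div_assoc', le_div_iff₀ h1]
    nlinarith [I0 (f u x)]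
  have e2 : ∀ x, (∀ v ∈ U, f v x = 0) → ∀ w,
      ∑ u ∈ T w, I (f u x) / ((P u).card : ℝ) =
        I (g w x) * ∑ u ∈ T w, ((1 : ℝ) / ((P u).card : ℝ)) := by
    intro x hx w
    rw [Finset.mul_sum]
    refine Finset.sum_congr rfl fun u hu => ?_
    obtain ⟨hu1, hu2⟩ := (memT w u).1 hu
    rw [mul_one_div, IR u hu1 w hu2 x hx]
  have c2 : ∀ x, (∀ v ∈ U, f v x = 0) → ∀ w ∈ B,
      ∑ u ∈ T w, I (f u x) / ((P u).card : ℝ) ≤ I (g w x) := by
    intro x hx w _
    rw [e2 x hx w]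
    calc I (g w x) * ∑ u ∈ T w, ((1 : ℝ) / ((P u).card : ℝ)) ≤ I (g w x) * 1 :=
          mul_le_mul_of_nonneg_left (wt w) (I0 _)
      _ = I (g w x) := mul_one _
  have tot : ∀ c ∈ C, (∀ v ∈ U, f v c = 0) →
      ∑ u ∈ A, ((R u).card : ℝ) * (I (f u c) / ((P u).card : ℝ)) = ∑ u ∈ A, I (f u c) := by
    intro c hc hx
    refine le_antisymm ?_ (Finset.sum_le_sum (c1 c))
    rw [← exch (fun u => I (f u c))]
    exact (Finset.sum_le_sum (c2 c hx)).trans (sA c hc hx)
  have spn : ∀ h : V →ₗ[ℝ] ℝ, ny f U h → ∃ c ∈ C, (∀ v ∈ U, f v c = 0) ∧ h c ≠ 0 := by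
    rintro h ⟨x, hx, hxh⟩
    by_contra hcon
    push Not at hcon
    apply hxh
    have h1 := hC U hU x hx
    have h2 : Submodule.span ℝ {c | c ∈ C ∧ ∀ v ∈ U, f v c = 0} ≤ LinearMap.ker h := by
      rw [Submodule.span_le]
      intro c hc
      exact hcon c hc.1 hc.2
    exact h2 h1
  have eR : ∀ u ∈ A, (R u).card = (P u).card := by
    intro u hu
    obtain ⟨c, hc, hx, hxu⟩ := spn (f u) ((memA u).1 hu).2
    have h1 := (Finset.sum_eq_sum_iff_of_le (c1 c)).1 (tot c hc hx).symm u hu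
    have h2 := Ppos u hu
    rw [I1 _ hxu, mul_one_div, eq_comm, div_eq_one_iff_eq h2.ne'] at h1
    exact_mod_cast h1
  have wt1 : ∀ w ∈ B, ∑ u ∈ T w, (1 : ℝ) / ((P u).card : ℝ) = 1 := by
    intro w hw
    obtain ⟨c, hc, hx, hxw⟩ := spn (g w) ((memB w).1 hw).2
    have h1 : ∑ w ∈ B, ∑ u ∈ T w, I (f u c) / ((P u).card : ℝ) = ∑ w ∈ B, I (g w c) := by
      refine le_antisymm (Finset.sum_le_sum (c2 c hx)) ?_
      rw [exch (fun u => I (f u c)), tot c hc hx]
      exact sA c hc hx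
    have h2 := (Finset.sum_eq_sum_iff_of_le (c2 c hx)).1 h1 w hw
    rw [e2 c hx w, I1 _ hxw, one_mul] at h2
    exact h2
  refine ⟨?_, ?_, ?_⟩
  · have h1 : ∑ w ∈ B, ∑ u ∈ T w, (1 : ℝ) / ((P u).card : ℝ) = ∑ _w ∈ B, (1 : ℝ) :=
      Finset.sum_congr rfl wt1
    rw [exch (fun _ => (1 : ℝ))] at h1
    have h2 : ∑ u ∈ A, ((R u).card : ℝ) * ((1 : ℝ) / ((P u).card : ℝ)) = ∑ _u ∈ A, (1 : ℝ) := by
      refine Finset.sum_congr rfl fun u hu => ?_
      rw [eR u hu]
      have := (Ppos u hu).ne'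
      field_simp
    rw [h2, Finset.sum_const, Finset.sum_const, nsmul_eq_mul, nsmul_eq_mul, mul_one, mul_one] at h1
    have h3 : A.card = B.card := by exact_mod_cast h1
    exact h3.ge
  · intro u hu
    have h1 := eR u hu
    rw [hPd, hRd] at h1
    exact h1.symm
  · intro w hw
    have h1 := wt1 w hw
    rcases Finset.eq_empty_or_nonempty (T w) with h0 | ⟨u, hu⟩
    · rw [h0, Finset.sum_empty] at h1
      exact absurd h1 zero_ne_one
    · obtain ⟨hu1, hu2⟩ := (memT w u).1 hu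
      exact ⟨u, hu1, ((memR u w).1 hu2).2⟩

open Classical in
private lemma bound6 {V : Type} [AddCommGroup V] [Module ℝ V] {n : ℕ}
    {S S' : Finset (Vec n)} {f g : Vec n → V →ₗ[ℝ] ℝ} {C : Set V}
    (hC : ∀ U ⊆ S, ∀ x, (∀ v ∈ U, f v x = 0) →
      x ∈ Submodule.span ℝ {c | c ∈ C ∧ ∀ v ∈ U, f v c = 0})
    (hN : ∀ c ∈ C, (S'.filter (fun w => g w c ≠ 0)).card ≤
      (S.filter (fun v => f v c ≠ 0)).card) :
    ∀ (N : ℕ) (U : Finset (Vec n)), U ⊆ S → (S.filter (fun v => ny f U (f v))).card = N →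
      (S'.filter (fun w => ny f U (g w))).card ≤ (S.filter (fun v => ny f U (f v))).card ∧
      ((S.filter (fun v => ny f U (f v))).card ≤ (S'.filter (fun w => ny f U (g w))).card →
      ∀ u ∈ S.filter (fun v => ny f U (f v)),
      ((S.filter (fun v => ny f U (f v))).filter (fun v => ¬ ny f (insert u U) (f v))).card ≤
      ((S'.filter (fun w => ny f U (g w))).filter (fun w => ¬ ny f (insert u U) (g w))).card) := by
  intro N
  induction N using Nat.strong_induction_on with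
  | _ N ih =>
    intro U hU hN'
    have key : (S.filter (fun v => ny f U (f v))).card ≤
        (S'.filter (fun w => ny f U (g w))).card →
        ∀ u ∈ S.filter (fun v => ny f U (f v)),
        ((S.filter (fun v => ny f U (f v))).filter (fun v => ¬ ny f (insert u U) (f v))).card ≤
        ((S'.filter (fun w => ny f U (g w))).filter
          (fun w => ¬ ny f (insert u U) (g w))).card := by
      intro hle u hu
      have huS : u ∈ S := (Finset.mem_filter.1 hu).1
      have e1 : (S.filter (fun v => ny f U (f v))).filter (fun v => ny f (insert u U) (f v)) =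
          S.filter (fun v => ny f (insert u U) (f v)) := by
        ext v
        simp only [Finset.mem_filter]
        exact ⟨fun h => ⟨h.1.1, h.2⟩, fun h => ⟨⟨h.1, ny_mono h.2⟩, h.2⟩⟩
      have e2 : (S'.filter (fun v => ny f U (g v))).filter (fun v => ny f (insert u U) (g v)) =
          S'.filter (fun v => ny f (insert u U) (g v)) := by
        ext v
        simp only [Finset.mem_filter]
        exact ⟨fun h => ⟨h.1.1, h.2⟩, fun h => ⟨⟨h.1, ny_mono h.2⟩, h.2⟩⟩
      have hlt : (S.filter (fun v => ny f (insert u U) (f v))).card < N := by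
        rw [← hN']
        refine Finset.card_lt_card ⟨?_, ?_⟩
        · intro v hv
          rw [Finset.mem_filter] at hv ⊢
          exact ⟨hv.1, ny_mono hv.2⟩
        · intro hsub
          have h1 := hsub hu
          rw [Finset.mem_filter] at h1
          obtain ⟨x, hx1, hx2⟩ := h1.2
          exact hx2 (hx1 u (Finset.mem_insert_self _ _))
      have hI := (ih _ hlt (insert u U) (Finset.insert_subset huS hU) rfl).1
      have c1 := Finset.card_filter_add_card_filter_not (s := S.filter (fun v => ny f U (f v)))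
        (fun v => ny f (insert u U) (f v))
      have c2 := Finset.card_filter_add_card_filter_not (s := S'.filter (fun v => ny f U (g v)))
        (fun v => ny f (insert u U) (g v))
      rw [e1] at c1
      rw [e2] at c2
      omega
    refine ⟨?_, key⟩
    by_contra hlt
    rw [not_le] at hlt
    have h1 := (step6 hC hN U hU (key hlt.le)).1
    omega

private lemma ny_empty {V : Type} [AddCommGroup V] [Module ℝ V] {n : ℕ}
    {f : Vec n → V →ₗ[ℝ] ℝ} {h : V →ₗ[ℝ] ℝ} (hh : h ≠ 0) : ny f ∅ h := by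
  by_contra h1
  apply hh
  refine LinearMap.ext fun y => ?_
  by_contra h2
  exact h1 ⟨y, fun v hv => absurd hv (Finset.notMem_empty v), h2⟩

private lemma par_iff {V : Type} [AddCommGroup V] [Module ℝ V] {n : ℕ}
    {f : Vec n → V →ₗ[ℝ] ℝ} {u : Vec n} (hu : f u ≠ 0) (h : V →ₗ[ℝ] ℝ) :
    ¬ ny f (insert u ∅) h ↔ ∃ c : ℝ, h = c • f u := by
  constructor
  · intro hn
    obtain ⟨x0, _, h5⟩ := ny_par (f := f) (U := ∅) (u := u) (ny_empty hu)
    refine ⟨h x0, LinearMap.ext fun x => ?_⟩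
    rw [LinearMap.smul_apply, smul_eq_mul,
      h5 h hn x (fun v hv => absurd hv (Finset.notMem_empty v)), mul_comm]
  · rintro ⟨c, rfl⟩ ⟨x, hx1, hx2⟩
    apply hx2
    rw [LinearMap.smul_apply, hx1 u (Finset.mem_insert_self _ _), smul_zero]

theorem tCnt6 : StCnt6 := by
  classical
  intro V _ _ n S S' f g C hC hN hf hg hc
  have eS : S.filter (fun v => ny f ∅ (f v)) = S :=
    Finset.filter_true_of_mem fun v hv => ny_empty (hf v hv)
  have eS' : S'.filter (fun v => ny f ∅ (g v)) = S' :=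
    Finset.filter_true_of_mem fun v hv => ny_empty (hg v hv)
  have h1 := (bound6 hC hN _ ∅ (Finset.empty_subset _) rfl).2 (by rw [eS, eS']; exact hc)
  have h2 := (step6 hC hN ∅ (Finset.empty_subset _) h1).2
  rw [eS, eS'] at h2
  refine ⟨fun w hw => ?_, fun v0 hv0 => ?_⟩
  · obtain ⟨u, hu, hn⟩ := h2.2 w hw
    exact ⟨u, hu, (par_iff (hf u hu) (g w)).1 hn⟩
  · have h3 := h2.1 v0 hv0
    have e1 : S.filter (fun v => ¬ ny f (insert v0 ∅) (f v)) =
        S.filter (fun v => ∃ c : ℝ, f v = c • f v0) :=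
      Finset.filter_congr fun v _ => par_iff (hf v0 hv0) (f v)
    have e2 : S'.filter (fun w => ¬ ny f (insert v0 ∅) (g w)) =
        S'.filter (fun w => ∃ c : ℝ, g w = c • f v0) :=
      Finset.filter_congr fun w _ => par_iff (hf v0 hv0) (g w)
    rw [e1, e2] at h3
    convert h3 using 2

end ToricSR
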