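import Pool.Agent.Lib.MP_3d51eb_gt.SR.Spec6
import Pool.Agent.Lib.MP_3d51eb_gt.SR.Cnt6

/-!
# MP_3d51eb_gt, project PM2, module Cnt (helper93): from SR/Cnt6.lean
-/

set_option autoImplicit false

noncomputable section

namespace ToricSR

open Finset MvPolynomial ToricPB

theorem tCnt : StCnt := by
  intro V _ _ n S S' f g C _ hsp hN hf hg hc
  refine tCnt6 V n S S' f g C (fun U hU x hx => ?_) hN hf hg hc.le
  refine Submodule.span_mono ?_ (hsp x)
  rintro c ⟨hcC, hcS⟩
  exact ⟨hcC, fun v hv => hcS v (hU hv) (hx v hv)⟩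

end ToricSR
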