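import Pool.Agent.Lib.MP_3d51eb_gt.SR.Spec6

/-!
# project SR: elementary symmetric functions from the Pontrjagin classes one by one
-/

set_option autoImplicit false

noncomputable section

namespace ToricSR

open Finset MvPolynomial ToricPB

private lemma E6_prod {n : ℕ} (t : Finset (Vec n)) (a : Vec n → ℝ) :
    (∏ v ∈ t, (Polynomial.C (a v) * Polynomial.X) ^ 2 : Polynomial ℝ) =
      Polynomial.C (∏ v ∈ t, a v ^ 2) * Polynomial.X ^ (2 * t.card) := by
  have h : ∀ v ∈ t, (Polynomial.C (a v) * Polynomial.X : Polynomial ℝ) ^ 2 =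
      Polynomial.C (a v ^ 2) * Polynomial.X ^ 2 := by
    intro v _
    rw [mul_pow, map_pow]
  rw [Finset.prod_congr rfl h, Finset.prod_mul_distrib, Finset.prod_const, map_prod, ← pow_mul]

private lemma E6_sum {n : ℕ} (S : Finset (Vec n)) (a : Vec n → ℝ) (j : ℕ) :
    (∑ s ∈ S.powersetCard j, ∏ v ∈ s, (Polynomial.C (a v) * Polynomial.X) ^ 2 : Polynomial ℝ) =
      Polynomial.C ((S.val.map (fun v => a v ^ 2)).esymm j) * Polynomial.X ^ (2 * j) := by
  rw [Finset.esymm_map_val, map_sum, Finset.sum_mul]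
  refine Finset.sum_congr rfl fun s hs => ?_
  rw [E6_prod, (Finset.mem_powersetCard.1 hs).2]

private lemma E6_class {n : ℕ} (N : ℕ) (S : Finset (Vec n)) (a : Vec n → ℝ) (j : ℕ) :
    ∑ s ∈ S.powersetCard j, ∏ v ∈ s, lt N (a v) ^ 2 =
      (Ideal.Quotient.mk (Ideal.span {(Polynomial.X ^ N : Polynomial ℝ)})
        (Polynomial.C ((S.val.map (fun v => a v ^ 2)).esymm j) * Polynomial.X ^ (2 * j)) : Tr N) := by
  rw [← E6_sum, map_sum]
  refine Finset.sum_congr rfl fun s _ => ?_
  rw [map_prod]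
  refine Finset.prod_congr rfl fun v _ => ?_
  rw [map_pow]
  rfl

theorem tE6 (h1 : StHom) : StE6 := by
  intro n K K' hK hK' φ M hNb hp χ hχ l hl j hj
  rcases Nat.eq_zero_or_pos j with hj0 | hj0
  · subst hj0
    rw [Finset.esymm_map_val, Finset.esymm_map_val, Finset.powersetCard_zero,
      Finset.powersetCard_zero, Finset.sum_singleton, Finset.sum_singleton, Finset.prod_empty,
      Finset.prod_empty]
  obtain ⟨Ψ, hΨ1, hΨ2⟩ := h1 n K (2 * M + 1) hNb l hl
  have hχs : ∀ w, φ.symm (cls K' w) = cl K (χ w) := by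
    intro w
    rw [← hχ w, RingEquiv.symm_apply_apply]
  have hpk : φ.symm (pk K' j) = pk K j := by
    rw [← hp j hj0 hj, RingEquiv.symm_apply_apply]
  have e1 : Ψ (pk K j) = ∑ s ∈ (verts K).powersetCard j, ∏ v ∈ s, lt (2 * M + 1) (l v) ^ 2 := by
    unfold pk
    rw [map_sum]
    refine Finset.sum_congr rfl fun s _ => ?_
    rw [map_prod]
    refine Finset.prod_congr rfl fun v _ => ?_
    rw [map_pow, hΨ1]
  have e2 : Ψ (φ.symm (pk K' j)) =
      ∑ s ∈ (verts K').powersetCard j, ∏ w ∈ s, lt (2 * M + 1) (ev K (χ w) l) ^ 2 := by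
    unfold pk
    rw [map_sum, map_sum]
    refine Finset.sum_congr rfl fun s _ => ?_
    rw [map_prod, map_prod]
    refine Finset.prod_congr rfl fun w _ => ?_
    rw [map_pow, map_pow, hχs, hΨ2]
  rw [hpk, e1, E6_class, E6_class] at e2
  have e3 := Ideal.Quotient.eq.1 e2
  rw [Ideal.mem_span_singleton, Polynomial.X_pow_dvd_iff] at e3
  have e4 := e3 (2 * j) (by omega)
  rw [Polynomial.coeff_sub, Polynomial.coeff_C_mul_X_pow, Polynomial.coeff_C_mul_X_pow,
    if_pos rfl, if_pos rfl] at e4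
  exact sub_eq_zero.1 e4

end ToricSR
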