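import Pool.Agent.Lib.MP_3d51eb_gt.SR.Spec3
import Pool.Agent.Lib.MP_3d51eb_gt.PB.All

/-!
# project SR, module Ex: extension of independent rays
-/

set_option autoImplicit false

noncomputable section

namespace ToricSR

open Finset MvPolynomial ToricPB

private lemma Ex_iff {n : ℕ} (s : Finset (Vec n)) :
    LinearIndepOn ℝ (toR (n := n)) (s : Set (Vec n)) ↔
      ∀ c : Vec n → ℝ, lin s c = 0 → ∀ v ∈ s, c v = 0 := by
  rw [linearIndepOn_finset_iff]
  rfl

theorem tEx : StEx := by
  classical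
  intro n K hK B hB hind
  have h1 := (Ex_iff B).2 hind
  obtain ⟨b, hbt, hsb, hspan, hli⟩ :=
    exists_linearIndepOn_extension h1 (Finset.coe_subset.2 hB)
  have hfin : b.Finite := (verts K).finite_toSet.subset hbt
  obtain ⟨σ, hσ⟩ : ∃ σ : Finset (Vec n), (σ : Set (Vec n)) = b :=
    ⟨hfin.toFinset, hfin.coe_toFinset⟩
  subst hσ
  refine ⟨σ, Finset.coe_subset.1 hbt, Finset.coe_subset.1 hsb, ?_, (Ex_iff σ).1 hli⟩
  have htop : Submodule.span ℝ (toR '' (σ : Set (Vec n))) = ⊤ := by
    obtain ⟨s, hsK, -, hcard, -⟩ := aNear n K hK Set.univ isOpen_univ ∅ hK.empty_mem _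
      (Set.mem_univ _) (InRel.one ∅)
    have h4 := (aDual n s (hK.smooth s hsK)).2.2.2
    rw [eq_top_iff]
    intro x _
    obtain ⟨c, hc⟩ := (h4 hcard).2 x
    rw [hc, lin]
    refine Submodule.sum_mem _ fun v hv => Submodule.smul_mem _ _ ?_
    have h5 : v ∈ (verts K : Set (Vec n)) := by
      rw [Finset.mem_coe, verts, Finset.mem_biUnion]
      exact ⟨s, hsK, hv⟩
    exact hspan (Set.mem_image_of_mem toR h5)
  have hli2 : LinearIndependent ℝ (fun x : (σ : Set (Vec n)) => toR (x : Vec n)) := hli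
  have h6 := finrank_span_eq_card hli2
  have h7 : Set.range (fun x : (σ : Set (Vec n)) => toR (x : Vec n)) =
      toR '' (σ : Set (Vec n)) := by
    rw [Set.image_eq_range]
  rw [h7, htop, finrank_top, Module.finrank_fin_fun] at h6
  have h8 : Fintype.card (σ : Set (Vec n)) = σ.card := by simp
  exact (h6.trans h8).symm

end ToricSR
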