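import Pool.Agent.Lib.MP_3d51eb_gt.SR.Spec6

/-!
# project SR: counting the nonzero values on an integral relation

`ev K (χ w) (rl c)` is the integer `∑ v ∈ verts K, χ w v * c v`; `StPd` for these integers.
-/

set_option autoImplicit false

noncomputable section

namespace ToricSR

open Finset MvPolynomial ToricPB

private theorem Ii_cast {n : ℕ} (K : Finset (Finset (Vec n))) (ψ c : Vec n → ℤ) :
    ev K ψ (rl c) = ((∑ v ∈ verts K, ψ v * c v : ℤ) : ℝ) := by
  simp only [ev, rl]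
  push_cast
  rfl

theorem tIi (h1 : StPd) : StIi := by
  intro n K S' χ M hodd hQ c hc hz
  have hp : ∀ k, 1 ≤ k → k ≤ M → ∑ v ∈ verts K, (c v : ℝ) ^ (2 * k) =
      ∑ w ∈ S', ((∑ v ∈ verts K, χ w v * c v : ℤ) : ℝ) ^ (2 * k) := by
    intro k hk1 hk2
    have h := hQ (rl c) hc k hk1 hk2
    have e1 : ∑ v ∈ verts K, (c v : ℝ) ^ (2 * k) = ∑ v ∈ verts K, rl c v ^ (2 * k) := rfl
    rw [e1, h]
    refine Finset.sum_congr rfl (fun w _ => ?_)
    rw [Ii_cast]
  have h := h1 n (verts K) S' c (fun w => ∑ v ∈ verts K, χ w v * c v) M hodd hp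
    (fun v _ => hz v)
  refine le_trans (Finset.card_le_card ?_) (le_trans h (Finset.card_le_card ?_))
  · intro w hw
    obtain ⟨hw1, hw2⟩ := Finset.mem_filter.1 hw
    refine Finset.mem_filter.2 ⟨hw1, ?_⟩
    intro h0
    apply hw2
    rw [Ii_cast]
    exact_mod_cast h0
  · intro v hv
    obtain ⟨hv1, hv2⟩ := Finset.mem_filter.1 hv
    refine Finset.mem_filter.2 ⟨hv1, ?_⟩
    intro h0
    apply hv2
    have h3 : (c v : ℝ) = 0 := h0
    exact_mod_cast h3

end ToricSR
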