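import Pool.Agent.Lib.MP_3d51eb_gt.SR.Spec6

/-!
# MP_3d51eb_gt, project SR: bounded minors give bounded circuits (module Mn, helper69)
-/

set_option autoImplicit false

noncomputable section

namespace ToricSR

open Finset MvPolynomial ToricPB

private lemma Mn_lin_apply {n : ℕ} (s : Finset (Vec n)) (c : Vec n → ℝ) (i : Fin n) :
    lin s c i = ∑ v ∈ s, (v i : ℝ) * c v := by
  simp only [lin, Finset.sum_apply, Pi.smul_apply, smul_eq_mul, toR]
  exact Finset.sum_congr rfl (fun v _ => mul_comm _ _)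

private lemma Mn_lin_supp {n : ℕ} {K : Finset (Finset (Vec n))} {m : Vec n → ℝ}
    (h : m ∈ VK K) {s : Finset (Vec n)} (hs : s ⊆ verts K) (h0 : ∀ v, m v ≠ 0 → v ∈ s)
    (i : Fin n) : ∑ v ∈ s, (v i : ℝ) * m v = 0 := by
  have h1 : ∑ v ∈ s, (v i : ℝ) * m v = ∑ v ∈ verts K, (v i : ℝ) * m v :=
    Finset.sum_subset hs (fun v _ hv => by
      have : m v = 0 := by
        by_contra hc
        exact hv (h0 v hc)
      rw [this, mul_zero])
  rw [h1, VK_rel h i]

/-- enumeration of a finite set -/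
private lemma Mn_enum {n : ℕ} {σ : Finset (Vec n)} (hcard : σ.card = n) :
    ∃ b : Fin n → Vec n, Function.Injective b ∧ ∀ v, v ∈ σ ↔ ∃ i, b i = v := by
  have e := (σ.equivFinOfCardEq hcard).symm
  refine ⟨fun i => (e i : Vec n), fun i j h => e.injective (Subtype.ext h), fun v => ?_⟩
  constructor
  · intro hv
    exact ⟨e.symm ⟨v, hv⟩, by simp⟩
  · rintro ⟨i, rfl⟩
    exact (e i).2

private lemma Mn_sum {n : ℕ} {σ : Finset (Vec n)} {b : Fin n → Vec n}
    (hb : Function.Injective b) (hσ : ∀ v, v ∈ σ ↔ ∃ i, b i = v) (f : Vec n → ℝ) :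
    ∑ v ∈ σ, f v = ∑ j, f (b j) := by
  classical
  have h : σ = Finset.univ.image b := by
    ext v
    rw [hσ, Finset.mem_image]
    simp
  rw [h, Finset.sum_image (fun i _ j _ hij => hb hij)]

/-- independence in terms of the enumeration -/
private lemma Mn_ind {n : ℕ} {σ : Finset (Vec n)} {b : Fin n → Vec n}
    (hb : Function.Injective b) (hσ : ∀ v, v ∈ σ ↔ ∃ i, b i = v)
    (hi : ∀ c : Vec n → ℝ, lin σ c = 0 → ∀ v ∈ σ, c v = 0) (x : Fin n → ℝ)
    (hx : ∀ i, ∑ j, (b j i : ℝ) * x j = 0) (j : Fin n) : x j = 0 := by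
  have h1 : ∀ k, Function.extend b x 0 (b k) = x k := fun k => hb.extend_apply x 0 k
  have h2 : lin σ (Function.extend b x 0) = 0 := by
    funext i
    rw [Mn_lin_apply, Mn_sum hb hσ]
    simp only [h1]
    exact hx i
  have h3 := hi _ h2 (b j) ((hσ _).2 ⟨j, rfl⟩)
  rw [h1] at h3
  exact h3

/-- the determinant does not vanish -/
private lemma Mn_det {n : ℕ} {b : Fin n → Vec n}
    (hx : ∀ x : Fin n → ℝ, (∀ i, ∑ j, (b j i : ℝ) * x j = 0) → ∀ j, x j = 0) :
    (Matrix.of b).transpose.det ≠ 0 := by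
  intro h0
  have h1 : ((Int.castRingHom ℝ).mapMatrix (Matrix.of b).transpose).det = 0 := by
    rw [← RingHom.map_det, h0, map_zero]
  obtain ⟨x, hx0, hxe⟩ := Matrix.exists_mulVec_eq_zero_iff.2 h1
  apply hx0
  funext j
  refine hx x (fun i => ?_) j
  have h2 := congrFun hxe i
  simpa [Matrix.mulVec, dotProduct] using h2

private lemma Mn_cramer {n : ℕ} (b : Fin n → Vec n) (w : Vec n) (j : Fin n) :
    (Matrix.of b).transpose.cramer w j = (Matrix.of (Function.update b j w)).det := by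
  rw [Matrix.cramer_apply, ← Matrix.det_transpose]
  congr 1
  ext i k
  by_cases h : i = j
  · subst h
    simp [Matrix.updateCol_apply]
  · simp [Matrix.updateCol_apply, h, Function.update_of_ne h]

theorem tMn (h1 : StEx) : StMn := by
  classical
  intro n K hK M hM m hm hmin
  by_cases hm0 : m = 0
  · refine ⟨0, fun _ => 0, fun v => by simp, ?_⟩
    rw [hm0, zero_smul]
  obtain ⟨v0, hv0⟩ : ∃ v, m v ≠ 0 := by
    by_contra hc
    push Not at hc
    exact hm0 (funext hc)
  have hv0K : v0 ∈ verts K := by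
    by_contra hc
    exact hv0 (VK_out hm hc)
  have hin : ∀ v, m v ≠ 0 → v ∈ verts K := fun v hv => by
    by_contra hc
    exact hv (VK_out hm hc)
  obtain ⟨B, hB⟩ : ∃ B : Finset (Vec n), B = (verts K).filter (fun v => m v ≠ 0 ∧ v ≠ v0) :=
    ⟨_, rfl⟩
  have hmB : ∀ v, v ∈ B ↔ v ∈ verts K ∧ m v ≠ 0 ∧ v ≠ v0 := fun v => by
    rw [hB, Finset.mem_filter]
  have hBK : B ⊆ verts K := fun v hv => ((hmB v).1 hv).1
  have hBi : ∀ c : Vec n → ℝ, lin B c = 0 → ∀ v ∈ B, c v = 0 := by
    intro c hc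
    have hm' : (fun v => if v ∈ B then c v else 0) ∈ VK K := by
      refine VK_mk (fun v hv => ?_) (fun i => ?_)
      · exact if_neg (fun h => hv (hBK h))
      · have h2 := congrFun hc i
        rw [Mn_lin_apply] at h2
        have h3 : ∑ v ∈ verts K, (v i : ℝ) * (if v ∈ B then c v else 0) =
            ∑ v ∈ B, (v i : ℝ) * c v := by
          rw [← Finset.sum_subset hBK (fun v _ hv => by rw [if_neg hv, mul_zero])]
          exact Finset.sum_congr rfl (fun v hv => by rw [if_pos hv])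
        exact h3.trans h2
    obtain ⟨a, ha⟩ := hmin _ hm' (fun v hv => by
      by_cases h : v ∈ B
      · exact ((hmB v).1 h).2.1
      · exact absurd (if_neg h) hv)
    have h4 := congrFun ha v0
    have h5 : v0 ∉ B := fun h => ((hmB v0).1 h).2.2 rfl
    simp only [if_neg h5, Pi.smul_apply, smul_eq_mul] at h4
    have h6 : a = 0 := by
      rcases mul_eq_zero.1 h4.symm with h | h
      · exact h
      · exact absurd h hv0
    intro v hv
    have h7 := congrFun ha v
    simp only [if_pos hv, h6, zero_smul, Pi.zero_apply] at h7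
    exact h7
  obtain ⟨σ, hσ, hBσ, hcard, hi⟩ := h1 n K hK B hBK hBi
  have hsupp : ∀ v, m v ≠ 0 → v = v0 ∨ v ∈ σ := by
    intro v hv
    by_cases e : v = v0
    · exact Or.inl e
    · exact Or.inr (hBσ ((hmB v).2 ⟨hin v hv, hv, e⟩))
  have hv0σ : v0 ∉ σ := by
    intro h
    have h2 : lin σ m = 0 := by
      funext i
      rw [Mn_lin_apply]
      exact Mn_lin_supp hm hσ (fun v hv => by
        rcases hsupp v hv with e | e
        · rw [e]; exact h
        · exact e) i
    exact hv0 (hi m h2 v0 h)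
  obtain ⟨b, hbi, hbσ⟩ := Mn_enum hcard
  have hx := Mn_ind hbi hbσ hi
  have hdet := Mn_det hx
  have hbK : ∀ j, b j ∈ verts K := fun j => hσ ((hbσ _).2 ⟨j, rfl⟩)
  obtain ⟨Δ, hΔ⟩ : ∃ Δ : ℤ, Δ = (Matrix.of b).transpose.det := ⟨_, rfl⟩
  obtain ⟨d, hd⟩ : ∃ d : Fin n → ℤ, d = (Matrix.of b).transpose.cramer v0 := ⟨_, rfl⟩
  have hΔ0 : Δ ≠ 0 := by rw [hΔ]; exact hdet
  have hΔM : |Δ| ≤ (M : ℤ) := by
    rw [hΔ, Matrix.det_transpose]
    exact hM b hbK
  have hdM : ∀ j, |d j| ≤ (M : ℤ) := by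
    intro j
    rw [hd, Mn_cramer]
    refine hM _ (fun i => ?_)
    by_cases h : i = j
    · subst h
      rw [Function.update_self]
      exact hv0K
    · rw [Function.update_of_ne h]
      exact hbK i
  have hcr : ∀ i, ∑ j, (b j i : ℝ) * (d j : ℝ) = (Δ : ℝ) * (v0 i : ℝ) := by
    intro i
    have h2 := congrFun (Matrix.mulVec_cramer (Matrix.of b).transpose v0) i
    rw [← hd, ← hΔ] at h2
    have h3 : ∑ j, b j i * d j = Δ * v0 i := by
      simpa [Matrix.mulVec, dotProduct] using h2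
    exact_mod_cast h3
  have hR0 : (Δ : ℝ) ≠ 0 := by exact_mod_cast hΔ0
  have hval : ∀ j, (Δ : ℝ) * m (b j) + m v0 * (d j : ℝ) = 0 := by
    refine hx (fun j => (Δ : ℝ) * m (b j) + m v0 * (d j : ℝ)) (fun i => ?_)
    have hs : insert v0 σ ⊆ verts K := by
      intro x hx
      rcases Finset.mem_insert.1 hx with rfl | hx
      · exact hv0K
      · exact hσ hx
    have h2 := Mn_lin_supp hm hs (fun v hv => by
      rcases hsupp v hv with e | e
      · rw [e]; exact Finset.mem_insert_self _ _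
      · exact Finset.mem_insert_of_mem e) i
    rw [Finset.sum_insert hv0σ, Mn_sum hbi hbσ] at h2
    have h3 : ∑ j, (b j i : ℝ) * ((Δ : ℝ) * m (b j) + m v0 * (d j : ℝ)) =
        (Δ : ℝ) * ∑ j, (b j i : ℝ) * m (b j) + m v0 * ∑ j, (b j i : ℝ) * (d j : ℝ) := by
      rw [Finset.mul_sum, Finset.mul_sum, ← Finset.sum_add_distrib]
      exact Finset.sum_congr rfl (fun j _ => by ring)
    rw [h3, hcr]
    have h4 : ∑ j, (b j i : ℝ) * m (b j) = -((v0 i : ℝ) * m v0) := by linarith
    rw [h4]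
    ring
  have hout : ∀ v, v ≠ v0 → v ∉ σ → m v = 0 := by
    intro v h2 h3
    by_contra hc
    rcases hsupp v hc with e | e
    · exact h2 e
    · exact h3 e
  have hex : ∀ j, Function.extend b (fun j => - d j) 0 (b j) = - d j :=
    fun j => hbi.extend_apply _ _ j
  have hexo : ∀ v, v ∉ σ → Function.extend b (fun j => - d j) 0 v = 0 := by
    intro v hv
    have h2 : ¬ ∃ j, b j = v := fun h => hv ((hbσ v).2 h)
    rw [Function.extend_apply' _ _ _ h2]
    rfl
  refine ⟨m v0 / (Δ : ℝ), fun v => if v = v0 then Δ else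
    Function.extend b (fun j => - d j) 0 v, fun v => ?_, ?_⟩
  · by_cases e : v = v0
    · simp only [if_pos e]
      exact hΔM
    · simp only [if_neg e]
      by_cases hv : v ∈ σ
      · obtain ⟨j, rfl⟩ := (hbσ v).1 hv
        rw [hex, abs_neg]
        exact hdM j
      · rw [hexo v hv]
        simp
  · funext v
    show m v = m v0 / (Δ : ℝ) * (((if v = v0 then Δ else
      Function.extend b (fun j => - d j) 0 v) : ℤ) : ℝ)
    by_cases e : v = v0
    · rw [if_pos e, e]
      field_simp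
    · rw [if_neg e]
      by_cases hv : v ∈ σ
      · obtain ⟨j, rfl⟩ := (hbσ v).1 hv
        rw [hex]
        have h2 := hval j
        push_cast
        field_simp
        linarith
      · rw [hexo v hv, hout v e hv]
        simp

end ToricSR
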