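import Pool.Agent.Lib.MP_3d51eb_gt.SR.Spec6

/-!
# MP_3d51eb_gt, project SR: a bound for the minors
-/

set_option autoImplicit false

noncomputable section

namespace ToricSR

open Finset MvPolynomial ToricPB

theorem tMx : StMx := by
  intro n K
  have hf : ({b : Fin n → Vec n | ∀ i, b i ∈ ((verts K : Finset (Vec n)) : Set (Vec n))}).Finite :=
    Set.Finite.pi' (fun i => (verts K).finite_toSet)
  obtain ⟨M, hM⟩ := (hf.image (fun b => |Matrix.det (Matrix.of b)|)).bddAbove
  refine ⟨max 1 M.toNat, le_max_left _ _, ?_⟩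
  intro b hb
  have h := hM (Set.mem_image_of_mem (fun b : Fin n → Vec n => |Matrix.det (Matrix.of b)|)
    (show b ∈ {b : Fin n → Vec n | ∀ i, b i ∈ ((verts K : Finset (Vec n)) : Set (Vec n))} from
      fun i => Finset.mem_coe.2 (hb i)))
  refine h.trans ?_
  have h1 : M ≤ (M.toNat : ℤ) := Int.self_le_toNat M
  refine h1.trans ?_
  exact_mod_cast le_max_right 1 M.toNat

end ToricSR
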