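import Mathlib

set_option autoImplicit false

/-!
# MP_3d51eb_gt, project SR: power sums and numbers of nonzero terms

If the sums of the powers of order `2, 4, …, 2 M` of two finite families of integers agree, `M` is
odd and the first family is bounded by `M`, then the second family has at most as many nonzero
members as the first one.
-/

namespace ToricSR

open Finset Polynomial

/-- the sums of the values of a polynomial of low degree without constant term at the squares -/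
theorem pmPoly {α β : Type} (S : Finset α) (S' : Finset β) (c : α → ℝ) (e : β → ℝ) (N : ℕ)
    (h : ∀ k : ℕ, 1 ≤ k → k ≤ N → ∑ v ∈ S, c v ^ (2 * k) = ∑ w ∈ S', e w ^ (2 * k))
    (P : ℝ[X]) (h0 : P.eval 0 = 0) (hd : P.natDegree ≤ N) :
    ∑ v ∈ S, P.eval (c v ^ 2) = ∑ w ∈ S', P.eval (e w ^ 2) := by
  have hc : P.coeff 0 = 0 := by rw [Polynomial.coeff_zero_eq_eval_zero, h0]
  have key : ∀ x : ℝ, P.eval (x ^ 2) = ∑ k ∈ Finset.range N, P.coeff (k + 1) * x ^ (2 * (k + 1)) := by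
    intro x
    rw [Polynomial.eval_eq_sum_range' (Nat.lt_succ_of_le hd), Finset.sum_range_succ', hc, zero_mul,
      add_zero]
    refine Finset.sum_congr rfl fun k _ => ?_
    rw [← pow_mul]
  simp only [key]
  rw [Finset.sum_comm, Finset.sum_comm (s := S')]
  refine Finset.sum_congr rfl fun k hk => ?_
  rw [← Finset.mul_sum, ← Finset.mul_sum, h (k + 1) (by omega) (by
    have := Finset.mem_range.1 hk
    omega)]

/-- `1 - ∏ (1 - y / j ^ 2)`, `j = 1, …, M` -/
noncomputable def pmQ (M : ℕ) : ℝ[X] :=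
  1 - ∏ j ∈ Finset.range M, (1 - C (1 / ((j : ℝ) + 1) ^ 2) * X)

theorem pmQ_eval (M : ℕ) (y : ℝ) :
    (pmQ M).eval y = 1 - ∏ j ∈ Finset.range M, (1 - y / ((j : ℝ) + 1) ^ 2) := by
  unfold pmQ
  rw [Polynomial.eval_sub, Polynomial.eval_one, Polynomial.eval_prod]
  congr 1
  refine Finset.prod_congr rfl fun j _ => ?_
  rw [Polynomial.eval_sub, Polynomial.eval_one, Polynomial.eval_mul, Polynomial.eval_C,
    Polynomial.eval_X]
  ring

theorem pmQ_deg (M : ℕ) : (pmQ M).natDegree ≤ M := by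
  unfold pmQ
  refine (Polynomial.natDegree_sub_le _ _).trans (max_le ?_ ?_)
  · rw [Polynomial.natDegree_one]
    exact Nat.zero_le _
  · refine (Polynomial.natDegree_prod_le _ _).trans ?_
    have h1 : ∀ j ∈ Finset.range M,
        (1 - C (1 / ((j : ℝ) + 1) ^ 2) * X : ℝ[X]).natDegree ≤ 1 := by
      intro j _
      refine (Polynomial.natDegree_sub_le _ _).trans (max_le ?_ ?_)
      · rw [Polynomial.natDegree_one]
        exact Nat.zero_le _
      · exact (Polynomial.natDegree_C_mul_le _ _).trans Polynomial.natDegree_X_le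
    refine (Finset.sum_le_sum h1).trans ?_
    rw [Finset.sum_const, Finset.card_range, smul_eq_mul, mul_one]

theorem pmQ_zero (M : ℕ) : (pmQ M).eval 0 = 0 := by
  rw [pmQ_eval]
  simp

/-- the value is `1` at the squares of the integers `x ≠ 0` with `|x| ≤ M` -/
theorem pmQ_one (M : ℕ) (x : ℤ) (h0 : x ≠ 0) (hx : |x| ≤ M) : (pmQ M).eval ((x : ℝ) ^ 2) = 1 := by
  rw [Int.abs_eq_natAbs] at hx
  have h1 : 1 ≤ x.natAbs := by omega
  rw [pmQ_eval, Finset.prod_eq_zero (i := x.natAbs - 1) (Finset.mem_range.2 (by omega)), sub_zero]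
  have h2 : ((x.natAbs - 1 : ℕ) : ℝ) + 1 = |(x : ℝ)| := by
    rw [Nat.cast_sub h1, Nat.cast_natAbs, Int.cast_abs]
    push_cast
    ring
  rw [h2, sq_abs, div_self, sub_self]
  have h3 : (x : ℝ) ≠ 0 := by exact_mod_cast h0
  positivity

/-- the value is at least `1` at the squares of all integers `x ≠ 0`, if `M` is odd -/
theorem pmQ_ge (M : ℕ) (hM : Odd M) (x : ℤ) (h0 : x ≠ 0) : 1 ≤ (pmQ M).eval ((x : ℝ) ^ 2) := by
  by_cases hx : |x| ≤ M
  · rw [pmQ_one M x h0 hx]
  · rw [pmQ_eval]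
    have h1 : ∀ j ∈ Finset.range M, 1 - (x : ℝ) ^ 2 / ((j : ℝ) + 1) ^ 2 < 0 := by
      intro j hj
      have hj' := Finset.mem_range.1 hj
      have h2 : ((j : ℤ) + 1) < |x| := by omega
      have h3 : (j : ℝ) + 1 < |(x : ℝ)| := by
        rw [← Int.cast_abs]
        exact_mod_cast h2
      have h4 : ((j : ℝ) + 1) ^ 2 < (x : ℝ) ^ 2 := by
        rw [← sq_abs (x : ℝ)]
        exact pow_lt_pow_left₀ h3 (by positivity) two_ne_zero
      have h5 : (0 : ℝ) < ((j : ℝ) + 1) ^ 2 := by positivity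
      rw [sub_neg, one_lt_div h5]
      exact h4
    have h6 : ∏ j ∈ Finset.range M, (1 - (x : ℝ) ^ 2 / ((j : ℝ) + 1) ^ 2) =
        - ∏ j ∈ Finset.range M, ((x : ℝ) ^ 2 / ((j : ℝ) + 1) ^ 2 - 1) := by
      have h7 : ∀ j ∈ Finset.range M, (1 - (x : ℝ) ^ 2 / ((j : ℝ) + 1) ^ 2) =
          (-1) * ((x : ℝ) ^ 2 / ((j : ℝ) + 1) ^ 2 - 1) := by
        intro j _
        ring
      rw [Finset.prod_congr rfl h7, Finset.prod_mul_distrib, Finset.prod_const, Finset.card_range,
        hM.neg_one_pow]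
      ring
    have h8 : 0 ≤ ∏ j ∈ Finset.range M, ((x : ℝ) ^ 2 / ((j : ℝ) + 1) ^ 2 - 1) := by
      refine Finset.prod_nonneg fun j hj => ?_
      have := h1 j hj
      linarith
    rw [h6]
    linarith

/-- numbers of nonzero terms -/
theorem pmD {α β : Type} (S : Finset α) (S' : Finset β) (c : α → ℤ) (e : β → ℤ) (M : ℕ)
    (hM : Odd M)
    (h : ∀ k : ℕ, 1 ≤ k → k ≤ M →
      ∑ v ∈ S, (c v : ℝ) ^ (2 * k) = ∑ w ∈ S', (e w : ℝ) ^ (2 * k))
    (hc : ∀ v ∈ S, |c v| ≤ M) :
    (S'.filter (fun w => e w ≠ 0)).card ≤ (S.filter (fun v => c v ≠ 0)).card := by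
  have h1 := pmPoly S S' (fun v => (c v : ℝ)) (fun w => (e w : ℝ)) M h (pmQ M) (pmQ_zero M)
    (pmQ_deg M)
  have h2 : ∑ v ∈ S, (pmQ M).eval ((c v : ℝ) ^ 2) = ((S.filter (fun v => c v ≠ 0)).card : ℝ) := by
    rw [Finset.card_filter]
    push_cast
    refine Finset.sum_congr rfl fun v hv => ?_
    by_cases h0 : c v = 0
    · rw [h0, if_neg (by simp)]
      simpa using pmQ_zero M
    · rw [if_pos h0, pmQ_one M (c v) h0 (hc v hv)]
  have h3 : ((S'.filter (fun w => e w ≠ 0)).card : ℝ) ≤ ∑ w ∈ S', (pmQ M).eval ((e w : ℝ) ^ 2) := by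
    rw [Finset.card_filter]
    push_cast
    refine Finset.sum_le_sum fun w _ => ?_
    by_cases h0 : e w = 0
    · rw [h0, if_neg (by simp)]
      have := pmQ_zero M
      simp [this]
    · rw [if_pos h0]
      exact pmQ_ge M hM (e w) h0
  have h4 : ((S'.filter (fun w => e w ≠ 0)).card : ℝ) ≤ ((S.filter (fun v => c v ≠ 0)).card : ℝ) := by
    rw [← h2, h1]
    exact h3
  exact_mod_cast h4

end ToricSR
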