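import Pool.Agent.Lib.MP_3d51eb_gt.SR.Spec6
import Pool.Agent.Lib.MP_3d51eb_gt.SR.PmD

/-!
# MP_3d51eb_gt, project SR: numbers of nonzero terms (from SR/PmD.lean)
-/

set_option autoImplicit false

noncomputable section

namespace ToricSR

open Finset MvPolynomial ToricPB

theorem tPd : StPd := by
  intro n S S' c e M hM h hc
  have h1 := pmD S S' c e M hM h hc
  convert h1

end ToricSR
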