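import Pool.Agent.Lib.MP_3d51eb_gt.SR.Spec6

/-!
# project SR: power sums for the exponents `2, 4, .., 2 M`

The power sums of the values of a relation on the rays of the first fan and on the classes of the
rays of the second fan agree, from the equality of the elementary symmetric functions (Newton).
-/

set_option autoImplicit false

noncomputable section

namespace ToricSR

open Finset MvPolynomial ToricPB

theorem tQ6 (h1 : StE6) (h2 : StNw) : StQ6 := by
  intro n K K' hK hK' φ M hNb hp χ hχ l hl k hk hkM
  have hes := h1 n K K' hK hK' φ M hNb hp χ hχ l hl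
  have hsum := h2 ((verts K).val.map (fun v => l v ^ 2))
    ((verts K').val.map (fun w => ev K (χ w) l ^ 2)) M hes k hk hkM
  rw [Multiset.map_map, Multiset.map_map] at hsum
  have e1 : (Multiset.map ((fun x : ℝ => x ^ k) ∘ fun w => ev K (χ w) l ^ 2) (verts K').val).sum =
      ∑ w ∈ verts K', (ev K (χ w) l) ^ (2 * k) := by
    refine Finset.sum_congr rfl fun w _ => ?_
    show (ev K (χ w) l ^ 2) ^ k = (ev K (χ w) l) ^ (2 * k)
    rw [← pow_mul]
  have e2 : (Multiset.map ((fun x : ℝ => x ^ k) ∘ fun v => l v ^ 2) (verts K).val).sum =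
      ∑ v ∈ verts K, l v ^ (2 * k) := by
    refine Finset.sum_congr rfl fun v _ => ?_
    show (l v ^ 2) ^ k = l v ^ (2 * k)
    rw [← pow_mul]
  rw [e1, e2] at hsum
  exact hsum

end ToricSR
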