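import Pool.Agent.Lib.MP_3d51eb_gt.SR.Spec6

/-!
# MP_3d51eb_gt, project PM2, module Sp6 (helper40): the span of the integral relations
-/

set_option autoImplicit false

noncomputable section

namespace ToricSR

open Finset MvPolynomial ToricPB

private theorem Sp6_sum {n : ℕ} {K : Finset (Finset (Vec n))} (W : Submodule ℝ (VK K)) :
    ∀ (A : List (ℝ × (Vec n → ℤ))),
      (∀ p ∈ A, ∃ h : rl p.2 ∈ VK K, (⟨rl p.2, h⟩ : VK K) ∈ W) →
      ∃ y ∈ W, (y : VK K).1 = (A.map (fun p => p.1 • rl p.2)).sum := by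
  intro A
  induction A with
  | nil => exact fun _ => ⟨0, W.zero_mem, rfl⟩
  | cons p A ih =>
    intro hA
    obtain ⟨y, hy, hyA⟩ := ih fun q hq => hA q (List.mem_cons_of_mem _ hq)
    obtain ⟨h, hW⟩ := hA p List.mem_cons_self
    refine ⟨p.1 • (⟨rl p.2, h⟩ : VK K) + y, W.add_mem (W.smul_mem _ hW) hy, ?_⟩
    rw [List.map_cons, List.sum_cons, ← hyA]
    rfl

theorem tSp6 (h1 : StCd4) : StSp6 := by
  intro n K M hC x
  obtain ⟨A, hA, hx⟩ := h1 n K M hC x.1 x.2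
  obtain ⟨y, hy, hyx⟩ := Sp6_sum (K := K) (Submodule.span ℝ
    {y ∈ {z : VK K | ∃ c : Vec n → ℤ, ZM M c ∧ z.1 = rl c} |
      ∀ v ∈ verts K, fv K v x = 0 → fv K v y = 0}) A (by
    intro p hp
    obtain ⟨_, hpV, hpM, hps⟩ := hA p hp
    refine ⟨hpV, Submodule.subset_span ⟨⟨p.2, hpM, rfl⟩, fun v _ hv => ?_⟩⟩
    have hv' : x.1 v = 0 := hv
    show rl p.2 v = 0
    by_contra hne
    have h2 : p.2 v ≠ 0 := by
      intro h3
      exact hne (by simp [rl, h3])
    have h4 := hps v h2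
    rw [hv', mul_zero] at h4
    exact lt_irrefl _ h4)
  have hxy : y = x := Subtype.ext (hyx.trans hx.symm)
  rw [hxy] at hy
  exact hy

end ToricSR
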