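import Pool.Agent.Lib.MP_3d51eb_gt.SR.Defs

set_option autoImplicit false

/-!
# MP_3d51eb_gt, project SR: unimodular rays
-/

noncomputable section

namespace ToricSR

open Finset MvPolynomial ToricPB

/-- the rays are unimodular: every `n` linearly independent rays form a basis of the lattice -/
def Unim {n : ℕ} (K : Finset (Finset (Vec n))) : Prop :=
  ∀ s ⊆ verts K, s.card = n → (∀ c : Vec n → ℝ, lin s c = 0 → ∀ v ∈ s, c v = 0) → Uni s

end ToricSR
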