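import Pool.Agent.Lib.MP_3d51eb_gt.SR.Bas
import Pool.Agent.Lib.MP_3d51eb_gt.SR.Defs3

set_option autoImplicit false

/-!
# MP_3d51eb_gt, project SR: circuits with bounded entries, Pontrjagin classes
-/

noncomputable section

namespace ToricSR

open Finset MvPolynomial ToricPB

/-- every real linear relation between the rays of `K` with minimal support is a multiple of an
integral relation with entries of absolute value at most `M` -/
def Circ {n : ℕ} (K : Finset (Finset (Vec n))) (M : ℕ) : Prop :=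
  ∀ l ∈ VK K, (∀ l' ∈ VK K, (∀ v, l' v ≠ 0 → l v ≠ 0) → ∃ a : ℝ, l' = a • l) →
    ∃ (a : ℝ) (c : Vec n → ℤ), (∀ v, |c v| ≤ (M : ℤ)) ∧ l = a • (fun v => (c v : ℝ))

/-- all `n × n` minors of the rays of `K` are of absolute value at most `M` -/
def Minors {n : ℕ} (K : Finset (Finset (Vec n))) (M : ℕ) : Prop :=
  ∀ b : Fin n → Vec n, (∀ i, b i ∈ verts K) → |Matrix.det (Matrix.of b)| ≤ (M : ℤ)

/-- the `k`-th Pontrjagin class of the toric manifold of `K` -/
def pk {n : ℕ} (K : Finset (Finset (Vec n))) (k : ℕ) : Coh K :=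
  ∑ s ∈ (verts K).powersetCard k, ∏ v ∈ s, cls K v ^ 2

end ToricSR
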