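import Pool.Agent.Lib.MP_3d51eb_gt.SR.SpecJ
import Pool.Agent.Lib.MP_3d51eb_gt.SR.Defs6

set_option autoImplicit false

/-! # project SR: explicit J, circuits with bounded entries -/

noncomputable section

namespace ToricSR

open Finset MvPolynomial ToricPB

private lemma ThmMJ_circ (h1 : StWInv)
    (h3 : ∀ (n : ℕ) (K : Finset (Finset (Vec n))) (v : Vec n), IsFan K →
      v ∈ verts K → ∀ M : ℕ, Circ K M → Circ (wedge K v) M)
    {n m : ℕ} {K : Finset (Finset (Vec n))} {L : Finset (Finset (Vec m))} (hK : IsFan K) (M : ℕ)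
    (hU : Circ K M) (hW : Wedges n K m L) : Circ L M := by
  induction hW with
  | refl K => exact hU
  | step m K L v hW hv ih => exact h3 m L v (h1 n m K L hK hW).1 hv M (ih hK hU)

theorem tThmMJ (h1 : StWInv)
    (h5 : ∀ (n : ℕ) (K : Finset (Finset (Vec n))) (v : Vec n), IsFan K →
      v ∈ verts K → ∀ M : ℕ, Circ K M → Circ (wedge K v) M)
    (h2 : StJa) (h3 : StJb) (h4 : StFb) (n : ℕ)
    (K : Finset (Finset (Vec n))) (hK : IsFan K) (M : ℕ) (hC : Circ K M) :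
    (∀ (m : ℕ) (L : Finset (Finset (Vec m))), Wedges n K m L → IsFan L ∧ Circ L M ∧
      (∃ (ρ : Vec m → Vec n) (J : Vec n → ℕ), IsJ K L ρ J ∧ ∀ v ∈ verts K, 1 ≤ J v) ∧
      ∀ (ρ : Vec m → Vec n) (J : Vec n → ℕ), IsJ K L ρ J → (∀ v ∈ verts K, M + 1 ≤ J v) →
        ∀ s ⊆ verts L, s.card ≤ 2 * M → s ∈ L) ∧
    ∀ J : Vec n → ℕ, (∀ v ∈ verts K, 1 ≤ J v) →
      ∃ (m : ℕ) (L : Finset (Finset (Vec m))) (ρ : Vec m → Vec n), Wedges n K m L ∧
        IsJ K L ρ J := by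
  refine ⟨fun m L hW => ?_, h3 n K hK⟩
  refine ⟨(h1 n m K L hK hW).1, ThmMJ_circ h1 h5 hK M hC hW, h2 n m K L hK hW,
    fun ρ J hJ hv s hs hc => ?_⟩
  exact h4 n m K L ρ J M hK hJ hv s hs (by omega)

end ToricSR
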