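import Pool.Agent.Lib.MP_3d51eb_gt.SR.Spec6

/-!
# MP_3d51eb_gt, project SR: circuits of a simplicial wedge

The spaces of relations of a fan and of its wedge are isomorphic, supports and entries correspond.
-/

set_option autoImplicit false

noncomputable section

namespace ToricSR

open Finset MvPolynomial ToricPB

private lemma Wc4_sum {n : ℕ} {K : Finset (Finset (Vec n))} (hK : IsFan K) {v : Vec n}
    (hv : v ∈ verts K) (F : Vec (n + 1) → ℝ) :
    ∑ x ∈ verts (wedge K v), F x =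
      F w1 + (F (w2 v) + ∑ w ∈ (verts K).erase v, F (up 0 w)) := by
  have e : ∑ x ∈ lift ((verts K).erase v), F x = ∑ w ∈ (verts K).erase v, F (up 0 w) :=
    Finset.sum_image (fun x _ y _ h => up_zero_injective h)
  rw [verts_wedge hK hv, Finset.sum_insert, Finset.sum_insert w2_notMem_lift, e]
  rw [Finset.mem_insert, not_or]
  exact ⟨w1_ne_w2, w1_notMem_lift⟩

private lemma Wc4_up0 {n : ℕ} (a : ℤ) (w : Vec n) : up a w 0 = a := rfl

private lemma Wc4_ups {n : ℕ} (a : ℤ) (w : Vec n) (i : Fin n) : up a w i.succ = w i := rfl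

private def Wc4_D {n : ℕ} (v : Vec n) (l : Vec (n + 1) → ℝ) : Vec n → ℝ :=
  fun w => if w = v then l (w2 v) else l (up 0 w)

private def Wc4_s {n : ℕ} (v : Vec n) (x : Vec (n + 1)) : Vec n :=
  if x 0 = 0 then (fun i => x i.succ) else v

private lemma Wc4_s_w1 {n : ℕ} (v : Vec n) : Wc4_s v w1 = v := by
  have h : ¬ (w1 : Vec (n + 1)) 0 = 0 := by
    rw [w1, Wc4_up0]; decide
  unfold Wc4_s
  rw [if_neg h]

private lemma Wc4_s_w2 {n : ℕ} (v : Vec n) : Wc4_s v (w2 v) = v := by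
  have h : ¬ (w2 v : Vec (n + 1)) 0 = 0 := by
    rw [w2, Wc4_up0]; decide
  unfold Wc4_s
  rw [if_neg h]

private lemma Wc4_s_up {n : ℕ} (v w : Vec n) : Wc4_s v (up 0 w) = w := by
  unfold Wc4_s
  rw [if_pos (Wc4_up0 0 w)]
  rfl

private def Wc4_U {n : ℕ} (K : Finset (Finset (Vec n))) (v : Vec n) (m : Vec n → ℝ) :
    Vec (n + 1) → ℝ :=
  fun x => if x ∈ verts (wedge K v) then m (Wc4_s v x) else 0

private lemma Wc4_w1_mem {n : ℕ} {K : Finset (Finset (Vec n))} (hK : IsFan K) {v : Vec n}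
    (hv : v ∈ verts K) : w1 ∈ verts (wedge K v) := by
  rw [verts_wedge hK hv]
  exact Finset.mem_insert_self _ _

private lemma Wc4_w2_mem {n : ℕ} {K : Finset (Finset (Vec n))} (hK : IsFan K) {v : Vec n}
    (hv : v ∈ verts K) : w2 v ∈ verts (wedge K v) := by
  rw [verts_wedge hK hv]
  exact Finset.mem_insert_of_mem (Finset.mem_insert_self _ _)

private lemma Wc4_up_mem {n : ℕ} {K : Finset (Finset (Vec n))} (hK : IsFan K) {v : Vec n}
    (hv : v ∈ verts K) (w : Vec n) :
    up 0 w ∈ verts (wedge K v) ↔ w ∈ (verts K).erase v := by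
  rw [verts_wedge hK hv, Finset.mem_insert, Finset.mem_insert, up_mem_lift]
  constructor
  · rintro (h | h | h)
    · have := (up_inj h).1
      omega
    · have := (up_inj h).1
      omega
    · exact h
  · intro h
    exact Or.inr (Or.inr h)

private lemma Wc4_eq {n : ℕ} {K : Finset (Finset (Vec n))} (hK : IsFan K) {v : Vec n}
    (hv : v ∈ verts K) {l : Vec (n + 1) → ℝ} (hl : l ∈ VK (wedge K v)) : l w1 = l (w2 v) := by
  have h := VK_rel hl 0
  rw [Wc4_sum hK hv] at h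
  have h0 : ∑ w ∈ (verts K).erase v, (((up 0 w : Vec (n + 1)) 0 : ℤ) : ℝ) * l (up 0 w) = 0 :=
    Finset.sum_eq_zero (fun w _ => by rw [Wc4_up0]; simp)
  rw [h0, w1, w2, Wc4_up0, Wc4_up0] at h
  push_cast at h
  show l (up 1 0) = l (up (-1) v)
  linarith

private lemma Wc4_D_mem {n : ℕ} {K : Finset (Finset (Vec n))} (hK : IsFan K) {v : Vec n}
    (hv : v ∈ verts K) {l : Vec (n + 1) → ℝ} (hl : l ∈ VK (wedge K v)) : Wc4_D v l ∈ VK K := by
  refine VK_mk ?_ ?_
  · intro w hw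
    have hwv : w ≠ v := by
      rintro rfl
      exact hw hv
    unfold Wc4_D
    rw [if_neg hwv]
    refine VK_out hl ?_
    rw [Wc4_up_mem hK hv]
    intro h
    exact hw (Finset.mem_of_mem_erase h)
  · intro i
    have h := VK_rel hl i.succ
    rw [Wc4_sum hK hv, w1, Wc4_ups, w2, Wc4_ups] at h
    rw [← Finset.add_sum_erase _ _ hv]
    have h1 : ∑ w ∈ (verts K).erase v, (w i : ℝ) * Wc4_D v l w =
        ∑ w ∈ (verts K).erase v, (((up 0 w : Vec (n + 1)) i.succ : ℤ) : ℝ) * l (up 0 w) := by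
      refine Finset.sum_congr rfl (fun w hw => ?_)
      unfold Wc4_D
      rw [if_neg (Finset.ne_of_mem_erase hw), Wc4_ups]
    rw [h1]
    have h2 : Wc4_D v l v = l (w2 v) := by
      unfold Wc4_D
      rw [if_pos rfl]
    rw [h2, w2]
    have h3 : (((0 : Vec n) i : ℤ) : ℝ) = 0 := by simp
    rw [h3, zero_mul, zero_add] at h
    exact h

private lemma Wc4_U_mem {n : ℕ} {K : Finset (Finset (Vec n))} (hK : IsFan K) {v : Vec n}
    (hv : v ∈ verts K) {m : Vec n → ℝ} (hm : m ∈ VK K) : Wc4_U K v m ∈ VK (wedge K v) := by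
  have e1 : Wc4_U K v m w1 = m v := by
    unfold Wc4_U
    rw [if_pos (Wc4_w1_mem hK hv), Wc4_s_w1]
  have e2 : Wc4_U K v m (w2 v) = m v := by
    unfold Wc4_U
    rw [if_pos (Wc4_w2_mem hK hv), Wc4_s_w2]
  have e3 : ∀ w ∈ (verts K).erase v, Wc4_U K v m (up 0 w) = m w := by
    intro w hw
    unfold Wc4_U
    rw [if_pos ((Wc4_up_mem hK hv w).2 hw), Wc4_s_up]
  refine VK_mk ?_ ?_
  · intro x hx
    unfold Wc4_U
    rw [if_neg hx]
  · intro i
    rw [Wc4_sum hK hv, e1, e2]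
    refine Fin.cases ?_ (fun j => ?_) i
    · have h0 : ∑ w ∈ (verts K).erase v, (((up 0 w : Vec (n + 1)) 0 : ℤ) : ℝ) *
          Wc4_U K v m (up 0 w) = 0 :=
        Finset.sum_eq_zero (fun w _ => by rw [Wc4_up0]; simp)
      rw [h0, w1, w2, Wc4_up0, Wc4_up0]
      push_cast
      ring
    · have h1 : ∑ w ∈ (verts K).erase v, (((up 0 w : Vec (n + 1)) j.succ : ℤ) : ℝ) *
          Wc4_U K v m (up 0 w) = ∑ w ∈ (verts K).erase v, (w j : ℝ) * m w :=
        Finset.sum_congr rfl (fun w hw => by rw [e3 w hw, Wc4_ups])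
      have h3 : (((0 : Vec n) j : ℤ) : ℝ) = 0 := by simp
      rw [h1, w1, w2, Wc4_ups, Wc4_ups, h3, zero_mul, zero_add,
        Finset.add_sum_erase (verts K) (fun w => (w j : ℝ) * m w) hv]
      exact VK_rel hm j

private lemma Wc4_DU {n : ℕ} {K : Finset (Finset (Vec n))} (hK : IsFan K) {v : Vec n}
    (hv : v ∈ verts K) {m : Vec n → ℝ} (hm : m ∈ VK K) : Wc4_D v (Wc4_U K v m) = m := by
  funext w
  unfold Wc4_D
  by_cases hwv : w = v
  · rw [if_pos hwv]
    unfold Wc4_U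
    rw [if_pos (Wc4_w2_mem hK hv), Wc4_s_w2, hwv]
  · rw [if_neg hwv]
    unfold Wc4_U
    by_cases hw : w ∈ verts K
    · rw [if_pos ((Wc4_up_mem hK hv w).2 (Finset.mem_erase.2 ⟨hwv, hw⟩)), Wc4_s_up]
    · rw [if_neg (fun h => hw (Finset.mem_of_mem_erase ((Wc4_up_mem hK hv w).1 h))),
        VK_out hm hw]

private lemma Wc4_UD {n : ℕ} {K : Finset (Finset (Vec n))} (hK : IsFan K) {v : Vec n}
    (hv : v ∈ verts K) {l : Vec (n + 1) → ℝ} (hl : l ∈ VK (wedge K v)) (x : Vec (n + 1)) :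
    l x = if x ∈ verts (wedge K v) then Wc4_D v l (Wc4_s v x) else 0 := by
  by_cases hx : x ∈ verts (wedge K v)
  · rw [if_pos hx]
    have hx' := hx
    rw [verts_wedge hK hv, Finset.mem_insert, Finset.mem_insert] at hx'
    rcases hx' with rfl | rfl | h
    · rw [Wc4_s_w1, Wc4_eq hK hv hl]
      unfold Wc4_D
      rw [if_pos rfl]
    · rw [Wc4_s_w2]
      unfold Wc4_D
      rw [if_pos rfl]
    · obtain ⟨w, hw, rfl⟩ := mem_lift.1 h
      rw [Wc4_s_up]
      unfold Wc4_D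
      rw [if_neg (Finset.ne_of_mem_erase hw)]
  · rw [if_neg hx, VK_out hl hx]

theorem tWc4 : StWc4 := by
  intro n K v hK hv M hC l hl hmin
  obtain ⟨a, c, hc, hac⟩ := hC (Wc4_D v l) (Wc4_D_mem hK hv hl) (fun m' hm' hs => by
    obtain ⟨a, ha⟩ := hmin (Wc4_U K v m') (Wc4_U_mem hK hv hm') (fun x hx => by
      by_cases hxW : x ∈ verts (wedge K v)
      · have h1 : m' (Wc4_s v x) ≠ 0 := by
          intro h0
          apply hx
          unfold Wc4_U
          rw [if_pos hxW, h0]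
        have h2 := hs _ h1
        rw [Wc4_UD hK hv hl x, if_pos hxW]
        exact h2
      · exfalso
        apply hx
        unfold Wc4_U
        rw [if_neg hxW])
    refine ⟨a, ?_⟩
    rw [← Wc4_DU hK hv hm', ha]
    funext w
    unfold Wc4_D
    by_cases hwv : w = v
    · simp [hwv]
    · simp [hwv])
  refine ⟨a, fun x => if x ∈ verts (wedge K v) then c (Wc4_s v x) else 0, ?_, ?_⟩
  · intro x
    by_cases hx : x ∈ verts (wedge K v)
    · simp only [if_pos hx]
      exact hc _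
    · simp only [if_neg hx, abs_zero]
      exact Int.natCast_nonneg M
  · funext x
    rw [Wc4_UD hK hv hl x]
    by_cases hx : x ∈ verts (wedge K v)
    · simp only [if_pos hx, Pi.smul_apply, smul_eq_mul]
      rw [hac]
      rfl
    · simp only [if_neg hx, Pi.smul_apply, smul_eq_mul]
      push_cast
      ring

end ToricSR
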