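import Pool.Agent.Lib.MP_3d51eb_gt.SR.AllJ
import Pool.Agent.Lib.MP_3d51eb_gt.SR.Card
import Pool.Agent.Lib.MP_3d51eb_gt.SR.Ca
import Pool.Agent.Lib.MP_3d51eb_gt.SR.Ex
import Pool.Agent.Lib.MP_3d51eb_gt.SR.E6
import Pool.Agent.Lib.MP_3d51eb_gt.SR.Q6
import Pool.Agent.Lib.MP_3d51eb_gt.SR.Pd
import Pool.Agent.Lib.MP_3d51eb_gt.SR.Ii
import Pool.Agent.Lib.MP_3d51eb_gt.SR.Cnt
import Pool.Agent.Lib.MP_3d51eb_gt.SR.Bf6
import Pool.Agent.Lib.MP_3d51eb_gt.SR.Circ4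
import Pool.Agent.Lib.MP_3d51eb_gt.SR.Cd4
import Pool.Agent.Lib.MP_3d51eb_gt.SR.Sp6
import Pool.Agent.Lib.MP_3d51eb_gt.SR.Bij6
import Pool.Agent.Lib.MP_3d51eb_gt.SR.Wc4
import Pool.Agent.Lib.MP_3d51eb_gt.SR.Mn
import Pool.Agent.Lib.MP_3d51eb_gt.SR.Mx
import Pool.Agent.Lib.MP_3d51eb_gt.SR.ThmM6
import Pool.Agent.Lib.MP_3d51eb_gt.SR.ThmMJ

set_option autoImplicit false

/-! # project SR: assembly, circuits bounded by an odd number -/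

namespace ToricSR

theorem bCard : StCard := tCard aTr aDim
theorem bCa : StCa := tCa
theorem bEx : StEx := tEx
theorem bE6 : StE6 := tE6 aHom
theorem bQ6 : StQ6 := tQ6 bE6 aNw
theorem bPd : StPd := tPd
theorem bIi : StIi := tIi bPd
theorem bCnt : StCnt := tCnt
theorem bBf6 : StBf6 := tBf6 aMbg
theorem bCirc4 : StCirc4 := tCirc4 bCa
theorem bCd4 : StCd4 := tCd4 bCirc4
theorem bSp6 : StSp6 := tSp6 bCd4
theorem bBij6 : StBij6 := tBij6 aRel aPerp bQ6 bIi bSp6 bCnt bBf6 aSgn bCard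
theorem bWc4 : StWc4 := tWc4
theorem bMn : StMn := tMn bEx
theorem bMx : StMx := tMx
theorem bThmM6 : ThmM6 := tThmM6 bBij6 aRay aCon

end ToricSR
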