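import Pool.Agent.Lib.MP_3d51eb_gt.SR.Spec3
import Pool.Agent.Lib.MP_3d51eb_gt.PB.All

/-!
# project SR: circuits of unimodular rays have coefficients `0`, `1`, `-1`
-/

set_option autoImplicit false

noncomputable section

namespace ToricSR

open Finset MvPolynomial ToricPB

private lemma Cb_lin_apply {n : ℕ} (s : Finset (Vec n)) (c : Vec n → ℝ) (i : Fin n) :
    lin s c i = ∑ v ∈ s, (v i : ℝ) * c v := by
  simp only [lin, Finset.sum_apply, Pi.smul_apply, smul_eq_mul, toR]
  exact Finset.sum_congr rfl (fun v _ => mul_comm _ _)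

private lemma Cb_lin_verts {n : ℕ} {K : Finset (Finset (Vec n))} {m : Vec n → ℝ}
    (h : m ∈ VK K) : lin (verts K) m = 0 := by
  funext i
  rw [Cb_lin_apply, VK_rel h i]
  rfl

private lemma Cb_lin_supp {n : ℕ} {K : Finset (Finset (Vec n))} {m : Vec n → ℝ}
    (h : m ∈ VK K) {s : Finset (Vec n)} (hs : s ⊆ verts K) (h0 : ∀ v, m v ≠ 0 → v ∈ s) :
    lin s m = 0 := by
  have h1 : lin (verts K) m = lin s m :=
    lin_subset hs m (fun v _ hv => by
      by_contra hc
      exact hv (h0 v hc))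
  rw [← h1, Cb_lin_verts h]

private lemma Cb_unit {n : ℕ} {K : Finset (Finset (Vec n))} (hU : Unim K) {σ : Finset (Vec n)}
    (hσ : σ ⊆ verts K) (hc : σ.card = n)
    (hi : ∀ c : Vec n → ℝ, lin σ c = 0 → ∀ v ∈ σ, c v = 0) {v0 : Vec n} (hv0 : v0 ∈ verts K)
    (hv0σ : v0 ∉ σ) {a : Vec n → ℤ} (ha : v0 = ∑ v ∈ σ, a v • v) {b : Vec n} (hb : b ∈ σ)
    (hab : a b ≠ 0) : a b = 1 ∨ a b = -1 := by
  classical
  have hR : toR v0 = lin σ (fun v => (a v : ℝ)) := by
    rw [lin_int, ← ha]
  have hv0e : v0 ∉ σ.erase b := fun h => hv0σ (Finset.mem_of_mem_erase h)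
  have key : ∀ c : Vec n → ℝ, lin (insert v0 (σ.erase b)) c =
      lin σ (fun v => c v0 * (a v : ℝ) + if v = b then 0 else c v) := by
    intro c
    have e1 : lin (σ.erase b) c = lin σ (fun v => if v = b then 0 else c v) := by
      rw [lin_subset (Finset.erase_subset b σ) (fun v => if v = b then 0 else c v)
        (fun v hv hv' => by
          have : v = b := by
            by_contra hne
            exact hv' (Finset.mem_erase.2 ⟨hne, hv⟩)
          rw [if_pos this])]
      exact lin_congr (fun v hv => by rw [if_neg (Finset.ne_of_mem_erase hv)])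
    have e2 : c v0 • lin σ (fun v => (a v : ℝ)) = lin σ (fun v => c v0 * (a v : ℝ)) :=
      (lin_smul σ (c v0) (fun v => (a v : ℝ))).symm
    rw [lin_insert hv0e, hR, e2, e1]
    exact (lin_add σ (fun v => c v0 * (a v : ℝ)) (fun v => if v = b then 0 else c v)).symm
  have hs : insert v0 (σ.erase b) ⊆ verts K := by
    intro x hx
    rcases Finset.mem_insert.1 hx with rfl | hx
    · exact hv0
    · exact hσ (Finset.mem_of_mem_erase hx)
  have hcard : (insert v0 (σ.erase b)).card = n := by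
    rw [Finset.card_insert_of_notMem hv0e, Finset.card_erase_of_mem hb, hc]
    have : 0 < σ.card := Finset.card_pos.2 ⟨b, hb⟩
    omega
  have hind : ∀ c : Vec n → ℝ, lin (insert v0 (σ.erase b)) c = 0 →
      ∀ v ∈ insert v0 (σ.erase b), c v = 0 := by
    intro c h
    rw [key] at h
    have h1 := hi _ h
    have h2 := h1 b hb
    simp only [if_true, add_zero] at h2
    have h3 : c v0 = 0 := by
      rcases mul_eq_zero.1 h2 with h | h
      · exact h
      · exact absurd (by exact_mod_cast h) hab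
    intro v hv
    rcases Finset.mem_insert.1 hv with rfl | hv
    · exact h3
    · have h4 := h1 v (Finset.mem_of_mem_erase hv)
      simp only [h3, zero_mul, zero_add, if_neg (Finset.ne_of_mem_erase hv)] at h4
      exact h4
  have hUni := hU _ hs hcard hind
  obtain ⟨e, he⟩ := ((aDual n _ hUni).2.2.2 hcard).1 b
  have h5 : toR b = lin (insert v0 (σ.erase b)) (fun v => (e v : ℝ)) := by
    rw [lin_int, ← he]
  rw [key, ← lin_single hb] at h5
  have h6 : lin σ (fun v => (if v = b then (1 : ℝ) else 0) -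
      ((e v0 : ℝ) * (a v : ℝ) + if v = b then 0 else (e v : ℝ))) = 0 := by
    rw [lin_sub, h5, sub_self]
  have h7 := hi _ h6 b hb
  simp only [if_true, add_zero] at h7
  have h8 : e v0 * a b = 1 := by
    have : (e v0 : ℝ) * (a b : ℝ) = 1 := by linarith
    exact_mod_cast this
  have h9 : IsUnit (a b) := IsUnit.of_mul_eq_one (e v0) (by rw [mul_comm]; exact h8)
  exact Int.isUnit_iff.1 h9

theorem tCb (h1 : StEx) : StCb := by
  classical
  intro n K hK hU m hm hm0 hmin
  obtain ⟨v0, hv0⟩ : ∃ v, m v ≠ 0 := by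
    by_contra hc
    push Not at hc
    exact hm0 (funext hc)
  have hv0K : v0 ∈ verts K := by
    by_contra hc
    exact hv0 (VK_out hm hc)
  have hin : ∀ v, m v ≠ 0 → v ∈ verts K := fun v hv => by
    by_contra hc
    exact hv (VK_out hm hc)
  obtain ⟨B, hB⟩ : ∃ B : Finset (Vec n), B = (verts K).filter (fun v => m v ≠ 0 ∧ v ≠ v0) :=
    ⟨_, rfl⟩
  have hmB : ∀ v, v ∈ B ↔ v ∈ verts K ∧ m v ≠ 0 ∧ v ≠ v0 := fun v => by
    rw [hB, Finset.mem_filter]
  have hBK : B ⊆ verts K := fun v hv => ((hmB v).1 hv).1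
  have hBi : ∀ c : Vec n → ℝ, lin B c = 0 → ∀ v ∈ B, c v = 0 := by
    intro c hc
    have hm' : (fun v => if v ∈ B then c v else 0) ∈ VK K := by
      refine VK_mk (fun v hv => ?_) (fun i => ?_)
      · exact if_neg (fun h => hv (hBK h))
      · have h2 := congrFun hc i
        rw [Cb_lin_apply] at h2
        have h3 : ∑ v ∈ verts K, (v i : ℝ) * (if v ∈ B then c v else 0) =
            ∑ v ∈ B, (v i : ℝ) * c v := by
          rw [← Finset.sum_subset hBK (fun v _ hv => by rw [if_neg hv, mul_zero])]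
          exact Finset.sum_congr rfl (fun v hv => by rw [if_pos hv])
        exact h3.trans h2
    obtain ⟨a, ha⟩ := hmin _ hm' (fun v hv => by
      by_cases h : v ∈ B
      · exact ((hmB v).1 h).2.1
      · exact absurd (if_neg h) hv)
    have h4 := congrFun ha v0
    have h5 : v0 ∉ B := fun h => ((hmB v0).1 h).2.2 rfl
    simp only [if_neg h5, Pi.smul_apply, smul_eq_mul] at h4
    have h6 : a = 0 := by
      rcases mul_eq_zero.1 h4.symm with h | h
      · exact h
      · exact absurd h hv0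
    intro v hv
    have h7 := congrFun ha v
    simp only [if_pos hv, h6, zero_smul, Pi.zero_apply] at h7
    exact h7
  obtain ⟨σ, hσ, hBσ, hcard, hi⟩ := h1 n K hK B hBK hBi
  have hsupp : ∀ v, m v ≠ 0 → v = v0 ∨ v ∈ σ := by
    intro v hv
    by_cases e : v = v0
    · exact Or.inl e
    · exact Or.inr (hBσ ((hmB v).2 ⟨hin v hv, hv, e⟩))
  have hv0σ : v0 ∉ σ := by
    intro h
    have h2 : lin σ m = 0 := Cb_lin_supp hm hσ (fun v hv => by
      rcases hsupp v hv with e | e
      · rw [e]; exact h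
      · exact e)
    exact hv0 (hi m h2 v0 h)
  have hUni := hU σ hσ hcard hi
  obtain ⟨a, ha⟩ := ((aDual n σ hUni).2.2.2 hcard).1 v0
  have hR : toR v0 = lin σ (fun v => (a v : ℝ)) := by
    rw [lin_int, ← ha]
  have hma : ∀ v ∈ σ, m v = -(m v0 * (a v : ℝ)) := by
    have hs : insert v0 σ ⊆ verts K := by
      intro x hx
      rcases Finset.mem_insert.1 hx with rfl | hx
      · exact hv0K
      · exact hσ hx
    have h2 : lin (insert v0 σ) m = 0 := Cb_lin_supp hm hs (fun v hv => by
      rcases hsupp v hv with e | e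
      · rw [e]; exact Finset.mem_insert_self _ _
      · exact Finset.mem_insert_of_mem e)
    have e2 : m v0 • lin σ (fun v => (a v : ℝ)) = lin σ (fun v => m v0 * (a v : ℝ)) :=
      (lin_smul σ (m v0) (fun v => (a v : ℝ))).symm
    rw [lin_insert hv0σ, hR, e2, ← lin_add] at h2
    intro v hv
    have h3 := hi _ h2 v hv
    have h4 : m v0 * (a v : ℝ) + m v = 0 := h3
    linarith
  have hunit : ∀ v ∈ σ, a v = 0 ∨ a v = 1 ∨ a v = -1 := by
    intro v hv
    by_cases h : a v = 0
    · exact Or.inl h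
    · exact Or.inr (Cb_unit hU hσ hcard hi hv0K hv0σ ha hv h)
  have hout : ∀ v, v ≠ v0 → v ∉ σ → m v = 0 := by
    intro v h2 h3
    by_contra hc
    rcases hsupp v hc with e | e
    · exact h2 e
    · exact h3 e
  obtain ⟨sg, hsg, hsg'⟩ : ∃ sg : ℤ, (sg = 1 ∨ sg = -1) ∧ m v0 = |m v0| * (sg : ℝ) := by
    rcases lt_or_gt_of_ne hv0 with h | h
    · exact ⟨-1, Or.inr rfl, by rw [abs_of_neg h]; push_cast; ring⟩
    · exact ⟨1, Or.inl rfl, by rw [abs_of_pos h]; push_cast; ring⟩
  obtain ⟨c, hc⟩ : ∃ c : Vec n → ℤ, c = fun v => if v = v0 then sg else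
      if v ∈ σ then -(sg * a v) else 0 := ⟨_, rfl⟩
  have hc0 : c v0 = sg := by rw [hc]; exact if_pos rfl
  have hcσ : ∀ v ∈ σ, c v = -(sg * a v) := by
    intro v hv
    have hne : v ≠ v0 := fun e => hv0σ (e ▸ hv)
    rw [hc]
    simp only [if_neg hne, if_pos hv]
  have hco : ∀ v, v ≠ v0 → v ∉ σ → c v = 0 := by
    intro v h2 h3
    rw [hc]
    simp only [if_neg h2, if_neg h3]
  refine ⟨|m v0|, abs_pos.2 hv0, c, ?_, ?_⟩
  · intro v
    by_cases e : v = v0
    · rw [e, hc0]
      rcases hsg with h | h <;> simp [h]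
    · by_cases hv : v ∈ σ
      · rw [hcσ v hv]
        rcases hsg with h | h <;> rcases hunit v hv with h' | h' | h' <;> simp [h, h']
      · exact Or.inl (hco v e hv)
  · funext v
    show m v = |m v0| * ((c v : ℤ) : ℝ)
    by_cases e : v = v0
    · rw [e, hc0]
      exact hsg'
    · by_cases hv : v ∈ σ
      · rw [hma v hv, hcσ v hv]
        push_cast
        rw [mul_neg, ← mul_assoc, ← hsg']
      · rw [hout v e hv, hco v e hv]
        simp

end ToricSR
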