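import Pool.Agent.Lib.MP_3d51eb_gt.SR.Spec3

set_option autoImplicit false

/-! # project SR: conformal decomposition -/

noncomputable section

namespace ToricSR

open Finset MvPolynomial ToricPB

/-- the rays where a relation does not vanish -/
private def Cd_supp {n : ℕ} (K : Finset (Finset (Vec n))) (l : Vec n → ℝ) : Finset (Vec n) := by
  classical
  exact (verts K).filter (fun v => l v ≠ 0)

private lemma Cd_mem {n : ℕ} {K : Finset (Finset (Vec n))} {l : Vec n → ℝ} (hl : l ∈ VK K)
    {v : Vec n} : v ∈ Cd_supp K l ↔ l v ≠ 0 := by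
  classical
  rw [Cd_supp, Finset.mem_filter]
  constructor
  · exact fun h => h.2
  · intro h
    refine ⟨?_, h⟩
    by_contra hv
    exact h (VK_out hl hv)

private lemma Cd_zero {n : ℕ} (c : Vec n → ℤ) (hc : Z1 c) {v : Vec n} (hv : c v ≠ 0)
    {x : ℝ} (hx : 0 < rl c v * x) : x = |x| * rl c v ∧ |rl c v| = 1 := by
  rcases hc v with h | h | h
  · exact absurd h hv
  · have h1 : rl c v = 1 := by simp [rl, h]
    rw [h1] at hx ⊢
    rw [one_mul] at hx
    exact ⟨by rw [abs_of_pos hx, mul_one], abs_one⟩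
  · have h1 : rl c v = -1 := by simp [rl, h]
    rw [h1] at hx ⊢
    have hx' : x < 0 := by linarith
    exact ⟨by rw [abs_of_neg hx']; ring, by rw [abs_neg, abs_one]⟩

theorem tCd (h1 : StCirc) : StCd := by
  classical
  intro n K hK hU
  suffices H : ∀ N : ℕ, ∀ l ∈ VK K, (Cd_supp K l).card ≤ N →
      ∃ A : List (ℝ × (Vec n → ℤ)),
      (∀ p ∈ A, 0 < p.1 ∧ rl p.2 ∈ VK K ∧ Z1 p.2 ∧ ∀ v, p.2 v ≠ 0 → 0 < rl p.2 v * l v) ∧
      l = (A.map (fun p => p.1 • rl p.2)).sum from fun l hl => H _ l hl le_rfl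
  intro N
  induction N with
  | zero =>
    intro l hl hc
    have hs : Cd_supp K l = ∅ := Finset.card_eq_zero.1 (Nat.le_zero.1 hc)
    refine ⟨[], by simp, ?_⟩
    simp only [List.map_nil, List.sum_nil]
    funext v
    by_contra hv
    have := (Cd_mem hl).2 hv
    rw [hs] at this
    exact absurd this (Finset.notMem_empty v)
  | succ N ih =>
    intro l hl hcard
    by_cases hl0 : l = 0
    · exact ⟨[], by simp, by simp [hl0]⟩
    obtain ⟨c, hcV, hcZ, ⟨v1, hv1⟩, hcl⟩ := h1 n K hK hU l hl hl0
    -- the support of c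
    have hT : ((verts K).filter (fun v => c v ≠ 0)).Nonempty := by
      refine ⟨v1, Finset.mem_filter.2 ⟨?_, hv1⟩⟩
      by_contra hv
      have := VK_out hcV hv
      exact hv1 (by simpa [rl] using this)
    obtain ⟨v0, hv0, hmin⟩ := Finset.exists_min_image _ (fun v => |l v|) hT
    rw [Finset.mem_filter] at hv0
    have hl0' := Cd_zero c hcZ hv0.2 (hcl v0 hv0.2)
    have ha : 0 < |l v0| := by
      rw [abs_pos]
      intro h
      have := hcl v0 hv0.2
      rw [h, mul_zero] at this
      exact lt_irrefl _ this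
    set a : ℝ := |l v0| with hadef
    set l' : Vec n → ℝ := l - a • rl c with hl'
    have hl'V : l' ∈ VK K := Submodule.sub_mem _ hl (Submodule.smul_mem _ _ hcV)
    have hval : ∀ v, c v ≠ 0 → l' v = (|l v| - a) * rl c v ∧ 0 ≤ |l v| - a := by
      intro v hv
      have h2 := Cd_zero c hcZ hv (hcl v hv)
      have hvK : v ∈ verts K := by
        by_contra hvn
        exact hv (by simpa [rl] using VK_out hcV hvn)
      refine ⟨?_, sub_nonneg.2 (hmin v (Finset.mem_filter.2 ⟨hvK, hv⟩))⟩
      show l v - a * rl c v = _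
      rw [sub_mul, ← h2.1]
    have hval0 : ∀ v, c v = 0 → l' v = l v := by
      intro v hv
      show l v - a * rl c v = _
      simp [rl, hv]
    have hconf : ∀ v, l' v ≠ 0 → ∃ t : ℝ, 0 < t ∧ l v = t * l' v := by
      intro v hv
      by_cases hcv : c v = 0
      · exact ⟨1, one_pos, by rw [hval0 v hcv, one_mul]⟩
      · obtain ⟨h3, h4⟩ := hval v hcv
        have h5 := Cd_zero c hcZ hcv (hcl v hcv)
        have h6 : 0 < |l v| - a := by
          rcases h4.lt_or_eq with h | h
          · exact h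
          · exact absurd (by rw [h3, ← h, zero_mul]) hv
        have h7 : 0 < |l v| := by linarith
        refine ⟨|l v| / (|l v| - a), div_pos h7 h6, ?_⟩
        rw [h3, ← mul_assoc, div_mul_cancel₀ _ h6.ne', ← h5.1]
    have hsub : Cd_supp K l' ⊆ (Cd_supp K l).erase v0 := by
      intro v hv
      rw [Cd_mem hl'V] at hv
      rw [Finset.mem_erase, Cd_mem hl]
      constructor
      · rintro rfl
        obtain ⟨h3, _⟩ := hval v hv0.2
        exact hv (by rw [h3, sub_self, zero_mul])
      · obtain ⟨t, ht, h3⟩ := hconf v hv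
        rw [h3]
        exact mul_ne_zero ht.ne' hv
    have hmem0 : v0 ∈ Cd_supp K l := (Cd_mem hl).2 (abs_pos.1 ha)
    have hcard' : (Cd_supp K l').card ≤ N := by
      have h3 := Finset.card_le_card hsub
      rw [Finset.card_erase_of_mem hmem0] at h3
      omega
    obtain ⟨A, hA, hsum⟩ := ih l' hl'V hcard'
    refine ⟨(a, c) :: A, ?_, ?_⟩
    · intro p hp
      rcases List.mem_cons.1 hp with rfl | hp
      · exact ⟨ha, hcV, hcZ, hcl⟩
      · obtain ⟨h3, h4, h5, h6⟩ := hA p hp
        refine ⟨h3, h4, h5, fun v hv => ?_⟩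
        have h7 := h6 v hv
        have hne : l' v ≠ 0 := by
          intro h
          rw [h, mul_zero] at h7
          exact lt_irrefl _ h7
        obtain ⟨t, ht, h8⟩ := hconf v hne
        rw [h8, mul_left_comm]
        exact mul_pos ht h7
    · rw [List.map_cons, List.sum_cons, ← hsum, hl']
      abel

end ToricSR
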