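import Pool.Agent.Lib.MP_3d51eb_gt.SR.Spec3

set_option autoImplicit false

/-! # project SR: conformal circuits -/

noncomputable section

namespace ToricSR

open Finset MvPolynomial ToricPB

theorem tCirc (h1 : StCa) (h2 : StCb) : StCirc := by
  intro n K hK hU l hl hl0
  obtain ⟨m, hm, hm0, hml, hmin⟩ := h1 n K l hl hl0
  obtain ⟨a, ha, c, hc, rfl⟩ := h2 n K hK hU m hm hm0 hmin
  have hcm : rl c = a⁻¹ • (a • rl c) := by
    rw [smul_smul, inv_mul_cancel₀ ha.ne', one_smul]
  refine ⟨c, ?_, hc, ?_, fun v hv => ?_⟩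
  · rw [hcm]
    exact Submodule.smul_mem _ _ hm
  · by_contra hcon
    push Not at hcon
    refine hm0 (funext (fun v => ?_))
    show a * ((c v : ℤ) : ℝ) = 0
    rw [hcon v]; simp
  · have hne : (a • rl c) v ≠ 0 := by
      show a * ((c v : ℤ) : ℝ) ≠ 0
      exact mul_ne_zero ha.ne' (by exact_mod_cast hv)
    have h := hml v hne
    have h' : 0 < a * (rl c v * l v) := by
      have : (a • rl c) v * l v = a * (rl c v * l v) := by
        show a * rl c v * l v = _
        ring
      rwa [this] at h
    exact (mul_pos_iff_of_pos_left ha).1 h'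

end ToricSR
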