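import Pool.Agent.Lib.MP_3d51eb_gt.SR.Spec3

/-!
# MP_3d51eb_gt, project PU, module Kb: bijection from the kinks of the norms (helper92)
-/

set_option autoImplicit false

noncomputable section

namespace ToricSR

open Finset MvPolynomial ToricPB

open Classical in
private theorem Kb_one (h1 : StKk) (V : Type) [AddCommGroup V] [Module ℝ V] (n : ℕ)
    (S S' : Finset (Vec n)) (f g : Vec n → V →ₗ[ℝ] ℝ)
    (hN : ∀ x, ∑ v ∈ S, |f v x| = ∑ w ∈ S', |g w x|) (hg0 : ∀ w ∈ S', g w ≠ 0)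
    (hf0 : ∀ v ∈ S, f v ≠ 0)
    (hgf : ∀ w ∈ S', ∀ v ∈ S, ∀ c : ℝ, g w = c • f v → g w = f v ∨ g w = -f v) :
    ∀ w ∈ S', ∃ v ∈ S, g w = f v ∨ g w = -f v := by
  intro w hw
  obtain ⟨d, hd⟩ : ∃ d, g w d ≠ 0 := by
    by_contra hc
    push Not at hc
    exact hg0 w hw (LinearMap.ext hc)
  have hk := h1 V n S S' f g hN (g w) d
  have hpos : 0 < ∑ w' ∈ S'.filter (fun w' => ∃ c : ℝ, g w' = c • g w), |g w' d| := by
    refine lt_of_lt_of_le (abs_pos.2 hd) ?_
    exact Finset.single_le_sum (f := fun w' => |g w' d|) (fun _ _ => abs_nonneg _)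
      (Finset.mem_filter.2 ⟨hw, 1, (one_smul ℝ (g w)).symm⟩)
  rw [← hk] at hpos
  obtain ⟨v, hv, -⟩ := Finset.exists_ne_zero_of_sum_ne_zero hpos.ne'
  rw [Finset.mem_filter] at hv
  obtain ⟨hvS, c, hc⟩ := hv
  have hc0 : c ≠ 0 := by
    intro h
    rw [h, zero_smul] at hc
    exact hf0 v hvS hc
  refine ⟨v, hvS, hgf w hw v hvS c⁻¹ ?_⟩
  rw [hc, smul_smul, inv_mul_cancel₀ hc0, one_smul]

open Classical in
private theorem Kb_two (h1 : StKk) (V : Type) [AddCommGroup V] [Module ℝ V] (n : ℕ)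
    (S S' : Finset (Vec n)) (f g : Vec n → V →ₗ[ℝ] ℝ)
    (hN : ∀ x, ∑ v ∈ S, |f v x| = ∑ w ∈ S', |g w x|)
    (hf0 : ∀ v ∈ S, f v ≠ 0)
    (hpair : ∀ v ∈ S, ∀ v' ∈ S, ∀ c : ℝ, f v = c • f v' → f v = f v')
    (hgf : ∀ w ∈ S', ∀ v ∈ S, ∀ c : ℝ, g w = c • f v → g w = f v ∨ g w = -f v) :
    ∀ v0 ∈ S, (S.filter (fun v => f v = f v0)).card =
      (S'.filter (fun w => g w = f v0 ∨ g w = -f v0)).card := by
  intro v0 hv0
  obtain ⟨d, hd⟩ : ∃ d, f v0 d ≠ 0 := by
    by_contra hc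
    push Not at hc
    exact hf0 v0 hv0 (LinearMap.ext hc)
  have hk := h1 V n S S' f g hN (f v0) d
  have e1 : S.filter (fun v => ∃ c : ℝ, f v = c • f v0) = S.filter (fun v => f v = f v0) := by
    refine Finset.filter_congr fun v hv => ⟨?_, ?_⟩
    · rintro ⟨c, hc⟩
      exact hpair v hv v0 hv0 c hc
    · intro h
      exact ⟨1, by rw [one_smul]; exact h⟩
  have e2 : S'.filter (fun w => ∃ c : ℝ, g w = c • f v0) =
      S'.filter (fun w => g w = f v0 ∨ g w = -f v0) := by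
    refine Finset.filter_congr fun w hw => ⟨?_, ?_⟩
    · rintro ⟨c, hc⟩
      exact hgf w hw v0 hv0 c hc
    · rintro (h | h)
      · exact ⟨1, by rw [one_smul]; exact h⟩
      · exact ⟨-1, h.trans (neg_one_smul ℝ (f v0)).symm⟩
  rw [e1, e2] at hk
  have s1 : ∑ v ∈ S.filter (fun v => f v = f v0), |f v d| =
      ((S.filter (fun v => f v = f v0)).card : ℝ) * |f v0 d| := by
    rw [← nsmul_eq_mul, ← Finset.sum_const]
    refine Finset.sum_congr rfl fun v hv => ?_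
    rw [(Finset.mem_filter.1 hv).2]
  have s2 : ∑ w ∈ S'.filter (fun w => g w = f v0 ∨ g w = -f v0), |g w d| =
      ((S'.filter (fun w => g w = f v0 ∨ g w = -f v0)).card : ℝ) * |f v0 d| := by
    rw [← nsmul_eq_mul, ← Finset.sum_const]
    refine Finset.sum_congr rfl fun w hw => ?_
    rcases (Finset.mem_filter.1 hw).2 with h | h
    · rw [h]
    · rw [h, LinearMap.neg_apply, abs_neg]
  rw [s1, s2] at hk
  have h5 := mul_right_cancel₀ (abs_ne_zero.2 hd) hk
  exact_mod_cast h5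

open Classical in
theorem tKb (h1 : StKk) (h2 : StMbg) : StKb := by
  intro V _ _ n S S' f g hN hg0 hf0 hpair hgf
  have hE := Kb_one h1 V n S S' f g hN hg0 hf0 hgf
  have hB := Kb_two h1 V n S S' f g hN hf0 hpair hgf
  obtain ⟨b, hb⟩ : ∃ b : Vec n → (V →ₗ[ℝ] ℝ), ∀ w ∈ S', ∃ v ∈ S, b w = f v ∧
      (g w = f v ∨ g w = -f v) := by
    refine ⟨fun w => if h : ∃ v ∈ S, g w = f v ∨ g w = -f v then f h.choose else 0, ?_⟩
    intro w hw
    have h := hE w hw
    refine ⟨h.choose, h.choose_spec.1, ?_, h.choose_spec.2⟩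
    simp only [dif_pos h]
  have hiff : ∀ v0 ∈ S, ∀ w ∈ S', (g w = f v0 ∨ g w = -f v0) ↔ b w = f v0 := by
    intro v0 hv0 w hw
    obtain ⟨v, hv, hbv, hgv⟩ := hb w hw
    constructor
    · intro h
      rw [hbv]
      have h5 : f v = f v0 ∨ f v = -f v0 := by
        rcases h with h | h <;> rcases hgv with h' | h'
        · exact Or.inl (h'.symm.trans h)
        · exact Or.inr (by rw [← h, h', neg_neg])
        · exact Or.inr (h'.symm.trans h)
        · exact Or.inl (neg_injective (h'.symm.trans h))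
      rcases h5 with h5 | h5
      · exact h5
      · exact hpair v hv v0 hv0 (-1) (h5.trans (neg_one_smul ℝ (f v0)).symm)
    · intro h
      rw [hbv] at h
      rw [h] at hgv
      exact hgv
  have hfib : ∀ c : V →ₗ[ℝ] ℝ, (S.filter (fun v => f v = c)).card =
      (S'.filter (fun w => b w = c)).card := by
    intro c
    by_cases hc : ∃ v0 ∈ S, f v0 = c
    · obtain ⟨v0, hv0, rfl⟩ := hc
      exact (hB v0 hv0).trans (congrArg Finset.card (Finset.filter_congr (hiff v0 hv0)))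
    · rw [Finset.card_eq_zero.2, Finset.card_eq_zero.2]
      · refine Finset.filter_eq_empty_iff.2 fun w hw hwc => hc ?_
        obtain ⟨v, hv, hbv, _⟩ := hb w hw
        exact ⟨v, hv, hbv.symm.trans hwc⟩
      · exact Finset.filter_eq_empty_iff.2 fun v hv hvc => hc ⟨v, hv, hvc⟩
  obtain ⟨u, hu, hab⟩ := h2 n (V →ₗ[ℝ] ℝ) S S' f b hfib
  refine ⟨u, hu, fun v hv => ?_⟩
  exact (hiff v hv (u v) (hu.mapsTo hv)).2 (hab v hv).symm

end ToricSR
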