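import Pool.Agent.Lib.MP_3d51eb_gt.SR.Spec3

set_option autoImplicit false

/-! # project SR: kinks -/

noncomputable section

namespace ToricSR

open Finset MvPolynomial ToricPB

private lemma Kk_abs {a b : ℝ} (h : |b| < |a|) : |a + b| + |a - b| - 2 * |a| = 0 := by
  rcases lt_trichotomy a 0 with ha | ha | ha
  · rw [abs_of_neg ha] at h ⊢
    obtain ⟨h1, h2⟩ := abs_lt.1 h
    rw [abs_of_neg (by linarith), abs_of_neg (by linarith)]
    ring
  · subst ha
    rw [abs_zero] at h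
    exact absurd h (not_lt.2 (abs_nonneg b))
  · rw [abs_of_pos ha] at h ⊢
    obtain ⟨h1, h2⟩ := abs_lt.1 h
    rw [abs_of_pos (by linarith), abs_of_pos (by linarith)]
    ring

private lemma Kk_eps {ι : Type} (S : Finset ι) (a b : ι → ℝ) (h : ∀ i ∈ S, a i ≠ 0) :
    ∃ ε : ℝ, 0 < ε ∧ ∀ ε' : ℝ, 0 < ε' → ε' ≤ ε → ∀ i ∈ S, |ε' * b i| < |a i| := by
  classical
  induction S using Finset.induction_on with
  | empty => exact ⟨1, one_pos, fun _ _ _ i hi => absurd hi (Finset.notMem_empty i)⟩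
  | insert j S hj ih =>
    obtain ⟨ε, hε, h1⟩ := ih (fun i hi => h i (Finset.mem_insert_of_mem hi))
    have hpos : 0 < |a j| / (|b j| + 1) :=
      div_pos (abs_pos.2 (h j (Finset.mem_insert_self _ _))) (by positivity)
    refine ⟨min ε (|a j| / (|b j| + 1)), lt_min hε hpos, fun ε' h0 hle i hi => ?_⟩
    rcases Finset.mem_insert.1 hi with rfl | hi
    · have h2 : ε' ≤ |a i| / (|b i| + 1) := hle.trans (min_le_right _ _)
      rw [le_div_iff₀ (by positivity)] at h2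
      rw [abs_mul, abs_of_pos h0]
      nlinarith [abs_nonneg (b i)]
    · exact h1 ε' h0 (hle.trans (min_le_left _ _)) i hi

open Classical in
private lemma Kk_side (V : Type) [AddCommGroup V] [Module ℝ V] (n : ℕ) (S : Finset (Vec n))
    (f : Vec n → V →ₗ[ℝ] ℝ) (h : V →ₗ[ℝ] ℝ) (x d : V) (hx : h x = 0) (ε : ℝ) (hε : 0 < ε)
    (hf : ∀ v ∈ S, (¬ ∃ c : ℝ, f v = c • h) → |ε * f v d| < |f v x|) :
    (∑ v ∈ S, |f v (x + ε • d)|) + (∑ v ∈ S, |f v (x - ε • d)|) - 2 * ∑ v ∈ S, |f v x| =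
      2 * ε * ∑ v ∈ S.filter (fun v => ∃ c : ℝ, f v = c • h), |f v d| := by
  rw [← Finset.sum_add_distrib, Finset.mul_sum, ← Finset.sum_sub_distrib, Finset.mul_sum,
    Finset.sum_filter]
  refine Finset.sum_congr rfl (fun v hv => ?_)
  rw [map_add, map_sub, map_smul, smul_eq_mul]
  split_ifs with hc
  · obtain ⟨c, hc⟩ := hc
    have h0 : f v x = 0 := by rw [hc, LinearMap.smul_apply, hx, smul_zero]
    rw [h0, zero_add, zero_sub, abs_neg, abs_zero, abs_mul, abs_of_pos hε]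
    ring
  · exact Kk_abs (hf v hv hc)

open Classical in
theorem tKk (h1 : StAv) : StKk := by
  intro V _ _ n S S' f g hN h d
  obtain ⟨x, hx, hF⟩ := h1 V h
    ((S.image f ∪ S'.image g).filter (fun p => ¬ ∃ c : ℝ, p = c • h)) (by
      intro p hp c hc
      exact (Finset.mem_filter.1 hp).2 ⟨c, hc⟩)
  have hfx : ∀ v ∈ S.filter (fun v => ¬ ∃ c : ℝ, f v = c • h), f v x ≠ 0 := by
    intro v hv
    rw [Finset.mem_filter] at hv
    exact hF _ (Finset.mem_filter.2 ⟨Finset.mem_union_left _ (Finset.mem_image_of_mem _ hv.1),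
      hv.2⟩)
  have hgx : ∀ w ∈ S'.filter (fun w => ¬ ∃ c : ℝ, g w = c • h), g w x ≠ 0 := by
    intro w hw
    rw [Finset.mem_filter] at hw
    exact hF _ (Finset.mem_filter.2 ⟨Finset.mem_union_right _ (Finset.mem_image_of_mem _ hw.1),
      hw.2⟩)
  obtain ⟨ε1, hε1, he1⟩ := Kk_eps _ (fun v => f v x) (fun v => f v d) hfx
  obtain ⟨ε2, hε2, he2⟩ := Kk_eps _ (fun w => g w x) (fun w => g w d) hgx
  have hm : 0 < min ε1 ε2 := lt_min hε1 hε2
  have s1 := Kk_side V n S f h x d hx (min ε1 ε2) hm (fun v hv hc =>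
    he1 _ hm (min_le_left _ _) v (Finset.mem_filter.2 ⟨hv, hc⟩))
  have s2 := Kk_side V n S' g h x d hx (min ε1 ε2) hm (fun w hw hc =>
    he2 _ hm (min_le_right _ _) w (Finset.mem_filter.2 ⟨hw, hc⟩))
  rw [hN, hN, hN, s2] at s1
  have h2 : (2 * min ε1 ε2) ≠ 0 := by positivity
  exact (mul_left_cancel₀ h2 s1).symm

end ToricSR
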