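import Pool.Agent.Lib.MP_3d51eb_gt.SR.Spec3

/-!
# project SR: equality of norms (statement StNn)
-/

set_option autoImplicit false

noncomputable section

namespace ToricSR

open Finset MvPolynomial ToricPB

private lemma Nn_abs {α : Type} (f : α → ℝ) : ∀ A : List α,
    (∀ p ∈ A, 0 ≤ f p) → |(A.map f).sum| = (A.map (fun p => |f p|)).sum ∧ 0 ≤ (A.map f).sum := by
  intro A
  induction A with
  | nil => intro _; simp
  | cons a A ih =>
    intro h
    have ha : 0 ≤ f a := h a List.mem_cons_self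
    obtain ⟨h1, h2⟩ := ih (fun p hp => h p (List.mem_cons_of_mem _ hp))
    simp only [List.map_cons, List.sum_cons]
    refine ⟨?_, add_nonneg ha h2⟩
    rw [abs_of_nonneg (add_nonneg ha h2), ← h1, abs_of_nonneg ha, abs_of_nonneg h2]

private lemma Nn_neg {α : Type} (f : α → ℝ) : ∀ A : List α,
    (A.map (fun p => - f p)).sum = - (A.map f).sum := by
  intro A
  induction A with
  | nil => simp
  | cons a A ih =>
    simp only [List.map_cons, List.sum_cons]
    rw [ih]; ring

private lemma Nn_pair {α : Type} (f : α → ℝ) (A : List α)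
    (h : ∀ p ∈ A, ∀ q ∈ A, 0 ≤ f p * f q) :
    |(A.map f).sum| = (A.map (fun p => |f p|)).sum := by
  by_cases h0 : ∃ p ∈ A, 0 < f p
  · obtain ⟨p, hp, hp0⟩ := h0
    exact (Nn_abs f A (fun q hq => nonneg_of_mul_nonneg_right (h p hp q hq) hp0)).1
  · have h1 : ∀ q ∈ A, 0 ≤ - f q := by
      intro q hq
      by_contra hc
      exact h0 ⟨q, hq, by linarith⟩
    have h2 := (Nn_abs (fun p => - f p) A h1).1
    rw [Nn_neg, abs_neg] at h2
    rw [h2]
    refine congrArg List.sum (List.map_congr_left ?_)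
    intro p _
    exact abs_neg _

private lemma Nn_val {n : ℕ} (v : Vec n) : ∀ A : List (ℝ × (Vec n → ℤ)),
    (A.map (fun p => p.1 • rl p.2)).sum v = (A.map (fun p => p.1 * rl p.2 v)).sum := by
  intro A
  induction A with
  | nil => simp
  | cons a A ih =>
    simp only [List.map_cons, List.sum_cons, Pi.add_apply, Pi.smul_apply, smul_eq_mul]
    rw [ih]

private lemma Nn_ev {n : ℕ} (K : Finset (Finset (Vec n))) (ψ : Vec n → ℤ) :
    ∀ A : List (ℝ × (Vec n → ℤ)),
    ev K ψ (A.map (fun p => p.1 • rl p.2)).sum =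
      (A.map (fun p => p.1 * ev K ψ (rl p.2))).sum := by
  intro A
  induction A with
  | nil => simp [ev]
  | cons a A ih =>
    simp only [List.map_cons, List.sum_cons]
    rw [← ih]
    simp only [ev, Finset.mul_sum, ← Finset.sum_add_distrib]
    refine Finset.sum_congr rfl (fun v _ => ?_)
    simp only [Pi.add_apply, Pi.smul_apply, smul_eq_mul]
    ring

private lemma Nn_exch {α β : Type} (S : Finset β) (g : α → β → ℝ) : ∀ A : List α,
    ∑ v ∈ S, (A.map (fun p => g p v)).sum = (A.map (fun p => ∑ v ∈ S, g p v)).sum := by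
  intro A
  induction A with
  | nil => simp
  | cons a A ih =>
    simp only [List.map_cons, List.sum_cons]
    rw [Finset.sum_add_distrib, ih]

theorem tNn (h1 : StCd) (h2 : StUb) (h3 : StUc) : StNn := by
  intro n K S' χ hK hU hQ l hl
  obtain ⟨A, hA, hlA⟩ := h1 n K hK hU l hl
  have hc : ∀ p ∈ A, ∀ q ∈ A, ∀ v, 0 ≤ rl p.2 v * rl q.2 v := by
    intro p hp q hq v
    by_cases hpv : p.2 v = 0
    · have : rl p.2 v = 0 := by simp [rl, hpv]
      rw [this, zero_mul]
    · by_cases hqv : q.2 v = 0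
      · have : rl q.2 v = 0 := by simp [rl, hqv]
        rw [this, mul_zero]
      · have e1 := (hA p hp).2.2.2 v hpv
        have e2 := (hA q hq).2.2.2 v hqv
        have e3 : 0 < (rl p.2 v * l v) * (rl q.2 v * l v) := mul_pos e1 e2
        by_contra hn
        have hn' : rl p.2 v * rl q.2 v < 0 := not_le.1 hn
        have e4 : rl p.2 v * l v * (rl q.2 v * l v) = (rl p.2 v * rl q.2 v) * (l v * l v) := by
          ring
        have e5 : (rl p.2 v * rl q.2 v) * (l v * l v) ≤ 0 :=
          mul_nonpos_of_nonpos_of_nonneg hn'.le (mul_self_nonneg _)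
        rw [e4] at e3
        linarith
  have hc' : ∀ p ∈ A, ∀ q ∈ A, ∀ v, 0 ≤ p.2 v * q.2 v := by
    intro p hp q hq v
    have := hc p hp q hq v
    simp only [rl] at this
    exact_mod_cast this
  have hL : ∀ v, |l v| = (A.map (fun p => |p.1 * rl p.2 v|)).sum := by
    intro v
    have e : l v = (A.map (fun p => p.1 * rl p.2 v)).sum := by
      rw [← Nn_val, ← hlA]
    rw [e]
    refine Nn_pair _ A ?_
    intro p hp q hq
    have e1 : p.1 * rl p.2 v * (q.1 * rl q.2 v) = (p.1 * q.1) * (rl p.2 v * rl q.2 v) := by ring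
    rw [e1]
    exact mul_nonneg (mul_nonneg (hA p hp).1.le (hA q hq).1.le) (hc p hp q hq v)
  have hR : ∀ w ∈ S', |ev K (χ w) l| = (A.map (fun p => |p.1 * ev K (χ w) (rl p.2)|)).sum := by
    intro w hw
    have e : ev K (χ w) l = (A.map (fun p => p.1 * ev K (χ w) (rl p.2))).sum := by
      rw [← Nn_ev, ← hlA]
    rw [e]
    refine Nn_pair _ A ?_
    intro p hp q hq
    have e1 : p.1 * ev K (χ w) (rl p.2) * (q.1 * ev K (χ w) (rl q.2)) =
        (p.1 * q.1) * (ev K (χ w) (rl p.2) * ev K (χ w) (rl q.2)) := by ring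
    rw [e1]
    exact mul_nonneg (mul_nonneg (hA p hp).1.le (hA q hq).1.le)
      (h3 n K S' χ hQ p.2 q.2 (hA p hp).2.1 (hA q hq).2.1 (hA p hp).2.2.1 (hA q hq).2.2.1
        (hc' p hp q hq) w hw)
  rw [Finset.sum_congr rfl (fun v _ => hL v), Finset.sum_congr rfl hR,
    Nn_exch (verts K) (fun (p : ℝ × (Vec n → ℤ)) v => |p.1 * rl p.2 v|) A,
    Nn_exch S' (fun (p : ℝ × (Vec n → ℤ)) w => |p.1 * ev K (χ w) (rl p.2)|) A]
  refine congrArg List.sum (List.map_congr_left ?_)
  intro p hp
  have e := (h2 n K S' χ hQ p.2 (hA p hp).2.1 (hA p hp).2.2.1).2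
  simp only [abs_mul, ← Finset.mul_sum]
  rw [e]

end ToricSR
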