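import Pool.Agent.Lib.MP_3d51eb_gt.SR.Spec3

/-!
# MP_3d51eb_gt, project SR: mixed identities of the first two Pontrjagin classes

`StPw` for `k = 1` and `k = 2`, polarized by `StPol`.
-/

set_option autoImplicit false

noncomputable section

namespace ToricSR

open Finset MvPolynomial ToricPB

theorem tQ (h1 : StPw) (h2 : StPol) : StQ := by
  intro n K K' hK hK' φ hG hp hN χ hχ l hl l' hl'
  have p1 := h1 n K K' hK hK' φ hG hp 1 le_rfl (Nb_mono hN (by omega)) χ hχ
  have p2 := h1 n K K' hK hK' φ hG hp 2 (by omega) (Nb_mono hN (by omega)) χ hχ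
  have q1 := h2 (VK K) n (verts K) (verts K') (fv K) (fun w => gv K (χ w)) 2
    (fun x => p1 x.1 x.2) [⟨l, hl⟩, ⟨l', hl'⟩] rfl
  have q2 := h2 (VK K) n (verts K) (verts K') (fv K) (fun w => gv K (χ w)) 4
    (fun x => p2 x.1 x.2) [⟨l, hl⟩, ⟨l, hl⟩, ⟨l', hl'⟩, ⟨l', hl'⟩] rfl
  simp only [List.map_cons, List.map_nil, List.prod_cons, List.prod_nil, mul_one, fv_apply,
    gv_apply] at q1 q2
  refine ⟨q1, ?_⟩
  rw [Finset.sum_congr rfl (fun v _ =>
    show l v ^ 2 * l' v ^ 2 = l v * (l v * (l' v * l' v)) by ring), q2]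
  exact Finset.sum_congr rfl (fun w _ => by ring)

end ToricSR
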