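import Pool.Agent.Lib.MP_3d51eb_gt.SR.Spec3

set_option autoImplicit false

/-! # project SR: wedges of unimodular fans -/

noncomputable section

namespace ToricSR

open Finset MvPolynomial ToricPB

private lemma ThmUB_un (h1 : StWInv) (h3 : StWUm) {n m : ℕ} {K : Finset (Finset (Vec n))}
    {L : Finset (Finset (Vec m))} (hK : IsFan K) (hU : Unim K) (hW : Wedges n K m L) : Unim L := by
  induction hW with
  | refl K => exact hU
  | step m K L v hW hv ih => exact h3 m L v (h1 n m K L hK hW).1 hv (ih hK hU)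

theorem tThmUB (h1 : StWInv) (h2 : StWEv) (h3 : StWUm) : ThmUB := by
  intro n K hK hU
  refine ⟨fun m L hW => ⟨(h1 n m K L hK hW).1, ThmUB_un h1 h3 hK hU hW⟩, ?_⟩
  obtain ⟨m, L, hW, hNb⟩ := h2 4 n K hK
  obtain ⟨hL, -, -, -⟩ := h1 n m K L hK hW
  refine ⟨m, L, hW, fun m' L' hW' s hs hc => ?_⟩
  obtain ⟨-, -, -, h⟩ := h1 m m' L L' hL hW'
  exact h _ hNb s hs (by omega)

end ToricSR
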