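import Pool.Agent.Lib.MP_3d51eb_gt.SR.Spec3

/-!
# MP_3d51eb_gt, project PU: values on relations with coefficients 0, 1, -1
-/

set_option autoImplicit false

noncomputable section

namespace ToricSR

open Finset MvPolynomial ToricPB

private theorem Ub_int (z : ℤ) : 0 ≤ z ^ 2 * z ^ 2 - z * z := by
  have h : z ^ 2 * z ^ 2 - z * z = z ^ 2 * (z ^ 2 - 1) := by ring
  rw [h]
  rcases eq_or_ne z 0 with h0 | h0
  · rw [h0]
    norm_num
  · have h1 : 0 < z ^ 2 := by positivity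
    exact mul_nonneg h1.le (by omega)

private theorem Ub_int' (z : ℤ) (h : z ^ 2 * z ^ 2 - z * z = 0) : z = 0 ∨ z = 1 ∨ z = -1 := by
  have h1 : z * z * ((z - 1) * (z + 1)) = 0 := by linear_combination h
  rcases mul_eq_zero.mp h1 with h2 | h2
  · left
    rcases mul_eq_zero.mp h2 with h3 | h3 <;> exact h3
  · right
    rcases mul_eq_zero.mp h2 with h3 | h3
    · left
      omega
    · right
      omega

private theorem Ub_cast {n : ℕ} (K : Finset (Finset (Vec n))) (ψ c : Vec n → ℤ) :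
    ev K ψ (rl c) = ((∑ v ∈ verts K, ψ v * c v : ℤ) : ℝ) := by
  unfold ev rl
  push_cast
  rfl

theorem tUb : StUb := by
  intro n K S' χ hQ c hc hZ
  obtain ⟨h1, h2⟩ := hQ (rl c) hc (rl c) hc
  set z : Vec n → ℤ := fun w => ∑ v ∈ verts K, χ w v * c v with hz
  have hzw : ∀ w, ev K (χ w) (rl c) = (z w : ℝ) := fun w => Ub_cast K (χ w) c
  have hcv : ∀ v, rl c v ^ 2 * rl c v ^ 2 = rl c v * rl c v := by
    intro v
    unfold rl
    rcases hZ v with h | h | h <;> rw [h] <;> norm_num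
  have h3 : ∑ w ∈ S', ((z w ^ 2 * z w ^ 2 - z w * z w : ℤ) : ℝ) = 0 := by
    have h4 : ∑ w ∈ S', ((z w : ℝ) ^ 2 * (z w : ℝ) ^ 2) = ∑ w ∈ S', ((z w : ℝ) * (z w : ℝ)) := by
      have e1 : ∑ w ∈ S', ((z w : ℝ) ^ 2 * (z w : ℝ) ^ 2) =
          ∑ w ∈ S', ev K (χ w) (rl c) ^ 2 * ev K (χ w) (rl c) ^ 2 :=
        Finset.sum_congr rfl fun w _ => by rw [hzw]
      have e2 : ∑ w ∈ S', ((z w : ℝ) * (z w : ℝ)) =
          ∑ w ∈ S', ev K (χ w) (rl c) * ev K (χ w) (rl c) :=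
        Finset.sum_congr rfl fun w _ => by rw [hzw]
      rw [e1, e2, ← h1, ← h2]
      exact Finset.sum_congr rfl fun v _ => hcv v
    have h5 : ∑ w ∈ S', ((z w ^ 2 * z w ^ 2 - z w * z w : ℤ) : ℝ) =
        ∑ w ∈ S', ((z w : ℝ) ^ 2 * (z w : ℝ) ^ 2) - ∑ w ∈ S', ((z w : ℝ) * (z w : ℝ)) := by
      rw [← Finset.sum_sub_distrib]
      exact Finset.sum_congr rfl fun w _ => by push_cast; ring
    rw [h5, h4, sub_self]
  have h6 : ∑ w ∈ S', (z w ^ 2 * z w ^ 2 - z w * z w) = 0 := by exact_mod_cast h3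
  have h7 : ∀ w ∈ S', z w ^ 2 * z w ^ 2 - z w * z w = 0 :=
    (Finset.sum_eq_zero_iff_of_nonneg (fun w _ => Ub_int (z w))).mp h6
  have h8 : ∀ w ∈ S', z w = 0 ∨ z w = 1 ∨ z w = -1 := fun w hw => Ub_int' _ (h7 w hw)
  refine ⟨?_, ?_⟩
  · intro w hw
    rw [hzw]
    rcases h8 w hw with h | h | h <;> rw [h] <;> norm_num
  · have e1 : ∑ v ∈ verts K, |rl c v| = ∑ v ∈ verts K, rl c v * rl c v := by
      apply Finset.sum_congr rfl
      intro v _
      unfold rl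
      rcases hZ v with h | h | h <;> rw [h] <;> norm_num
    have e2 : ∑ w ∈ S', |ev K (χ w) (rl c)| = ∑ w ∈ S', ev K (χ w) (rl c) * ev K (χ w) (rl c) := by
      apply Finset.sum_congr rfl
      intro w hw
      rw [hzw]
      rcases h8 w hw with h | h | h <;> rw [h] <;> norm_num
    rw [e1, e2, h1]

end ToricSR
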