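import Pool.Agent.Lib.MP_3d51eb_gt.SR.Spec3

/-!
# project SR, module Uc: conformal pairs of bounded relations
-/

set_option autoImplicit false

noncomputable section

namespace ToricSR

open Finset MvPolynomial ToricPB

private lemma Uc_int (a b : ℤ) (ha : a = 0 ∨ a = 1 ∨ a = -1) (hb : b = 0 ∨ b = 1 ∨ b = -1)
    (h : 0 ≤ a * b) : a ^ 2 * b ^ 2 = a * b := by
  rcases ha with ha | ha | ha <;> rcases hb with hb | hb | hb <;> subst ha <;> subst hb <;>
    first | (exfalso; omega) | norm_num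

private lemma Uc_real (x y : ℝ) (hx : x = 0 ∨ x = 1 ∨ x = -1) (hy : y = 0 ∨ y = 1 ∨ y = -1) :
    0 ≤ x ^ 2 * y ^ 2 - x * y := by
  rcases hx with hx | hx | hx <;> rcases hy with hy | hy | hy <;> subst hx <;> subst hy <;> norm_num

theorem tUc (h1 : StUb) : StUc := by
  intro n K S' χ hQ c c' hc hc' hz hz' hcc w hw
  obtain ⟨hQ1, hQ2⟩ := hQ (rl c) hc (rl c') hc'
  have e1 := (h1 n K S' χ hQ c hc hz).1
  have e2 := (h1 n K S' χ hQ c' hc' hz').1
  have hv : ∑ v ∈ verts K, rl c v ^ 2 * rl c' v ^ 2 = ∑ v ∈ verts K, rl c v * rl c' v := by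
    refine Finset.sum_congr rfl fun v _ => ?_
    have h3 := Uc_int (c v) (c' v) (hz v) (hz' v) (hcc v)
    unfold rl
    exact_mod_cast h3
  have hs : ∑ w ∈ S', (ev K (χ w) (rl c) ^ 2 * ev K (χ w) (rl c') ^ 2 -
      ev K (χ w) (rl c) * ev K (χ w) (rl c')) = 0 := by
    rw [Finset.sum_sub_distrib, ← hQ1, ← hQ2, hv, sub_self]
  have hnn : ∀ w ∈ S', 0 ≤ ev K (χ w) (rl c) ^ 2 * ev K (χ w) (rl c') ^ 2 -
      ev K (χ w) (rl c) * ev K (χ w) (rl c') := fun w hw => Uc_real _ _ (e1 w hw) (e2 w hw)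
  have h4 := (Finset.sum_eq_zero_iff_of_nonneg hnn).1 hs w hw
  have h5 : ev K (χ w) (rl c) * ev K (χ w) (rl c') =
      (ev K (χ w) (rl c) * ev K (χ w) (rl c')) ^ 2 := by
    rw [mul_pow]
    linarith
  rw [h5]
  positivity

end ToricSR
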