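import Pool.Agent.Lib.MP_3d51eb_gt.SR.Spec3

/-!
# project SR: WUm, the rays of a simplicial wedge of a unimodular fan are unimodular
-/

set_option autoImplicit false

noncomputable section

namespace ToricSR

open Finset MvPolynomial ToricPB

private lemma WUm_mono {m : ℕ} {s t : Finset (Vec m)} (h : s ⊆ t) (ht : Uni t) : Uni s := by
  obtain ⟨b, hb⟩ := ht
  exact ⟨b, fun x hx => hb x (h hx)⟩

private lemma WUm_sub {n : ℕ} {t : Finset (Vec n)} {b : Module.Basis (Fin n) ℤ (Vec n)}
    (h : ∀ x ∈ t, ∃ i, b i = x) : t ⊆ univ.image b := by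
  intro x hx
  obtain ⟨i, hi⟩ := h x hx
  exact mem_image.2 ⟨i, mem_univ i, hi⟩

private lemma WUm_tail {n : ℕ} (w : Vec n) : (fun i : Fin n => (up 0 w : Vec (n + 1)) i.succ) = w := by
  funext i
  simp [up]

private lemma WUm_lin {n : ℕ} (t : Finset (Vec n)) (C : Vec (n + 1) → ℝ) (c : Vec n → ℝ)
    (h : ∀ w ∈ t, C (up 0 w) = c w) :
    lin (lift t) C = (Fin.cons 0 (lin t c) : Fin (n + 1) → ℝ) := by
  rw [lin, lift, Finset.sum_image (fun _ _ _ _ h => up_zero_injective h)]
  funext k
  refine Fin.cases ?_ (fun i => ?_) k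
  · simp [Finset.sum_apply, toR, up]
  · rw [Fin.cons_succ, lin, Finset.sum_apply, Finset.sum_apply]
    refine Finset.sum_congr rfl (fun w hw => ?_)
    rw [h w hw]
    simp [toR, up]

/-- independence passes from `lift t` to `t` -/
private lemma WUm_ind {n : ℕ} {s : Finset (Vec (n + 1))} {t : Finset (Vec n)} (hts : lift t ⊆ s)
    (hs : ∀ c : Vec (n + 1) → ℝ, lin s c = 0 → ∀ x ∈ s, c x = 0) :
    ∀ c : Vec n → ℝ, lin t c = 0 → ∀ w ∈ t, c w = 0 := by
  classical
  intro c hc w hw
  obtain ⟨C, hC0⟩ : ∃ C : Vec (n + 1) → ℝ,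
      ∀ x, C x = if x ∈ lift t then c (fun i => x i.succ) else 0 := ⟨_, fun _ => rfl⟩
  have hC : ∀ w ∈ t, C (up 0 w) = c w := by
    intro w hw
    rw [hC0, if_pos (up_mem_lift.2 hw), WUm_tail]
  have h1 : lin s C = lin (lift t) C := lin_subset hts C (fun x _ hx => by rw [hC0, if_neg hx])
  have h2 : lin s C = 0 := by
    rw [h1, WUm_lin t C c hC, hc]
    funext k
    refine Fin.cases ?_ (fun i => ?_) k <;> simp
  rw [← hC w hw]
  exact hs C h2 _ (hts (up_mem_lift.2 hw))

/-- independence passes from `w1, w2, lift t` to `v, t` -/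
private lemma WUm_ind2 {n : ℕ} {v : Vec n} {t : Finset (Vec n)} (hvt : v ∉ t)
    (hs : ∀ c : Vec (n + 1) → ℝ, lin (insert w1 (insert (w2 v) (lift t))) c = 0 →
      ∀ x ∈ insert w1 (insert (w2 v) (lift t)), c x = 0) :
    ∀ c : Vec n → ℝ, lin (insert v t) c = 0 → ∀ w ∈ insert v t, c w = 0 := by
  classical
  intro c hc w hw
  have a1 : (w1 : Vec (n + 1)) ∉ insert (w2 v) (lift t) := by
    rw [Finset.mem_insert]
    rintro (h | h)
    · exact w1_ne_w2 h
    · exact w1_notMem_lift h
  have a2 : w2 v ∉ lift t := w2_notMem_lift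
  obtain ⟨C, hC0⟩ : ∃ C : Vec (n + 1) → ℝ,
      ∀ x, C x = if x ∈ lift t then c (fun i => x i.succ) else c v := ⟨_, fun _ => rfl⟩
  have hC : ∀ w ∈ t, C (up 0 w) = c w := by
    intro w hw
    rw [hC0, if_pos (up_mem_lift.2 hw), WUm_tail]
  have hC1 : C w1 = c v := by rw [hC0, if_neg w1_notMem_lift]
  have hC2 : C (w2 v) = c v := by rw [hC0, if_neg w2_notMem_lift]
  have h2 : lin (insert w1 (insert (w2 v) (lift t))) C = 0 := by
    rw [lin_insert a1, lin_insert a2, hC1, hC2, WUm_lin t C c hC]
    rw [lin_insert hvt] at hc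
    funext k
    refine Fin.cases ?_ (fun i => ?_) k
    · simp [toR, w1, w2, up]
    · have h3 := congrFun hc i
      simp only [Pi.add_apply, Pi.smul_apply, Pi.zero_apply, smul_eq_mul, toR] at h3
      simp only [Pi.add_apply, Pi.smul_apply, Pi.zero_apply, smul_eq_mul, toR, w1, w2, up,
        Fin.cons_succ, Int.cast_zero, mul_zero, zero_add]
      exact h3
  rcases Finset.mem_insert.1 hw with h | h
  · rw [h, ← hC1]
    exact hs C h2 _ (Finset.mem_insert_self _ _)
  · rw [← hC w h]
    exact hs C h2 _ (Finset.mem_insert_of_mem (Finset.mem_insert_of_mem (up_mem_lift.2 h)))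

/-- more than `n` vectors are dependent -/
private lemma WUm_dep {n : ℕ} {t : Finset (Vec n)} (ht : t.card = n + 1)
    (h : ∀ c : Vec n → ℝ, lin t c = 0 → ∀ w ∈ t, c w = 0) : False := by
  classical
  have hinj : Function.Injective (toR (n := n)) := fun _ _ h => toR_inj h
  have h1 : Module.finrank ℝ (Fin n → ℝ) < (t.image toR).card := by
    rw [Module.finrank_fin_fun, Finset.card_image_of_injective _ hinj, ht]
    omega
  obtain ⟨f, hf, x, hx, hfx⟩ := Module.exists_nontrivial_relation_of_finrank_lt_card h1
  obtain ⟨w, hw, rfl⟩ := Finset.mem_image.1 hx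
  rw [Finset.sum_image (fun _ _ _ _ h => hinj h)] at hf
  exact hfx (h (fun w => f (toR w)) hf w hw)

theorem tWUm (h1 : StUp) (h2 : StUp2) : StWUm := by
  classical
  intro n K v hK hv hU s hs hcard hind
  rw [verts_wedge hK hv] at hs
  obtain ⟨t, ht⟩ : ∃ t : Finset (Vec n),
      ∀ w, w ∈ t ↔ (w ≠ v ∧ w ∈ verts K) ∧ up 0 w ∈ s :=
    ⟨((verts K).erase v).filter (fun w => up 0 w ∈ s), fun w => by
      rw [Finset.mem_filter, Finset.mem_erase]⟩
  have hvt : v ∉ t := fun h => ((ht v).1 h).1.1 rfl
  have htK : t ⊆ verts K := fun w hw => ((ht w).1 hw).1.2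
  have hts : lift t ⊆ s := by
    intro x hx
    obtain ⟨w, hw, rfl⟩ := mem_lift.1 hx
    exact ((ht w).1 hw).2
  have hmem : ∀ x ∈ s, x = w1 ∨ x = w2 v ∨ x ∈ lift t := by
    intro x hx
    have h3 := hs hx
    rw [Finset.mem_insert, Finset.mem_insert] at h3
    rcases h3 with h3 | h3 | h3
    · exact Or.inl h3
    · exact Or.inr (Or.inl h3)
    · obtain ⟨w, hw, rfl⟩ := mem_lift.1 h3
      rw [Finset.mem_erase] at hw
      exact Or.inr (Or.inr (up_mem_lift.2 ((ht w).2 ⟨hw, hx⟩)))
  have hcl : (lift t).card = t.card := card_lift t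
  by_cases c1 : (w1 : Vec (n + 1)) ∈ s
  · by_cases c2 : w2 v ∈ s
    · have hs' : s = insert w1 (insert (w2 v) (lift t)) := by
        ext x
        rw [Finset.mem_insert, Finset.mem_insert]
        constructor
        · exact hmem x
        · rintro (h | h | h)
          · rw [h]; exact c1
          · rw [h]; exact c2
          · exact hts h
      have a1 : (w1 : Vec (n + 1)) ∉ insert (w2 v) (lift t) := by
        rw [Finset.mem_insert]
        rintro (h | h)
        · exact w1_ne_w2 h
        · exact w1_notMem_lift h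
      rw [hs'] at hcard hind ⊢
      rw [Finset.card_insert_of_notMem a1, Finset.card_insert_of_notMem w2_notMem_lift, hcl]
        at hcard
      have h3 : Uni (insert v t) := hU (insert v t) (Finset.insert_subset hv htK)
        (by rw [Finset.card_insert_of_notMem hvt]; omega) (WUm_ind2 hvt hind)
      obtain ⟨c, hc⟩ := h3
      refine WUm_mono ?_ (h2 n c v (hc v (mem_insert_self v t)))
      refine insert_subset_insert _ (insert_subset_insert _ (lift_subset.2 ?_))
      intro x hx
      refine mem_erase.2 ⟨?_, WUm_sub hc (mem_insert_of_mem hx)⟩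
      rintro rfl
      exact hvt hx
    · have hs' : s = insert w1 (lift t) := by
        ext x
        rw [Finset.mem_insert]
        constructor
        · intro hx
          rcases hmem x hx with h | h | h
          · exact Or.inl h
          · exact absurd (h ▸ hx) c2
          · exact Or.inr h
        · rintro (h | h)
          · rw [h]; exact c1
          · exact hts h
      obtain ⟨b, hb⟩ := hU t htK (by
        rw [hs', Finset.card_insert_of_notMem w1_notMem_lift, hcl] at hcard
        omega) (WUm_ind hts hind)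
      rw [hs']
      exact WUm_mono (insert_subset_insert w1 (lift_subset.2 (WUm_sub hb)))
        (h1 n b 0 1 (Or.inl rfl))
  · by_cases c2 : w2 v ∈ s
    · have hs' : s = insert (w2 v) (lift t) := by
        ext x
        rw [Finset.mem_insert]
        constructor
        · intro hx
          rcases hmem x hx with h | h | h
          · exact absurd (h ▸ hx) c1
          · exact Or.inl h
          · exact Or.inr h
        · rintro (h | h)
          · rw [h]; exact c2
          · exact hts h
      obtain ⟨b, hb⟩ := hU t htK (by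
        rw [hs', Finset.card_insert_of_notMem w2_notMem_lift, hcl] at hcard
        omega) (WUm_ind hts hind)
      rw [hs']
      exact WUm_mono (insert_subset_insert (w2 v) (lift_subset.2 (WUm_sub hb)))
        (h1 n b v (-1) (Or.inr rfl))
    · have hs' : s = lift t := by
        ext x
        constructor
        · intro hx
          rcases hmem x hx with h | h | h
          · exact absurd (h ▸ hx) c1
          · exact absurd (h ▸ hx) c2
          · exact h
        · intro h
          exact hts h
      exact (WUm_dep (by rw [← hcard, hs', hcl]) (WUm_ind hts hind)).elim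

end ToricSR
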