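import Pool.Agent.Lib.MP_3d51eb_gt.SR.All
import Pool.Agent.Lib.MP_3d51eb_gt.SR.Qm
import Pool.Agent.Lib.MP_3d51eb_gt.SR.Ub
import Pool.Agent.Lib.MP_3d51eb_gt.SR.Uc
import Pool.Agent.Lib.MP_3d51eb_gt.SR.Ca
import Pool.Agent.Lib.MP_3d51eb_gt.SR.Ex
import Pool.Agent.Lib.MP_3d51eb_gt.SR.Cb
import Pool.Agent.Lib.MP_3d51eb_gt.SR.Circ
import Pool.Agent.Lib.MP_3d51eb_gt.SR.Cd
import Pool.Agent.Lib.MP_3d51eb_gt.SR.Nn
import Pool.Agent.Lib.MP_3d51eb_gt.SR.Av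
import Pool.Agent.Lib.MP_3d51eb_gt.SR.Kk
import Pool.Agent.Lib.MP_3d51eb_gt.SR.Kb
import Pool.Agent.Lib.MP_3d51eb_gt.SR.BijU
import Pool.Agent.Lib.MP_3d51eb_gt.SR.WUm
import Pool.Agent.Lib.MP_3d51eb_gt.SR.ThmU
import Pool.Agent.Lib.MP_3d51eb_gt.SR.ThmUB

set_option autoImplicit false

/-! # project SR: assembly, unimodular rays -/

namespace ToricSR

theorem aQ : StQ := tQ aPw aPol
theorem aUb : StUb := tUb
theorem aUc : StUc := tUc aUb
theorem aCa : StCa := tCa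
theorem aEx : StEx := tEx
theorem aCb : StCb := tCb aEx
theorem aCirc : StCirc := tCirc aCa aCb
theorem aCd : StCd := tCd aCirc
theorem aNn : StNn := tNn aCd aUb aUc
theorem aAv : StAv := tAv
theorem aKk : StKk := tKk aAv
theorem aKb : StKb := tKb aKk aMbg
theorem aBijU : StBijU := tBijU aRel aPerp aQ aNn aKb aSgn
theorem aWUm : StWUm := tWUm aUp aUp2
theorem aThmU : ThmU := tThmU aBijU aRay aCon
theorem aThmUB : ThmUB := tThmUB aWInv aWEv aWUm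

end ToricSR
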