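import Pool.Agent.Lib.MP_3d51eb_gt.SR.Spec3

/-!
# MP_3d51eb_gt, project SR: avoiding subspaces inside the kernel of a linear form
-/

set_option autoImplicit false

noncomputable section

namespace ToricSR

open Finset MvPolynomial ToricPB

private theorem Av_one {V : Type} [AddCommGroup V] [Module ℝ V] (h f : V →ₗ[ℝ] ℝ)
    (hf : ∀ c : ℝ, f ≠ c • h) : ∃ y : V, h y = 0 ∧ f y ≠ 0 := by
  by_contra hcon
  push Not at hcon
  by_cases hh : ∃ d : V, h d ≠ 0
  · obtain ⟨d, hd⟩ := hh
    apply hf (f d / h d)
    ext y
    have h1 : h (y - (h y / h d) • d) = 0 := by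
      rw [map_sub, map_smul, smul_eq_mul]
      field_simp
      ring
    have h2 := hcon _ h1
    rw [map_sub, map_smul, smul_eq_mul] at h2
    rw [LinearMap.smul_apply, smul_eq_mul]
    field_simp at h2 ⊢
    linarith
  · push Not at hh
    apply hf 0
    ext y
    rw [hcon y (hh y)]
    simp

/-- AVOIDING SUBSPACES -/
theorem tAv : StAv := by
  intro V _ _ h F
  classical
  induction F using Finset.induction_on with
  | empty =>
    intro _
    exact ⟨0, map_zero h, fun f hf => absurd hf (Finset.notMem_empty f)⟩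
  | insert f0 F _ ih =>
    intro hF
    obtain ⟨x, hx, hxF⟩ := ih (fun f hf => hF f (Finset.mem_insert_of_mem hf))
    obtain ⟨y, hy, hfy⟩ := Av_one h f0 (hF f0 (Finset.mem_insert_self f0 F))
    obtain ⟨t, ht⟩ := Infinite.exists_notMem_finset
      ((insert f0 F).image (fun g : V →ₗ[ℝ] ℝ => -(g x) / g y))
    have hkey : ∀ g ∈ insert f0 F, g y ≠ 0 → g (x + t • y) ≠ 0 := by
      intro g hg hgy h0
      apply ht
      refine Finset.mem_image.mpr ⟨g, hg, ?_⟩
      rw [map_add, map_smul, smul_eq_mul] at h0
      rw [div_eq_iff hgy]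
      linarith
    refine ⟨x + t • y, ?_, ?_⟩
    · rw [map_add, map_smul, hx, hy, smul_zero, add_zero]
    · intro g hg
      by_cases hgy : g y = 0
      · rcases Finset.mem_insert.mp hg with h1 | h1
        · rw [h1] at hgy
          exact absurd hgy hfy
        · rw [map_add, map_smul, hgy, smul_zero, add_zero]
          exact hxF g h1
      · exact hkey g hg hgy

end ToricSR
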