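import Pool.Agent.Lib.MP_3d51eb_gt.PB.Defs

set_option autoImplicit false

/-!
# MP_3d51eb_gt, project SR: toric manifolds in the stable range of the J-construction

Fans, rays and cohomology rings are those of project PB (`PB/Defs.lean`). Here: the total
Pontrjagin class, the stable range, simplicial wedges.
-/

noncomputable section

namespace ToricSR

open Finset MvPolynomial ToricPB

variable {n : ℕ}

/-- the total Pontrjagin class of the toric manifold of `K` -/
def pont (K : Finset (Finset (Vec n))) : Coh K := ∏ v ∈ verts K, (1 + cls K v ^ 2)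

open Classical in
/-- the number of different classes of invariant divisors -/
def nc (K : Finset (Finset (Vec n))) : ℕ := ((verts K).image (cls K)).card

/-- stable range: every set of at most `4 * nc K` rays generates a cone of `K` -/
def Stable (K : Finset (Finset (Vec n))) : Prop := ∀ s ⊆ verts K, s.card ≤ 4 * nc K → s ∈ K

/-- the vector `(a, w)` -/
def up (a : ℤ) (w : Vec n) : Vec (n + 1) := Fin.cons a w

/-- the set of the vectors `(0, w)`, `w ∈ t` -/
def lift (t : Finset (Vec n)) : Finset (Vec (n + 1)) := t.image (up 0)

/-- the vector `(1, 0)` -/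
def w1 : Vec (n + 1) := up 1 0

/-- the vector `(-1, v)` -/
def w2 (v : Vec n) : Vec (n + 1) := up (-1) v

/-- simplicial wedge of `K` at the ray `v` (canonical extension): the ray `v` is replaced by the two
rays `w1 = (1, 0)`, `w2 = (-1, v)`, the other rays `w` by `(0, w)`; cones: `t`, `t + w1`, `t + w2`
for the cones `t` without `v`, and `t + w1 + w2` if `t + v` is a cone. -/
def wedge (K : Finset (Finset (Vec n))) (v : Vec n) : Finset (Finset (Vec (n + 1))) :=
  (K.filter (fun t => v ∉ t)).image (fun t => lift t) ∪
  ((K.filter (fun t => v ∉ t)).image (fun t => insert w1 (lift t)) ∪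
  ((K.filter (fun t => v ∉ t)).image (fun t => insert (w2 v) (lift t)) ∪
  (K.filter (fun t => v ∉ t ∧ insert v t ∈ K)).image (fun t => insert w1 (insert (w2 v) (lift t)))))

/-- `Wedges n K m L`: `L` is obtained from `K` by finitely many simplicial wedges at rays -/
inductive Wedges : (n : ℕ) → Finset (Finset (Vec n)) → (m : ℕ) → Finset (Finset (Vec m)) → Prop
  | refl (n : ℕ) (K : Finset (Finset (Vec n))) : Wedges n K n K
  | step (n m : ℕ) (K : Finset (Finset (Vec n))) (L : Finset (Finset (Vec m))) (v : Vec m) :
      Wedges n K m L → v ∈ verts L → Wedges n K (m + 1) (wedge L v)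

end ToricSR
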