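import Pool.Agent.Lib.MP_3d51eb_gt.PB.Bas
import Pool.Agent.Lib.MP_3d51eb_gt.SR.Defs

set_option autoImplicit false

/-!
# project SR: auxiliary notions and basic lemmas (all proved)
-/

noncomputable section

namespace ToricSR

open Finset MvPolynomial ToricPB

variable {n : ℕ}

/-- every set of fewer than `N` rays is a cone -/
def Nb (K : Finset (Finset (Vec n))) (N : ℕ) : Prop := ∀ s ⊆ verts K, s.card < N → s ∈ K

/-- real linear relations between the rays (zero outside the rays) -/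
def VK (K : Finset (Finset (Vec n))) : Submodule ℝ (Vec n → ℝ) where
  carrier := {l | (∀ v, v ∉ verts K → l v = 0) ∧ ∀ i : Fin n, ∑ v ∈ verts K, (v i : ℝ) * l v = 0}
  add_mem' := by
    rintro a b ⟨ha, ha'⟩ ⟨hb, hb'⟩
    refine ⟨fun v hv => by simp [ha v hv, hb v hv], fun i => ?_⟩
    simp only [Pi.add_apply, mul_add, Finset.sum_add_distrib, ha' i, hb' i, add_zero]
  zero_mem' := ⟨fun _ _ => rfl, fun i => by simp⟩
  smul_mem' := by
    rintro c a ⟨ha, ha'⟩
    refine ⟨fun v hv => by simp [ha v hv], fun i => ?_⟩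
    have := ha' i
    simp only [Pi.smul_apply, smul_eq_mul]
    rw [show ∑ v ∈ verts K, (v i : ℝ) * (c * a v) = c * ∑ v ∈ verts K, (v i : ℝ) * a v by
      rw [Finset.mul_sum]; exact Finset.sum_congr rfl (fun v _ => by ring), this, mul_zero]

/-- the value of the class with the coordinates `ψ` on the relation `l` -/
def ev (K : Finset (Finset (Vec n))) (ψ : Vec n → ℤ) (l : Vec n → ℝ) : ℝ :=
  ∑ v ∈ verts K, (ψ v : ℝ) * l v

/-- truncated polynomials -/
abbrev Tr (N : ℕ) := Polynomial ℝ ⧸ (Ideal.span {(Polynomial.X : Polynomial ℝ) ^ N})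

/-- the truncated polynomial `a T` -/
def lt (N : ℕ) (a : ℝ) : Tr N := Ideal.Quotient.mk _ (Polynomial.C a * Polynomial.X)

/-- graded isomorphism of the cohomology rings -/
def Grd {n' : ℕ} (K : Finset (Finset (Vec n))) (K' : Finset (Finset (Vec n')))
    (φ : Coh K ≃+* Coh K') : Prop := ∀ y, y ∈ H2 K ↔ φ y ∈ H2 K'

/-- missing faces -/
def mf (K : Finset (Finset (Vec n))) : Finset (Finset (Vec n)) :=
  (verts K).powerset.filter (fun B => B ∉ K ∧ ∀ x ∈ B, B.erase x ∈ K)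

lemma VK_out {K : Finset (Finset (Vec n))} {l : Vec n → ℝ} (h : l ∈ VK K) {v : Vec n}
    (hv : v ∉ verts K) : l v = 0 := h.1 v hv

lemma VK_rel {K : Finset (Finset (Vec n))} {l : Vec n → ℝ} (h : l ∈ VK K) (i : Fin n) :
    ∑ v ∈ verts K, (v i : ℝ) * l v = 0 := h.2 i

lemma VK_mk {K : Finset (Finset (Vec n))} {l : Vec n → ℝ} (h1 : ∀ v, v ∉ verts K → l v = 0)
    (h2 : ∀ i : Fin n, ∑ v ∈ verts K, (v i : ℝ) * l v = 0) : l ∈ VK K := ⟨h1, h2⟩

lemma ev_add (K : Finset (Finset (Vec n))) (ψ χ : Vec n → ℤ) (l : Vec n → ℝ) :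
    ev K (fun v => ψ v + χ v) l = ev K ψ l + ev K χ l := by
  simp only [ev, ← Finset.sum_add_distrib]
  exact Finset.sum_congr rfl (fun v _ => by push_cast; ring)

lemma ev_sub (K : Finset (Finset (Vec n))) (ψ χ : Vec n → ℤ) (l : Vec n → ℝ) :
    ev K (fun v => ψ v - χ v) l = ev K ψ l - ev K χ l := by
  simp only [ev, ← Finset.sum_sub_distrib]
  exact Finset.sum_congr rfl (fun v _ => by push_cast; ring)

lemma ev_smul (K : Finset (Finset (Vec n))) (c : ℤ) (ψ : Vec n → ℤ) (l : Vec n → ℝ) :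
    ev K (fun v => c * ψ v) l = c * ev K ψ l := by
  simp only [ev, Finset.mul_sum]
  exact Finset.sum_congr rfl (fun v _ => by push_cast; ring)

lemma ev_single {K : Finset (Finset (Vec n))} {v : Vec n} (hv : v ∈ verts K) (l : Vec n → ℝ) :
    ev K (fun w => if w = v then 1 else 0) l = l v := by
  simp [ev, Finset.sum_ite_eq', hv]

lemma ev_pr {K : Finset (Finset (Vec n))} (u : Vec n) {l : Vec n → ℝ} (h : l ∈ VK K) :
    ev K (pr u) l = 0 := by
  have : ∀ v ∈ verts K, ((pr u v : ℤ) : ℝ) * l v = ∑ i, (u i : ℝ) * ((v i : ℝ) * l v) := by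
    intro v _
    simp only [pr]
    push_cast
    rw [Finset.sum_mul]
    exact Finset.sum_congr rfl (fun i _ => by ring)
  rw [ev, Finset.sum_congr rfl this, Finset.sum_comm]
  refine Finset.sum_eq_zero (fun i _ => ?_)
  rw [← Finset.mul_sum, VK_rel h i, mul_zero]

lemma lt_eq (N : ℕ) (a : ℝ) :
    lt N a = Ideal.Quotient.mk _ (Polynomial.C a * Polynomial.X) := rfl

lemma lt_zero (N : ℕ) : lt N 0 = 0 := by simp [lt]

lemma lt_add (N : ℕ) (a b : ℝ) : lt N (a + b) = lt N a + lt N b := by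
  simp [lt, add_mul]

lemma lt_zsmul (N : ℕ) (c : ℤ) (a : ℝ) : lt N (c * a) = c • lt N a := by
  simp [lt, zsmul_eq_mul, mul_assoc]

lemma lt_sum {ι : Type} (N : ℕ) (s : Finset ι) (f : ι → ℝ) :
    lt N (∑ i ∈ s, f i) = ∑ i ∈ s, lt N (f i) := by
  classical
  induction s using Finset.induction_on with
  | empty => simp [lt_zero]
  | insert a s ha ih => rw [Finset.sum_insert ha, Finset.sum_insert ha, lt_add, ih]

lemma Nb_two {K : Finset (Finset (Vec n))} (hK : IsFan K) : Nb K 2 := by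
  intro s hs hc
  rcases Nat.lt_succ_iff.1 hc |>.lt_or_eq with h | h
  · have : s = ∅ := by
      rw [← Finset.card_eq_zero]; omega
    rw [this]; exact hK.empty_mem
  · obtain ⟨v, rfl⟩ := Finset.card_eq_one.1 h
    exact hK.single (hs (by simp))

lemma Nb_mono {K : Finset (Finset (Vec n))} {N M : ℕ} (h : Nb K N) (hM : M ≤ N) : Nb K M :=
  fun s hs hc => h s hs (by omega)

lemma stable_iff {K : Finset (Finset (Vec n))} : Stable K ↔ Nb K (4 * nc K + 1) := by
  constructor
  · intro h s hs hc; exact h s hs (by omega)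
  · intro h s hs hc; exact h s hs (by omega)

/-! ## wedges -/

lemma up_inj {a b : ℤ} {v w : Vec n} (h : up a v = up b w) : a = b ∧ v = w := by
  constructor
  · have := congrFun h 0
    simpa [up] using this
  · funext i
    have := congrFun h i.succ
    simpa [up] using this

lemma up_zero_injective : Function.Injective (up (n := n) 0) := fun _ _ h => (up_inj h).2

lemma mem_lift {t : Finset (Vec n)} {x : Vec (n + 1)} : x ∈ lift t ↔ ∃ w ∈ t, up 0 w = x := by
  simp [lift]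

lemma up_mem_lift {t : Finset (Vec n)} {w : Vec n} : up 0 w ∈ lift t ↔ w ∈ t := by
  rw [mem_lift]
  constructor
  · rintro ⟨w', hw', h⟩
    rw [← (up_inj h).2]; exact hw'
  · intro h; exact ⟨w, h, rfl⟩

lemma w1_notMem_lift {t : Finset (Vec n)} : (w1 : Vec (n + 1)) ∉ lift t := by
  rw [mem_lift]
  rintro ⟨w, _, h⟩
  have := (up_inj h).1
  omega

lemma w2_notMem_lift {t : Finset (Vec n)} {v : Vec n} : w2 v ∉ lift t := by
  rw [mem_lift]
  rintro ⟨w, _, h⟩
  have := (up_inj h).1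
  omega

lemma w1_ne_w2 {v : Vec n} : (w1 : Vec (n + 1)) ≠ w2 v := by
  intro h
  have := (up_inj h).1
  omega

lemma card_lift (t : Finset (Vec n)) : (lift t).card = t.card :=
  Finset.card_image_of_injective _ up_zero_injective

lemma lift_inj {s t : Finset (Vec n)} (h : lift s = lift t) : s = t := by
  ext x
  rw [← up_mem_lift, h, up_mem_lift]

lemma lift_subset {s t : Finset (Vec n)} : lift s ⊆ lift t ↔ s ⊆ t := by
  constructor
  · intro h x hx
    exact up_mem_lift.1 (h (up_mem_lift.2 hx))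
  · intro h; exact Finset.image_subset_image h

lemma mem_wedge {K : Finset (Finset (Vec n))} {v : Vec n} {S : Finset (Vec (n + 1))} :
    S ∈ wedge K v ↔ ∃ t ∈ K, v ∉ t ∧ (S = lift t ∨ S = insert w1 (lift t) ∨
      S = insert (w2 v) (lift t) ∨ (insert v t ∈ K ∧ S = insert w1 (insert (w2 v) (lift t)))) := by
  simp only [wedge, Finset.mem_union, Finset.mem_image, Finset.mem_filter]
  constructor
  · rintro (⟨t, ⟨h1, h2⟩, rfl⟩ | ⟨t, ⟨h1, h2⟩, rfl⟩ | ⟨t, ⟨h1, h2⟩, rfl⟩ | ⟨t, ⟨h1, h2, h3⟩, rfl⟩)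
    · exact ⟨t, h1, h2, Or.inl rfl⟩
    · exact ⟨t, h1, h2, Or.inr (Or.inl rfl)⟩
    · exact ⟨t, h1, h2, Or.inr (Or.inr (Or.inl rfl))⟩
    · exact ⟨t, h1, h2, Or.inr (Or.inr (Or.inr ⟨h3, rfl⟩))⟩
  · rintro ⟨t, h1, h2, h | h | h | ⟨h3, h⟩⟩
    · exact Or.inl ⟨t, ⟨h1, h2⟩, h.symm⟩
    · exact Or.inr (Or.inl ⟨t, ⟨h1, h2⟩, h.symm⟩)
    · exact Or.inr (Or.inr (Or.inl ⟨t, ⟨h1, h2⟩, h.symm⟩))
    · exact Or.inr (Or.inr (Or.inr ⟨t, ⟨h1, h2, h3⟩, h.symm⟩))

lemma verts_wedge {K : Finset (Finset (Vec n))} (hK : IsFan K) {v : Vec n} (_hv : v ∈ verts K) :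
    verts (wedge K v) = insert w1 (insert (w2 v) (lift ((verts K).erase v))) := by
  ext x
  rw [mem_verts]
  constructor
  · rintro ⟨S, hS, hx⟩
    obtain ⟨t, ht, hvt, h⟩ := mem_wedge.1 hS
    have hl : ∀ y, y ∈ lift t → y ∈ lift ((verts K).erase v) := by
      intro y hy
      obtain ⟨w, hw, rfl⟩ := mem_lift.1 hy
      refine up_mem_lift.2 (Finset.mem_erase.2 ⟨?_, mem_verts_of_mem ht hw⟩)
      rintro rfl; exact hvt hw
    simp only [Finset.mem_insert]
    rcases h with rfl | rfl | rfl | ⟨_, rfl⟩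
    · exact Or.inr (Or.inr (hl x hx))
    · rcases Finset.mem_insert.1 hx with h | h
      · exact Or.inl h
      · exact Or.inr (Or.inr (hl x h))
    · rcases Finset.mem_insert.1 hx with h | h
      · exact Or.inr (Or.inl h)
      · exact Or.inr (Or.inr (hl x h))
    · rcases Finset.mem_insert.1 hx with h | h
      · exact Or.inl h
      · rcases Finset.mem_insert.1 h with h | h
        · exact Or.inr (Or.inl h)
        · exact Or.inr (Or.inr (hl x h))
  · intro hx
    simp only [Finset.mem_insert] at hx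
    rcases hx with rfl | rfl | hx
    · exact ⟨insert w1 (lift ∅), mem_wedge.2 ⟨∅, hK.empty_mem, by simp, Or.inr (Or.inl rfl)⟩,
        by simp⟩
    · exact ⟨insert (w2 v) (lift ∅), mem_wedge.2 ⟨∅, hK.empty_mem, by simp,
        Or.inr (Or.inr (Or.inl rfl))⟩, by simp⟩
    · obtain ⟨w, hw, rfl⟩ := mem_lift.1 hx
      rw [Finset.mem_erase] at hw
      exact ⟨lift {w}, mem_wedge.2 ⟨{w}, hK.single hw.2, by simpa using hw.1.symm, Or.inl rfl⟩,
        up_mem_lift.2 (by simp)⟩

end ToricSR
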