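import Pool.Agent.Lib.MP_3d51eb_gt.SR.Spec

/-!
# project SR: bijection of the rays
-/

set_option autoImplicit false

noncomputable section

namespace ToricSR

open Finset MvPolynomial ToricPB

private lemma Bij_card {α β γ : Type} [DecidableEq β] [DecidableEq γ] (S : Finset α) (f : α → β)
    (g : α → γ) (h : ∀ a b, f a = f b → g a = g b) : (S.image g).card ≤ (S.image f).card := by
  rcases S.eq_empty_or_nonempty with rfl | ⟨s0, _⟩
  · simp
  · have hF : Function.FactorsThrough g f := fun a b hab => h a b hab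
    have : S.image g = (S.image f).image (Function.extend f g (fun _ => g s0)) := by
      rw [Finset.image_image]
      refine Finset.image_congr (fun a _ => ?_)
      exact (hF.extend_apply _ a).symm
    rw [this]
    exact Finset.card_image_le

theorem tBij (h1 : StNbt) (h2 : StGn) (h3 : StTr) (h4 : StPr) (h5 : StNw) (h6 : StMm)
    (h7 : StCard) (h8 : StMb) : StBij := by
  intro n K K' hK hK' hS φ hφ hp
  classical
  have hNK : Nb K (4 * nc K + 1) := stable_iff.1 hS
  have hNK' : Nb K' (4 * nc K + 1) := h1 n K K' hK hK' φ hφ _ hNK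
  have hψ0 : ∀ v, ∃ ψ : Vec n → ℤ, φ (cls K v) = cl K' ψ :=
    fun v => exists_cl ((hφ _).1 (cls_mem v))
  choose ψ hψ using hψ0
  obtain ⟨l', hl', hS'⟩ := h2 n K' hK'
    ((((verts K ×ˢ verts K').image
        (fun p => fun x => ψ p.1 x - (if x = p.2 then 1 else 0))) ∪
      ((verts K ×ˢ verts K').image
        (fun p => fun x => ψ p.1 x + (if x = p.2 then 1 else 0)))).filter (fun χ => cl K' χ ≠ 0))
    (fun χ hχ => (Finset.mem_filter.1 hχ).2)
  obtain ⟨l, hl, hll, -⟩ := h3 n K K' hK hK' φ hφ l' hl'
  have hlv : ∀ v, l v = ev K' (ψ v) l' := fun v => hll v (ψ v) (hψ v)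
  have hAB : (verts K).val.map (fun v => l v ^ 2) = (verts K').val.map (fun w => l' w ^ 2) := by
    refine h6 _ _ (nc K) ?_ ?_ ?_
    · have : ((verts K).val.map (fun v => l v ^ 2)).toFinset
          = (verts K).image (fun v => l v ^ 2) := rfl
      rw [this]
      refine Bij_card (verts K) (cls K) (fun v => l v ^ 2) (fun a b hab => ?_)
      have : l a = ev K' (ψ b) l' := hll a (ψ b) (by rw [hab]; exact hψ b)
      simp only [this, hlv b]
    · rw [Multiset.card_map, Multiset.card_map]
      exact h7 n K K' hK hK' φ hφ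
    · intro j hj1 hj2
      exact h5 _ _ (2 * nc K) (fun i hi => h4 n K K' hK hK' φ hφ hp _ hNK' l hl l' hl' hll i
        (by omega)) j hj1 hj2
  obtain ⟨u, hu, huv⟩ := h8 n (verts K) (verts K') (fun v => l v ^ 2) (fun w => l' w ^ 2) hAB
  have key : ∀ v ∈ verts K, φ (cls K v) = cls K' (u v) ∨ φ (cls K v) = -cls K' (u v) := by
    intro v hv
    have huK : u v ∈ verts K' := hu.mapsTo hv
    have hsq : l v ^ 2 = l' (u v) ^ 2 := huv v hv
    rcases sq_eq_sq_iff_eq_or_eq_neg.1 hsq with h | h
    · left
      by_contra hne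
      have hc : cl K' (fun x => ψ v x - (if x = u v then 1 else 0)) ≠ 0 := by
        rw [cl_sub, cl_single huK, ← hψ v]
        exact sub_ne_zero.2 hne
      refine hS' _ (Finset.mem_filter.2 ⟨Finset.mem_union_left _ (Finset.mem_image.2
        ⟨(v, u v), Finset.mem_product.2 ⟨hv, huK⟩, rfl⟩), hc⟩) ?_
      rw [ev_sub, ev_single huK, ← hlv v, h, sub_self]
    · right
      by_contra hne
      have hc : cl K' (fun x => ψ v x + (if x = u v then 1 else 0)) ≠ 0 := by
        rw [cl_add, cl_single huK, ← hψ v]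
        intro h0
        exact hne (eq_neg_of_add_eq_zero_left h0)
      refine hS' _ (Finset.mem_filter.2 ⟨Finset.mem_union_right _ (Finset.mem_image.2
        ⟨(v, u v), Finset.mem_product.2 ⟨hv, huK⟩, rfl⟩), hc⟩) ?_
      rw [ev_add, ev_single huK, ← hlv v, h, neg_add_cancel]
  refine ⟨u, fun v => if φ (cls K v) = cls K' (u v) then 1 else -1, hu, ?_, ?_⟩
  · intro v
    dsimp only
    split_ifs
    · exact Or.inl rfl
    · exact Or.inr rfl
  · intro v hv
    dsimp only
    split_ifs with h
    · rw [one_smul]; exact h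
    · rw [neg_one_smul]
      exact (key v hv).resolve_left h

end ToricSR
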