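import Pool.Agent.Lib.MP_3d51eb_gt.SR.Spec3

set_option autoImplicit false

/-!
# MP_3d51eb_gt, project SR: power sums from the first Pontrjagin classes
-/

noncomputable section

namespace ToricSR

open Finset MvPolynomial ToricPB

/-- elementary symmetric functions of the squares of linear terms in a truncated polynomial ring -/
theorem pmEs {n : ℕ} (N j : ℕ) (S : Finset (Vec n)) (a : Vec n → ℝ) :
    ∑ t ∈ S.powersetCard j, ∏ v ∈ t, (lt N (a v)) ^ 2 =
      (Ideal.Quotient.mk (Ideal.span {(Polynomial.X : Polynomial ℝ) ^ N})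
        (Polynomial.C (∑ t ∈ S.powersetCard j, ∏ v ∈ t, a v ^ 2) * Polynomial.X ^ (2 * j)) : Tr N) := by
  rw [map_sum Polynomial.C, Finset.sum_mul, map_sum]
  refine Finset.sum_congr rfl fun t ht => ?_
  have hc : t.card = j := (Finset.mem_powersetCard.1 ht).2
  have h1 : ∏ v ∈ t, (lt N (a v)) ^ 2 =
      (Ideal.Quotient.mk (Ideal.span {(Polynomial.X : Polynomial ℝ) ^ N})
        (∏ v ∈ t, (Polynomial.C (a v) * Polynomial.X) ^ 2) : Tr N) := by
    rw [map_prod]
    refine Finset.prod_congr rfl fun v _ => ?_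
    rw [map_pow, lt_eq]
  rw [h1]
  congr 1
  rw [map_prod Polynomial.C]
  have h2 : ∀ v ∈ t, ((Polynomial.C (a v) * Polynomial.X) ^ 2 : Polynomial ℝ) =
      Polynomial.C (a v ^ 2) * Polynomial.X ^ 2 := by
    intro v _
    rw [mul_pow, Polynomial.C_pow]
  rw [Finset.prod_congr rfl h2, Finset.prod_mul_distrib, Finset.prod_const, hc, ← pow_mul]

/-- equal elementary symmetric functions in a truncated polynomial ring -/
theorem pmEs2 {n : ℕ} (N j : ℕ) (hj : 2 * j < N) (S S' : Finset (Vec n)) (a b : Vec n → ℝ)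
    (h : ∑ t ∈ S.powersetCard j, ∏ v ∈ t, (lt N (a v)) ^ 2 =
      ∑ t ∈ S'.powersetCard j, ∏ v ∈ t, (lt N (b v)) ^ 2) :
    ((S.val.map (fun v => a v ^ 2)).esymm j) = ((S'.val.map (fun w => b w ^ 2)).esymm j) := by
  rw [Finset.esymm_map_val, Finset.esymm_map_val]
  rw [pmEs, pmEs] at h
  have h4 := Ideal.Quotient.eq.1 h
  rw [Ideal.mem_span_singleton, Polynomial.X_pow_dvd_iff] at h4
  have h5 := h4 (2 * j) hj
  rw [Polynomial.coeff_sub, Polynomial.coeff_C_mul_X_pow, Polynomial.coeff_C_mul_X_pow,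
    if_pos rfl, if_pos rfl, sub_eq_zero] at h5
  exact h5

/-- POWER SUMS from `p_1, …, p_M`. -/
theorem pmF (h1 : StHom) (h3 : StNw) {n : ℕ} (K K' : Finset (Finset (Vec n)))
    (φ : Coh K ≃+* Coh K') (M : ℕ)
    (hp : ∀ k, 1 ≤ k → k ≤ M →
      φ (∑ t ∈ (verts K).powersetCard k, ∏ v ∈ t, cls K v ^ 2) =
        ∑ t ∈ (verts K').powersetCard k, ∏ v ∈ t, cls K' v ^ 2)
    (hN : Nb K (2 * M + 1)) (χ : Vec n → Vec n → ℤ) (hχ : ∀ w, φ (cl K (χ w)) = cls K' w) :
    ∀ k, 1 ≤ k → k ≤ M → ∀ l ∈ VK K,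
      ∑ v ∈ verts K, l v ^ (2 * k) = ∑ w ∈ verts K', (ev K (χ w) l) ^ (2 * k) := by
  intro k hk hkM l hl
  obtain ⟨Ψ, hΨ1, hΨ2⟩ := h1 n K (2 * M + 1) hN l hl
  have hes : ∀ j, j ≤ M → (((verts K).val.map (fun v => l v ^ 2)).esymm j) =
      (((verts K').val.map (fun w => (ev K (χ w) l) ^ 2)).esymm j) := by
    intro j hj
    rcases Nat.eq_zero_or_pos j with h0 | h0
    · subst h0
      simp [Multiset.esymm]
    · refine pmEs2 (2 * M + 1) j (by omega) (verts K) (verts K') l (fun w => ev K (χ w) l) ?_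
      have e1 : Ψ (∑ t ∈ (verts K).powersetCard j, ∏ v ∈ t, cls K v ^ 2) =
          ∑ t ∈ (verts K).powersetCard j, ∏ v ∈ t, (lt (2 * M + 1) (l v)) ^ 2 := by
        rw [map_sum]
        refine Finset.sum_congr rfl fun t _ => ?_
        rw [map_prod]
        refine Finset.prod_congr rfl fun v _ => ?_
        rw [map_pow, hΨ1]
      have e2 : Ψ (φ.symm (∑ t ∈ (verts K').powersetCard j, ∏ v ∈ t, cls K' v ^ 2)) =
          ∑ t ∈ (verts K').powersetCard j, ∏ v ∈ t, (lt (2 * M + 1) (ev K (χ v) l)) ^ 2 := by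
        rw [map_sum, map_sum]
        refine Finset.sum_congr rfl fun t _ => ?_
        rw [map_prod, map_prod]
        refine Finset.prod_congr rfl fun v _ => ?_
        rw [map_pow, map_pow, ← hχ v, RingEquiv.symm_apply_apply, hΨ2]
      rw [← e1, ← e2, ← hp j h0 hj, RingEquiv.symm_apply_apply]
  have hsum := h3 ((verts K).val.map (fun v => l v ^ 2))
    ((verts K').val.map (fun w => (ev K (χ w) l) ^ 2)) k (fun j hj => hes j (by omega)) k hk le_rfl
  rw [Multiset.map_map, Multiset.map_map] at hsum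
  have e1 : (Multiset.map ((fun x : ℝ => x ^ k) ∘ fun w => (ev K (χ w) l) ^ 2)
      (verts K').val).sum = ∑ w ∈ verts K', (ev K (χ w) l) ^ (2 * k) := by
    refine Finset.sum_congr rfl fun w _ => ?_
    show ((ev K (χ w) l) ^ 2) ^ k = (ev K (χ w) l) ^ (2 * k)
    rw [← pow_mul]
  have e2 : (Multiset.map ((fun x : ℝ => x ^ k) ∘ fun v => l v ^ 2) (verts K).val).sum =
      ∑ v ∈ verts K, l v ^ (2 * k) := by
    refine Finset.sum_congr rfl fun v _ => ?_
    show (l v ^ 2) ^ k = l v ^ (2 * k)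
    rw [← pow_mul]
  rw [e1, e2] at hsum
  exact hsum

end ToricSR
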