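import Pool.Agent.Lib.MP_3d51eb_gt.SR.Spec6
import Pool.Agent.Lib.MP_3d51eb_gt.SR.Kb6

/-!
# project SR, PM2: bijection of the rays from `StKb6` (adapted from SR/BijU.lean)
-/

set_option autoImplicit false

noncomputable section

namespace ToricSR

open Finset MvPolynomial ToricPB

private lemma Bij6_zero (h3 : StPerp) (n : ℕ) (K : Finset (Finset (Vec n))) (hK : IsFan K)
    (ψ : Vec n → ℤ) (h : ∀ l ∈ VK K, ev K ψ l = 0) : cl K ψ = 0 := by
  obtain ⟨m, hm⟩ := h3 n K hK ψ h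
  rw [cl_congr (χ := pr m) hm, cl_pr]

private lemma Bij6_span (h : StCd4) (n : ℕ) (K : Finset (Finset (Vec n))) (M : ℕ) (hC : Circ K M)
    (U : Finset (Vec n)) (x : VK K) (hx : ∀ v ∈ U, fv K v x = 0) :
    x ∈ Submodule.span ℝ {c : VK K | c ∈ {y : VK K | ∃ d : Vec n → ℤ, ZM M d ∧
      (y : Vec n → ℝ) = rl d} ∧ ∀ v ∈ U, fv K v c = 0} := by
  set T : Set (VK K) := {c : VK K | c ∈ {y : VK K | ∃ d : Vec n → ℤ, ZM M d ∧
      (y : Vec n → ℝ) = rl d} ∧ ∀ v ∈ U, fv K v c = 0} with hT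
  obtain ⟨A, hA, hs⟩ := h n K M hC x.1 x.2
  have key : (x : Vec n → ℝ) ∈ Submodule.map (VK K).subtype (Submodule.span ℝ T) := by
    rw [hs]
    refine list_sum_mem fun y hy => ?_
    obtain ⟨p, hp, rfl⟩ := List.mem_map.1 hy
    obtain ⟨-, h2, h3, h4⟩ := hA p hp
    refine Submodule.smul_mem _ _ ⟨⟨rl p.2, h2⟩, Submodule.subset_span ⟨⟨p.2, h3, rfl⟩, ?_⟩, rfl⟩
    intro v hv
    show rl p.2 v = 0
    by_contra hne
    have h5 : p.2 v ≠ 0 := fun h0 => hne (by simp [rl, h0])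
    have h6 := h4 v h5
    have h7 : (x : Vec n → ℝ) v = 0 := hx v hv
    rw [h7, mul_zero] at h6
    exact lt_irrefl _ h6
  obtain ⟨y, hy, hyx⟩ := key
  have : y = x := Subtype.ext hyx
  rwa [this] at hy

theorem tBij6K (h1 : StRel) (h2 : StPerp) (h3 : StQ6) (h4 : StIi) (h5 : StCd4) (h6 : StKb6)
    (h7 : StSgn) (h8 : StCard) : StBij6 := by
  intro n K K' hK hK' M hM hC hN φ hG hp
  have hex : ∀ w, ∃ χ : Vec n → ℤ, φ (cl K χ) = cls K' w := by
    intro w
    have ha : φ.symm (cls K' w) ∈ H2 K := by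
      rw [hG, RingEquiv.apply_symm_apply]
      exact cls_mem w
    obtain ⟨χ, hχ⟩ := exists_cl ha
    exact ⟨χ, by rw [← hχ, RingEquiv.apply_symm_apply]⟩
  choose χ hχ using hex
  have hQ : QP K (verts K') χ M := h3 n K K' hK hK' φ M hN hp χ hχ
  obtain ⟨hs1, hs2⟩ := h7 n K K' hK hK'
  obtain ⟨u, hu, huv⟩ := h6 (VK K) n (verts K) (verts K') (fv K) (fun w => gv K (χ w))
    {y : VK K | ∃ d : Vec n → ℤ, ZM M d ∧ (y : Vec n → ℝ) = rl d}
    (fun U _ x hx => Bij6_span h5 n K M hC U x hx)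
    (by
      rintro ⟨y, hy⟩ ⟨d, hd, hyd⟩
      have hyd' : y = rl d := hyd
      subst hyd'
      exact h4 n K (verts K') χ M hM hQ d hy hd)
    (le_of_eq (h8 n K K' hK hK' φ hG))
    (fun w hw h0 => by
      obtain ⟨l, hl, hne⟩ := (hs2 φ hG w hw (χ w) (hχ w)).2
      exact hne (LinearMap.congr_fun h0 ⟨l, hl⟩))
    (fun v hv h0 => by
      obtain ⟨a, ha, -, hav⟩ := h1 n K hK v hv
      have h9 : ((a v : ℤ) : ℝ) = 0 := LinearMap.congr_fun h0 ⟨_, ha⟩
      rw [hav] at h9
      norm_num at h9)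
    (fun v hv v' hv' c hc => by
      have h9 : c = 1 := hs1 v hv v' hv' c (fun l hl => LinearMap.congr_fun hc ⟨l, hl⟩)
      rw [hc, h9, one_smul])
    (fun w hw v hv c hc => by
      rcases (hs2 φ hG w hw (χ w) (hχ w)).1 v hv c
        (fun l hl => LinearMap.congr_fun hc ⟨l, hl⟩) with h9 | h9
      · left
        rw [hc, h9, one_smul]
      · right
        refine LinearMap.ext (fun l => ?_)
        rw [hc, h9, LinearMap.neg_apply, LinearMap.smul_apply, smul_eq_mul]
        ring)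
  classical
  refine ⟨u, fun v => if gv K (χ (u v)) = fv K v then 1 else -1, hu, fun v => ?_, fun v hv => ?_⟩
  · by_cases h : gv K (χ (u v)) = fv K v
    · exact Or.inl (if_pos h)
    · exact Or.inr (if_neg h)
  · by_cases h : gv K (χ (u v)) = fv K v
    · have h9 : cl K (fun x => (χ (u v)) x - (fun w => if w = v then (1 : ℤ) else 0) x) = 0 := by
        refine Bij6_zero h2 n K hK _ (fun l hl => ?_)
        rw [ev_sub, ev_single hv]
        have h10 : ev K (χ (u v)) l = l v := LinearMap.congr_fun h ⟨l, hl⟩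
        rw [h10, sub_self]
      rw [cl_sub, cl_single hv, sub_eq_zero] at h9
      simp only [if_pos h, one_smul]
      rw [← h9, hχ]
    · have h' : gv K (χ (u v)) = -fv K v := (huv v hv).resolve_left h
      have h9 : cl K (fun x => (χ (u v)) x + (fun w => if w = v then (1 : ℤ) else 0) x) = 0 := by
        refine Bij6_zero h2 n K hK _ (fun l hl => ?_)
        rw [ev_add, ev_single hv]
        have h10 : ev K (χ (u v)) l = -l v := LinearMap.congr_fun h' ⟨l, hl⟩
        rw [h10, neg_add_cancel]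
      rw [cl_add, cl_single hv] at h9
      have h11 : cls K v = -cl K (χ (u v)) := (neg_eq_of_add_eq_zero_right h9).symm
      simp only [if_neg h]
      rw [h11, map_neg, hχ, neg_smul, one_smul]

end ToricSR
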