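import Pool.Agent.Lib.MP_3d51eb_gt.SR.Spec3
import Pool.Agent.Lib.MP_3d51eb_gt.SR.PmD

set_option autoImplicit false

/-!
# MP_3d51eb_gt, project SR: numbers of nonzero terms for bounded integral relations
-/

noncomputable section

namespace ToricSR

open Finset MvPolynomial ToricPB

/-- the value of an integral class at an integral relation is an integer -/
theorem pmCast {n : ℕ} (K : Finset (Finset (Vec n))) (ψ c : Vec n → ℤ) :
    ev K ψ (rl c) = ((∑ v ∈ verts K, ψ v * c v : ℤ) : ℝ) := by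
  unfold ev rl
  push_cast
  rfl

open Classical in
/-- numbers of nonzero terms for bounded integral relations -/
theorem pmE {n : ℕ} (K : Finset (Finset (Vec n))) (S' : Finset (Vec n))
    (χ : Vec n → Vec n → ℤ) (M : ℕ) (hM : Odd M)
    (hQ : ∀ k, 1 ≤ k → k ≤ M → ∀ l ∈ VK K,
      ∑ v ∈ verts K, l v ^ (2 * k) = ∑ w ∈ S', (ev K (χ w) l) ^ (2 * k))
    (c : Vec n → ℤ) (hc : rl c ∈ VK K) (hb : ∀ v, |c v| ≤ M) :
    (S'.filter (fun w => ev K (χ w) (rl c) ≠ 0)).card ≤
      ((verts K).filter (fun v => c v ≠ 0)).card := by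
  have h := pmD (verts K) S' c (fun w => ∑ v ∈ verts K, χ w v * c v) M hM
    (fun k hk hk' => by
      have h1 := hQ k hk hk' (rl c) hc
      have h2 : ∑ w ∈ S', (ev K (χ w) (rl c)) ^ (2 * k) =
          ∑ w ∈ S', (((∑ v ∈ verts K, χ w v * c v : ℤ)) : ℝ) ^ (2 * k) :=
        Finset.sum_congr rfl fun w _ => by rw [pmCast]
      rw [h2] at h1
      exact h1) (fun v _ => hb v)
  have h3 : S'.filter (fun w => ev K (χ w) (rl c) ≠ 0) =
      S'.filter (fun w => (∑ v ∈ verts K, χ w v * c v) ≠ 0) := by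
    refine Finset.filter_congr fun w _ => ?_
    rw [pmCast, Ne, Ne, Int.cast_eq_zero]
  rw [h3]
  convert h

end ToricSR
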