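import Pool.Agent.Lib.MP_3d51eb_gt.SR.Spec6

set_option autoImplicit false

/-! # project SR: conformal circuits with bounded entries -/

noncomputable section

namespace ToricSR

open Finset MvPolynomial ToricPB

/-- the factor may be taken positive -/
private lemma Circ4_pos {n : ℕ} {M : ℕ} {m : Vec n → ℝ} (hm0 : m ≠ 0) {a : ℝ} {c : Vec n → ℤ}
    (hc : ∀ v, |c v| ≤ (M : ℤ)) (h : m = a • (fun v => (c v : ℝ))) :
    ∃ a' : ℝ, 0 < a' ∧ ∃ c' : Vec n → ℤ, ZM M c' ∧ m = a' • rl c' := by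
  have ha0 : a ≠ 0 := by
    rintro rfl
    exact hm0 (by rw [h, zero_smul])
  rcases lt_or_gt_of_ne ha0 with ha | ha
  · refine ⟨-a, by linarith, fun v => -c v, fun v => ?_, ?_⟩
    · rw [abs_neg]
      exact hc v
    · rw [h]
      funext v
      show a * ((c v : ℤ) : ℝ) = -a * ((-c v : ℤ) : ℝ)
      push_cast
      ring
  · exact ⟨a, ha, c, hc, h⟩

theorem tCirc4 (h1 : StCa) : StCirc4 := by
  intro n K M hM l hl hl0
  obtain ⟨m, hm, hm0, hml, hmin⟩ := h1 n K l hl hl0
  obtain ⟨a0, c0, hc0, hmc⟩ := hM m hm hmin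
  obtain ⟨a, ha, c, hc, rfl⟩ := Circ4_pos hm0 hc0 hmc
  have hcm : rl c = a⁻¹ • (a • rl c) := by
    rw [smul_smul, inv_mul_cancel₀ ha.ne', one_smul]
  refine ⟨c, ?_, hc, ?_, fun v hv => ?_⟩
  · rw [hcm]
    exact Submodule.smul_mem _ _ hm
  · by_contra hcon
    push Not at hcon
    refine hm0 (funext (fun v => ?_))
    show a * ((c v : ℤ) : ℝ) = 0
    rw [hcon v]; simp
  · have hne : (a • rl c) v ≠ 0 := by
      show a * ((c v : ℤ) : ℝ) ≠ 0
      exact mul_ne_zero ha.ne' (by exact_mod_cast hv)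
    have h := hml v hne
    have h' : 0 < a * (rl c v * l v) := by
      have : (a • rl c) v * l v = a * (rl c v * l v) := by
        show a * rl c v * l v = _
        ring
      rwa [this] at h
    exact (mul_pos_iff_of_pos_left ha).1 h'

end ToricSR
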