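import Mathlib

set_option autoImplicit false

/-!
Sums of squares of a unimodular system of functionals (for PU2): another representation by integral
functionals has at most as many nonzero terms, and with as many it is the same one up to signs.
-/

namespace ToricSR.CntB

variable {V : Type*} [AddCommGroup V] [Module ℝ V] {α β : Type*}

open Classical in
theorem core (P : Submodule ℝ V) (S : Finset α) (W : Finset β) (f : α → V →ₗ[ℝ] ℝ) (g : β → V →ₗ[ℝ] ℝ)
    (hf : ∀ u ∈ S, ∃ l ∈ P, f u l = 1 ∧ (∀ v ∈ S, ∃ k : ℤ, f v l = k) ∧ (∀ w ∈ W, ∃ k : ℤ, g w l = k))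
    (hg : ∀ w ∈ W, ∃ l ∈ P, g w l ≠ 0)
    (hsum : ∀ l ∈ P, ∑ v ∈ S, (f v l) ^ 2 = ∑ w ∈ W, (g w l) ^ 2)
    (hcount : ∀ u ∈ S, (S.filter (fun v => ∃ k : ℝ, ∀ l ∈ P, f v l = k * f u l)).card ≤
      (W.filter (fun w => ∃ k : ℝ, ∀ l ∈ P, g w l = k * f u l)).card) :
    (∀ w ∈ W, ∃ u ∈ S, (∀ l ∈ P, g w l = f u l) ∨ (∀ l ∈ P, g w l = - f u l)) ∧
    (∀ u ∈ S, (S.filter (fun v => (∀ l ∈ P, f v l = f u l) ∨ (∀ l ∈ P, f v l = - f u l))).card =
      (W.filter (fun w => (∀ l ∈ P, g w l = f u l) ∨ (∀ l ∈ P, g w l = - f u l))).card) ∧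
    W.card = S.card := by
  -- notation
  set A : α → Finset α := fun u => S.filter (fun v => ∃ k : ℝ, ∀ l ∈ P, f v l = k * f u l) with hA
  set B : α → Finset β := fun u => W.filter (fun w => ∃ k : ℝ, ∀ l ∈ P, g w l = k * f u l) with hB
  have hSne : ∀ u ∈ S, ∃ l ∈ P, f u l ≠ 0 := by
    intro u hu
    obtain ⟨l, hl, h1, -, -⟩ := hf u hu
    exact ⟨l, hl, by rw [h1]; exact one_ne_zero⟩
  -- ratios are nonzero integers
  have hkf : ∀ u ∈ S, ∀ v ∈ A u, ∃ k : ℤ, k ≠ 0 ∧ ∀ l ∈ P, f v l = k * f u l := by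
    intro u hu v hv
    obtain ⟨hvS, k, hk⟩ := Finset.mem_filter.1 hv
    obtain ⟨l, hl, h1, h2, -⟩ := hf u hu
    obtain ⟨m, hm⟩ := h2 v hvS
    have hkm : k = m := by
      have := hk l hl
      rw [h1, mul_one] at this
      rw [← this, hm]
    refine ⟨m, ?_, fun l' hl' => by rw [hk l' hl', hkm]⟩
    rintro rfl
    obtain ⟨l', hl', h'⟩ := hSne v hvS
    apply h'
    rw [hk l' hl', hkm]
    simp
  have hkg : ∀ u ∈ S, ∀ w ∈ B u, ∃ k : ℤ, k ≠ 0 ∧ ∀ l ∈ P, g w l = k * f u l := by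
    intro u hu w hw
    obtain ⟨hwW, k, hk⟩ := Finset.mem_filter.1 hw
    obtain ⟨l, hl, h1, -, h2⟩ := hf u hu
    obtain ⟨m, hm⟩ := h2 w hwW
    have hkm : k = m := by
      have := hk l hl
      rw [h1, mul_one] at this
      rw [← this, hm]
    refine ⟨m, ?_, fun l' hl' => by rw [hk l' hl', hkm]⟩
    rintro rfl
    obtain ⟨l', hl', h'⟩ := hg w hwW
    apply h'
    rw [hk l' hl', hkm]
    simp
  have hself : ∀ u ∈ S, u ∈ A u := fun u hu =>
    Finset.mem_filter.2 ⟨hu, 1, fun l _ => by rw [one_mul]⟩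
  have hsymm : ∀ u ∈ S, ∀ v ∈ A u, u ∈ A v := by
    intro u hu v hv
    obtain ⟨k, hk0, hk⟩ := hkf u hu v hv
    refine Finset.mem_filter.2 ⟨hu, (k : ℝ)⁻¹, fun l hl => ?_⟩
    have : (k : ℝ) ≠ 0 := by exact_mod_cast hk0
    rw [hk l hl]
    field_simp
  -- the ratio inside A u is ±1
  have hunit : ∀ u ∈ S, ∀ v ∈ A u, (∀ l ∈ P, f v l = f u l) ∨ (∀ l ∈ P, f v l = - f u l) := by
    intro u hu v hv
    have hvS := (Finset.mem_filter.1 hv).1
    obtain ⟨k, hk0, hk⟩ := hkf u hu v hv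
    obtain ⟨k', hk0', hk'⟩ := hkf v hvS u (hsymm u hu v hv)
    obtain ⟨l, hl, h1, -, -⟩ := hf u hu
    have e1 : (1 : ℝ) = k' * k := by
      have := hk' l hl
      rw [hk l hl, h1] at this
      linarith
    have e2 : k' * k = 1 := by exact_mod_cast e1.symm
    rcases Int.isUnit_iff.1 (IsUnit.of_mul_eq_one k' (by rw [mul_comm]; exact e2) : IsUnit k) with h | h
    · left; intro l hl; rw [hk l hl, h]; simp
    · right; intro l hl; rw [hk l hl, h]; simp
  have hAeq : ∀ u ∈ S, A u = S.filter (fun v => (∀ l ∈ P, f v l = f u l) ∨ (∀ l ∈ P, f v l = - f u l)) := by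
    intro u hu
    ext v
    constructor
    · intro hv
      exact Finset.mem_filter.2 ⟨(Finset.mem_filter.1 hv).1, hunit u hu v hv⟩
    · intro hv
      obtain ⟨hvS, h⟩ := Finset.mem_filter.1 hv
      refine Finset.mem_filter.2 ⟨hvS, ?_⟩
      rcases h with h | h
      · exact ⟨1, fun l hl => by rw [h l hl, one_mul]⟩
      · exact ⟨-1, fun l hl => by rw [h l hl]; ring⟩
  -- weights
  set a : α → ℝ := fun u => ((A u).card : ℝ) with ha
  have hapos : ∀ u ∈ S, 0 < a u := by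
    intro u hu
    have : 0 < (A u).card := Finset.card_pos.2 ⟨u, hself u hu⟩
    exact Nat.cast_pos.2 this
  have hAcongr : ∀ u ∈ S, ∀ v ∈ A u, A v = A u := by
    intro u hu v hv
    have hvS := (Finset.mem_filter.1 hv).1
    obtain ⟨k, hk0, hk⟩ := hkf u hu v hv
    obtain ⟨k', hk0', hk'⟩ := hkf v hvS u (hsymm u hu v hv)
    ext x
    constructor
    · intro hx
      obtain ⟨hxS, c, hc⟩ := Finset.mem_filter.1 hx
      exact Finset.mem_filter.2 ⟨hxS, c * k, fun l hl => by rw [hc l hl, hk l hl]; ring⟩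
    · intro hx
      obtain ⟨hxS, c, hc⟩ := Finset.mem_filter.1 hx
      exact Finset.mem_filter.2 ⟨hxS, c * k', fun l hl => by rw [hc l hl, hk' l hl]; ring⟩
  -- c_w
  have hcw : ∀ w ∈ W, (∑ u ∈ S.filter (fun u => w ∈ B u), (a u)⁻¹ = 1) ∨
      (S.filter (fun u => w ∈ B u) = ∅) := by
    intro w hw
    by_cases hne : (S.filter (fun u => w ∈ B u)).Nonempty
    · left
      obtain ⟨u, hu⟩ := hne
      obtain ⟨huS, hwu⟩ := Finset.mem_filter.1 hu
      have hfil : S.filter (fun u => w ∈ B u) = A u := by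
        obtain ⟨k, hk0, hk⟩ := hkg u huS w hwu
        have hk0' : (k : ℝ) ≠ 0 := by exact_mod_cast hk0
        ext v
        constructor
        · intro hv
          obtain ⟨hvS, hwv⟩ := Finset.mem_filter.1 hv
          obtain ⟨m, hm0, hm⟩ := hkg v hvS w hwv
          have hm0' : (m : ℝ) ≠ 0 := by exact_mod_cast hm0
          refine Finset.mem_filter.2 ⟨hvS, (m : ℝ)⁻¹ * k, fun l hl => ?_⟩
          have := (hk l hl).symm.trans (hm l hl)
          rw [mul_assoc, this]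
          field_simp
        · intro hv
          obtain ⟨hvS, c, hc⟩ := Finset.mem_filter.1 hv
          have hv' := hsymm u huS v hv
          obtain ⟨_, c', hc'⟩ := Finset.mem_filter.1 hv'
          exact Finset.mem_filter.2 ⟨hvS, Finset.mem_filter.2 ⟨hw, k * c', fun l hl => by
            rw [hk l hl, hc' l hl]; ring⟩⟩
      rw [hfil]
      have : ∀ v ∈ A u, (a v)⁻¹ = (a u)⁻¹ := by
        intro v hv
        simp only [ha]
        rw [hAcongr u huS v hv]
      rw [Finset.sum_congr rfl this, Finset.sum_const, nsmul_eq_mul]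
      exact mul_inv_cancel₀ (ne_of_gt (hapos u huS))
    · right
      exact Finset.not_nonempty_iff_eq_empty.1 hne
  -- the swap of sums
  have hswap : ∀ F : α → β → ℝ, ∑ w ∈ W, ∑ u ∈ S.filter (fun u => w ∈ B u), F u w =
      ∑ u ∈ S, ∑ w ∈ B u, F u w := by
    intro F
    have h1 : ∀ w ∈ W, ∑ u ∈ S.filter (fun u => w ∈ B u), F u w = ∑ u ∈ S, if w ∈ B u then F u w else 0 := by
      intro w _
      rw [Finset.sum_filter]
    rw [Finset.sum_congr rfl h1, Finset.sum_comm]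
    refine Finset.sum_congr rfl fun u _ => ?_
    rw [← Finset.sum_filter]
    refine Finset.sum_congr ?_ fun _ _ => rfl
    ext w
    simp only [Finset.mem_filter, hB]
    tauto
  -- the identity
  have hid : ∀ l ∈ P,
      ∑ w ∈ W, (1 - ∑ u ∈ S.filter (fun u => w ∈ B u), (a u)⁻¹) * (g w l) ^ 2 +
      ∑ u ∈ S, (∑ w ∈ B u, (a u)⁻¹ * ((g w l) ^ 2 - (f u l) ^ 2)) +
      ∑ u ∈ S, (((B u).card : ℝ) * (a u)⁻¹ - 1) * (f u l) ^ 2 = 0 := by
    intro l hl
    have e1 : ∑ w ∈ W, (1 - ∑ u ∈ S.filter (fun u => w ∈ B u), (a u)⁻¹) * (g w l) ^ 2 =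
        ∑ w ∈ W, (g w l) ^ 2 - ∑ u ∈ S, ∑ w ∈ B u, (a u)⁻¹ * (g w l) ^ 2 := by
      rw [← hswap (fun u w => (a u)⁻¹ * (g w l) ^ 2), ← Finset.sum_sub_distrib]
      refine Finset.sum_congr rfl fun w _ => ?_
      rw [sub_mul, one_mul, Finset.sum_mul]
    have e2 : ∑ u ∈ S, (∑ w ∈ B u, (a u)⁻¹ * ((g w l) ^ 2 - (f u l) ^ 2)) =
        ∑ u ∈ S, ∑ w ∈ B u, (a u)⁻¹ * (g w l) ^ 2 - ∑ u ∈ S, ((B u).card : ℝ) * (a u)⁻¹ * (f u l) ^ 2 := by
      rw [← Finset.sum_sub_distrib]
      refine Finset.sum_congr rfl fun u _ => ?_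
      rw [Finset.sum_congr rfl (fun w _ => mul_sub (a u)⁻¹ ((g w l) ^ 2) ((f u l) ^ 2)),
        Finset.sum_sub_distrib, Finset.sum_const, nsmul_eq_mul]
      ring
    have e3 : ∑ u ∈ S, (((B u).card : ℝ) * (a u)⁻¹ - 1) * (f u l) ^ 2 =
        ∑ u ∈ S, ((B u).card : ℝ) * (a u)⁻¹ * (f u l) ^ 2 - ∑ u ∈ S, (f u l) ^ 2 := by
      rw [← Finset.sum_sub_distrib]
      refine Finset.sum_congr rfl fun u _ => ?_
      ring
    rw [e1, e2, e3, hsum l hl]
    ring
  have hn1 : ∀ l : V, ∀ w ∈ W, 0 ≤ (1 - ∑ u ∈ S.filter (fun u => w ∈ B u), (a u)⁻¹) * (g w l) ^ 2 := by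
    intro l w hw
    refine mul_nonneg ?_ (sq_nonneg _)
    rcases hcw w hw with h | h
    · rw [h]; norm_num
    · rw [h]; simp
  have hn2' : ∀ l ∈ P, ∀ u ∈ S, ∀ w ∈ B u, 0 ≤ (a u)⁻¹ * ((g w l) ^ 2 - (f u l) ^ 2) := by
    intro l hl u hu w hw
    refine mul_nonneg (inv_nonneg.2 (hapos u hu).le) ?_
    obtain ⟨k, hk0, hk⟩ := hkg u hu w hw
    rw [hk l hl]
    have : (1 : ℝ) ≤ (k : ℝ) ^ 2 := by
      have : (1 : ℤ) ≤ k ^ 2 := by
        have := Int.one_le_abs hk0
        nlinarith [sq_abs k, abs_nonneg k]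
      exact_mod_cast this
    nlinarith [sq_nonneg (f u l), mul_nonneg (sub_nonneg.2 this) (sq_nonneg (f u l))]
  have hn2 : ∀ l ∈ P, ∀ u ∈ S, 0 ≤ ∑ w ∈ B u, (a u)⁻¹ * ((g w l) ^ 2 - (f u l) ^ 2) :=
    fun l hl u hu => Finset.sum_nonneg (hn2' l hl u hu)
  have hba : ∀ u ∈ S, 0 ≤ ((B u).card : ℝ) * (a u)⁻¹ - 1 := by
    intro u hu
    have h1 := hcount u hu
    have h2 : a u ≤ ((B u).card : ℝ) := Nat.cast_le.2 h1
    have h3 := hapos u hu
    rw [sub_nonneg, ← div_eq_mul_inv, le_div_iff₀ h3, one_mul]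
    exact h2
  have hn3 : ∀ l : V, ∀ u ∈ S, 0 ≤ (((B u).card : ℝ) * (a u)⁻¹ - 1) * (f u l) ^ 2 :=
    fun l u hu => mul_nonneg (hba u hu) (sq_nonneg _)
  have hz : ∀ l ∈ P, (∀ w ∈ W, (1 - ∑ u ∈ S.filter (fun u => w ∈ B u), (a u)⁻¹) * (g w l) ^ 2 = 0) ∧
      (∀ u ∈ S, ∀ w ∈ B u, (a u)⁻¹ * ((g w l) ^ 2 - (f u l) ^ 2) = 0) ∧
      (∀ u ∈ S, (((B u).card : ℝ) * (a u)⁻¹ - 1) * (f u l) ^ 2 = 0) := by
    intro l hl
    have h1 := Finset.sum_nonneg (hn1 l)
    have h2 := Finset.sum_nonneg (hn2 l hl)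
    have h3 := Finset.sum_nonneg (hn3 l)
    have h := hid l hl
    refine ⟨(Finset.sum_eq_zero_iff_of_nonneg (hn1 l)).1 (by linarith), fun u hu => ?_,
      (Finset.sum_eq_zero_iff_of_nonneg (hn3 l)).1 (by linarith)⟩
    exact (Finset.sum_eq_zero_iff_of_nonneg (hn2' l hl u hu)).1
      ((Finset.sum_eq_zero_iff_of_nonneg (hn2 l hl)).1 (by linarith) u hu)
  have hc1 : ∀ w ∈ W, ∑ u ∈ S.filter (fun u => w ∈ B u), (a u)⁻¹ = 1 := by
    intro w hw
    rcases hcw w hw with h | h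
    · exact h
    · exfalso
      obtain ⟨l, hl, hne⟩ := hg w hw
      have := (hz l hl).1 w hw
      rw [h] at this
      simp at this
      exact hne this
  have hpm : ∀ u ∈ S, ∀ w ∈ B u, (∀ l ∈ P, g w l = f u l) ∨ (∀ l ∈ P, g w l = - f u l) := by
    intro u hu w hw
    obtain ⟨k, hk0, hk⟩ := hkg u hu w hw
    obtain ⟨l, hl, h1, -, -⟩ := hf u hu
    have h2 := (hz l hl).2.1 u hu w hw
    have h3 : (g w l) ^ 2 - (f u l) ^ 2 = 0 := by
      rcases mul_eq_zero.1 h2 with h | h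
      · exact absurd h (inv_ne_zero (ne_of_gt (hapos u hu)))
      · exact h
    rw [hk l hl, h1] at h3
    have h4 : ((k : ℝ) - 1) * ((k : ℝ) + 1) = 0 := by nlinarith
    rcases mul_eq_zero.1 h4 with h | h
    · left; intro l' hl'; rw [hk l' hl', show (k : ℝ) = 1 by linarith, one_mul]
    · right; intro l' hl'; rw [hk l' hl', show (k : ℝ) = -1 by linarith]; ring
  have hcard1 : ∀ u ∈ S, ((B u).card : ℝ) = a u := by
    intro u hu
    obtain ⟨l, hl, h1, -, -⟩ := hf u hu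
    have h2 := (hz l hl).2.2 u hu
    rw [h1, one_pow, mul_one] at h2
    have h3 := hapos u hu
    field_simp at h2
    linarith
  have hBeq : ∀ u ∈ S, B u = W.filter (fun w => (∀ l ∈ P, g w l = f u l) ∨ (∀ l ∈ P, g w l = - f u l)) := by
    intro u hu
    ext w
    constructor
    · intro hw
      exact Finset.mem_filter.2 ⟨(Finset.mem_filter.1 hw).1, hpm u hu w hw⟩
    · intro hw
      obtain ⟨hwW, h⟩ := Finset.mem_filter.1 hw
      refine Finset.mem_filter.2 ⟨hwW, ?_⟩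
      rcases h with h | h
      · exact ⟨1, fun l hl => by rw [h l hl, one_mul]⟩
      · exact ⟨-1, fun l hl => by rw [h l hl]; ring⟩
  refine ⟨?_, ?_, ?_⟩
  · intro w hw
    have h1 := hc1 w hw
    have h2 : (S.filter (fun u => w ∈ B u)).Nonempty := by
      rw [Finset.nonempty_iff_ne_empty]
      intro h
      rw [h] at h1
      simp at h1
    obtain ⟨u, hu⟩ := h2
    obtain ⟨huS, hwu⟩ := Finset.mem_filter.1 hu
    exact ⟨u, huS, hpm u huS w hwu⟩
  · intro u hu
    rw [← hAeq u hu, ← hBeq u hu]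
    exact Nat.cast_injective (R := ℝ) (hcard1 u hu).symm
  · have h1 : ∑ w ∈ W, ∑ u ∈ S.filter (fun u => w ∈ B u), (a u)⁻¹ = (W.card : ℝ) := by
      rw [Finset.sum_congr rfl hc1]
      simp
    rw [hswap (fun u _ => (a u)⁻¹)] at h1
    have h2 : ∑ u ∈ S, ∑ w ∈ B u, (a u)⁻¹ = (S.card : ℝ) := by
      have : ∀ u ∈ S, ∑ w ∈ B u, (a u)⁻¹ = 1 := by
        intro u hu
        rw [Finset.sum_const, nsmul_eq_mul, hcard1 u hu]
        exact mul_inv_cancel₀ (ne_of_gt (hapos u hu))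
      rw [Finset.sum_congr rfl this]
      simp
    have h3 : (W.card : ℝ) = S.card := by rw [← h1, ← h2]
    exact_mod_cast h3


/-- the common zero space of the functionals `f v`, `v ∈ U` -/
def VU (f : α → V →ₗ[ℝ] ℝ) (U : Finset α) : Submodule ℝ V where
  carrier := {l | ∀ v ∈ U, f v l = 0}
  add_mem' := fun {x y} hx hy v hv => by rw [map_add, hx v hv, hy v hv, add_zero]
  zero_mem' := fun v _ => map_zero (f v)
  smul_mem' := fun c x hx v hv => by rw [map_smul, hx v hv, smul_zero]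

open Classical in
theorem claimB [FiniteDimensional ℝ V] [Fintype α] [Fintype β] (f : α → V →ₗ[ℝ] ℝ) (g : β → V →ₗ[ℝ] ℝ)
    (hA : ∀ (U : Finset α) (u : α), (∃ l ∈ VU f U, f u l ≠ 0) →
      ∃ l ∈ VU f U, f u l = 1 ∧ (∀ v, ∃ k : ℤ, f v l = k) ∧ (∀ w, ∃ k : ℤ, g w l = k))
    (hsum : ∀ l, ∑ v, (f v l) ^ 2 = ∑ w, (g w l) ^ 2) :
    ∀ (d : ℕ) (U : Finset α), Module.finrank ℝ (VU f U) ≤ d →
      (Finset.univ.filter (fun w => ∃ l ∈ VU f U, g w l ≠ 0)).card ≤
        (Finset.univ.filter (fun v => ∃ l ∈ VU f U, f v l ≠ 0)).card ∧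
      ((Finset.univ.filter (fun v => ∃ l ∈ VU f U, f v l ≠ 0)).card ≤
        (Finset.univ.filter (fun w => ∃ l ∈ VU f U, g w l ≠ 0)).card →
        (∀ w, (∃ l ∈ VU f U, g w l ≠ 0) → ∃ u, (∃ l ∈ VU f U, f u l ≠ 0) ∧
          ((∀ l ∈ VU f U, g w l = f u l) ∨ (∀ l ∈ VU f U, g w l = - f u l))) ∧
        (∀ u, (∃ l ∈ VU f U, f u l ≠ 0) →
          (Finset.univ.filter (fun v => (∀ l ∈ VU f U, f v l = f u l) ∨ (∀ l ∈ VU f U, f v l = - f u l))).card =
          (Finset.univ.filter (fun w => (∀ l ∈ VU f U, g w l = f u l) ∨ (∀ l ∈ VU f U, g w l = - f u l))).card)) := by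
  intro d
  induction d with
  | zero =>
    intro U hU
    have h0 : ∀ l ∈ VU f U, l = 0 := by
      have : VU f U = ⊥ := Submodule.finrank_eq_zero.1 (Nat.le_zero.1 hU)
      intro l hl
      rw [this] at hl
      exact (Submodule.mem_bot ℝ).1 hl
    have hw : ∀ w, ¬ ∃ l ∈ VU f U, g w l ≠ 0 := by
      rintro w ⟨l, hl, h⟩
      rw [h0 l hl] at h
      exact h (map_zero _)
    have hv : ∀ v, ¬ ∃ l ∈ VU f U, f v l ≠ 0 := by
      rintro w ⟨l, hl, h⟩
      rw [h0 l hl] at h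
      exact h (map_zero _)
    refine ⟨?_, fun _ => ⟨fun w h => absurd h (hw w), fun u h => absurd h (hv u)⟩⟩
    rw [Finset.filter_false_of_mem (fun w _ => hw w)]
    simp
  | succ d ih =>
    intro U hU
    set P := VU f U with hP
    set S := Finset.univ.filter (fun v => ∃ l ∈ P, f v l ≠ 0) with hS
    set W := Finset.univ.filter (fun w => ∃ l ∈ P, g w l ≠ 0) with hW
    have hSm : ∀ v, v ∈ S ↔ ∃ l ∈ P, f v l ≠ 0 := fun v => by simp [hS]
    have hWm : ∀ w, w ∈ W ↔ ∃ l ∈ P, g w l ≠ 0 := fun w => by simp [hW]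
    -- the step
    have hstep : ∀ u ∈ S, W.card + (S.filter (fun v => ∃ k : ℝ, ∀ l ∈ P, f v l = k * f u l)).card ≤
        S.card + (W.filter (fun w => ∃ k : ℝ, ∀ l ∈ P, g w l = k * f u l)).card := by
      intro u hu
      have hmem : ∀ l, l ∈ VU f (insert u U) ↔ f u l = 0 ∧ l ∈ P := by
        intro l
        constructor
        · intro h
          exact ⟨h u (Finset.mem_insert_self u U), fun v hv => h v (Finset.mem_insert_of_mem hv)⟩
        · rintro ⟨h1, h2⟩ v hv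
          rcases Finset.mem_insert.1 hv with h | h
          · rw [h]; exact h1
          · exact h2 v h
      obtain ⟨l0, hl0, h1, -, -⟩ := hA U u ((hSm u).1 hu)
      have hlt : VU f (insert u U) < P := by
        refine lt_of_le_of_ne (fun l hl => ((hmem l).1 hl).2) (fun h => ?_)
        have : l0 ∈ VU f (insert u U) := by rw [h]; exact hl0
        have := ((hmem l0).1 this).1
        rw [h1] at this
        exact one_ne_zero this
      have hfr : Module.finrank ℝ (VU f (insert u U)) ≤ d := by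
        have := Submodule.finrank_lt_finrank_of_lt hlt
        omega
      -- parallel iff zero on the smaller space
      have hpar : ∀ φ : V →ₗ[ℝ] ℝ, (∃ k : ℝ, ∀ l ∈ P, φ l = k * f u l) ↔ ¬ ∃ l ∈ VU f (insert u U), φ l ≠ 0 := by
        intro φ
        constructor
        · rintro ⟨k, hk⟩ ⟨l, hl, hne⟩
          obtain ⟨h2, h3⟩ := (hmem l).1 hl
          rw [hk l h3, h2, mul_zero] at hne
          exact hne rfl
        · intro h
          push Not at h
          refine ⟨φ l0, fun l hl => ?_⟩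
          have h2 : l - f u l • l0 ∈ VU f (insert u U) := by
            rw [hmem]
            refine ⟨?_, P.sub_mem hl (P.smul_mem _ hl0)⟩
            rw [map_sub, map_smul, h1, smul_eq_mul, mul_one, sub_self]
          have h3 := h _ h2
          rw [map_sub, map_smul, smul_eq_mul] at h3
          linarith
      have hi := (ih (insert u U) hfr).1
      have e1 : Finset.univ.filter (fun w => ∃ l ∈ VU f (insert u U), g w l ≠ 0) =
          W.filter (fun w => ¬ ∃ k : ℝ, ∀ l ∈ P, g w l = k * f u l) := by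
        ext w
        simp only [Finset.mem_filter, Finset.mem_univ, true_and]
        rw [hpar, not_not, hWm]
        constructor
        · rintro ⟨l, hl, h⟩
          exact ⟨⟨l, ((hmem l).1 hl).2, h⟩, l, hl, h⟩
        · exact fun h => h.2
      have e2 : Finset.univ.filter (fun v => ∃ l ∈ VU f (insert u U), f v l ≠ 0) =
          S.filter (fun v => ¬ ∃ k : ℝ, ∀ l ∈ P, f v l = k * f u l) := by
        ext w
        simp only [Finset.mem_filter, Finset.mem_univ, true_and]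
        rw [hpar, not_not, hSm]
        constructor
        · rintro ⟨l, hl, h⟩
          exact ⟨⟨l, ((hmem l).1 hl).2, h⟩, l, hl, h⟩
        · exact fun h => h.2
      rw [e1, e2] at hi
      have c1 := Finset.card_filter_add_card_filter_not (s := W) (fun w => ∃ k : ℝ, ∀ l ∈ P, g w l = k * f u l)
      have c2 := Finset.card_filter_add_card_filter_not (s := S) (fun v => ∃ k : ℝ, ∀ l ∈ P, f v l = k * f u l)
      omega
    have hcore : S.card ≤ W.card → _ := fun hle => core P S W f g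
      (fun u hu => by
        obtain ⟨l, hl, h1, h2, h3⟩ := hA U u ((hSm u).1 hu)
        exact ⟨l, hl, h1, fun v _ => h2 v, fun w _ => h3 w⟩)
      (fun w hw => (hWm w).1 hw)
      (fun l hl => by
        have h1 : ∑ v ∈ S, (f v l) ^ 2 = ∑ v, (f v l) ^ 2 := by
          refine Finset.sum_subset (Finset.subset_univ S) (fun v _ hv => ?_)
          rw [hSm] at hv
          push Not at hv
          rw [hv l hl]; norm_num
        have h2 : ∑ w ∈ W, (g w l) ^ 2 = ∑ w, (g w l) ^ 2 := by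
          refine Finset.sum_subset (Finset.subset_univ W) (fun w _ hw => ?_)
          rw [hWm] at hw
          push Not at hw
          rw [hw l hl]; norm_num
        rw [h1, h2, hsum l])
      (fun u hu => by
        have := hstep u hu
        omega)
    refine ⟨?_, fun hle => ?_⟩
    · by_contra hcon
      push Not at hcon
      have := (hcore hcon.le).2.2
      omega
    · obtain ⟨h1, h2, -⟩ := hcore hle
      refine ⟨fun w hw => ?_, fun u hu => ?_⟩
      · obtain ⟨u, hu, h⟩ := h1 w ((hWm w).2 hw)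
        exact ⟨u, (hSm u).1 hu, h⟩
      · have h3 := h2 u ((hSm u).2 hu)
        have e1 : Finset.univ.filter (fun v => (∀ l ∈ P, f v l = f u l) ∨ (∀ l ∈ P, f v l = - f u l)) =
            S.filter (fun v => (∀ l ∈ P, f v l = f u l) ∨ (∀ l ∈ P, f v l = - f u l)) := by
          ext v
          simp only [Finset.mem_filter, Finset.mem_univ, true_and]
          refine ⟨fun h => ⟨?_, h⟩, fun h => h.2⟩
          rw [hSm]
          obtain ⟨l, hl, hne⟩ := hu
          refine ⟨l, hl, ?_⟩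
          rcases h with h | h
          · rw [h l hl]; exact hne
          · rw [h l hl]; exact neg_ne_zero.2 hne
        have e2 : Finset.univ.filter (fun w => (∀ l ∈ P, g w l = f u l) ∨ (∀ l ∈ P, g w l = - f u l)) =
            W.filter (fun w => (∀ l ∈ P, g w l = f u l) ∨ (∀ l ∈ P, g w l = - f u l)) := by
          ext v
          simp only [Finset.mem_filter, Finset.mem_univ, true_and]
          refine ⟨fun h => ⟨?_, h⟩, fun h => h.2⟩
          rw [hWm]
          obtain ⟨l, hl, hne⟩ := hu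
          refine ⟨l, hl, ?_⟩
          rcases h with h | h
          · rw [h l hl]; exact hne
          · rw [h l hl]; exact neg_ne_zero.2 hne
        rw [e1, e2]
        exact h3

open Classical in
/-- An integral form which is a sum of squares of a unimodular system of nonzero functionals is not a
sum of more nonzero integral squares, and of as many only in this way. -/
theorem cntB [FiniteDimensional ℝ V] [Fintype α] [Fintype β] (f : α → V →ₗ[ℝ] ℝ) (g : β → V →ₗ[ℝ] ℝ)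
    (hA : ∀ (U : Finset α) (u : α), (∃ l, (∀ v ∈ U, f v l = 0) ∧ f u l ≠ 0) →
      ∃ l, (∀ v ∈ U, f v l = 0) ∧ f u l = 1 ∧ (∀ v, ∃ k : ℤ, f v l = k) ∧ (∀ w, ∃ k : ℤ, g w l = k))
    (hsum : ∀ l, ∑ v, (f v l) ^ 2 = ∑ w, (g w l) ^ 2)
    (hf : ∀ v, f v ≠ 0) (hg : ∀ w, g w ≠ 0) (hcard : Fintype.card α ≤ Fintype.card β) :
    (∀ w, ∃ u, g w = f u ∨ g w = - f u) ∧
    (∀ u, (Finset.univ.filter (fun v => f v = f u ∨ f v = - f u)).card =
      (Finset.univ.filter (fun w => g w = f u ∨ g w = - f u)).card) := by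
  have hbot : ∀ l, l ∈ VU f (∅ : Finset α) := fun l v hv => absurd hv (Finset.notMem_empty v)
  have hne : ∀ φ : V →ₗ[ℝ] ℝ, φ ≠ 0 → ∃ l ∈ VU f (∅ : Finset α), φ l ≠ 0 := by
    intro φ hφ
    by_contra h
    push Not at h
    exact hφ (LinearMap.ext fun l => h l (hbot l))
  have hA' : ∀ (U : Finset α) (u : α), (∃ l ∈ VU f U, f u l ≠ 0) →
      ∃ l ∈ VU f U, f u l = 1 ∧ (∀ v, ∃ k : ℤ, f v l = k) ∧ (∀ w, ∃ k : ℤ, g w l = k) := by
    rintro U u ⟨l, hl, hne⟩
    obtain ⟨l', h1, h2, h3, h4⟩ := hA U u ⟨l, hl, hne⟩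
    exact ⟨l', h1, h2, h3, h4⟩
  have hmain := (claimB f g hA' hsum (Module.finrank ℝ (VU f (∅ : Finset α))) ∅ le_rfl).2
  rw [Finset.filter_true_of_mem (fun v _ => hne (f v) (hf v)),
    Finset.filter_true_of_mem (fun w _ => hne (g w) (hg w)), Finset.card_univ, Finset.card_univ] at hmain
  obtain ⟨h1, h2⟩ := hmain hcard
  have hext : ∀ φ ψ : V →ₗ[ℝ] ℝ, (∀ l ∈ VU f (∅ : Finset α), φ l = ψ l) ↔ φ = ψ := fun φ ψ =>
    ⟨fun h => LinearMap.ext fun l => h l (hbot l), fun h l _ => by rw [h]⟩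
  have hext' : ∀ φ ψ : V →ₗ[ℝ] ℝ, (∀ l ∈ VU f (∅ : Finset α), φ l = - ψ l) ↔ φ = - ψ := fun φ ψ =>
    ⟨fun h => LinearMap.ext fun l => by rw [h l (hbot l)]; rfl, fun h l _ => by rw [h]; rfl⟩
  refine ⟨fun w => ?_, fun u => ?_⟩
  · obtain ⟨u, -, h⟩ := h1 w (hne _ (hg w))
    rw [hext, hext'] at h
    exact ⟨u, h⟩
  · have h3 := h2 u (hne _ (hf u))
    simp only [hext, hext'] at h3
    exact h3

end ToricSR.CntB

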