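import Pool.Agent.Lib.MP_3d51eb_gt.SR.Spec6

/-!
# MP_3d51eb_gt, project SR: counting (StCnt), by hyperplanes
-/

set_option autoImplicit false

noncomputable section

namespace ToricSR

open Finset MvPolynomial ToricPB

section

variable {V : Type} [AddCommGroup V] [Module ℝ V] {n : ℕ}

private lemma CntC_hyp (P : Submodule ℝ V) (φ ψ : V →ₗ[ℝ] ℝ) (hy : ∃ y ∈ P, ψ y ≠ 0)
    (h : ∀ x ∈ P, φ x = 0 → ψ x = 0) :
    P ⊓ LinearMap.ker ψ = P ⊓ LinearMap.ker φ := by
  obtain ⟨y, hyP, hy0⟩ := hy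
  ext x
  simp only [Submodule.mem_inf, LinearMap.mem_ker]
  refine ⟨fun hx => ⟨hx.1, ?_⟩, fun hx => ⟨hx.1, h x hx.1 hx.2⟩⟩
  have h1 := h (φ y • x - φ x • y) (P.sub_mem (P.smul_mem _ hx.1) (P.smul_mem _ hyP)) (by
    rw [map_sub, map_smul, map_smul, smul_eq_mul, smul_eq_mul]; ring)
  rw [map_sub, map_smul, map_smul, smul_eq_mul, smul_eq_mul, hx.2, mul_zero, zero_sub,
    neg_eq_zero] at h1
  exact (mul_eq_zero.1 h1).resolve_right hy0

private lemma CntC_prop (φ ψ : V →ₗ[ℝ] ℝ) (hφ : φ ≠ 0)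
    (h : ∀ x, φ x = 0 → ψ x = 0) : ∃ c : ℝ, ψ = c • φ := by
  obtain ⟨y, hy⟩ : ∃ y, φ y ≠ 0 := by
    by_contra hn
    push Not at hn
    exact hφ (LinearMap.ext hn)
  refine ⟨ψ y / φ y, LinearMap.ext (fun x => ?_)⟩
  have h1 := h (φ y • x - φ x • y) (by
    rw [map_sub, map_smul, map_smul, smul_eq_mul, smul_eq_mul]; ring)
  rw [map_sub, map_smul, map_smul, smul_eq_mul, smul_eq_mul] at h1
  rw [LinearMap.smul_apply, smul_eq_mul]
  field_simp
  linarith

open Classical in
private def CntC_A (P : Submodule ℝ V) (S : Finset (Vec n)) (f : Vec n → V →ₗ[ℝ] ℝ) :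
    Finset (Vec n) := S.filter (fun v => ∃ x ∈ P, f v x ≠ 0)

private def CntC_k (P : Submodule ℝ V) (f : Vec n → V →ₗ[ℝ] ℝ) (v : Vec n) : Submodule ℝ V :=
  P ⊓ LinearMap.ker (f v)

open Classical in
private lemma CntC_memA {P : Submodule ℝ V} {S : Finset (Vec n)} {f : Vec n → V →ₗ[ℝ] ℝ}
    {v : Vec n} : v ∈ CntC_A P S f ↔ v ∈ S ∧ ∃ x ∈ P, f v x ≠ 0 := by
  unfold CntC_A
  exact Finset.mem_filter

open Classical in
/-- passing to the hyperplane of `φ` -/
private lemma CntC_step (P : Submodule ℝ V) (S' : Finset (Vec n)) (g : Vec n → V →ₗ[ℝ] ℝ)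
    (φ : V →ₗ[ℝ] ℝ) :
    CntC_A (P ⊓ LinearMap.ker φ) S' g =
      (CntC_A P S' g).filter (fun w => ¬ (CntC_k P g w = P ⊓ LinearMap.ker φ)) := by
  ext w
  rw [Finset.mem_filter, CntC_memA, CntC_memA]
  constructor
  · rintro ⟨hw, x, hx, hx0⟩
    refine ⟨⟨hw, x, hx.1, hx0⟩, fun he => hx0 ?_⟩
    have h1 : x ∈ CntC_k P g w := by rw [he]; exact hx
    exact LinearMap.mem_ker.1 h1.2
  · rintro ⟨⟨hw, hy⟩, hne⟩
    refine ⟨hw, ?_⟩
    by_contra hn
    push Not at hn
    exact hne (CntC_hyp P φ (g w) hy (fun x hx h0 => hn x ⟨hx, LinearMap.mem_ker.2 h0⟩))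

/-- a functional that does not vanish on the span does not vanish on the set -/
private lemma CntC_span (D : Set V) (x : V) (hx : x ∈ Submodule.span ℝ D) (φ : V →ₗ[ℝ] ℝ)
    (h0 : φ x ≠ 0) : ∃ c ∈ D, φ c ≠ 0 := by
  by_contra hn
  push Not at hn
  have h1 : Submodule.span ℝ D ≤ LinearMap.ker φ :=
    Submodule.span_le.2 (fun c hc => LinearMap.mem_ker.2 (hn c hc))
  exact h0 (LinearMap.mem_ker.1 (h1 hx))

open Classical in
private lemma CntC_main (S S' : Finset (Vec n)) (f g : Vec n → V →ₗ[ℝ] ℝ) (C : Set V)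
    (hsp : ∀ x : V, x ∈ Submodule.span ℝ {c ∈ C | ∀ v ∈ S, f v x = 0 → f v c = 0})
    (hC : ∀ c ∈ C, (S'.filter (fun w => g w c ≠ 0)).card ≤
      (S.filter (fun v => f v c ≠ 0)).card) (N : ℕ) :
    ∀ P : Submodule ℝ V, (∀ x ∈ P, ∀ c ∈ C, (∀ v ∈ S, f v x = 0 → f v c = 0) → c ∈ P) →
      (CntC_A P S f).card ≤ N →
      (CntC_A P S' g).card ≤ (CntC_A P S f).card ∧
      ((CntC_A P S f).card ≤ (CntC_A P S' g).card →
        (∀ w ∈ CntC_A P S' g, ∃ u ∈ CntC_A P S f, CntC_k P f u = CntC_k P g w) ∧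
        ∀ u ∈ CntC_A P S f,
          ((CntC_A P S f).filter (fun v => CntC_k P f v = CntC_k P f u)).card =
          ((CntC_A P S' g).filter (fun w => CntC_k P g w = CntC_k P f u)).card) := by
  induction N with
  | zero =>
    intro P hP h0
    have hS : CntC_A P S f = ∅ := Finset.card_eq_zero.1 (Nat.le_zero.1 h0)
    have hW : CntC_A P S' g = ∅ := by
      rw [Finset.eq_empty_iff_forall_notMem]
      intro w hw
      obtain ⟨hwS, x, hx, hx0⟩ := CntC_memA.1 hw
      obtain ⟨c, ⟨hcC, hcv⟩, hc0⟩ := CntC_span _ x (hsp x) (g w) hx0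
      have hcP : c ∈ P := hP x hx c hcC hcv
      have h1 := hC c hcC
      have h2 : S.filter (fun v => f v c ≠ 0) = ∅ := by
        rw [Finset.eq_empty_iff_forall_notMem]
        intro v hv
        obtain ⟨hvS, hv0⟩ := Finset.mem_filter.1 hv
        have h3 : v ∈ CntC_A P S f := CntC_memA.2 ⟨hvS, c, hcP, hv0⟩
        rw [hS] at h3
        exact absurd h3 (Finset.notMem_empty v)
      rw [h2, Finset.card_empty, Nat.le_zero, Finset.card_eq_zero] at h1
      have h3 : w ∈ S'.filter (fun w => g w c ≠ 0) := Finset.mem_filter.2 ⟨hwS, hc0⟩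
      rw [h1] at h3
      exact absurd h3 (Finset.notMem_empty w)
    rw [hS, hW]
    exact ⟨le_refl _, fun _ => ⟨fun w hw => absurd hw (Finset.notMem_empty w),
      fun u hu => absurd hu (Finset.notMem_empty u)⟩⟩
  | succ N ih =>
    intro P hP hN
    -- the key implication
    have key : (CntC_A P S f).card ≤ (CntC_A P S' g).card →
        (∀ w ∈ CntC_A P S' g, ∃ u ∈ CntC_A P S f, CntC_k P f u = CntC_k P g w) ∧
        ∀ u ∈ CntC_A P S f,
          ((CntC_A P S f).filter (fun v => CntC_k P f v = CntC_k P f u)).card =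
          ((CntC_A P S' g).filter (fun w => CntC_k P g w = CntC_k P f u)).card := by
      intro hle
      -- `α ≤ β` on the image
      have hab : ∀ u ∈ CntC_A P S f,
          ((CntC_A P S f).filter (fun v => CntC_k P f v = CntC_k P f u)).card ≤
          ((CntC_A P S' g).filter (fun w => CntC_k P g w = CntC_k P f u)).card := by
        intro u hu
        have huS : u ∈ S := (CntC_memA.1 hu).1
        have e1 := CntC_step P S f (f u)
        have e2 := CntC_step P S' g (f u)
        have c1 := Finset.card_filter_add_card_filter_not (s := CntC_A P S f)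
          (fun v => CntC_k P f v = CntC_k P f u)
        have c2 := Finset.card_filter_add_card_filter_not (s := CntC_A P S' g)
          (fun w => CntC_k P g w = CntC_k P f u)
        have e1' : (CntC_A (P ⊓ LinearMap.ker (f u)) S f).card =
            ((CntC_A P S f).filter (fun v => ¬ (CntC_k P f v = CntC_k P f u))).card := by
          rw [e1]; rfl
        have e2' : (CntC_A (P ⊓ LinearMap.ker (f u)) S' g).card =
            ((CntC_A P S' g).filter (fun w => ¬ (CntC_k P g w = CntC_k P f u))).card := by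
          rw [e2]; rfl
        have hpos : 0 < ((CntC_A P S f).filter (fun v => CntC_k P f v = CntC_k P f u)).card :=
          Finset.card_pos.2 ⟨u, Finset.mem_filter.2 ⟨hu, rfl⟩⟩
        have h3 := (ih (P ⊓ LinearMap.ker (f u)) (fun x hx c hcC hcv =>
          ⟨hP x hx.1 c hcC hcv, LinearMap.mem_ker.2 (hcv u huS (LinearMap.mem_ker.1 hx.2))⟩)
          (by omega)).1
        omega
      -- for one element of `C`
      have hc1 : ∀ c ∈ C, c ∈ P →
          (∀ w ∈ CntC_A P S' g, g w c ≠ 0 → ∃ u ∈ CntC_A P S f, CntC_k P f u = CntC_k P g w) ∧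
          ∀ u ∈ CntC_A P S f, f u c ≠ 0 →
            ((CntC_A P S f).filter (fun v => CntC_k P f v = CntC_k P f u)).card =
            ((CntC_A P S' g).filter (fun w => CntC_k P g w = CntC_k P f u)).card := by
        intro c hcC hcP
        set T := S.filter (fun v => f v c ≠ 0) with hT
        set T' := S'.filter (fun w => g w c ≠ 0) with hT'
        have hTT : T'.card ≤ T.card := hC c hcC
        have hTA : ∀ v ∈ T, v ∈ CntC_A P S f := fun v hv =>
          CntC_memA.2 ⟨(Finset.mem_filter.1 hv).1, c, hcP, (Finset.mem_filter.1 hv).2⟩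
        have hTA' : ∀ w ∈ T', w ∈ CntC_A P S' g := fun w hw =>
          CntC_memA.2 ⟨(Finset.mem_filter.1 hw).1, c, hcP, (Finset.mem_filter.1 hw).2⟩
        have hk : ∀ v ∈ CntC_A P S f, (f v c ≠ 0 ↔ c ∉ CntC_k P f v) := by
          intro v _
          constructor
          · intro h0 hm
            exact h0 (LinearMap.mem_ker.1 hm.2)
          · intro h0 hm
            exact h0 ⟨hcP, LinearMap.mem_ker.2 hm⟩
        have hk' : ∀ w ∈ CntC_A P S' g, (g w c ≠ 0 ↔ c ∉ CntC_k P g w) := by
          intro v _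
          constructor
          · intro h0 hm
            exact h0 (LinearMap.mem_ker.1 hm.2)
          · intro h0 hm
            exact h0 ⟨hcP, LinearMap.mem_ker.2 hm⟩
        set I := T.image (CntC_k P f) with hI
        have hIc : ∀ Q ∈ I, c ∉ Q := by
          intro Q hQ
          obtain ⟨v, hv, rfl⟩ := Finset.mem_image.1 hQ
          exact (hk v (hTA v hv)).1 (Finset.mem_filter.1 hv).2
        have s1 : T.card = ∑ Q ∈ I,
            ((CntC_A P S f).filter (fun v => CntC_k P f v = Q)).card := by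
          rw [Finset.card_eq_sum_card_fiberwise (f := CntC_k P f) (t := I)
            (fun v hv => Finset.mem_coe.2 (Finset.mem_image_of_mem _ hv))]
          refine Finset.sum_congr rfl (fun Q hQ => ?_)
          congr 1
          ext v
          constructor
          · intro h
            obtain ⟨hv, he⟩ := Finset.mem_filter.1 h
            exact Finset.mem_filter.2 ⟨hTA v hv, he⟩
          · intro h
            obtain ⟨hv, he⟩ := Finset.mem_filter.1 h
            refine Finset.mem_filter.2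
              ⟨Finset.mem_filter.2 ⟨(CntC_memA.1 hv).1, (hk v hv).2 ?_⟩, he⟩
            rw [he]
            exact hIc Q hQ
        have s2 : (T'.filter (fun w => CntC_k P g w ∈ I)).card = ∑ Q ∈ I,
            ((CntC_A P S' g).filter (fun w => CntC_k P g w = Q)).card := by
          rw [Finset.card_eq_sum_card_fiberwise (f := CntC_k P g) (t := I)
            (fun w hw => Finset.mem_coe.2 (Finset.mem_filter.1 hw).2)]
          refine Finset.sum_congr rfl (fun Q hQ => ?_)
          congr 1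
          ext w
          constructor
          · intro h
            obtain ⟨h1, he⟩ := Finset.mem_filter.1 h
            exact Finset.mem_filter.2 ⟨hTA' w (Finset.mem_filter.1 h1).1, he⟩
          · intro h
            obtain ⟨hv, he⟩ := Finset.mem_filter.1 h
            refine Finset.mem_filter.2 ⟨Finset.mem_filter.2
              ⟨Finset.mem_filter.2 ⟨(CntC_memA.1 hv).1, (hk' w hv).2 ?_⟩, ?_⟩, he⟩
            · rw [he]
              exact hIc Q hQ
            · rw [he]
              exact hQ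
        have s3 := Finset.card_filter_add_card_filter_not (s := T')
          (fun w => CntC_k P g w ∈ I)
        have s4 : ∀ Q ∈ I, ((CntC_A P S f).filter (fun v => CntC_k P f v = Q)).card ≤
            ((CntC_A P S' g).filter (fun w => CntC_k P g w = Q)).card := by
          intro Q hQ
          obtain ⟨v, hv, rfl⟩ := Finset.mem_image.1 hQ
          exact hab v (hTA v hv)
        have s5 := Finset.sum_le_sum s4
        have s6 : ∑ Q ∈ I, ((CntC_A P S f).filter (fun v => CntC_k P f v = Q)).card =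
            ∑ Q ∈ I, ((CntC_A P S' g).filter (fun w => CntC_k P g w = Q)).card := by
          omega
        have s7 : (T'.filter (fun w => ¬ (CntC_k P g w ∈ I))).card = 0 := by
          omega
        have s8 := (Finset.sum_eq_sum_iff_of_le s4).1 s6
        refine ⟨fun w hw hw0 => ?_, fun u hu hu0 => ?_⟩
        · have hwT : w ∈ T' := Finset.mem_filter.2 ⟨(CntC_memA.1 hw).1, hw0⟩
          have hwI : CntC_k P g w ∈ I := by
            by_contra hn
            have h1 : w ∈ T'.filter (fun w => ¬ (CntC_k P g w ∈ I)) :=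
              Finset.mem_filter.2 ⟨hwT, hn⟩
            rw [Finset.card_eq_zero.1 s7] at h1
            exact absurd h1 (Finset.notMem_empty w)
          obtain ⟨u, hu, he⟩ := Finset.mem_image.1 hwI
          exact ⟨u, hTA u hu, he⟩
        · have huT : u ∈ T := Finset.mem_filter.2 ⟨(CntC_memA.1 hu).1, hu0⟩
          exact s8 _ (Finset.mem_image_of_mem _ huT)
      refine ⟨fun w hw => ?_, fun u hu => ?_⟩
      · obtain ⟨hwS, x, hx, hx0⟩ := CntC_memA.1 hw
        obtain ⟨c, ⟨hcC, hcv⟩, hc0⟩ := CntC_span _ x (hsp x) (g w) hx0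
        exact (hc1 c hcC (hP x hx c hcC hcv)).1 w hw hc0
      · obtain ⟨huS, x, hx, hx0⟩ := CntC_memA.1 hu
        obtain ⟨c, ⟨hcC, hcv⟩, hc0⟩ := CntC_span _ x (hsp x) (f u) hx0
        exact (hc1 c hcC (hP x hx c hcC hcv)).2 u hu hc0
    refine ⟨?_, key⟩
    by_contra hlt
    push Not at hlt
    obtain ⟨k1, k2⟩ := key hlt.le
    have t1 : (CntC_A P S f).card = ∑ Q ∈ (CntC_A P S f).image (CntC_k P f),
        ((CntC_A P S f).filter (fun v => CntC_k P f v = Q)).card :=
      Finset.card_eq_sum_card_fiberwise (f := CntC_k P f)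
        (t := (CntC_A P S f).image (CntC_k P f))
        (fun v hv => Finset.mem_coe.2 (Finset.mem_image_of_mem _ hv))
    have t2 : (CntC_A P S' g).card = ∑ Q ∈ (CntC_A P S f).image (CntC_k P f),
        ((CntC_A P S' g).filter (fun w => CntC_k P g w = Q)).card :=
      Finset.card_eq_sum_card_fiberwise (f := CntC_k P g)
        (t := (CntC_A P S f).image (CntC_k P f))
        (fun w hw => by
          obtain ⟨u, hu, he⟩ := k1 w hw
          exact Finset.mem_coe.2 (Finset.mem_image.2 ⟨u, hu, he⟩))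
    have t3 : ∑ Q ∈ (CntC_A P S f).image (CntC_k P f),
        ((CntC_A P S f).filter (fun v => CntC_k P f v = Q)).card =
        ∑ Q ∈ (CntC_A P S f).image (CntC_k P f),
        ((CntC_A P S' g).filter (fun w => CntC_k P g w = Q)).card := by
      refine Finset.sum_congr rfl (fun Q hQ => ?_)
      obtain ⟨u, hu, rfl⟩ := Finset.mem_image.1 hQ
      exact k2 u hu
    omega

private lemma CntC_ex {φ : V →ₗ[ℝ] ℝ} (h : φ ≠ 0) : ∃ x ∈ (⊤ : Submodule ℝ V), φ x ≠ 0 := by
  by_contra hn
  push Not at hn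
  exact h (LinearMap.ext (fun x => hn x Submodule.mem_top))

private lemma CntC_iff (φ ψ : V →ₗ[ℝ] ℝ) (hφ : φ ≠ 0) (hψ : ψ ≠ 0) :
    ((⊤ : Submodule ℝ V) ⊓ LinearMap.ker ψ = ⊤ ⊓ LinearMap.ker φ) ↔ ∃ c : ℝ, ψ = c • φ := by
  constructor
  · intro h
    refine CntC_prop φ ψ hφ (fun x hx => ?_)
    have h1 : x ∈ (⊤ : Submodule ℝ V) ⊓ LinearMap.ker ψ := by
      rw [h]
      exact ⟨Submodule.mem_top, LinearMap.mem_ker.2 hx⟩
    exact LinearMap.mem_ker.1 h1.2
  · rintro ⟨c, hc⟩
    refine CntC_hyp ⊤ φ ψ (CntC_ex hψ) (fun x _ hx => ?_)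
    rw [hc, LinearMap.smul_apply, hx, smul_zero]

end

open Classical in
theorem tCntC : StCnt := by
  intro V _ _ n S S' f g C _ hsp hC hf hg hcard
  have hSA : CntC_A (⊤ : Submodule ℝ V) S f = S := by
    ext v
    rw [CntC_memA]
    exact ⟨fun h => h.1, fun h => ⟨h, CntC_ex (hf v h)⟩⟩
  have hWA : CntC_A (⊤ : Submodule ℝ V) S' g = S' := by
    ext v
    rw [CntC_memA]
    exact ⟨fun h => h.1, fun h => ⟨h, CntC_ex (hg v h)⟩⟩
  obtain ⟨k1, k2⟩ := (CntC_main S S' f g C hsp hC S.card ⊤
    (fun x _ c _ _ => Submodule.mem_top) (by rw [hSA])).2 (by rw [hSA, hWA, hcard])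
  rw [hWA, hSA] at k1
  rw [hWA, hSA] at k2
  refine ⟨fun w hw => ?_, fun u hu => ?_⟩
  · obtain ⟨u, hu, he⟩ := k1 w hw
    exact ⟨u, hu, (CntC_iff (f u) (g w) (hf u hu) (hg w hw)).1 he.symm⟩
  · have h := k2 u hu
    have e1 : S.filter (fun v => CntC_k (⊤ : Submodule ℝ V) f v = CntC_k ⊤ f u) =
        S.filter (fun v => ∃ c : ℝ, f v = c • f u) :=
      Finset.filter_congr (fun v hv => CntC_iff (f u) (f v) (hf u hu) (hf v hv))
    have e2 : S'.filter (fun w => CntC_k (⊤ : Submodule ℝ V) g w = CntC_k ⊤ f u) =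
        S'.filter (fun w => ∃ c : ℝ, g w = c • f u) :=
      Finset.filter_congr (fun w hw => CntC_iff (f u) (g w) (hf u hu) (hg w hw))
    rw [← e1, ← e2]
    exact h

end ToricSR
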