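import Pool.Agent.Lib.MP_3d51eb_gt.SR.Defs

set_option autoImplicit false

/-!
# MP_3d51eb_gt, project SR: the stable range

`D = nc K` is the number of different classes of invariant divisors, `b_2 = (verts K).card - n`.
-/

noncomputable section

namespace ToricSR

open Finset MvPolynomial ToricPB

/-- stable range: every set of at most `2 (D - b_2 + 2)` rays is a cone -/
def Stab {n : ℕ} (K : Finset (Finset (Vec n))) : Prop :=
  ∀ s ⊆ verts K, s.card ≤ 2 * (nc K + n + 2 - (verts K).card) → s ∈ K

end ToricSR
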