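import Pool.Agent.Lib.MP_3d51eb_gt.SR.Defs

set_option autoImplicit false

/-!
# MP_3d51eb_gt, project SR: the simplicial J-construction
-/

noncomputable section

namespace ToricSR

open Finset MvPolynomial ToricPB

/-- `L` is combinatorially `K(J)` (Bahri, Bendersky, Cohen, Gitler): `ρ` maps the rays of `L` to the
rays of `K`, over the ray `v` there are `J v` rays, and a set `s` of rays of `L` is a cone iff the
rays of `K` all of whose copies lie in `s` form a cone of `K`. -/
def IsJ {n m : ℕ} (K : Finset (Finset (Vec n))) (L : Finset (Finset (Vec m)))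
    (ρ : Vec m → Vec n) (J : Vec n → ℕ) : Prop :=
  (∀ x ∈ verts L, ρ x ∈ verts K) ∧
  (∀ v ∈ verts K, ((verts L).filter (fun x => ρ x = v)).card = J v) ∧
  ∀ s ⊆ verts L, s ∈ L ↔ (verts K).filter (fun v => ∀ x ∈ verts L, ρ x = v → x ∈ s) ∈ K

end ToricSR
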