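import Pool.Agent.Lib.MP_3d51eb_gt.SR.Spec

/-!
# project SR, module Gn: generic relations
-/

set_option autoImplicit false

noncomputable section

namespace ToricSR

open Finset MvPolynomial ToricPB

variable {n : ℕ}

/-- the kernel of `ev K ψ` on the relations -/
private def Gn_ker (K : Finset (Finset (Vec n))) (ψ : Vec n → ℤ) : Submodule ℝ (VK K) where
  carrier := {l | ev K ψ (l : Vec n → ℝ) = 0}
  add_mem' := by
    intro a b ha hb
    have ha' : ev K ψ (a : Vec n → ℝ) = 0 := ha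
    have hb' : ev K ψ (b : Vec n → ℝ) = 0 := hb
    show ev K ψ ((a + b : VK K) : Vec n → ℝ) = 0
    simp only [ev] at ha' hb' ⊢
    simp only [Submodule.coe_add, Pi.add_apply, mul_add, Finset.sum_add_distrib, ha', hb', add_zero]
  zero_mem' := by
    show ev K ψ ((0 : VK K) : Vec n → ℝ) = 0
    simp [ev]
  smul_mem' := by
    intro c a ha
    have ha' : ev K ψ (a : Vec n → ℝ) = 0 := ha
    show ev K ψ ((c • a : VK K) : Vec n → ℝ) = 0
    simp only [ev] at ha' ⊢
    have h2 : ∑ v ∈ verts K, (ψ v : ℝ) * ((c • a : VK K) : Vec n → ℝ) v =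
        c * ∑ v ∈ verts K, (ψ v : ℝ) * (a : Vec n → ℝ) v := by
      rw [Finset.mul_sum]
      refine Finset.sum_congr rfl (fun v _ => ?_)
      simp only [Submodule.coe_smul, Pi.smul_apply, smul_eq_mul]
      ring
    rw [h2, ha', mul_zero]

private lemma Gn_mem {K : Finset (Finset (Vec n))} {ψ : Vec n → ℤ} {l : VK K} :
    l ∈ Gn_ker K ψ ↔ ev K ψ (l : Vec n → ℝ) = 0 := Iff.rfl

private lemma Gn_ne (h1 : StPerp) {K : Finset (Finset (Vec n))} (hK : IsFan K) {ψ : Vec n → ℤ}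
    (hψ : cl K ψ ≠ 0) : Gn_ker K ψ ≠ ⊤ := by
  intro h
  apply hψ
  obtain ⟨u, hu⟩ := h1 n K hK ψ (fun l hl => by
    have h2 : (⟨l, hl⟩ : VK K) ∈ Gn_ker K ψ := by rw [h]; exact Submodule.mem_top
    exact Gn_mem.1 h2)
  rw [cl_congr hu]
  exact cl_pr u

theorem tGn (h1 : StPerp) : StGn := by
  classical
  intro n K hK S hS
  have h2 : (⊤ : Submodule ℝ (VK K)) ∉ S.image (Gn_ker K) := by
    intro h
    obtain ⟨ψ, hψ, hψ'⟩ := Finset.mem_image.1 h
    exact Gn_ne h1 hK (hS ψ hψ) hψ'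
  have h3 := Subspace.biUnion_ne_univ_of_top_notMem h2
  obtain ⟨w, hw⟩ := (Set.ne_univ_iff_exists_notMem _).1 h3
  refine ⟨(w : Vec n → ℝ), w.2, fun ψ hψ h0 => hw ?_⟩
  exact Set.mem_biUnion (Finset.mem_coe.2 (Finset.mem_image_of_mem (Gn_ker K) hψ)) h0

end ToricSR
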