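import Pool.Agent.Lib.MP_3d51eb_gt.SR.Spec

/-!
# project SR: homomorphisms from the cohomology ring to truncated polynomials
-/

set_option autoImplicit false

noncomputable section

namespace ToricSR

open Finset MvPolynomial ToricPB

private lemma Hom_prod {n : ℕ} {K : Finset (Finset (Vec n))} {N : ℕ} (hN : Nb K N)
    {l : Vec n → ℝ} (hl : l ∈ VK K) (s : Finset (Vec n)) (hs : s ∉ K) :
    ∏ v ∈ s, lt N (l v) = 0 := by
  by_cases h : s ⊆ verts K
  · have hc : N ≤ s.card := by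
      by_contra h'
      exact hs (hN s h (by omega))
    have e : ∏ v ∈ s, lt N (l v) =
        Ideal.Quotient.mk (Ideal.span {(Polynomial.X : Polynomial ℝ) ^ N})
          (∏ v ∈ s, (Polynomial.C (l v) * Polynomial.X)) := (map_prod _ _ _).symm
    rw [e, Finset.prod_mul_distrib, Finset.prod_const, Ideal.Quotient.eq_zero_iff_mem]
    exact Ideal.mul_mem_left _ _ (Ideal.mem_span_singleton.2 (pow_dvd_pow _ hc))
  · obtain ⟨v, hv, hv'⟩ := Finset.not_subset.1 h
    exact Finset.prod_eq_zero hv (by rw [VK_out hl hv', lt_zero])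

private lemma Hom_lin {n : ℕ} {K : Finset (Finset (Vec n))} (N : ℕ)
    {l : Vec n → ℝ} (hl : l ∈ VK K) (u : Vec n) :
    ∑ v ∈ verts K, pr u v • lt N (l v) = 0 := by
  have e : ∑ v ∈ verts K, pr u v • lt N (l v) = lt N (ev K (pr u) l) := by
    rw [ev, lt_sum]
    exact Finset.sum_congr rfl (fun v _ => (lt_zsmul N (pr u v) (l v)).symm)
  rw [e, ev_pr u hl, lt_zero]

theorem tHom : StHom := by
  intro n K N hN l hl
  obtain ⟨Ψ, hΨ⟩ := coh_lift (K := K) (fun v => lt N (l v)) (Hom_prod hN hl) (Hom_lin N hl)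
  refine ⟨Ψ, hΨ, fun ψ => ?_⟩
  rw [cl, map_sum, ev, lt_sum]
  refine Finset.sum_congr rfl (fun v _ => ?_)
  rw [map_zsmul, hΨ, lt_zsmul]

end ToricSR
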