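import Pool.Agent.Lib.MP_3d51eb_gt.SR.Spec

/-!
# MP_3d51eb_gt, project SR, module Mb: a bijection from equal multisets of values
-/

set_option autoImplicit false

noncomputable section

namespace ToricSR

open Finset MvPolynomial ToricPB

private theorem Mb_gen {α : Type} [DecidableEq α] (a b : α → ℝ) (S : Finset α) :
    ∀ S' : Finset α, S.val.map a = S'.val.map b →
      ∃ u : α → α, Set.BijOn u S S' ∧ ∀ v ∈ S, a v = b (u v) := by
  induction S using Finset.induction_on with
  | empty =>
    intro S' h
    have h1 : S' = ∅ := by
      have h2 : S'.val.map b = 0 := by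
        rw [← h]
        rfl
      exact Finset.val_eq_zero.1 (Multiset.map_eq_zero.1 h2)
    subst h1
    refine ⟨id, ?_, fun v hv => absurd hv (Finset.notMem_empty v)⟩
    rw [Finset.coe_empty]
    exact Set.bijOn_empty id
  | insert x S hx ih =>
    intro S' h
    have hmem : a x ∈ S'.val.map b := by
      rw [← h, Finset.insert_val_of_notMem hx, Multiset.map_cons]
      exact Multiset.mem_cons_self _ _
    obtain ⟨y, hy, hyx⟩ := Multiset.mem_map.1 hmem
    have hy' : y ∈ S' := hy
    have h2 : S.val.map a = (S'.erase y).val.map b := by
      have h3 : (insert y (S'.erase y)).val.map b = b y ::ₘ (S'.erase y).val.map b := by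
        rw [Finset.insert_val_of_notMem (Finset.notMem_erase y S'), Multiset.map_cons]
      rw [Finset.insert_erase hy', ← h, Finset.insert_val_of_notMem hx, Multiset.map_cons,
        hyx] at h3
      exact (Multiset.cons_inj_right _).1 h3
    obtain ⟨u, hu, hua⟩ := ih _ h2
    have hux : ∀ v ∈ S, Function.update u x y v = u v := fun v hv =>
      Function.update_of_ne (by rintro rfl; exact hx hv) _ _
    have hbij : Set.BijOn (Function.update u x y) (S : Set α) ((S'.erase y : Finset α) : Set α) :=
      hu.congr (fun v hv => (hux v hv).symm)
    have hnot : Function.update u x y x ∉ ((S'.erase y : Finset α) : Set α) := by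
      rw [Function.update_self, Finset.mem_coe]
      exact Finset.notMem_erase y S'
    have h4 := hbij.insert hnot
    rw [Function.update_self, ← Finset.coe_insert, ← Finset.coe_insert,
      Finset.insert_erase hy'] at h4
    refine ⟨Function.update u x y, h4, fun v hv => ?_⟩
    rcases Finset.mem_insert.1 hv with rfl | hv
    · rw [Function.update_self, hyx]
    · rw [hux v hv]
      exact hua v hv

theorem tMb : StMb := by
  classical
  intro n S S' a b h
  exact Mb_gen a b S S' h

end ToricSR
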