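import Pool.Agent.Lib.MP_3d51eb_gt.SR.Spec

/-!
# project SR: multisets with the same moments (proof of `StMm`)
-/

set_option autoImplicit false

noncomputable section

namespace ToricSR

open Finset MvPolynomial ToricPB

private lemma Mm_sum (s : Finset ℕ) (c : ℕ → ℝ) (A : Multiset ℝ) :
    (A.map (fun x => ∑ i ∈ s, c i * x ^ i)).sum = ∑ i ∈ s, c i * (A.map (fun x => x ^ i)).sum := by
  induction A using Multiset.induction_on with
  | empty => simp
  | cons a A ih =>
    rw [Multiset.map_cons, Multiset.sum_cons, ih, ← Finset.sum_add_distrib]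
    refine Finset.sum_congr rfl (fun i _ => ?_)
    rw [Multiset.map_cons, Multiset.sum_cons, mul_add]

private lemma Mm_eval (A B : Multiset ℝ) (M : ℕ) (hc : A.card = B.card)
    (h : ∀ j, 1 ≤ j → j ≤ M → (A.map (fun x => x ^ j)).sum = (B.map (fun x => x ^ j)).sum)
    (P : Polynomial ℝ) (hP : P.natDegree ≤ M) :
    (A.map (fun x => P.eval x)).sum = (B.map (fun x => P.eval x)).sum := by
  have e : ∀ x : ℝ, P.eval x = ∑ i ∈ Finset.range (M + 1), P.coeff i * x ^ i := fun x =>
    Polynomial.eval_eq_sum_range' (Nat.lt_succ_of_le hP) x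
  have e2 : (fun x : ℝ => P.eval x) = fun x => ∑ i ∈ Finset.range (M + 1), P.coeff i * x ^ i :=
    funext e
  rw [e2, Mm_sum, Mm_sum]
  refine Finset.sum_congr rfl (fun i hi => ?_)
  rw [Finset.mem_range] at hi
  rcases Nat.eq_zero_or_pos i with h0 | h0
  · subst h0
    simp [hc]
  · rw [h i h0 (by omega)]

private lemma Mm_count (c : ℝ) (g : ℝ → ℝ) (A : Multiset ℝ) (h : ∀ x ∈ A, x ≠ c → g x = 0) :
    (A.map g).sum = A.count c * g c := by
  induction A using Multiset.induction_on with
  | empty => simp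
  | cons a A ih =>
    rw [Multiset.map_cons, Multiset.sum_cons, ih (fun x hx => h x (Multiset.mem_cons_of_mem hx)),
      Multiset.count_cons]
    by_cases hca : c = a
    · subst hca
      rw [if_pos rfl]
      push_cast
      ring
    · rw [if_neg hca, h a (Multiset.mem_cons_self a A) (fun e => hca e.symm), zero_add, add_zero]

private lemma Mm_root (S : Finset ℝ) (x : ℝ) :
    (∏ c ∈ S, (Polynomial.X - Polynomial.C c) : Polynomial ℝ).eval x = 0 ↔ x ∈ S := by
  rw [Polynomial.eval_prod, Finset.prod_eq_zero_iff]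
  constructor
  · rintro ⟨c, hc, h⟩
    rw [Polynomial.eval_sub, Polynomial.eval_X, Polynomial.eval_C, sub_eq_zero] at h
    rw [h]
    exact hc
  · intro h
    exact ⟨x, h, by simp⟩

private lemma Mm_deg (S : Finset ℝ) :
    (∏ c ∈ S, (Polynomial.X - Polynomial.C c) : Polynomial ℝ).natDegree = S.card :=
  Polynomial.natDegree_finsetProd_X_sub_C_eq_card S (fun c => c)

theorem tMm : StMm := by
  classical
  intro A B D hD hc h
  have hev := Mm_eval A B (2 * D) hc h
  set q : Polynomial ℝ := ∏ c ∈ A.toFinset, (Polynomial.X - Polynomial.C c) with hq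
  have hqd : (q ^ 2).natDegree ≤ 2 * D := by
    refine Polynomial.natDegree_pow_le.trans ?_
    rw [hq, Mm_deg]
    omega
  have h1 : (A.map (fun x => (q ^ 2).eval x)).sum = 0 := by
    refine Multiset.sum_eq_zero ?_
    intro y hy
    obtain ⟨x, hx, rfl⟩ := Multiset.mem_map.1 hy
    have : q.eval x = 0 := (Mm_root _ x).2 (Multiset.mem_toFinset.2 hx)
    rw [Polynomial.eval_pow, this]
    ring
  have h2 : (B.map (fun x => (q ^ 2).eval x)).sum = 0 := by rw [← hev _ hqd, h1]
  have hBA : ∀ x ∈ B, x ∈ A.toFinset := by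
    intro x hx
    have h3 := Multiset.all_zero_of_le_zero_le_of_sum_eq_zero (by
      intro y hy
      obtain ⟨z, _, rfl⟩ := Multiset.mem_map.1 hy
      rw [Polynomial.eval_pow]
      positivity) h2 _ (Multiset.mem_map_of_mem _ hx)
    have h4 : (q ^ 2).eval x = 0 := h3
    rw [Polynomial.eval_pow] at h4
    exact (Mm_root _ x).1 (pow_eq_zero_iff (two_ne_zero) |>.1 h4)
  refine Multiset.ext.2 (fun c => ?_)
  by_cases hcA : c ∈ A.toFinset
  · set P : Polynomial ℝ := ∏ k ∈ A.toFinset.erase c, (Polynomial.X - Polynomial.C k) with hP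
    have hPd : P.natDegree ≤ 2 * D := by
      rw [hP, Mm_deg]
      have := Finset.card_erase_le (s := A.toFinset) (a := c)
      omega
    have hPc : P.eval c ≠ 0 := by
      intro h5
      have := (Mm_root _ c).1 h5
      exact (Finset.notMem_erase c _) this
    have hz : ∀ x ∈ A.toFinset, x ≠ c → P.eval x = 0 := fun x hx hxc =>
      (Mm_root _ x).2 (Finset.mem_erase.2 ⟨hxc, hx⟩)
    have a1 := Mm_count c (fun x => P.eval x) A (fun x hx => hz x (Multiset.mem_toFinset.2 hx))
    have a2 := Mm_count c (fun x => P.eval x) B (fun x hx => hz x (hBA x hx))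
    have a3 := hev P hPd
    rw [a1, a2] at a3
    exact_mod_cast mul_right_cancel₀ hPc a3
  · have b1 : A.count c = 0 := Multiset.count_eq_zero.2 (fun h6 => hcA (Multiset.mem_toFinset.2 h6))
    have b2 : B.count c = 0 := Multiset.count_eq_zero.2 (fun h6 => hcA (hBA c h6))
    rw [b1, b2]

end ToricSR
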