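import Pool.Agent.Lib.MP_3d51eb_gt.SR.Spec2

/-!
# MP_3d51eb_gt, project SR, module MomC: moments, conclusion
-/

set_option autoImplicit false

noncomputable section

namespace ToricSR

open Finset MvPolynomial ToricPB

open Classical in
theorem tMomC (h1 : StMomA) (h2 : StMomB) (h3 : StMbg) : StMomC := by
  intro V _ _ _ n S S' f g D k hker hF hD hpow hg0 hf0 hpair hgf
  have hE : ∀ w ∈ S', ∃ v ∈ S, g w = f v ∨ g w = -f v := by
    intro w hw
    obtain ⟨v, hv, c, hc⟩ := h1 V n S S' f g D k hker hF hD hpow hg0 w hw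
    exact ⟨v, hv, hgf w hw v hv c hc⟩
  have hB := h2 V n S S' f g D k hker hF hD hpow hf0 hpair hE
  obtain ⟨b, hb⟩ : ∃ b : Vec n → (V →ₗ[ℝ] ℝ), ∀ w ∈ S', ∃ v ∈ S, b w = f v ∧
      (g w = f v ∨ g w = -f v) := by
    refine ⟨fun w => if h : ∃ v ∈ S, g w = f v ∨ g w = -f v then f h.choose else 0, ?_⟩
    intro w hw
    have h := hE w hw
    refine ⟨h.choose, h.choose_spec.1, ?_, h.choose_spec.2⟩
    simp only [dif_pos h]
  have hiff : ∀ v0 ∈ S, ∀ w ∈ S', (g w = f v0 ∨ g w = -f v0) ↔ b w = f v0 := by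
    intro v0 hv0 w hw
    obtain ⟨v, hv, hbv, hgv⟩ := hb w hw
    constructor
    · intro h
      rw [hbv]
      have h5 : f v = f v0 ∨ f v = -f v0 := by
        rcases h with h | h <;> rcases hgv with h' | h'
        · exact Or.inl (h'.symm.trans h)
        · exact Or.inr (by rw [← h, h', neg_neg])
        · exact Or.inr (h'.symm.trans h)
        · exact Or.inl (neg_injective (h'.symm.trans h))
      rcases h5 with h5 | h5
      · exact h5
      · exact hpair v hv v0 hv0 (-1) (h5.trans (neg_one_smul ℝ (f v0)).symm)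
    · intro h
      rw [hbv] at h
      rw [h] at hgv
      exact hgv
  have hfib : ∀ c : V →ₗ[ℝ] ℝ, (S.filter (fun v => f v = c)).card =
      (S'.filter (fun w => b w = c)).card := by
    intro c
    by_cases hc : ∃ v0 ∈ S, f v0 = c
    · obtain ⟨v0, hv0, rfl⟩ := hc
      exact (hB v0 hv0).trans (congrArg Finset.card (Finset.filter_congr (hiff v0 hv0)))
    · rw [Finset.card_eq_zero.2, Finset.card_eq_zero.2]
      · refine Finset.filter_eq_empty_iff.2 fun w hw hwc => hc ?_
        obtain ⟨v, hv, hbv, _⟩ := hb w hw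
        exact ⟨v, hv, hbv.symm.trans hwc⟩
      · exact Finset.filter_eq_empty_iff.2 fun v hv hvc => hc ⟨v, hv, hvc⟩
  obtain ⟨u, hu, hab⟩ := h3 n (V →ₗ[ℝ] ℝ) S S' f b hfib
  refine ⟨u, hu, fun v hv => ?_⟩
  exact (hiff v hv (u v) (hu.mapsTo hv)).2 (hab v hv).symm

end ToricSR
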