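import Pool.Agent.Lib.MP_3d51eb_gt.SR.Spec

/-!
# project SR: Nbt, transfer of the neighbourliness
-/

set_option autoImplicit false

noncomputable section

namespace ToricSR

open Finset MvPolynomial ToricPB

theorem tNbt (h1 : StHom) (h2 : StTrw) (h3 : StGn) (h4 : StNz) : StNbt := by
  classical
  intro n K K' hK hK' φ hφ N hN s' hs' hcard
  by_contra hcon
  -- coordinates of the inverse images of the classes
  have hex : ∀ w : Vec n, ∃ ψ : Vec n → ℤ, φ.symm (cls K' w) = cl K ψ := by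
    intro w
    have hmem : φ.symm (cls K' w) ∈ H2 K := by
      rw [hφ, RingEquiv.apply_symm_apply]
      exact Submodule.subset_span ⟨w, rfl⟩
    obtain ⟨ψ, hψ⟩ := exists_cl hmem
    exact ⟨ψ, hψ⟩
  choose ψ hψ using hex
  have hne : ∀ w ∈ s', cl K (ψ w) ≠ 0 := by
    intro w hw h0
    have h5 : cls K' w = 0 := by
      rw [← φ.apply_symm_apply (cls K' w), hψ, h0, map_zero]
    have h6 := h4 n K' hK' {w} (hK'.single (hs' hw))
    rw [mon_singleton] at h6
    exact h6 h5
  obtain ⟨l, hl, hl'⟩ := h3 n K hK (s'.image ψ) (by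
    intro χ hχ
    obtain ⟨w, hw, rfl⟩ := mem_image.1 hχ
    exact hne w hw)
  obtain ⟨Ψ, _, hΨ⟩ := h1 n K N hN l hl
  have h7 : ∏ w ∈ s', lt N (ev K (ψ w) l) = 0 := by
    calc ∏ w ∈ s', lt N (ev K (ψ w) l) = ∏ w ∈ s', Ψ (φ.symm (cls K' w)) :=
          prod_congr rfl fun w _ => by rw [hψ, hΨ]
      _ = Ψ (φ.symm (mon K' s')) := by rw [mon, map_prod, map_prod]
      _ = 0 := by rw [mon_eq_zero hcon, map_zero, map_zero]
  have h8 := h2 n N s' (fun w => ev K (ψ w) l)
    (fun w hw => hl' _ (mem_image_of_mem ψ hw)) h7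
  omega

end ToricSR
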