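import Mathlib

set_option autoImplicit false

/-!
# MP_3d51eb_gt, project SR: power sums of bounded integers

If the sums of the powers of order `2, 4, …, 4 M` of two finite families of integers agree and the
first family is bounded by `M`, so is the second; if both families are bounded by `B ≤ 2 M`, the sums
of the absolute values agree.
-/

namespace ToricSR

open Finset Polynomial

/-- the sums of the values of a polynomial of low degree without constant term at the squares -/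
private theorem pm_poly {α β : Type} (S : Finset α) (S' : Finset β) (c : α → ℤ) (e : β → ℤ) (M : ℕ)
    (h : ∀ k : ℕ, 1 ≤ k → k ≤ 2 * M →
      ∑ v ∈ S, (c v : ℝ) ^ (2 * k) = ∑ w ∈ S', (e w : ℝ) ^ (2 * k))
    (P : ℝ[X]) (h0 : P.eval 0 = 0) (hd : P.natDegree ≤ 2 * M) :
    ∑ v ∈ S, P.eval ((c v : ℝ) ^ 2) = ∑ w ∈ S', P.eval ((e w : ℝ) ^ 2) := by
  have hc : P.coeff 0 = 0 := by rw [Polynomial.coeff_zero_eq_eval_zero, h0]
  have key : ∀ x : ℝ, P.eval (x ^ 2) = ∑ k ∈ Finset.range (2 * M), P.coeff (k + 1) * x ^ (2 * (k + 1)) := by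
    intro x
    rw [Polynomial.eval_eq_sum_range' (Nat.lt_succ_of_le hd), Finset.sum_range_succ', hc, zero_mul,
      add_zero]
    refine Finset.sum_congr rfl fun k _ => ?_
    rw [← pow_mul]
  simp only [key]
  rw [Finset.sum_comm, Finset.sum_comm (s := S')]
  refine Finset.sum_congr rfl fun k hk => ?_
  rw [← Finset.mul_sum, ← Finset.mul_sum, h (k + 1) (by omega) (by
    have := Finset.mem_range.1 hk
    omega)]

/-- the polynomial with the roots `0, 1, 4, …, M ^ 2` -/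
private noncomputable def pmR (M : ℕ) : ℝ[X] :=
  ∏ j ∈ Finset.range (M + 1), (X - C ((j : ℝ) ^ 2))

private theorem pmR_eval (M : ℕ) (y : ℝ) :
    (pmR M).eval y = ∏ j ∈ Finset.range (M + 1), (y - (j : ℝ) ^ 2) := by
  unfold pmR
  rw [Polynomial.eval_prod]
  simp

private theorem pmR_deg (M : ℕ) : (pmR M).natDegree = M + 1 := by
  unfold pmR
  rw [Polynomial.natDegree_prod_of_monic _ _ (fun j _ => Polynomial.monic_X_sub_C _),
    Finset.sum_congr rfl (fun j _ => Polynomial.natDegree_X_sub_C _), Finset.sum_const,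
    Finset.card_range, smul_eq_mul, mul_one]

private theorem pmR_zero (M : ℕ) (x : ℤ) (hx : |x| ≤ M) : (pmR M).eval ((x : ℝ) ^ 2) = 0 := by
  rw [Int.abs_eq_natAbs] at hx
  rw [pmR_eval]
  refine Finset.prod_eq_zero (i := x.natAbs) (Finset.mem_range.2 (by omega)) ?_
  rw [Nat.cast_natAbs, Int.cast_abs, sq_abs, sub_self]

private theorem pmR_pos (M : ℕ) (x : ℤ) (hx : ¬ |x| ≤ M) : 0 < (pmR M).eval ((x : ℝ) ^ 2) := by
  rw [pmR_eval]
  refine Finset.prod_pos fun j hj => ?_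
  have hj' := Finset.mem_range.1 hj
  have h1 : (j : ℤ) < |x| := by omega
  have h2 : (j : ℝ) < |(x : ℝ)| := by
    rw [← Int.cast_abs]
    exact_mod_cast h1
  have h3 : (j : ℝ) ^ 2 < |(x : ℝ)| ^ 2 := pow_lt_pow_left₀ h2 (Nat.cast_nonneg j) two_ne_zero
  rw [sq_abs] at h3
  linarith

/-- **(a)** boundedness -/
theorem pmA {α β : Type} (S : Finset α) (S' : Finset β) (c : α → ℤ) (e : β → ℤ) (M : ℕ)
    (hM : 1 ≤ M)
    (h : ∀ k : ℕ, 1 ≤ k → k ≤ 2 * M →
      ∑ v ∈ S, (c v : ℝ) ^ (2 * k) = ∑ w ∈ S', (e w : ℝ) ^ (2 * k))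
    (hc : ∀ v ∈ S, |c v| ≤ M) : ∀ w ∈ S', |e w| ≤ M := by
  have h0 : (pmR M).eval 0 = 0 := by
    have := pmR_zero M 0 (by simp)
    simpa using this
  have h1 := pm_poly S S' c e M h (pmR M) h0 (by rw [pmR_deg]; omega)
  rw [Finset.sum_eq_zero (fun v hv => pmR_zero M (c v) (hc v hv))] at h1
  have h2 : ∀ w ∈ S', 0 ≤ (pmR M).eval ((e w : ℝ) ^ 2) := by
    intro w _
    by_cases hw : |e w| ≤ M
    · rw [pmR_zero M _ hw]
    · exact (pmR_pos M _ hw).le
  have h3 := (Finset.sum_eq_zero_iff_of_nonneg h2).1 h1.symm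
  intro w hw
  by_contra hcon
  exact absurd (h3 w hw) (pmR_pos M _ hcon).ne'

/-- interpolation of the absolute value at the squares of the integers up to `B` -/
private theorem pm_interp (B : ℕ) : ∃ P : ℝ[X], P.natDegree ≤ B ∧
    ∀ x : ℤ, |x| ≤ B → P.eval ((x : ℝ) ^ 2) = |(x : ℝ)| := by
  classical
  have hinj : Set.InjOn (fun j : ℕ => (j : ℝ) ^ 2) (Finset.range (B + 1) : Set ℕ) := by
    intro i _ j _ hij
    have h1 : (i : ℝ) = (j : ℝ) :=
      (pow_left_inj₀ (Nat.cast_nonneg i) (Nat.cast_nonneg j) two_ne_zero).1 hij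
    exact_mod_cast h1
  refine ⟨Lagrange.interpolate (Finset.range (B + 1)) (fun j : ℕ => (j : ℝ) ^ 2)
    (fun j : ℕ => (j : ℝ)), ?_, ?_⟩
  · have h1 := Lagrange.degree_interpolate_le (r := fun j : ℕ => (j : ℝ)) hinj
    rw [Finset.card_range] at h1
    refine Polynomial.natDegree_le_of_degree_le ?_
    simpa using h1
  · intro x hx
    rw [Int.abs_eq_natAbs] at hx
    have h2 := Lagrange.eval_interpolate_at_node (r := fun j : ℕ => (j : ℝ)) hinj
      (i := x.natAbs) (Finset.mem_range.2 (by omega))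
    rw [Nat.cast_natAbs, Int.cast_abs, sq_abs] at h2
    exact h2

/-- **(b)** the sums of the absolute values agree -/
theorem pmB {α β : Type} (S : Finset α) (S' : Finset β) (c : α → ℤ) (e : β → ℤ) (M B : ℕ)
    (hB : B ≤ 2 * M)
    (h : ∀ k : ℕ, 1 ≤ k → k ≤ 2 * M →
      ∑ v ∈ S, (c v : ℝ) ^ (2 * k) = ∑ w ∈ S', (e w : ℝ) ^ (2 * k))
    (hc : ∀ v ∈ S, |c v| ≤ B) (he : ∀ w ∈ S', |e w| ≤ B) :
    ∑ v ∈ S, |(c v : ℝ)| = ∑ w ∈ S', |(e w : ℝ)| := by
  obtain ⟨P, hP, hP2⟩ := pm_interp B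
  have h0 : P.eval 0 = 0 := by
    have := hP2 0 (by simp)
    simpa using this
  have h1 := pm_poly S S' c e M h P h0 (hP.trans hB)
  rw [Finset.sum_congr rfl (fun v hv => hP2 (c v) (hc v hv)),
    Finset.sum_congr rfl (fun w hw => hP2 (e w) (he w hw))] at h1
  exact h1

/-- **(c)** signs: if moreover `c' : α → ℤ`, `e'` are as `c`, `e`, the sums `c + c'`, `e + e'` satisfy
the hypothesis on the power sums, `c` and `c'` are bounded by `M` and conformal, then so are `e`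
and `e'`. -/
theorem pmC {α β : Type} (S : Finset α) (S' : Finset β) (c c' : α → ℤ) (e e' : β → ℤ) (M : ℕ)
    (hM : 1 ≤ M)
    (h : ∀ k : ℕ, 1 ≤ k → k ≤ 2 * M →
      ∑ v ∈ S, (c v : ℝ) ^ (2 * k) = ∑ w ∈ S', (e w : ℝ) ^ (2 * k))
    (h' : ∀ k : ℕ, 1 ≤ k → k ≤ 2 * M →
      ∑ v ∈ S, (c' v : ℝ) ^ (2 * k) = ∑ w ∈ S', (e' w : ℝ) ^ (2 * k))
    (hs : ∀ k : ℕ, 1 ≤ k → k ≤ 2 * M →
      ∑ v ∈ S, (((c v + c' v : ℤ)) : ℝ) ^ (2 * k) = ∑ w ∈ S', (((e w + e' w : ℤ)) : ℝ) ^ (2 * k))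
    (hc : ∀ v ∈ S, |c v| ≤ M) (hc' : ∀ v ∈ S, |c' v| ≤ M) (hcc : ∀ v ∈ S, 0 ≤ c v * c' v) :
    ∀ w ∈ S', 0 ≤ e w * e' w := by
  have he := pmA S S' c e M hM h hc
  have he' := pmA S S' c' e' M hM h' hc'
  have b1 := pmB S S' c e M M (by omega) h hc he
  have b2 := pmB S S' c' e' M M (by omega) h' hc' he'
  have b3 := pmB S S' (fun v => c v + c' v) (fun w => e w + e' w) M (2 * M) le_rfl hs
    (fun v hv => by
      have h1 := abs_add_le (c v) (c' v)
      have h2 := hc v hv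
      have h3 := hc' v hv
      push_cast
      linarith)
    (fun w hw => by
      have h1 := abs_add_le (e w) (e' w)
      have h2 := he w hw
      have h3 := he' w hw
      push_cast
      linarith)
  have h4 : ∑ v ∈ S, |((c v + c' v : ℤ) : ℝ)| = ∑ v ∈ S, (|(c v : ℝ)| + |(c' v : ℝ)|) := by
    refine Finset.sum_congr rfl fun v hv => ?_
    have h5 : |c v + c' v| = |c v| + |c' v| := by
      rcases mul_nonneg_iff.1 (hcc v hv) with ⟨p, q⟩ | ⟨p, q⟩
      · rw [abs_of_nonneg p, abs_of_nonneg q, abs_of_nonneg (by omega)]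
      · rw [abs_of_nonpos p, abs_of_nonpos q, abs_of_nonpos (by omega)]
        ring
    rw [← Int.cast_abs, h5, ← Int.cast_abs, ← Int.cast_abs]
    push_cast
    ring
  rw [h4, Finset.sum_add_distrib, b1, b2, ← Finset.sum_add_distrib] at b3
  have h6 : ∀ w ∈ S', 0 ≤ (|(e w : ℝ)| + |(e' w : ℝ)|) - |((e w + e' w : ℤ) : ℝ)| := by
    intro w _
    have := abs_add_le (e w : ℝ) (e' w : ℝ)
    push_cast
    linarith
  have h7 : ∑ w ∈ S', ((|(e w : ℝ)| + |(e' w : ℝ)|) - |((e w + e' w : ℤ) : ℝ)|) = 0 := by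
    rw [Finset.sum_sub_distrib, b3, sub_self]
  have h8 := (Finset.sum_eq_zero_iff_of_nonneg h6).1 h7
  intro w hw
  have h9 := h8 w hw
  have h10 : |((e w + e' w : ℤ) : ℝ)| = |(e w : ℝ)| + |(e' w : ℝ)| := by linarith
  rw [← Int.cast_abs, ← Int.cast_abs, ← Int.cast_abs] at h10
  have h11 : |e w + e' w| = |e w| + |e' w| := by exact_mod_cast h10
  have h12 := abs_add_eq_add_abs_iff (e w) (e' w)
  rcases h12.1 h11 with ⟨p, q⟩ | ⟨p, q⟩
  · exact mul_nonneg p q
  · exact mul_nonneg_of_nonpos_of_nonpos p q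

end ToricSR
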