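import Pool.Agent.Lib.MP_3d51eb_gt.SR.Spec
import Pool.Agent.Lib.MP_3d51eb_gt.PB.All

/-!
# project SR, module Ray

The correspondence of the classes comes, up to signs, from a lattice isomorphism.
-/

set_option autoImplicit false

noncomputable section

namespace ToricSR

open Finset MvPolynomial ToricPB

variable {n : ℕ}

private lemma Ray_single (i : Fin n) (v : Vec n) : pr (Pi.single i 1) v = v i := by
  rw [pr, Finset.sum_eq_single i]
  · simp
  · intro j _ hj
    simp [Pi.single_apply, hj]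
  · intro h; exact absurd (Finset.mem_univ i) h

/-- the linear map with the components `pr (h i)` -/
private def Ray_lin (h : Fin n → Vec n) : Vec n →ₗ[ℤ] Vec n where
  toFun x := fun i => pr (h i) x
  map_add' x y := by
    funext i
    exact pr_add _ _ _
  map_smul' c x := by
    funext i
    simpa using pr_smul (h i) c x

private lemma Ray_sq {e : ℤ} (he : e = 1 ∨ e = -1) (x : Vec n) : e • (e • x) = x := by
  rcases he with rfl | rfl <;> simp

private lemma Ray_cone (K : Finset (Finset (Vec n))) (hK : IsFan K) :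
    ∃ σ ∈ K, ∀ y : Vec n, ∃ c : Vec n → ℤ, y = ∑ v ∈ σ, c v • v := by
  obtain ⟨σ, hσ, _, hc, _⟩ := aNear n K hK Set.univ isOpen_univ ∅ hK.empty_mem
    (lin ∅ (fun _ => (1 : ℝ))) (Set.mem_univ _) (InRel.one ∅)
  exact ⟨σ, hσ, ((aDual n σ (hK.smooth σ hσ)).2.2.2 hc).1⟩

theorem tRay (h1 : StH2z) (h2 : StPerp) : StRay := by
  intro n K K' hK hK' φ u ε hu hε hφ
  -- the inverse of `u`
  set w : Vec n → Vec n := Function.invFunOn u (verts K : Set (Vec n)) with hw
  have hwu : ∀ v ∈ verts K, w (u v) = v := fun v hv =>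
    hu.injOn.leftInvOn_invFunOn (Finset.mem_coe.2 hv)
  have key : ∀ i : Fin n, ∃ m : Vec n, ∀ x ∈ verts K', ε (w x) * (w x) i = pr m x := by
    intro i
    refine h2 n K' hK' (fun x => ε (w x) * (w x) i) ?_
    refine h1 n K' hK' _ ?_
    have e1 : cl K' (fun x => ε (w x) * (w x) i) =
        ∑ v ∈ verts K, (ε v * v i) • cls K' (u v) := by
      rw [cl]
      symm
      refine Finset.sum_nbij u ?_ hu.injOn hu.surjOn ?_
      · intro v hv
        exact Finset.mem_coe.1 (hu.mapsTo (Finset.mem_coe.2 hv))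
      · intro v hv
        rw [hwu v hv]
    have e2 : ∑ v ∈ verts K, (ε v * v i) • cls K' (u v) =
        φ (∑ v ∈ verts K, pr (Pi.single i 1) v • cls K v) := by
      rw [map_sum]
      refine Finset.sum_congr rfl (fun v hv => ?_)
      rw [map_zsmul, hφ v hv, Ray_single, mul_comm, mul_smul]
    rw [e1, e2, lin_rel, map_zero]
  choose h hh using key
  have hH : ∀ v ∈ verts K, Ray_lin h (u v) = ε v • v := by
    intro v hv
    funext i
    have h3 : u v ∈ verts K' := Finset.mem_coe.1 (hu.mapsTo (Finset.mem_coe.2 hv))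
    have h4 := hh i (u v) h3
    rw [hwu v hv] at h4
    show pr (h i) (u v) = (ε v • v) i
    rw [← h4, Pi.smul_apply, smul_eq_mul]
  have hsurj : Function.Surjective (Ray_lin h) := by
    intro y
    obtain ⟨σ, hσ, hy⟩ := Ray_cone K hK
    obtain ⟨c, hc⟩ := hy y
    refine ⟨∑ v ∈ σ, c v • (ε v • u v), ?_⟩
    rw [map_sum, hc]
    refine Finset.sum_congr rfl (fun v hv => ?_)
    rw [map_zsmul, map_zsmul, hH v (mem_verts_of_mem hσ hv), Ray_sq (hε v)]
  have hinj : Function.Injective (Ray_lin h) :=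
    OrzechProperty.injective_of_surjective_endomorphism _ hsurj
  refine ⟨(LinearEquiv.ofBijective (Ray_lin h) ⟨hinj, hsurj⟩).symm, fun v hv => ?_⟩
  have h5 : (LinearEquiv.ofBijective (Ray_lin h) ⟨hinj, hsurj⟩).symm v = ε v • u v := by
    rw [LinearEquiv.symm_apply_eq, LinearEquiv.ofBijective_apply, map_zsmul, hH v hv,
      Ray_sq (hε v)]
  rw [h5, Ray_sq (hε v)]

end ToricSR
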