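import Pool.Agent.Lib.MP_3d51eb_gt.SR.Bas

set_option autoImplicit false

/-!
# project SR: statements

Library: `PB/All.lean` (`aDual : StDual`, `aUq : StUq`, `aNear : StNear`, `aGen`, `aDeg : StDeg`,
all in the namespace `ToricPB`), basic lemmas in `PB/Bas.lean`, `SR/Bas.lean`.
-/

noncomputable section

namespace ToricSR

open Finset MvPolynomial ToricPB

/-! ## A. homomorphisms to truncated polynomials -/

/-- HOM. `coh_lift` with `φ v = lt N (l v)`. A non-cone `s`: if some `v ∈ s` is not a ray, `l v = 0`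
and the product is zero; otherwise `s ⊆ verts K`, so `N ≤ s.card`, and
`∏ v ∈ s, lt N (l v) = mk (C (∏ l v) * X ^ s.card) = 0`. Linear relations:
`∑ pr u v • lt N (l v) = lt N (ev K (pr u) l) = 0` (`lt_zsmul`, `lt_sum`, `ev_pr`). -/
def StHom : Prop := ∀ (n : ℕ) (K : Finset (Finset (Vec n))) (N : ℕ), Nb K N → ∀ l ∈ VK K,
  ∃ Ψ : Coh K →+* Tr N, (∀ v, Ψ (cls K v) = lt N (l v)) ∧ ∀ ψ, Ψ (cl K ψ) = lt N (ev K ψ l)

/-- TRUNCATED POLYNOMIALS. `∏ lt N (c i) = mk (C (∏ c i) * X ^ S.card)`, divisible by `X ^ N` iff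
`N ≤ S.card` (`Ideal.Quotient.eq_zero_iff_mem`, `Ideal.mem_span_singleton`,
`Polynomial.X_pow_dvd_iff`: coefficient `S.card`). -/
def StTrz : Prop := ∀ (N : ℕ) (S : Finset ℕ) (c : ℕ → ℝ), (∀ i ∈ S, c i ≠ 0) →
  ∏ i ∈ S, lt N (c i) = 0 → N ≤ S.card

/-- The same for products over sets of classes. -/
def StTrw : Prop := ∀ (n : ℕ) (N : ℕ) (S : Finset (Vec n)) (c : Vec n → ℝ),
  (∀ i ∈ S, c i ≠ 0) → ∏ i ∈ S, lt N (c i) = 0 → N ≤ S.card

/-- ORTHOGONAL COMPLEMENT. Real linear algebra: the functional `l ↦ ∑ a v * l v` on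
`{l | l v = 0 outside verts K}` vanishes on the common kernel of the functionals
`l ↦ ∑ (v i) * l v` (`i : Fin n`), so it is a combination of them
(`mem_span_of_iInf_ker_le_ker`, or duality): `a v = ∑ i, r i * v i` for the rays `v`, `r : Fin n → ℝ`.
There is a maximal cone `σ` (`aNear` with `Ω = univ`, `κ = ∅`; or any), a lattice basis, so by
`aInt` (interpolation) there is `u : Vec n` with `pr u v = a v` on `σ`; `toR u - r` is orthogonal to the
basis `σ` of `ℝ^n` (`aDual`, last part), so `r = toR u`. -/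
def StPerp : Prop := ∀ (n : ℕ) (K : Finset (Finset (Vec n))), IsFan K → ∀ a : Vec n → ℤ,
  (∀ l ∈ VK K, ev K a l = 0) → ∃ u : Vec n, ∀ v ∈ verts K, a v = pr u v

/-- SECOND COHOMOLOGY. `Nb_two`, `StHom` with `N = 2`: `lt 2 (ev K ψ l) = 0`, so `ev K ψ l = 0`
(coefficient of `X`). -/
def StH2z : Prop := ∀ (n : ℕ) (K : Finset (Finset (Vec n))), IsFan K → ∀ ψ : Vec n → ℤ,
  cl K ψ = 0 → ∀ l ∈ VK K, ev K ψ l = 0

/-- GENERIC RELATIONS. For `ψ ∈ S` the subspace `{l ∈ VK K | ev K ψ l = 0}` is proper: otherwise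
`ψ = pr u` on the rays (`StPerp`) and `cl K ψ = 0` (`cl_congr`, `cl_pr`). A real vector space
is not a finite union of proper subspaces (`Subspace.biUnion_ne_univ_of_top_notMem` for the vector
space `VK K`; see `PB/Gen.lean` for a use). -/
def StGn : Prop := ∀ (n : ℕ) (K : Finset (Finset (Vec n))), IsFan K →
  ∀ S : Finset (Vec n → ℤ), (∀ ψ ∈ S, cl K ψ ≠ 0) → ∃ l ∈ VK K, ∀ ψ ∈ S, ev K ψ l ≠ 0

/-- NONZERO MONOMIALS. `s ⊆ σ`, `σ ∈ K`, `σ.card = n` (`aNear` with `Ω = univ`, `κ = s`,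
`InRel.one`); `mon K σ ≠ 0` (`NT K` with `N = 1`, from `aDeg`), `mon K σ = mon K s * mon K (σ \ s)`
(`mon_union`). -/
def StNz : Prop := ∀ (n : ℕ) (K : Finset (Finset (Vec n))), IsFan K → ∀ s ∈ K, mon K s ≠ 0

/-- TRANSFER OF THE NEIGHBOURLINESS. Let `s' ⊆ verts K'`, `s'.card < N`, and suppose `s' ∉ K'`:
`mon K' s' = 0`. `φ.symm (cls K' w) = cl K (ψ w)` (`exists_cl`, `Grd`), not zero for `w ∈ s'` since
`cls K' w ≠ 0` (`StNz` for `{w}`). `StGn` for the `ψ w`, `w ∈ s'`: `l`. `Ψ` of `StHom`: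
`0 = Ψ (φ.symm (mon K' s')) = ∏ w ∈ s', lt N (ev K (ψ w) l)`; `StTrw` gives `N ≤ s'.card`. -/
def StNbt : Prop := ∀ (n : ℕ) (K K' : Finset (Finset (Vec n))), IsFan K → IsFan K' →
  ∀ φ : Coh K ≃+* Coh K', Grd K K' φ → ∀ N, Nb K N → Nb K' N

/-! ## B. transfer of relations and Pontrjagin classes -/

/-- TRANSFER OF RELATIONS. `l v = ev K' (ψ v) l'` where `φ (cls K v) = cl K' (ψ v)` (`exists_cl`,
`Grd`). By `StH2z` for `K'` it does not depend on the choice of `ψ v`, and it is zero for `v ∉ verts K`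
(`cls_eq_zero`). `∑ v i * l v = ev K' (∑ v i * ψ v) l' = 0` since
`cl K' (∑ v i * ψ v) = φ (∑ v i • cls K v) = 0` (`lin_rel` for the `i`-th unit vector). -/
def StTr : Prop := ∀ (n : ℕ) (K K' : Finset (Finset (Vec n))), IsFan K → IsFan K' →
  ∀ φ : Coh K ≃+* Coh K', Grd K K' φ → ∀ l' ∈ VK K', ∃ l ∈ VK K,
    (∀ v ψ, φ (cls K v) = cl K' ψ → l v = ev K' ψ l') ∧
    ∀ χ ψ, φ (cl K χ) = cl K' ψ → ev K χ l = ev K' ψ l'

/-- PONTRJAGIN CLASSES. `Ψ'` of `StHom` for `K'`, `N`, `l'`. With `φ (cls K v) = cl K' (ψ v)`: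
`Ψ' (φ (cls K v)) = lt N (l v)`, `Ψ' (cls K' w) = lt N (l' w)`. So
`∏ v, (1 + C (l v ^ 2) * X ^ 2) - ∏ w, (1 + C (l' w ^ 2) * X ^ 2)` is divisible by `X ^ N`. The
coefficient of `X ^ (2 j)` in `∏ (1 + C a * X ^ 2)` is the elementary symmetric function `e_j`
(`Finset.prod_one_add` or `Finset.prod_add`, `Finset.esymm_map_val`). -/
def StPr : Prop := ∀ (n : ℕ) (K K' : Finset (Finset (Vec n))), IsFan K → IsFan K' →
  ∀ φ : Coh K ≃+* Coh K', Grd K K' φ → φ (pont K) = pont K' → ∀ N, Nb K' N →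
  ∀ l ∈ VK K, ∀ l' ∈ VK K', (∀ v ψ, φ (cls K v) = cl K' ψ → l v = ev K' ψ l') →
  ∀ j, 2 * j < N → ((verts K).val.map (fun v => l v ^ 2)).esymm j =
    ((verts K').val.map (fun w => l' w ^ 2)).esymm j

/-- The generating function of the elementary symmetric functions. -/
def StEs : Prop := ∀ (n : ℕ) (S : Finset (Vec n)) (a : Vec n → ℝ) (j : ℕ),
  (∏ v ∈ S, (1 + Polynomial.C (a v) * Polynomial.X ^ 2) : Polynomial ℝ).coeff (2 * j) =
    (S.val.map a).esymm j

/-- NEWTON. `MvPolynomial.psum_eq_mul_esymm_sub_sum` (or `MvPolynomial.mul_esymm_eq_sum`)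
evaluated at the list of the elements of the multiset (`σ = Fin A.card` or
`A.toEnumFinset`/`A.ToType`; `MvPolynomial.aeval_esymm_eq_multiset_esymm`), strong induction on
`j`. -/
def StNw : Prop := ∀ (A B : Multiset ℝ) (M : ℕ), (∀ j ≤ M, A.esymm j = B.esymm j) →
  ∀ j, 1 ≤ j → j ≤ M → (A.map (fun x => x ^ j)).sum = (B.map (fun x => x ^ j)).sum

/-- MOMENTS. For every polynomial `P` of degree `≤ 2 D` the sums of its values over `A` and `B` agree
(`Polynomial.eval_eq_sum_range`, exchange of sums; `j = 0` is the hypothesis on the cardinalities).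
`q = ∏ c ∈ A.toFinset, (X - C c)`, `P = q ^ 2`: the sum over `A` is zero, so is the sum over `B`, all
terms are `≥ 0`, so `q` vanishes on `B`: `B` has no element outside `A.toFinset`. For
`c ∈ A.toFinset`, `P = ∏ k ∈ A.toFinset.erase c, (X - C k)` gives `A.count c = B.count c`. -/
def StMm : Prop := ∀ (A B : Multiset ℝ) (D : ℕ), A.toFinset.card ≤ D → A.card = B.card →
  (∀ j, 1 ≤ j → j ≤ 2 * D → (A.map (fun x => x ^ j)).sum = (B.map (fun x => x ^ j)).sum) → A = B

/-- DIMENSION. `VK K` is isomorphic to the kernel of the surjective linear map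
`(verts K → ℝ) → (Fin n → ℝ)`, `l ↦ ∑ l v • toR v` (surjective since there is a maximal cone,
`aDual`, last part; maximal cone from `aNear`, `Ω = univ`, `κ = ∅`). -/
def StDim : Prop := ∀ (n : ℕ) (K : Finset (Finset (Vec n))), IsFan K →
  Module.finrank ℝ (VK K) + n = (verts K).card

/-- NUMBER OF RAYS. `StTr` gives a linear injective map `VK K' → VK K` (it is `l' ↦ (ev K' (ψ v) l')_v`
for fixed `ψ v`; injective: `cls K' w = φ (cl K χ)`, so `l' w = ev K χ l` by the second clause with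
`ψ` the indicator of `w`), so `finrank (VK K') ≤ finrank (VK K)`, and the same for `φ.symm`. -/
def StCard : Prop := ∀ (n : ℕ) (K K' : Finset (Finset (Vec n))), IsFan K → IsFan K' →
  ∀ φ : Coh K ≃+* Coh K', Grd K K' φ → (verts K).card = (verts K').card

/-- BIJECTION FROM EQUAL MULTISETS. -/
def StMb : Prop := ∀ (n : ℕ) (S S' : Finset (Vec n)) (a b : Vec n → ℝ),
  S.val.map a = S'.val.map b → ∃ u : Vec n → Vec n, Set.BijOn u S S' ∧ ∀ v ∈ S, a v = b (u v)

/-- BIJECTION OF THE RAYS. `N = 4 * nc K + 1` (`stable_iff`), `StNbt`. `φ (cls K v) = cl K' (ψ v)`.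
`S` = the set of the functions `ψ v - δ_w`, `ψ v + δ_w` (`v ∈ verts K`, `w ∈ verts K'`,
`δ_w = fun x => if x = w then 1 else 0`) whose class in `K'` is not zero; `l'` from `StGn`, `l` from
`StTr`. `A`, `B` the multisets of the `(l v) ^ 2`, `(l' w) ^ 2`. `A.toFinset.card ≤ nc K` since `l v`
depends only on `cls K v`. `StPr`, `StNw` (`M = 2 * nc K`), `StMm`: `A = B`. `StMb`: `u` with
`(l v) ^ 2 = (l' (u v)) ^ 2`, so `l v = ± l' (u v)`, i.e. `ev K' (ψ v ∓ δ_(u v)) l' = 0`, so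
`cl K' (ψ v ∓ δ_(u v)) = 0` by the choice of `l'`: `φ (cls K v) = ± cls K' (u v)`. -/
def StBij : Prop := ∀ (n : ℕ) (K K' : Finset (Finset (Vec n))), IsFan K → IsFan K' → Stable K →
  ∀ φ : Coh K ≃+* Coh K', Grd K K' φ → φ (pont K) = pont K' →
  ∃ (u : Vec n → Vec n) (ε : Vec n → ℤ), Set.BijOn u (verts K) (verts K') ∧
    (∀ v, ε v = 1 ∨ ε v = -1) ∧ ∀ v ∈ verts K, φ (cls K v) = ε v • cls K' (u v)

/-! ## C. from the classes to the fans -/

/-- CONES. `φ (mon K s) = (∏ v ∈ s, ε v) • mon K' (s.image u)` (`u` injective on `s`), the product of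
the signs is `± 1`; `s ∈ K ↔ mon K s ≠ 0` (`StNz`, `mon_eq_zero`). -/
def StCon : Prop := ∀ (n : ℕ) (K K' : Finset (Finset (Vec n))), IsFan K → IsFan K' →
  ∀ (φ : Coh K ≃+* Coh K') (u : Vec n → Vec n) (ε : Vec n → ℤ),
  Set.BijOn u (verts K) (verts K') → (∀ v, ε v = 1 ∨ ε v = -1) →
  (∀ v ∈ verts K, φ (cls K v) = ε v • cls K' (u v)) → ∀ s ⊆ verts K, s ∈ K ↔ s.image u ∈ K'

/-- RAYS. For the `i`-th unit vector `∑ v ∈ verts K, v i • cls K v = 0` (`lin_rel`), so
`∑ (ε v * v i) • cls K' (u v) = 0`, i.e. `cl K' a = 0` with `a (u v) = ε v * v i` (reindex by `u`), so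
(`StH2z`, `StPerp` for `K'`) `a = pr (h i)` on `verts K'`. `H x = fun i => pr (h i) x` is linear with
`H (u v) = ε v • v` for `v ∈ verts K`; the rays span `Vec n` (a maximal cone is a basis: `aDual`,
`aNear`), so `H` is onto, hence injective
(`OrzechProperty.injective_of_surjective_endomorphism`). `g` = the inverse of `H`. -/
def StRay : Prop := ∀ (n : ℕ) (K K' : Finset (Finset (Vec n))), IsFan K → IsFan K' →
  ∀ (φ : Coh K ≃+* Coh K') (u : Vec n → Vec n) (ε : Vec n → ℤ),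
  Set.BijOn u (verts K) (verts K') → (∀ v, ε v = 1 ∨ ε v = -1) →
  (∀ v ∈ verts K, φ (cls K v) = ε v • cls K' (u v)) →
  ∃ g : Vec n ≃ₗ[ℤ] Vec n, ∀ v ∈ verts K, u v = ε v • g v

/-- THEOREM, part 1. `StBij`, `StRay`, `StCon`. -/
def ThmA : Prop := ∀ (n : ℕ) (K K' : Finset (Finset (Vec n))), IsFan K → IsFan K' → Stable K →
  ∀ φ : Coh K ≃+* Coh K', (∀ y, y ∈ H2 K ↔ φ y ∈ H2 K') → φ (pont K) = pont K' →
  ∃ (g : Vec n ≃ₗ[ℤ] Vec n) (ε : Vec n → ℤ), (∀ v, ε v = 1 ∨ ε v = -1) ∧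
    K' = K.image (fun s => s.image (fun v => ε v • g v)) ∧
    ∀ v ∈ verts K, φ (cls K v) = ε v • cls K' (ε v • g v)

/-! ## D. simplicial wedges -/

/-- DOWN. Cases of `mem_wedge`; a subset `T` of `lift t ∪ {w1, w2}` is `lift t' ∪ A` with
`t' = t.filter (up 0 · ∈ T)`. -/
def StWDown : Prop := ∀ (n : ℕ) (K : Finset (Finset (Vec n))) (v : Vec n), IsFan K →
  v ∈ verts K → ∀ s ∈ wedge K v, ∀ t, t ⊆ s → t ∈ wedge K v

/-- BASES. If `b` is a basis of `Vec n`, `y : Vec n` and `a = ± 1`, then `up a y` and the `up 0 (b i)`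
form a basis of `Vec (n + 1)`. (Spans: `up c x = (a * c) • up a y + up 0 (x - (a * c) • y)`; use
`aUniOf : StUniOf` (`n + 1` vectors which span are a basis), or build the basis.) -/
def StUp : Prop := ∀ (n : ℕ) (b : Module.Basis (Fin n) ℤ (Vec n)) (y : Vec n) (a : ℤ),
  a = 1 ∨ a = -1 → Uni (insert (up a y) (lift (univ.image b)))

/-- BASES. `w1`, `w2 v` and the `up 0 (b i)`, `i ≠ j`, where `b j = v`, form a basis:
`up 0 v = w1 + w2 v` and `StUp` with `y = 0` (`aUniOf`: they span). -/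
def StUp2 : Prop := ∀ (n : ℕ) (b : Module.Basis (Fin n) ℤ (Vec n)) (v : Vec n),
  (∃ j, b j = v) → Uni (insert w1 (insert (w2 v) (lift ((univ.image b).erase v))))

/-- SMOOTH. Cases of `mem_wedge`: `StUp` for a basis `b` which contains `t` (subsets of a `Uni` set are
`Uni`), `StUp2` for a basis which contains `insert v t`. -/
def StWSm : Prop := ∀ (n : ℕ) (K : Finset (Finset (Vec n))) (v : Vec n), IsFan K →
  v ∈ verts K → ∀ s ∈ wedge K v, Uni s

/-- COORDINATES of a point in the relative interior of a cone of the wedge: for `S = lift t`,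
`insert w1 (lift t)`, `insert (w2 v) (lift t)`, `insert w1 (insert (w2 v) (lift t))`:
`x = (r, x')` is in the relative interior iff `r = β - γ`, `x' = lin t b + γ v` with `b > 0` on
`t` and [`β = 0 = γ`], [`β > 0 = γ`], [`β = 0 < γ`], [`β > 0`, `γ > 0`]. (`Fin.cons`, `toR (up a w)`,
`lin (lift t) c = Fin.cons 0 (lin t (c ∘ up 0))`.) -/
def StWCo : Prop := ∀ (n : ℕ) (t : Finset (Vec n)) (v : Vec n) (r : ℝ) (x : Fin n → ℝ),
  (InRel (lift t) (Fin.cons r x : Fin (n + 1) → ℝ) ↔ r = 0 ∧ InRel t x) ∧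
  (InRel (insert w1 (lift t)) (Fin.cons r x : Fin (n + 1) → ℝ) ↔ 0 < r ∧ InRel t x) ∧
  (InRel (insert (w2 v) (lift t)) (Fin.cons r x : Fin (n + 1) → ℝ) ↔
    r < 0 ∧ InRel t (x + r • toR v)) ∧
  (InRel (insert w1 (insert (w2 v) (lift t))) (Fin.cons r x : Fin (n + 1) → ℝ) ↔
    ∃ γ : ℝ, 0 < γ ∧ 0 < r + γ ∧ InRel t (x - γ • toR v))

/-- EXISTENCE. `x = Fin.cons r x'`. Let `s ∈ K`, `x' = lin s a`, `a > 0` (`IsFan.cover`).
(1) `v ∈ s`, `r + a v > 0`: the cone `insert w1 (insert w2 (lift (s.erase v)))`, `γ = a v`.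
(2) `v ∉ s`, `r > 0` or `r = 0`: `insert w1 (lift s)`, `lift s`. (3) otherwise `r < 0`, and
`r + a v ≤ 0` if `v ∈ s`: let `t ∈ K`, `x' + r • v = lin t b`, `b > 0`. `v ∉ t`: otherwise
`x' = lin t b'` with `b' v = b v - r > 0`, `b' = b` elsewhere, so by `aUq` `t = s`, `v ∈ s` and
`a v = b v - r > - r`. The cone is `insert (w2 v) (lift t)`. Use `StWCo`, `mem_wedge`. -/
def StWEx : Prop := ∀ (n : ℕ) (K : Finset (Finset (Vec n))) (v : Vec n), IsFan K →
  v ∈ verts K → ∀ x : Fin (n + 1) → ℝ, ∃ s ∈ wedge K v, InRel s x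

/-- UNIQUENESS. `StWCo` for both cones; `s ∈ K` as in `StWEx`. Types of the cones: without `w2`: `r ≥ 0`,
`t = s` (`IsFan.uniq`), `v ∉ s`, and `w1` is in the cone iff `r > 0`; only `w2`: `r < 0`,
`x' + r • v` in the relative interior of `t`, `v ∉ t`; both: `x'` is in the relative interior of
`insert v t`, with coefficient `γ` at `v`, and `x' + r • v` too, with coefficient `γ + r > 0`. So the
types `without w2` and `both` exclude each other (`v ∉ s`, `v ∈ s`), `only w2` and `both` too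
(uniqueness for `x' + r • v`), `without w2` and `only w2` by the sign of `r`; equal types: `t` is
determined. -/
def StWUq : Prop := ∀ (n : ℕ) (K : Finset (Finset (Vec n))) (v : Vec n), IsFan K →
  v ∈ verts K → ∀ x : Fin (n + 1) → ℝ, ∀ s ∈ wedge K v, ∀ t ∈ wedge K v, InRel s x → InRel t x →
  s = t

/-- NUMBER OF CLASSES. `verts_wedge`. Collapse `up 0 w ↦ w`, `w1, w2 ↦ v`. If `cls K w = cls K w'` with
`w ≠ w'` in `verts K`, there is `u` with `pr u w = 1`, `pr u w' = -1`, `pr u = 0` on the other rays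
(`cl K (δ_w - δ_w') = 0`, `StH2z`, `StPerp`). The linear relation of `up t u` in `wedge K v`
(`lin_rel`; `pr (up t u) (up a x) = t * a + pr u x`): for `w, w' ≠ v`, `t = 0`: the classes of
`up 0 w`, `up 0 w'` agree; for `w = v`, `t = 1 = pr u v`: the class of `w1` is that of `up 0 w'`;
`u = 0`, `t = 1`: the classes of `w1`, `w2` agree. So the class of a ray of `wedge K v` depends only on the
class in `K` of its image under the collapse. -/
def StWNc : Prop := ∀ (n : ℕ) (K : Finset (Finset (Vec n))) (v : Vec n), IsFan K →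
  v ∈ verts K → IsFan (wedge K v) → nc (wedge K v) ≤ nc K

/-- NEIGHBOURLINESS PERSISTS. Let `S ⊆ verts (wedge K v)`, `S.card < N`, `t` the set of the
`w ∈ verts K`, `w ≠ v`, `up 0 w ∈ S`. If `w1, w2 ∈ S`, then `(insert v t).card < N`, otherwise
`t.card < N`. -/
def StWNb : Prop := ∀ (n : ℕ) (K : Finset (Finset (Vec n))) (v : Vec n), IsFan K →
  v ∈ verts K → ∀ N, Nb K N → Nb (wedge K v) N

/-- MISSING FACES of a wedge: `lift B` for the missing faces `B` without `v`, and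
`lift (B - v) + w1 + w2` for those with `v` (only this inclusion). Proof: let `S` be a missing face,
`t` the set of the `w` with `up 0 w ∈ S`. If `w1, w2 ∈ S`: `B = insert v t`; otherwise
`B = t`, and `S` contains neither `w1` nor `w2` (`S ⊆ lift t + w_i`, `t ∉ K`, so `lift t` is
not in the wedge and `S = lift t`). -/
def StWMf : Prop := ∀ (n : ℕ) (K : Finset (Finset (Vec n))) (v : Vec n), IsFan K →
  v ∈ verts K → ∀ S ∈ mf (wedge K v), ∃ B ∈ mf K,
    (v ∉ B ∧ S = lift B) ∨ (v ∈ B ∧ S = insert w1 (insert (w2 v) (lift (B.erase v))))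

/-- MEASURE. `StWMf`: the missing faces of the wedge are among the images of those of `K` under
`B ↦ lift B` or `lift (B - v) + w1 + w2`, of cardinality `B.card` or `B.card + 1`. -/
def StWMu : Prop := ∀ (n : ℕ) (K : Finset (Finset (Vec n))) (v : Vec n) (T : ℕ), IsFan K →
  v ∈ verts K → ∀ B ∈ mf K, v ∈ B → B.card ≤ T →
  ∑ S ∈ mf (wedge K v), (T + 1 - S.card) < ∑ B ∈ mf K, (T + 1 - B.card)

/-- A set of rays which is not a cone contains a missing face (minimal non-cone). -/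
def StMf : Prop := ∀ (n : ℕ) (K : Finset (Finset (Vec n))), ∀ s ⊆ verts K, s ∉ K →
  ∃ B ∈ mf K, B ⊆ s

/-- WEDGE IS A FAN. `StWDown`, `StWSm`, `StWEx`, `StWUq`. -/
def StWFan : Prop := ∀ (n : ℕ) (K : Finset (Finset (Vec n))) (v : Vec n), IsFan K →
  v ∈ verts K → IsFan (wedge K v)

/-- THEOREM, part 2. Induction on `∑ B ∈ mf K, (T + 1 - B.card)` for fixed `T` (all `n`, `K` with
`nc K ≤ c`, `T = 4 * c`): if every missing face has more than `T` elements then `Stable K`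
(`StMf`). Otherwise wedge at a ray of a missing face with at most `T` elements (a missing face is not
empty: `∅ ∈ K`): `StWMu`, `StWNc`, `StWFan`. `Wedges` is built from the left or the right: prove
that `Wedges` is transitive. -/
def ThmB : Prop := ∀ (n : ℕ) (K : Finset (Finset (Vec n))), IsFan K →
  ∃ (m : ℕ) (L : Finset (Finset (Vec m))), Wedges n K m L ∧ IsFan L ∧ Stable L

/-- PERSISTENCE. Induction on `Wedges`: `StWFan`, `StWNc`, `StWNb`, `stable_iff`, `Nb_mono`. -/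
def ThmC : Prop := ∀ (n m : ℕ) (K : Finset (Finset (Vec n))) (L : Finset (Finset (Vec m))),
  IsFan K → Stable K → Wedges n K m L → IsFan L ∧ Stable L

end ToricSR
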