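import Pool.Agent.Lib.MP_3d51eb_gt.SR.Spec
import Pool.Agent.Lib.MP_3d51eb_gt.SR.Defs2

set_option autoImplicit false

/-!
# project SR: sharper range

`D = nc K`, `r = b_2 = (verts K).card - n`. The range `4 D` is replaced by `2 (D - r + 2)`; for the
iterated wedges of a fan in dimension `n` it is at most `2 n + 4`, whatever the number of rays.
-/

noncomputable section

namespace ToricSR

open Finset MvPolynomial ToricPB

instance VK_fd {n : ℕ} (K : Finset (Finset (Vec n))) : FiniteDimensional ℝ (VK K) := by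
  let F : (VK K) →ₗ[ℝ] ({v // v ∈ verts K} → ℝ) :=
    { toFun := fun l v => l.1 v.1
      map_add' := fun _ _ => rfl
      map_smul' := fun _ _ => rfl }
  refine FiniteDimensional.of_injective F (fun l l' h => Subtype.ext (funext (fun v => ?_)))
  by_cases hv : v ∈ verts K
  · exact congrFun h ⟨v, hv⟩
  · rw [VK_out l.2 hv, VK_out l'.2 hv]

/-- the functional `l ↦ l v` on the space of relations -/
def fv {n : ℕ} (K : Finset (Finset (Vec n))) (v : Vec n) : (VK K) →ₗ[ℝ] ℝ where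
  toFun := fun l => l.1 v
  map_add' := fun _ _ => rfl
  map_smul' := fun _ _ => rfl

/-- the functional `l ↦ ev K χ l` on the space of relations -/
def gv {n : ℕ} (K : Finset (Finset (Vec n))) (χ : Vec n → ℤ) : (VK K) →ₗ[ℝ] ℝ where
  toFun := fun l => ev K χ l.1
  map_add' := fun l l' => by
    simp only [ev, Submodule.coe_add, Pi.add_apply, mul_add, Finset.sum_add_distrib]
  map_smul' := fun c l => by
    simp only [ev, Submodule.coe_smul, Pi.smul_apply, smul_eq_mul, RingHom.id_apply, Finset.mul_sum]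
    exact Finset.sum_congr rfl (fun v _ => by ring)

lemma fv_apply {n : ℕ} (K : Finset (Finset (Vec n))) (v : Vec n) (l : VK K) :
    fv K v l = l.1 v := rfl

lemma gv_apply {n : ℕ} (K : Finset (Finset (Vec n))) (χ : Vec n → ℤ) (l : VK K) :
    gv K χ l = ev K χ l.1 := rfl

/-- RELATIONS. By `IsFan.cover` `- toR v = lin κ c` with `κ ∈ K`, `c > 0` on `κ`; `κ ⊆ σ ∈ K`,
`σ.card = n` (`aNear`, `Ω = univ`); `- v = ∑ w ∈ σ, b w • w` with integers `b` (`aDual`, last part);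
comparing (`aDual`: independence) `b = c` on `κ` and `b = 0` on `σ \ κ`, so `b ≥ 0`. `v ∉ σ`: otherwise
the relation `v + ∑ b w • w = 0` in `σ` has the coefficient `1 + b v > 0` at `v`. Take
`a v = 1`, `a = b` on `σ`, `0` elsewhere. -/
def StRel : Prop := ∀ (n : ℕ) (K : Finset (Finset (Vec n))), IsFan K → ∀ v ∈ verts K,
  ∃ a : Vec n → ℤ, (fun w => (a w : ℝ)) ∈ VK K ∧ (∀ w, 0 ≤ a w) ∧ a v = 1

/-- POLARIZATION. Prove by induction on `H` for all weights `α, β : Vec n → ℝ` and exponents `e`: if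
`∑ α v * f v x ^ (H.length + e) = ∑ β w * g w x ^ (H.length + e)` for all `x`, then
`∑ α v * (H.map (f v)).prod * f v x ^ e = ∑ β w * (H.map (g w)).prod * g w x ^ e` for all `x`.
Step: from exponent `e + 1` for all `x`, replace `x` by `x + t • h` and take the derivative in `t` at
`0` (`HasDerivAt`, or the coefficient of `t` of the polynomials in `t`): `(e + 1)` times the statement with
the weights `α v * f v h`, `β w * g w h` and exponent `e`. -/
def StPol : Prop := ∀ (V : Type) [AddCommGroup V] [Module ℝ V] (n : ℕ) (S S' : Finset (Vec n))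
  (f g : Vec n → V →ₗ[ℝ] ℝ) (M : ℕ), (∀ x, ∑ v ∈ S, f v x ^ M = ∑ w ∈ S', g w x ^ M) →
  ∀ H : List V, H.length = M → ∑ v ∈ S, (H.map (f v)).prod = ∑ w ∈ S', (H.map (g w)).prod

/-- SELECTION. `F` spans the dual space (its common kernel is zero), `r = finrank V`. Let
`B ⊆ F` be linearly independent with the same span (`exists_linearIndependent`), so `B` has `r`
elements. `p` is in the span of `B` and not zero, so there is `b0 ∈ B` with `p` not in the span of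
`B \ {b0}`; so there is `h0` with `p h0 ≠ 0`, `f h0 = 0` for all `f ∈ B \ {b0}`
(`mem_span_of_iInf_ker_le_ker`). For the at most `D - r + 1` elements `f` of `G` which are not in
`B \ {b0}` there is `h_f` with `f h_f = 0`, `p h_f ≠ 0` (`p` is not a multiple of `f`:
`mem_span_of_iInf_ker_le_ker` again). `H` = `h0` (repeated if necessary) and the `h_f`;
`r ≤ F.card ≤ D`. -/
def StSel : Prop := ∀ (V : Type) [AddCommGroup V] [Module ℝ V] [FiniteDimensional ℝ V]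
  (F G : Finset (V →ₗ[ℝ] ℝ)) (p : V →ₗ[ℝ] ℝ) (D : ℕ), (∀ x : V, (∀ f ∈ F, f x = 0) → x = 0) →
  F.card ≤ D → G ⊆ F → p ≠ 0 → (∀ f ∈ G, ∀ c : ℝ, p ≠ c • f) →
  ∃ H : List V, H.length = D + 2 - Module.finrank ℝ V ∧ (∀ f ∈ G, ∃ h ∈ H, f h = 0) ∧
    ∀ h ∈ H, p h ≠ 0

/-- RANK. The functionals `l ↦ l v` (`v ∈ verts K`) on `VK K` have common kernel zero, so they span the dual
space, of dimension `finrank (VK K) = (verts K).card - n` (`StDim`); they depend only on `cls K v`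
(`StH2z` for `δ_v - δ_v'`), so there are at most `nc K` of them. (Or: choose one ray in each class;
the map `VK K → (classes → ℝ)` is injective.) -/
def StRk : Prop := ∀ (n : ℕ) (K : Finset (Finset (Vec n))), IsFan K →
  (verts K).card ≤ nc K + n

/-- POWER SUMS. `StTr` for `K'`, `K`, `φ.symm` and `l` gives `l' ∈ VK K'` with
`l' w = ev K (χ w) l`. `StPr` for `K'`, `K`, `φ.symm` (roles exchanged), `N = 2 * k + 1`, then
`StNw` with `M = k`, `j = k`. -/
def StPw : Prop := ∀ (n : ℕ) (K K' : Finset (Finset (Vec n))), IsFan K → IsFan K' →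
  ∀ φ : Coh K ≃+* Coh K', Grd K K' φ → φ (pont K) = pont K' → ∀ k, 1 ≤ k → Nb K (2 * k + 1) →
  ∀ χ : Vec n → Vec n → ℤ, (∀ w, φ (cl K (χ w)) = cls K' w) → ∀ l ∈ VK K,
  ∑ v ∈ verts K, l v ^ (2 * k) = ∑ w ∈ verts K', (ev K (χ w) l) ^ (2 * k)

/-- MOMENTS, part A. Otherwise `StSel` with `F = G` = the set of the `f v`, `p = g w`: `H` with
`k` elements. `StPol` for `H ++ H`: `∑ v, (∏ f v (h)) ^ 2 = ∑ w, (∏ g w (h)) ^ 2`. The left hand side
is zero, the right hand side has a positive term. -/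
def StMomA : Prop := ∀ (V : Type) [AddCommGroup V] [Module ℝ V] [FiniteDimensional ℝ V] (n : ℕ)
  (S S' : Finset (Vec n)) (f g : Vec n → V →ₗ[ℝ] ℝ) (D k : ℕ),
  (∀ x : V, (∀ v ∈ S, f v x = 0) → x = 0) →
  (∃ F : Finset (V →ₗ[ℝ] ℝ), F.card ≤ D ∧ ∀ v ∈ S, f v ∈ F) →
  D + 2 - Module.finrank ℝ V = k →
  (∀ x, ∑ v ∈ S, f v x ^ (2 * k) = ∑ w ∈ S', g w x ^ (2 * k)) →
  (∀ w ∈ S', g w ≠ 0) → ∀ w ∈ S', ∃ v ∈ S, ∃ c : ℝ, g w = c • f v

open Classical in
/-- MOMENTS, part B. `StSel` with `F` = the set of the `f v`, `G = F \ {f v0}`, `p = f v0`: `H` with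
`k` elements, `StPol` for `H ++ H`. With `P = (∏ f v0 (h)) ^ 2 > 0` the left hand side is `P` times
the first cardinality; every `g w` is `± f v` (by hypothesis), so the right hand side is `P` times the
second one (if `g w = ± f v` with `f v ≠ f v0` the term is zero; the case `f v = - f v0` is excluded
by the hypothesis on pairs, with `c = -1`). -/
def StMomB : Prop := ∀ (V : Type) [AddCommGroup V] [Module ℝ V] [FiniteDimensional ℝ V] (n : ℕ)
  (S S' : Finset (Vec n)) (f g : Vec n → V →ₗ[ℝ] ℝ) (D k : ℕ),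
  (∀ x : V, (∀ v ∈ S, f v x = 0) → x = 0) →
  (∃ F : Finset (V →ₗ[ℝ] ℝ), F.card ≤ D ∧ ∀ v ∈ S, f v ∈ F) →
  D + 2 - Module.finrank ℝ V = k →
  (∀ x, ∑ v ∈ S, f v x ^ (2 * k) = ∑ w ∈ S', g w x ^ (2 * k)) →
  (∀ v ∈ S, f v ≠ 0) → (∀ v ∈ S, ∀ v' ∈ S, ∀ c : ℝ, f v = c • f v' → f v = f v') →
  (∀ w ∈ S', ∃ v ∈ S, g w = f v ∨ g w = -f v) →
  ∀ v0 ∈ S, (S.filter (fun v => f v = f v0)).card =
    (S'.filter (fun w => g w = f v0 ∨ g w = -f v0)).card

open Classical in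
/-- BIJECTION FROM EQUAL FIBRES (`Equiv.ofFiberEquiv`, or induction). -/
def StMbg : Prop := ∀ (n : ℕ) (α : Type) (S S' : Finset (Vec n)) (a b : Vec n → α),
  (∀ c, (S.filter (fun v => a v = c)).card = (S'.filter (fun w => b w = c)).card) →
  ∃ u : Vec n → Vec n, Set.BijOn u S S' ∧ ∀ v ∈ S, a v = b (u v)

/-- MOMENTS, conclusion. `StMomA`, then every `g w` is `± f v` by hypothesis, `StMomB`. `a v = f v`, `b w` =
an `f v` with `g w = ± f v` (choice; it is unique: `f v = ± f v'` implies `f v = f v'` by the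
hypothesis on pairs). Fibres over `c`: if `c = f v0`, `v0 ∈ S`, `StMomB`; otherwise both are empty.
`StMbg`. -/
def StMomC : Prop := ∀ (V : Type) [AddCommGroup V] [Module ℝ V] [FiniteDimensional ℝ V] (n : ℕ)
  (S S' : Finset (Vec n)) (f g : Vec n → V →ₗ[ℝ] ℝ) (D k : ℕ),
  (∀ x : V, (∀ v ∈ S, f v x = 0) → x = 0) →
  (∃ F : Finset (V →ₗ[ℝ] ℝ), F.card ≤ D ∧ ∀ v ∈ S, f v ∈ F) →
  D + 2 - Module.finrank ℝ V = k →
  (∀ x, ∑ v ∈ S, f v x ^ (2 * k) = ∑ w ∈ S', g w x ^ (2 * k)) →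
  (∀ w ∈ S', g w ≠ 0) →
  (∀ v ∈ S, f v ≠ 0) → (∀ v ∈ S, ∀ v' ∈ S, ∀ c : ℝ, f v = c • f v' → f v = f v') →
  (∀ w ∈ S', ∀ v ∈ S, ∀ c : ℝ, g w = c • f v → g w = f v ∨ g w = -f v) →
  ∃ u : Vec n → Vec n, Set.BijOn u S S' ∧ ∀ v ∈ S, g (u v) = f v ∨ g (u v) = -f v

/-- SIGNS. (1) For `a` of `StRel` for `v`: `1 = a v = c * a v'`; for `b` of `StRel` for `v'`:
`b v = c`. So `c = b v` and `1 = b v * a v'` with nonnegative integers: `c = 1`.
(2) `a'` of `StRel` for `K'`, `w`; `StTr` gives `l ∈ VK K` with `l v = ev K' ψ a'` (`ψ` with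
`φ (cls K v) = cl K' ψ`, `exists_cl`, `Grd`; an integer) and `ev K χ l = ev K' δ_w a' = a' w = 1`
(second clause, `cl_single`, `ev_single`): `1 = c * l v`. For `a` of `StRel` for `v`:
`ev K χ a = c * a v = c`, an integer. So `c = ± 1`. (3) With the same `l`: `ev K χ l = 1`. -/
def StSgn : Prop := ∀ (n : ℕ) (K K' : Finset (Finset (Vec n))), IsFan K → IsFan K' →
  (∀ v ∈ verts K, ∀ v' ∈ verts K, ∀ c : ℝ, (∀ l ∈ VK K, l v = c * l v') → c = 1) ∧
  ∀ φ : Coh K ≃+* Coh K', Grd K K' φ → ∀ w ∈ verts K', ∀ χ : Vec n → ℤ,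
    φ (cl K χ) = cls K' w →
    (∀ v ∈ verts K, ∀ c : ℝ, (∀ l ∈ VK K, ev K χ l = c * l v) → c = 1 ∨ c = -1) ∧
    ∃ l ∈ VK K, ev K χ l ≠ 0

/-- BIJECTION OF THE RAYS, sharper range. `V = VK K` (`VK_fd`), `f v = fv K v`,
`χ w` with `φ (cl K (χ w)) = cls K' w` (`exists_cl` for `φ.symm (cls K' w)`, `Grd`), `g w = gv K (χ w)`, `S = verts K`, `S' = verts K'`, `D = nc K`,
`k = nc K + n + 2 - (verts K).card = D + 2 - finrank (VK K)` (`StDim`), `1 ≤ k` (`StRk`). Common kernel of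
the `f v`: zero by definition of `VK`. `F` = the set of the `f v`: at most `nc K` elements because
`f v` depends only on `cls K v` (`StH2z` for `δ_v - δ_v'`). Power sums: `StPw`, `Nb K (2 * k + 1)`
from `Stab K`. `f v ≠ 0`: `StRel`. The rest: `StSgn`. `StMomC`: `u`. If `g (u v) = ± f v`, then
`ev K (χ (u v) ∓ δ_v) l = 0` for all `l ∈ VK K`, so (`StPerp`, `cl_congr`, `cl_pr`)
`cl K (χ (u v)) = ± cls K v`; apply `φ`. -/
def StBij2 : Prop := ∀ (n : ℕ) (K K' : Finset (Finset (Vec n))), IsFan K → IsFan K' → Stab K →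
  ∀ φ : Coh K ≃+* Coh K', Grd K K' φ → φ (pont K) = pont K' →
  ∃ (u : Vec n → Vec n) (ε : Vec n → ℤ), Set.BijOn u (verts K) (verts K') ∧
    (∀ v, ε v = 1 ∨ ε v = -1) ∧ ∀ v ∈ verts K, φ (cls K v) = ε v • cls K' (u v)

/-- THEOREM, part 1, sharper. `StBij2`, `StRay`, `StCon`. -/
def ThmA2 : Prop := ∀ (n : ℕ) (K K' : Finset (Finset (Vec n))), IsFan K → IsFan K' → Stab K →
  ∀ φ : Coh K ≃+* Coh K', (∀ y, y ∈ H2 K ↔ φ y ∈ H2 K') → φ (pont K) = pont K' →
  ∃ (g : Vec n ≃ₗ[ℤ] Vec n) (ε : Vec n → ℤ), (∀ v, ε v = 1 ∨ ε v = -1) ∧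
    K' = K.image (fun s => s.image (fun v => ε v • g v)) ∧
    ∀ v ∈ verts K, φ (cls K v) = ε v • cls K' (ε v • g v)

/-- INVARIANTS of iterated wedges. Induction: `StWFan`, `StWNc`, `verts_wedge`, `StWNb`. -/
def StWInv : Prop := ∀ (n m : ℕ) (K : Finset (Finset (Vec n))) (L : Finset (Finset (Vec m))),
  IsFan K → Wedges n K m L → IsFan L ∧ nc L ≤ nc K ∧ (verts L).card + n = (verts K).card + m ∧
    ∀ N, Nb K N → Nb L N

/-- EXISTENCE. Induction on `∑ B ∈ mf K, (T + 1 - B.card)`: `StWMu`, `StMf`, `StWFan`. -/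
def StWEv : Prop := ∀ (T n : ℕ) (K : Finset (Finset (Vec n))), IsFan K →
  ∃ (m : ℕ) (L : Finset (Finset (Vec m))), Wedges n K m L ∧ Nb L (T + 1)

/-- THEOREM, part 2, sharper. `StWInv`, `nc K ≤ (verts K).card`, `StWEv` with `T = 2 * n + 4`. -/
def ThmB2 : Prop := ∀ (n : ℕ) (K : Finset (Finset (Vec n))), IsFan K →
  (∀ (m : ℕ) (L : Finset (Finset (Vec m))), Wedges n K m L → IsFan L ∧
    ((∀ s ⊆ verts L, s.card ≤ 2 * n + 4 → s ∈ L) → Stab L)) ∧
  ∃ (m : ℕ) (L : Finset (Finset (Vec m))), Wedges n K m L ∧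
    ∀ (m' : ℕ) (L' : Finset (Finset (Vec m'))), Wedges m L m' L' →
      ∀ s ⊆ verts L', s.card ≤ 2 * n + 4 → s ∈ L'

end ToricSR
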