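import Pool.Agent.Lib.MP_3d51eb_gt.SR.Spec2
import Pool.Agent.Lib.MP_3d51eb_gt.SR.Defs3

set_option autoImplicit false

/-!
# project SR: unimodular rays (proposal PU, note 5560)
-/

noncomputable section

namespace ToricSR

open Finset MvPolynomial ToricPB

/-- the identities given by the first two Pontrjagin classes -/
def Q2 {n : ℕ} (K : Finset (Finset (Vec n))) (S' : Finset (Vec n)) (χ : Vec n → Vec n → ℤ) :
    Prop :=
  ∀ l ∈ VK K, ∀ l' ∈ VK K,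
    ∑ v ∈ verts K, l v * l' v = ∑ w ∈ S', ev K (χ w) l * ev K (χ w) l' ∧
    ∑ v ∈ verts K, l v ^ 2 * l' v ^ 2 = ∑ w ∈ S', ev K (χ w) l ^ 2 * ev K (χ w) l' ^ 2

/-- entries in `{0, 1, -1}` -/
def Z1 {n : ℕ} (c : Vec n → ℤ) : Prop := ∀ v, c v = 0 ∨ c v = 1 ∨ c v = -1

/-- the integral relation `c` as a real one -/
def rl {n : ℕ} (c : Vec n → ℤ) : Vec n → ℝ := fun v => (c v : ℝ)

/-- MIXED IDENTITIES. `StPw` for `k = 1` (`Nb K 3` by `Nb_mono`) and `k = 2`, and `StPol` for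
`V = VK K`, `f v = fv K v`, `g w = gv K (χ w)`, `M = 2`, `H = [l, l']` and `M = 4`,
`H = [l, l, l', l']`. -/
def StQ : Prop := ∀ (n : ℕ) (K K' : Finset (Finset (Vec n))), IsFan K → IsFan K' →
  ∀ φ : Coh K ≃+* Coh K', Grd K K' φ → φ (pont K) = pont K' → Nb K 5 →
  ∀ χ : Vec n → Vec n → ℤ, (∀ w, φ (cl K (χ w)) = cls K' w) → Q2 K (verts K') χ

/-- VALUES ON BOUNDED RELATIONS. `e w = ev K (χ w) (rl c)` is (the cast of) an integer. `Q2` for
`l = l' = rl c`: `∑ e w ^ 2 = ∑ c v ^ 2`, `∑ e w ^ 4 = ∑ c v ^ 4`, and `c v ^ 4 = c v ^ 2`. So the sum of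
the terms `e w ^ 2 * (e w ^ 2 - 1) ≥ 0` is zero: all are zero. Then `|e w| = e w ^ 2`,
`|c v| = c v ^ 2`. -/
def StUb : Prop := ∀ (n : ℕ) (K : Finset (Finset (Vec n))) (S' : Finset (Vec n))
  (χ : Vec n → Vec n → ℤ), Q2 K S' χ → ∀ c : Vec n → ℤ, rl c ∈ VK K → Z1 c →
  (∀ w ∈ S', ev K (χ w) (rl c) = 0 ∨ ev K (χ w) (rl c) = 1 ∨ ev K (χ w) (rl c) = -1) ∧
  ∑ v ∈ verts K, |rl c v| = ∑ w ∈ S', |ev K (χ w) (rl c)|

/-- CONFORMAL PAIRS. `x w = ev K (χ w) (rl c) * ev K (χ w) (rl c')` is `0`, `1` or `-1` (`StUb`);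
`c v * c' v` is `0` or `1`, so `∑ x w = ∑ c v * c' v = ∑ (c v * c' v) ^ 2 = ∑ x w ^ 2` (`Q2`): the sum of
the terms `x w ^ 2 - x w ≥ 0` is zero, so `x w ≥ 0`. -/
def StUc : Prop := ∀ (n : ℕ) (K : Finset (Finset (Vec n))) (S' : Finset (Vec n))
  (χ : Vec n → Vec n → ℤ), Q2 K S' χ → ∀ c c' : Vec n → ℤ, rl c ∈ VK K → rl c' ∈ VK K →
  Z1 c → Z1 c' → (∀ v, 0 ≤ c v * c' v) →
  ∀ w ∈ S', 0 ≤ ev K (χ w) (rl c) * ev K (χ w) (rl c')

/-- MINIMAL SUPPORT. Choose `m` in `VK K`, `m ≠ 0`, with `∀ v, m v ≠ 0 → 0 < m v * l v` (`l` is one) and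
`((verts K).filter (m v ≠ 0)).card` minimal. Let `m' ∈ VK K` be supported in the support of `m`, and
suppose it is not a multiple of `m`. Replace `m'` by `- m'` if necessary: `m' v * m v > 0` for some
`v`. Let `t > 0` be the minimum of `m v / m' v` over the `v` with `m' v * m v > 0`. Then
`m - t • m'` is not zero, has the signs of `m` (or zero) everywhere and vanishes at one more ray:
contradiction. -/
def StCa : Prop := ∀ (n : ℕ) (K : Finset (Finset (Vec n))), ∀ l ∈ VK K, l ≠ 0 →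
  ∃ m ∈ VK K, m ≠ 0 ∧ (∀ v, m v ≠ 0 → 0 < m v * l v) ∧
    ∀ m' ∈ VK K, (∀ v, m' v ≠ 0 → m v ≠ 0) → ∃ a : ℝ, m' = a • m

/-- EXTENSION of independent rays to `n` independent rays (the rays span, because there is a maximal
cone: `aNear` with `Ω = univ`, `κ = ∅`, `aDual`; `exists_linearIndependent_extension`). -/
def StEx : Prop := ∀ (n : ℕ) (K : Finset (Finset (Vec n))), IsFan K → ∀ B ⊆ verts K,
  (∀ c : Vec n → ℝ, lin B c = 0 → ∀ v ∈ B, c v = 0) → ∃ σ ⊆ verts K, B ⊆ σ ∧ σ.card = n ∧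
    ∀ c : Vec n → ℝ, lin σ c = 0 → ∀ v ∈ σ, c v = 0

/-- CIRCUITS ARE UNIMODULAR. Let `v0` be a ray with `m v0 ≠ 0`, `B` the set of the other rays `v` with
`m v ≠ 0`. `B` is independent: a relation on `B` extended by zero is a multiple `a • m`, at `v0`:
`a = 0`. `StEx`: `σ`, a lattice basis (`Unim`). `v0 = ∑ b ∈ σ, a b • b` with integers (`aDual`, last
part). `m` and `m v0 • (δ_v0 - ∑ a b δ_b)` are two relations with the same value at `v0 ∉ σ` (if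
`v0 ∈ σ`, `m` would be a relation in `σ`, so zero), so their difference is a relation in `σ`, zero.
So `a b ≠ 0` iff `b ∈ B`. For `b ∈ B` the set `σ' = insert v0 (σ.erase b)` is independent (`a b ≠ 0`)
with `n` elements, so a lattice basis: `b = e • v0 + ...` with an integer `e`; comparing the
coefficients of `b` in `σ`: `1 = e * a b`, so `a b = ± 1`. `a = |m v0|`, `c` = the sign of `m v0` times
`δ_v0 - ∑ a b δ_b`. -/
def StCb : Prop := ∀ (n : ℕ) (K : Finset (Finset (Vec n))), IsFan K → Unim K →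
  ∀ m ∈ VK K, m ≠ 0 → (∀ m' ∈ VK K, (∀ v, m' v ≠ 0 → m v ≠ 0) → ∃ a : ℝ, m' = a • m) →
  ∃ a : ℝ, 0 < a ∧ ∃ c : Vec n → ℤ, Z1 c ∧ m = a • rl c

/-- CONFORMAL CIRCUIT. `StCa`, `StCb`: `rl c = a⁻¹ • m`. -/
def StCirc : Prop := ∀ (n : ℕ) (K : Finset (Finset (Vec n))), IsFan K → Unim K →
  ∀ l ∈ VK K, l ≠ 0 → ∃ c : Vec n → ℤ, rl c ∈ VK K ∧ Z1 c ∧ (∃ v, c v ≠ 0) ∧
    ∀ v, c v ≠ 0 → 0 < rl c v * l v

/-- CONFORMAL DECOMPOSITION. Induction on the number of rays with `l v ≠ 0`. `l = 0`: the empty list.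
Otherwise `c` from `StCirc`, `a = min |l v|` over the `v` with `c v ≠ 0`, `l' = l - a • rl c`: for
`c v ≠ 0`, `l' v` is zero or has the sign of `l v` (`l v = |l v| * c v`), for `c v = 0` it is `l v`;
it vanishes at one more ray. The list of `l'` with `(a, c)` added. -/
def StCd : Prop := ∀ (n : ℕ) (K : Finset (Finset (Vec n))), IsFan K → Unim K →
  ∀ l ∈ VK K, ∃ A : List (ℝ × (Vec n → ℤ)),
    (∀ p ∈ A, 0 < p.1 ∧ rl p.2 ∈ VK K ∧ Z1 p.2 ∧ ∀ v, p.2 v ≠ 0 → 0 < rl p.2 v * l v) ∧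
    l = (A.map (fun p => p.1 • rl p.2)).sum

/-- EQUALITY OF NORMS. `A` from `StCd`. `|l v| = (A.map (fun p => p.1 * |rl p.2 v|)).sum` (the numbers
`rl p.2 v` have the sign of `l v` or are zero). `ev K (χ w) l = (A.map (fun p => p.1 * ev K (χ w)
(rl p.2))).sum` (`ev` is linear in `l`); for `p, q ∈ A` the vectors `p.2`, `q.2` are conformal, so
by `StUc` the numbers `ev K (χ w) (rl p.2)`, `p ∈ A`, have pairwise products `≥ 0`, so the absolute
value of the sum is the sum of the absolute values (all are `≥ 0` or all are `≤ 0`). Sum over `v`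
and over `w`, exchange the sums, `StUb`. -/
def StNn : Prop := ∀ (n : ℕ) (K : Finset (Finset (Vec n))) (S' : Finset (Vec n))
  (χ : Vec n → Vec n → ℤ), IsFan K → Unim K → Q2 K S' χ → ∀ l ∈ VK K,
  ∑ v ∈ verts K, |l v| = ∑ w ∈ S', |ev K (χ w) l|

/-- AVOIDING SUBSPACES. There is `x` in the kernel of `h` with `f x ≠ 0` for all `f ∈ F`, if no
`f ∈ F` is a multiple of `h` (`f` is a multiple of `h` iff it vanishes on `ker h`:
`mem_span_of_iInf_ker_le_ker`; the real vector space `ker h` is not a finite union of proper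
subspaces, `Subspace.biUnion_ne_univ_of_top_notMem`, see `PB/Gen.lean`, `SR/Gn.lean`). -/
def StAv : Prop := ∀ (V : Type) [AddCommGroup V] [Module ℝ V] (h : V →ₗ[ℝ] ℝ)
  (F : Finset (V →ₗ[ℝ] ℝ)), (∀ f ∈ F, ∀ c : ℝ, f ≠ c • h) → ∃ x : V, h x = 0 ∧ ∀ f ∈ F, f x ≠ 0

open Classical in
/-- KINKS. `x` from `StAv` for the set of the `f v`, `g w` which are not multiples of `h`. Let
`ε > 0` with `ε * |f v d| < |f v x|`, `ε * |g w d| < |g w x|` for those. In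
`N (x + ε d) + N (x - ε d) - 2 N x` (`N` = either sum) a multiple of `h` contributes
`2 ε |f v d|` (`f v x = 0`), the others nothing. -/
def StKk : Prop := ∀ (V : Type) [AddCommGroup V] [Module ℝ V] (n : ℕ)
  (S S' : Finset (Vec n)) (f g : Vec n → V →ₗ[ℝ] ℝ),
  (∀ x, ∑ v ∈ S, |f v x| = ∑ w ∈ S', |g w x|) → ∀ (h : V →ₗ[ℝ] ℝ) (d : V),
  ∑ v ∈ S.filter (fun v => ∃ c : ℝ, f v = c • h), |f v d| =
    ∑ w ∈ S'.filter (fun w => ∃ c : ℝ, g w = c • h), |g w d|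

/-- BIJECTION. (1) For `w ∈ S'`: `StKk` for `h = g w`, `d` with `g w d ≠ 0`: there is `v ∈ S` with
`f v = c • g w`, `c ≠ 0`, so `g w = c⁻¹ • f v`, so `g w = ± f v`. (2) For `v0 ∈ S`: `StKk` for
`h = f v0`, `d` with `f v0 d ≠ 0`: the cardinalities of `{v | f v = f v0}` and of
`{w | g w = f v0 ∨ g w = - f v0}` agree. (3) As in `SR/MomC.lean` (landed): `a v = f v`,
`b w` = the `f v` with `g w = ± f v`, `StMbg`. -/
def StKb : Prop := ∀ (V : Type) [AddCommGroup V] [Module ℝ V] (n : ℕ)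
  (S S' : Finset (Vec n)) (f g : Vec n → V →ₗ[ℝ] ℝ),
  (∀ x, ∑ v ∈ S, |f v x| = ∑ w ∈ S', |g w x|) → (∀ w ∈ S', g w ≠ 0) →
  (∀ v ∈ S, f v ≠ 0) → (∀ v ∈ S, ∀ v' ∈ S, ∀ c : ℝ, f v = c • f v' → f v = f v') →
  (∀ w ∈ S', ∀ v ∈ S, ∀ c : ℝ, g w = c • f v → g w = f v ∨ g w = -f v) →
  ∃ u : Vec n → Vec n, Set.BijOn u S S' ∧ ∀ v ∈ S, g (u v) = f v ∨ g (u v) = -f v

/-- BIJECTION OF THE RAYS. As `SR/Bij2.lean` (landed), with `StQ`, `StNn`, `StKb` instead of `StPw`,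
`StMomC`: `V = VK K`, `f v = fv K v`, `g w = gv K (χ w)`, `χ w` with `φ (cl K (χ w)) = cls K' w`,
`S = verts K`, `S' = verts K'`. -/
def StBijU : Prop := ∀ (n : ℕ) (K K' : Finset (Finset (Vec n))), IsFan K → IsFan K' → Unim K →
  Nb K 5 → ∀ φ : Coh K ≃+* Coh K', Grd K K' φ → φ (pont K) = pont K' →
  ∃ (u : Vec n → Vec n) (ε : Vec n → ℤ), Set.BijOn u (verts K) (verts K') ∧
    (∀ v, ε v = 1 ∨ ε v = -1) ∧ ∀ v ∈ verts K, φ (cls K v) = ε v • cls K' (u v)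

/-- WEDGES. `verts_wedge`. Let `s` be a set of `n + 1` independent rays of the wedge, `t` the set of the
`w` with `up 0 w ∈ s`. Both `w1, w2 ∈ s`: `s = insert w1 (insert (w2 v) (lift t))`, `v ∉ t`, and
`insert v t` has `n` elements and is independent (`up 0 v = w1 + w2 v`; a relation downstairs gives one
upstairs), so `Uni`, it is `univ.image b` for a basis `b`, and `StUp2`. Only `w1`: `t` has `n`
elements, independent, `Uni`, `StUp` with `y = 0`, `a = 1`; only `w2`: `StUp` with `y = v`, `a = -1`.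
None: `lift t` with `n + 1` elements is dependent. -/
def StWUm : Prop := ∀ (n : ℕ) (K : Finset (Finset (Vec n))) (v : Vec n), IsFan K →
  v ∈ verts K → Unim K → Unim (wedge K v)

/-- THEOREM, unimodular rays. `StBijU`, `StRay`, `StCon`. -/
def ThmU : Prop := ∀ (n : ℕ) (K K' : Finset (Finset (Vec n))), IsFan K → IsFan K' → Unim K →
  (∀ s ⊆ verts K, s.card ≤ 4 → s ∈ K) →
  ∀ φ : Coh K ≃+* Coh K', (∀ y, y ∈ H2 K ↔ φ y ∈ H2 K') → φ (pont K) = pont K' →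
  ∃ (g : Vec n ≃ₗ[ℤ] Vec n) (ε : Vec n → ℤ), (∀ v, ε v = 1 ∨ ε v = -1) ∧
    K' = K.image (fun s => s.image (fun v => ε v • g v)) ∧
    ∀ v ∈ verts K, φ (cls K v) = ε v • cls K' (ε v • g v)

/-- THEOREM, wedges of unimodular fans. `StWInv`, `StWUm`, `StWEv` with `T = 4`. -/
def ThmUB : Prop := ∀ (n : ℕ) (K : Finset (Finset (Vec n))), IsFan K → Unim K →
  (∀ (m : ℕ) (L : Finset (Finset (Vec m))), Wedges n K m L → IsFan L ∧ Unim L) ∧
  ∃ (m : ℕ) (L : Finset (Finset (Vec m))), Wedges n K m L ∧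
    ∀ (m' : ℕ) (L' : Finset (Finset (Vec m'))), Wedges m L m' L' →
      ∀ s ⊆ verts L', s.card ≤ 4 → s ∈ L'

end ToricSR
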