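import Pool.Agent.Lib.MP_3d51eb_gt.SR.Spec3
import Pool.Agent.Lib.MP_3d51eb_gt.SR.Defs6

set_option autoImplicit false

/-!
# project SR: PM2 (circuits bounded by an odd `M`, `2 M` rays, the Pontrjagin classes up to `p_M`)

Note 5612. `StCirc4`, `StCd4`, `StWc4`, `StMn`, `StMx` are as in the earlier version (PM).
-/

noncomputable section

namespace ToricSR

open Finset MvPolynomial ToricPB

/-- entries of absolute value at most `M` -/
def ZM {n : ℕ} (M : ℕ) (c : Vec n → ℤ) : Prop := ∀ v, |c v| ≤ (M : ℤ)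

/-- power identities for the exponents `2, 4, .., 2 B` -/
def QP {n : ℕ} (K : Finset (Finset (Vec n))) (S' : Finset (Vec n)) (χ : Vec n → Vec n → ℤ)
    (B : ℕ) : Prop := ∀ l ∈ VK K, ∀ k, 1 ≤ k → k ≤ B →
  ∑ v ∈ verts K, l v ^ (2 * k) = ∑ w ∈ S', ev K (χ w) l ^ (2 * k)

/-- ELEMENTARY SYMMETRIC FUNCTIONS. `Ψ : Coh K →+* Tr (2 * M + 1)` of `StHom` for `l`.
`φ.symm (cls K' w) = cl K (χ w)`, so `Ψ (φ.symm (cls K' w)) = lt _ (ev K (χ w) l)`. Apply `Ψ` to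
`pk K j = φ.symm (pk K' j)`: `Ψ (pk K j) = ∑ s, ∏ v ∈ s, lt _ (l v) ^ 2` is the class of
`C (e_j) * X ^ (2 * j)`, `e_j` the elementary symmetric function of the `l v ^ 2`
(`Finset.esymm_map_val`), the other side the same for the `ev K (χ w) l ^ 2`; `2 * j < 2 * M + 1`:
compare the coefficients of `X ^ (2 * j)` (`Ideal.Quotient.eq`, `Ideal.mem_span_singleton`,
`Polynomial.X_pow_dvd_iff`). `j = 0`: both are `1`. -/
def StE6 : Prop := ∀ (n : ℕ) (K K' : Finset (Finset (Vec n))), IsFan K → IsFan K' →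
  ∀ φ : Coh K ≃+* Coh K', ∀ M : ℕ, Nb K (2 * M + 1) →
  (∀ k, 1 ≤ k → k ≤ M → φ (pk K k) = pk K' k) →
  ∀ χ : Vec n → Vec n → ℤ, (∀ w, φ (cl K (χ w)) = cls K' w) → ∀ l ∈ VK K, ∀ j ≤ M,
  ((verts K).val.map (fun v => l v ^ 2)).esymm j =
    ((verts K').val.map (fun w => ev K (χ w) l ^ 2)).esymm j

/-- POWER SUMS. `StE6`, `StNw` (as in the landed `SR/Pw.lean`). -/
def StQ6 : Prop := ∀ (n : ℕ) (K K' : Finset (Finset (Vec n))), IsFan K → IsFan K' →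
  ∀ φ : Coh K ≃+* Coh K', ∀ M : ℕ, Nb K (2 * M + 1) →
  (∀ k, 1 ≤ k → k ≤ M → φ (pk K k) = pk K' k) →
  ∀ χ : Vec n → Vec n → ℤ, (∀ w, φ (cl K (χ w)) = cls K' w) → QP K (verts K') χ M

open Classical in
/-- COUNTING. `R x = 1 - ∏ j ∈ Icc 1 M, (1 - x ^ 2 / j ^ 2) = ∑ k ∈ Icc 1 M, r k * x ^ (2 * k)`: `R 0 = 0`,
`R x = 1` for the integers `1 ≤ |x| ≤ M`, `R x ≥ 1` for `|x| > M` (`M` odd: all `M` factors are
negative). So `#{w | e w ≠ 0} ≤ ∑ R (e w) = ∑ R (c v) = #{v | c v ≠ 0}`. -/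
def StPd : Prop := ∀ (n : ℕ) (S S' : Finset (Vec n)) (c e : Vec n → ℤ) (M : ℕ), Odd M →
  (∀ k, 1 ≤ k → k ≤ M → ∑ v ∈ S, (c v : ℝ) ^ (2 * k) = ∑ w ∈ S', (e w : ℝ) ^ (2 * k)) →
  (∀ v ∈ S, |c v| ≤ (M : ℤ)) →
  (S'.filter (fun w => e w ≠ 0)).card ≤ (S.filter (fun v => c v ≠ 0)).card

open Classical in
/-- The same for integral relations: `e w = ∑ v ∈ verts K, χ w v * c v`, its cast is
`ev K (χ w) (rl c)`. `StPd`. -/
def StIi : Prop := ∀ (n : ℕ) (K : Finset (Finset (Vec n))) (S' : Finset (Vec n))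
  (χ : Vec n → Vec n → ℤ) (M : ℕ), Odd M → QP K S' χ M → ∀ c : Vec n → ℤ, rl c ∈ VK K →
  ZM M c → (S'.filter (fun w => ev K (χ w) (rl c) ≠ 0)).card ≤
    ((verts K).filter (fun v => rl c v ≠ 0)).card

open Classical in
/-- CNT (linear algebra, note 5612 (c)). `V_U = {x | ∀ v ∈ U, f v x = 0}`, spanned by `C ∩ V_U`
(second hypothesis). `S(U)` = the `v ∈ S` with `f v ≠ 0` on `V_U`, `W(U)` = the `w ∈ S'` with `g w ≠ 0` on
`V_U`. CLAIM: `|W(U)| ≤ |S(U)|`, and if equal, every `g w`, `w ∈ W(U)`, is a multiple of some `f u`,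
`u ∈ S(U)`, on `V_U`, and `a_u = b_u` for all `u ∈ S(U)` (`a_u`, `b_u` = numbers of the `v`, `w` whose
functional is, on `V_U`, a nonzero multiple of `f u`). Induction on `|S(U)|`. For `u ∈ S(U)`:
`|S(U + u)| = |S(U)| - a_u`, `|W(U + u)| = |W(U)| - b_u`, so `|W(U)| - b_u ≤ |S(U)| - a_u`. If
`|W(U)| ≥ |S(U)|`: `b_u ≥ a_u`, and for `c ∈ C ∩ V_U`: `#{w | g w c ≠ 0} ≥ ∑ b_u + #{w outside} ≥ ∑ a_u =
#{v | f v c ≠ 0} ≥ #{w | g w c ≠ 0}` (sums over the classes with `f u c ≠ 0`). So `b_u = a_u` for these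
`u`, `|W(U)| = |S(U)|`, and the `w` outside the classes vanish on `C ∩ V_U`, so on `V_U`. `U = ∅`,
`S.card = S'.card`: equality. -/
def StCnt : Prop := ∀ (V : Type) [AddCommGroup V] [Module ℝ V] (n : ℕ) (S S' : Finset (Vec n))
  (f g : Vec n → V →ₗ[ℝ] ℝ) (C : Set V), (∀ x : V, (∀ v ∈ S, f v x = 0) → x = 0) →
  (∀ x : V, x ∈ Submodule.span ℝ {c ∈ C | ∀ v ∈ S, f v x = 0 → f v c = 0}) →
  (∀ c ∈ C, (S'.filter (fun w => g w c ≠ 0)).card ≤ (S.filter (fun v => f v c ≠ 0)).card) →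
  (∀ v ∈ S, f v ≠ 0) → (∀ w ∈ S', g w ≠ 0) → S.card = S'.card →
  (∀ w ∈ S', ∃ v ∈ S, ∃ c : ℝ, g w = c • f v) ∧
  ∀ u ∈ S, (S.filter (fun v => ∃ c : ℝ, f v = c • f u)).card =
    (S'.filter (fun w => ∃ c : ℝ, g w = c • f u)).card

open Classical in
/-- BIJECTION. `a v = f v`, `b w` = an `f v` with `g w = ± f v` (choice), `StMbg` (as in the landed
`SR/MomC.lean`, `SR/Kb.lean`). Fibres over `f u`: `{v | f v = f u} = {v | ∃ c, f v = c • f u}`,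
`{w | b w = f u} = {w | ∃ c, g w = c • f u}` (hypotheses on pairs; `f v = - f u` implies
`f v = f u`). -/
def StBf6 : Prop := ∀ (V : Type) [AddCommGroup V] [Module ℝ V] (n : ℕ) (S S' : Finset (Vec n))
  (f g : Vec n → V →ₗ[ℝ] ℝ), (∀ w ∈ S', ∃ v ∈ S, ∃ c : ℝ, g w = c • f v) →
  (∀ u ∈ S, (S.filter (fun v => ∃ c : ℝ, f v = c • f u)).card =
    (S'.filter (fun w => ∃ c : ℝ, g w = c • f u)).card) →
  (∀ v ∈ S, ∀ v' ∈ S, ∀ c : ℝ, f v = c • f v' → f v = f v') →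
  (∀ w ∈ S', ∀ v ∈ S, ∀ c : ℝ, g w = c • f v → g w = f v ∨ g w = -f v) →
  ∃ u : Vec n → Vec n, Set.BijOn u S S' ∧ ∀ v ∈ S, g (u v) = f v ∨ g (u v) = -f v

/-- CONFORMAL CIRCUIT (variant of `SR/Circ.lean`). `StCa`: `m`. `Circ`: `m = a • rl c`; `a ≠ 0` since
`m ≠ 0`. If `a < 0` replace `a`, `c` by `- a`, `- c`. `rl c = a⁻¹ • m`. -/
def StCirc4 : Prop := ∀ (n : ℕ) (K : Finset (Finset (Vec n))) (M : ℕ), Circ K M →
  ∀ l ∈ VK K, l ≠ 0 → ∃ c : Vec n → ℤ, rl c ∈ VK K ∧ ZM M c ∧ (∃ v, c v ≠ 0) ∧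
    ∀ v, c v ≠ 0 → 0 < rl c v * l v

/-- CONFORMAL DECOMPOSITION (variant of `SR/Cd.lean`). Induction on the number of rays with `l v ≠ 0`.
`l = 0`: the empty list. Otherwise `c` from `StCirc4`, `a = min |l v| / |c v|` over the `v` with
`c v ≠ 0`, `l' = l - a • rl c`: where `c v ≠ 0`, `l' v` is zero or has the sign of `l v` (`l v` and `c v`
have the same sign and `a * |c v| ≤ |l v|`), where `c v = 0` it is `l v`; it vanishes at one more ray.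
The list of `l'` with `(a, c)` added. -/
def StCd4 : Prop := ∀ (n : ℕ) (K : Finset (Finset (Vec n))) (M : ℕ), Circ K M →
  ∀ l ∈ VK K, ∃ A : List (ℝ × (Vec n → ℤ)),
    (∀ p ∈ A, 0 < p.1 ∧ rl p.2 ∈ VK K ∧ ZM M p.2 ∧ ∀ v, p.2 v ≠ 0 → 0 < rl p.2 v * l v) ∧
    l = (A.map (fun p => p.1 • rl p.2)).sum

/-- SPAN. `StCd4`: `x` is a combination of the `rl p.2`, and `x v = 0` implies `p.2 v = 0`. -/
def StSp6 : Prop := ∀ (n : ℕ) (K : Finset (Finset (Vec n))) (M : ℕ), Circ K M → ∀ x : VK K,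
  x ∈ Submodule.span ℝ {y ∈ {z : VK K | ∃ c : Vec n → ℤ, ZM M c ∧ z.1 = rl c} |
    ∀ v ∈ verts K, fv K v x = 0 → fv K v y = 0}

/-- BIJECTION OF THE RAYS. As the landed `SR/BijU.lean`: `V = VK K`, `f v = fv K v`,
`g w = gv K (χ w)`, `χ w` with `φ (cl K (χ w)) = cls K' w`, `S = verts K`, `S' = verts K'`. `StQ6`:
`QP`. `StCnt` for `C = {z | ∃ c, ZM M c ∧ z.1 = rl c}`: common kernel zero by definition of `VK`,
`StSp6`, `StIi`, `f v ≠ 0` (`StRel`), `g w ≠ 0` (`StSgn`), `StCard`. Then `StBf6` (`StSgn`), and the end of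
`SR/BijU.lean`. -/
def StBij6 : Prop := ∀ (n : ℕ) (K K' : Finset (Finset (Vec n))), IsFan K → IsFan K' → ∀ M : ℕ,
  Odd M → Circ K M → Nb K (2 * M + 1) → ∀ φ : Coh K ≃+* Coh K', Grd K K' φ →
  (∀ k, 1 ≤ k → k ≤ M → φ (pk K k) = pk K' k) →
  ∃ (u : Vec n → Vec n) (ε : Vec n → ℤ), Set.BijOn u (verts K) (verts K') ∧
    (∀ v, ε v = 1 ∨ ε v = -1) ∧ ∀ v ∈ verts K, φ (cls K v) = ε v • cls K' (u v)

/-- WEDGES. `W = wedge K v`, `verts_wedge`. For `l ∈ VK W`: the coordinate `0` gives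
`l w1 = l (w2 v)`, the others `l (w2 v) * v i + ∑ w ∈ (verts K).erase v, l (up 0 w) * w i = 0`. So
`D l w = if w = v then l (w2 v) else l (up 0 w)` is in `VK K`. For `m ∈ VK K` let
`U m x = if x ∈ verts W then m (s x) else 0`, `s x = if x 0 = 0 then Fin.tail x else v`; `U m ∈ VK W`,
`U` and `D` are linear and inverse to each other. Let `l ∈ VK W` have minimal support. If `m' ∈ VK K` is
supported in the support of `D l`, then `U m'` in the one of `l`, so `U m' = a • l`,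
`m' = D (U m') = a • D l`. So `Circ K M` gives `D l = a • c`, and `l = U (D l) = a • (U c)`. -/
def StWc4 : Prop := ∀ (n : ℕ) (K : Finset (Finset (Vec n))) (v : Vec n), IsFan K →
  v ∈ verts K → ∀ M : ℕ, Circ K M → Circ (wedge K v) M

/-- MINORS. Let `l` have minimal support, `l v0 ≠ 0` (`l = 0` is trivial), `B` the set of the other rays
of the support: independent (a relation on `B` extended by zero is a multiple of `l`, zero at `v0`).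
`StEx`: `σ ⊇ B`, `n` independent rays, `v0 ∉ σ` (otherwise `l` would be a relation on `σ`, zero).
`b : Fin n → Vec n` enumerates `σ`, `A = (Matrix.of b)ᵀ`, `Δ = det A ≠ 0` (independence,
`Matrix.exists_mulVec_eq_zero_iff`). `Matrix.mulVec_cramer`: `Δ • v0 = ∑ i, A.cramer v0 i • b i`,
`A.cramer v0 i` is the determinant of `b` with `b i` replaced by `v0`, so all are `≤ M` in absolute
value. `c = Δ` at `v0`, `- A.cramer v0 i` at `b i`. `l - (l v0 / Δ) • c` is a relation on `σ`, zero. -/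
def StMn : Prop := ∀ (n : ℕ) (K : Finset (Finset (Vec n))), IsFan K → ∀ M : ℕ,
  Minors K M → Circ K M

/-- BOUND FOR THE MINORS (finitely many families of rays). -/
def StMx : Prop := ∀ (n : ℕ) (K : Finset (Finset (Vec n))), ∃ M : ℕ, 1 ≤ M ∧ Minors K M

/-- THEOREM, part 1 (as `SR/ThmU.lean`). `StBij6`, `StRay`, `StCon`. -/
def ThmM6 : Prop := ∀ (n : ℕ) (K K' : Finset (Finset (Vec n))), IsFan K → IsFan K' → ∀ M : ℕ,
  Odd M → Circ K M → (∀ s ⊆ verts K, s.card ≤ 2 * M → s ∈ K) →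
  ∀ φ : Coh K ≃+* Coh K', (∀ y, y ∈ H2 K ↔ φ y ∈ H2 K') →
  (∀ k, 1 ≤ k → k ≤ M → φ (pk K k) = pk K' k) →
  ∃ (g : Vec n ≃ₗ[ℤ] Vec n) (ε : Vec n → ℤ), (∀ v, ε v = 1 ∨ ε v = -1) ∧
    K' = K.image (fun s => s.image (fun v => ε v • g v)) ∧
    ∀ v ∈ verts K, φ (cls K v) = ε v • cls K' (ε v • g v)

/-- THEOREM, part 2 (as `SR/ThmUB.lean`). `StWInv`, `StWc4`, `StWEv` with `T = 2 * M`. -/
def ThmM6B : Prop := ∀ (n : ℕ) (K : Finset (Finset (Vec n))), IsFan K → ∀ M : ℕ, Circ K M →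
  (∀ (m : ℕ) (L : Finset (Finset (Vec m))), Wedges n K m L → IsFan L ∧ Circ L M) ∧
  ∃ (m : ℕ) (L : Finset (Finset (Vec m))), Wedges n K m L ∧
    ∀ (m' : ℕ) (L' : Finset (Finset (Vec m'))), Wedges m L m' L' →
      ∀ s ⊆ verts L', s.card ≤ 2 * M → s ∈ L'

end ToricSR
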