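import Pool.Agent.Lib.MP_3d51eb_gt.SR.Bij2p
import Pool.Agent.Lib.MP_3d51eb_gt.SR.All

set_option autoImplicit false

/-! # project SR: assembly of part 1 with the first Pontrjagin classes only -/

noncomputable section

namespace ToricSR

open Finset MvPolynomial ToricPB

/-- THEOREM, part 1, with the first Pontrjagin classes only. -/
def ThmA2p : Prop := ∀ (n : ℕ) (K K' : Finset (Finset (Vec n))), IsFan K → IsFan K' → Stab K →
  ∀ φ : Coh K ≃+* Coh K', (∀ y, y ∈ H2 K ↔ φ y ∈ H2 K') →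
  (∀ k, 1 ≤ k → k ≤ nc K + n + 2 - (verts K).card → φ (pk K k) = pk K' k) →
  ∃ (g : Vec n ≃ₗ[ℤ] Vec n) (ε : Vec n → ℤ), (∀ v, ε v = 1 ∨ ε v = -1) ∧
    K' = K.image (fun s => s.image (fun v => ε v • g v)) ∧
    ∀ v ∈ verts K, φ (cls K v) = ε v • cls K' (ε v • g v)

theorem tThmA2p (h1 : StBij2p) (h2 : StRay) (h3 : StCon) : ThmA2p := by
  intro n K K' hK hK' hS φ hφ hp
  obtain ⟨u, ε, hu, hε, hcls⟩ := h1 n K K' hK hK' hS φ hφ hp
  obtain ⟨g, hg⟩ := h2 n K K' hK hK' φ u ε hu hε hcls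
  have hcon := h3 n K K' hK hK' φ u ε hu hε hcls
  have himg : ∀ s : Finset (Vec n), s ⊆ verts K →
      s.image u = s.image (fun v => ε v • g v) := by
    intro s hs
    refine Finset.image_congr (fun v hv => ?_)
    exact hg v (hs hv)
  refine ⟨g, ε, hε, ?_, fun v hv => by rw [← hg v hv]; exact hcls v hv⟩
  ext s'
  rw [Finset.mem_image]
  constructor
  · intro hs'
    have hsub : (verts K).filter (fun v => u v ∈ s') ⊆ verts K := Finset.filter_subset _ _
    have hi : ((verts K).filter (fun v => u v ∈ s')).image u = s' := by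
      ext w
      rw [Finset.mem_image]
      constructor
      · rintro ⟨v, hv, rfl⟩
        exact (Finset.mem_filter.1 hv).2
      · intro hw
        have hwK : w ∈ verts K' := mem_verts_of_mem hs' hw
        obtain ⟨v, hv, rfl⟩ := hu.surjOn hwK
        exact ⟨v, Finset.mem_filter.2 ⟨hv, hw⟩, rfl⟩
    refine ⟨(verts K).filter (fun v => u v ∈ s'), ?_, ?_⟩
    · rw [hcon _ hsub, hi]; exact hs'
    · rw [← himg _ hsub, hi]
  · rintro ⟨s, hs, rfl⟩
    have hsub : s ⊆ verts K := fun v hv => mem_verts_of_mem hs hv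
    rw [← himg s hsub, ← hcon s hsub]
    exact hs

theorem aBij2p : StBij2p := tBij2p aRel aH2z aPerp aDim aRk aHom aNw aMomC aSgn
theorem aThmA2p : ThmA2p := tThmA2p aBij2p aRay aCon

end ToricSR
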