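import Pool.Agent.Lib.MP_3d51eb_gt.SR.Spec

/-!
# project SR: every fan has a stable iterated simplicial wedge

Induction on the measure `∑ B ∈ mf L, (4 * nc K + 1 - B.card)` over the fans `L` obtained from `K` by
simplicial wedges.
-/

set_option autoImplicit false

noncomputable section

namespace ToricSR

open Finset MvPolynomial ToricPB

private lemma ThmB_key (h1 : StWFan) (h2 : StWNc) (h3 : StWMu) (h4 : StMf) (n : ℕ)
    (K : Finset (Finset (Vec n))) : ∀ (N m : ℕ) (L : Finset (Finset (Vec m))),
    Wedges n K m L → IsFan L → nc L ≤ nc K → ∑ B ∈ mf L, (4 * nc K + 1 - B.card) < N →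
    ∃ (m' : ℕ) (L' : Finset (Finset (Vec m'))), Wedges n K m' L' ∧ IsFan L' ∧ Stable L' := by
  intro N
  induction N with
  | zero => intro m L _ _ _ h; exact absurd h (Nat.not_lt_zero _)
  | succ N ih =>
    intro m L hW hL hc hN
    by_cases hs : ∀ B ∈ mf L, 4 * nc K < B.card
    · refine ⟨m, L, hW, hL, ?_⟩
      intro s hs' hcard
      by_contra hcon
      obtain ⟨B, hB, hBs⟩ := h4 m L s hs' hcon
      have h5 := hs B hB
      have h6 := Finset.card_le_card hBs
      omega
    · push Not at hs
      obtain ⟨B, hB, hBc⟩ := hs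
      have hB' : B ⊆ verts L ∧ B ∉ L := by
        have h7 := hB
        simp only [mf, Finset.mem_filter, Finset.mem_powerset] at h7
        exact ⟨h7.1, h7.2.1⟩
      have hne : B.Nonempty := by
        rw [Finset.nonempty_iff_ne_empty]
        rintro rfl
        exact hB'.2 hL.empty_mem
      obtain ⟨v, hv⟩ := hne
      have hvL : v ∈ verts L := hB'.1 hv
      have hF : IsFan (wedge L v) := h1 m L v hL hvL
      refine ih (m + 1) (wedge L v) (Wedges.step n m K L v hW hvL) hF
        (le_trans (h2 m L v hL hvL hF) hc) ?_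
      have h8 := h3 m L v (4 * nc K) hL hvL B hB hv hBc
      omega

theorem tThmB (h1 : StWFan) (h2 : StWNc) (h3 : StWMu) (h4 : StMf) : ThmB := by
  intro n K hK
  exact ThmB_key h1 h2 h3 h4 n K _ n K (Wedges.refl n K) hK le_rfl (Nat.lt_succ_self _)

end ToricSR
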