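import Pool.Agent.Lib.MP_3d51eb_gt.SR.Spec

set_option autoImplicit false

/-! # project SR: the stable range persists -/

noncomputable section

namespace ToricSR

open Finset MvPolynomial ToricPB

theorem tThmC (h1 : StWFan) (h2 : StWNc) (h3 : StWNb) : ThmC := by
  intro n m K L hK hS hW
  induction hW with
  | refl K => exact ⟨hK, hS⟩
  | step m K L v _ hv ih =>
    obtain ⟨hL, hSL⟩ := ih hK hS
    have hF := h1 m L v hL hv
    refine ⟨hF, ?_⟩
    rw [stable_iff] at hSL ⊢
    exact Nb_mono (h3 m L v hL hv _ hSL) (by have := h2 m L v hL hv hF; omega)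

end ToricSR
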