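import Pool.Agent.Lib.MP_3d51eb_gt.SR.Spec

/-!
# project SR, module Trw: products of linear truncated polynomials
-/

set_option autoImplicit false

noncomputable section

namespace ToricSR

open Finset MvPolynomial ToricPB

/-- the product of the linear polynomials is a monomial -/
private lemma Trw_prod {n : ℕ} (N : ℕ) (S : Finset (Vec n)) (c : Vec n → ℝ) :
    ∏ i ∈ S, lt N (c i) =
      Ideal.Quotient.mk (Ideal.span {(Polynomial.X : Polynomial ℝ) ^ N})
        (Polynomial.C (∏ i ∈ S, c i) * Polynomial.X ^ S.card) := by
  have h : (Polynomial.C (∏ i ∈ S, c i) * Polynomial.X ^ S.card : Polynomial ℝ) =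
      ∏ i ∈ S, (Polynomial.C (c i) * Polynomial.X) := by
    rw [map_prod, Finset.prod_mul_distrib, Finset.prod_const]
  rw [h, map_prod]
  exact Finset.prod_congr rfl (fun i _ => lt_eq N (c i))

/-- The product of `S.card` nonzero multiples of the variable vanishes modulo the `N`-th power only if
`N ≤ S.card`. -/
theorem tTrw : StTrw := by
  intro n N S c hc h
  by_contra hlt
  push Not at hlt
  rw [Trw_prod, Ideal.Quotient.eq_zero_iff_mem, Ideal.mem_span_singleton,
    Polynomial.X_pow_dvd_iff] at h
  have h2 := h S.card hlt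
  rw [Polynomial.coeff_C_mul, Polynomial.coeff_X_pow, if_pos rfl, mul_one] at h2
  exact Finset.prod_ne_zero_iff.2 hc h2

end ToricSR
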