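import Pool.Agent.Lib.MP_3d51eb_gt.SR.Spec

/-!
# project SR: missing faces of a simplicial wedge
-/

set_option autoImplicit false

noncomputable section

namespace ToricSR

open Finset MvPolynomial ToricPB

private lemma WMf_ne1 {n : ℕ} (w : Vec n) : up 0 w ≠ (w1 : Vec (n + 1)) := by
  intro h
  have := (up_inj h).1
  omega

private lemma WMf_ne2 {n : ℕ} (w v : Vec n) : up 0 w ≠ w2 v := by
  intro h
  have := (up_inj h).1
  omega

/-- the cone of `K` below a cone of the wedge -/
private lemma WMf_dec {n : ℕ} {K : Finset (Finset (Vec n))} {v : Vec n}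
    {S : Finset (Vec (n + 1))} {t : Finset (Vec n)} (hS : S ∈ wedge K v)
    (ht : ∀ w, up 0 w ∈ S ↔ w ∈ t) :
    t ∈ K ∧ (w1 ∈ S → w2 v ∈ S → insert v t ∈ K) := by
  obtain ⟨t', ht', hv', h⟩ := mem_wedge.1 hS
  have e : t = t' := by
    ext w
    rw [← ht w]
    rcases h with rfl | rfl | rfl | ⟨_, rfl⟩
    · exact up_mem_lift
    · rw [Finset.mem_insert, up_mem_lift]
      exact ⟨fun h => h.resolve_left (WMf_ne1 w), Or.inr⟩
    · rw [Finset.mem_insert, up_mem_lift]
      exact ⟨fun h => h.resolve_left (WMf_ne2 w v), Or.inr⟩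
    · rw [Finset.mem_insert, Finset.mem_insert, up_mem_lift]
      exact ⟨fun h => (h.resolve_left (WMf_ne1 w)).resolve_left (WMf_ne2 w v),
        fun h => Or.inr (Or.inr h)⟩
  subst e
  refine ⟨ht', fun a b => ?_⟩
  rcases h with rfl | rfl | rfl | ⟨h3, rfl⟩
  · exact absurd a w1_notMem_lift
  · rcases Finset.mem_insert.1 b with b | b
    · exact absurd b.symm w1_ne_w2
    · exact absurd b w2_notMem_lift
  · rcases Finset.mem_insert.1 a with a | a
    · exact absurd a w1_ne_w2
    · exact absurd a w1_notMem_lift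
  · exact h3

theorem tWMf : StWMf := by
  classical
  intro n K v hK hv S hS
  obtain ⟨hS1, hS2, hS3⟩ := Finset.mem_filter.1 hS
  rw [Finset.mem_powerset, verts_wedge hK hv] at hS1
  obtain ⟨t, ht⟩ : ∃ t, t = ((verts K).erase v).filter (fun w => up 0 w ∈ S) := ⟨_, rfl⟩
  have hup : ∀ w, up 0 w ∈ S ↔ w ∈ t := by
    intro w
    rw [ht, Finset.mem_filter]
    refine ⟨fun h => ⟨?_, h⟩, fun h => h.2⟩
    have h1 := hS1 h
    rw [Finset.mem_insert, Finset.mem_insert, up_mem_lift] at h1
    exact (h1.resolve_left (WMf_ne1 w)).resolve_left (WMf_ne2 w v)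
  have hvt : v ∉ t := by
    rw [ht, Finset.mem_filter]
    exact fun h => Finset.notMem_erase v _ h.1
  have htK : t ⊆ verts K := by
    rw [ht]
    exact (Finset.filter_subset _ _).trans (Finset.erase_subset _ _)
  have hcases : ∀ x ∈ S, x = w1 ∨ x = w2 v ∨ x ∈ lift t := by
    intro x hx
    have h1 := hS1 hx
    rw [Finset.mem_insert, Finset.mem_insert] at h1
    rcases h1 with h1 | h1 | h1
    · exact Or.inl h1
    · exact Or.inr (Or.inl h1)
    · obtain ⟨w, -, rfl⟩ := mem_lift.1 h1
      exact Or.inr (Or.inr (up_mem_lift.2 ((hup w).1 hx)))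
  have hlift : ∀ x ∈ lift t, x ∈ S := by
    intro x hx
    obtain ⟨w, hw, rfl⟩ := mem_lift.1 hx
    exact (hup w).2 hw
  have herase : ∀ y, y ∈ t → ∀ w, up 0 w ∈ S.erase (up 0 y) ↔ w ∈ t.erase y := by
    intro y _ w
    rw [Finset.mem_erase, Finset.mem_erase, hup]
    exact and_congr_left fun _ => ⟨fun h e => h (by rw [e]), fun h e => h (up_inj e).2⟩
  by_cases hb : w1 ∈ S ∧ w2 v ∈ S
  · -- both new rays
    have hSe : S = insert w1 (insert (w2 v) (lift t)) := by
      ext x
      rw [Finset.mem_insert, Finset.mem_insert]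
      refine ⟨hcases x, ?_⟩
      rintro (rfl | rfl | h)
      · exact hb.1
      · exact hb.2
      · exact hlift x h
    refine ⟨insert v t, ?_, Or.inr ⟨Finset.mem_insert_self _ _, ?_⟩⟩
    · refine Finset.mem_filter.2 ⟨Finset.mem_powerset.2 (Finset.insert_subset hv htK), ?_, ?_⟩
      · intro h
        refine hS2 (mem_wedge.2 ⟨t, hK.down _ h _ (Finset.subset_insert _ _), hvt,
          Or.inr (Or.inr (Or.inr ⟨h, hSe⟩))⟩)
      · intro x hx
        rcases Finset.mem_insert.1 hx with rfl | hx
        · rw [Finset.erase_insert hvt]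
          refine (WMf_dec (hS3 w1 hb.1) fun w => ?_).1
          rw [Finset.mem_erase, hup]
          exact ⟨fun h => h.2, fun h => ⟨WMf_ne1 w, h⟩⟩
        · have hxv : x ≠ v := fun e => hvt (e ▸ hx)
          have h1 := (WMf_dec (hS3 (up 0 x) ((hup x).2 hx)) (herase x hx)).2
            (Finset.mem_erase.2 ⟨(WMf_ne1 x).symm, hb.1⟩)
            (Finset.mem_erase.2 ⟨(WMf_ne2 x v).symm, hb.2⟩)
          rw [Finset.erase_insert_of_ne hxv.symm]
          exact h1
    · rw [Finset.erase_insert hvt]
      exact hSe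
  · -- not both
    have htn : t ∉ K := by
      intro h
      by_cases h1 : w1 ∈ S
      · have h2 : w2 v ∉ S := fun h2 => hb ⟨h1, h2⟩
        refine hS2 (mem_wedge.2 ⟨t, h, hvt, Or.inr (Or.inl ?_)⟩)
        ext x
        rw [Finset.mem_insert]
        constructor
        · intro hx
          rcases hcases x hx with h3 | h3 | h3
          · exact Or.inl h3
          · exact absurd (h3 ▸ hx) h2
          · exact Or.inr h3
        · rintro (rfl | h3)
          · exact h1
          · exact hlift x h3
      · by_cases h2 : w2 v ∈ S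
        · refine hS2 (mem_wedge.2 ⟨t, h, hvt, Or.inr (Or.inr (Or.inl ?_))⟩)
          ext x
          rw [Finset.mem_insert]
          constructor
          · intro hx
            rcases hcases x hx with h3 | h3 | h3
            · exact absurd (h3 ▸ hx) h1
            · exact Or.inl h3
            · exact Or.inr h3
          · rintro (rfl | h3)
            · exact h2
            · exact hlift x h3
        · refine hS2 (mem_wedge.2 ⟨t, h, hvt, Or.inl ?_⟩)
          ext x
          constructor
          · intro hx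
            rcases hcases x hx with h3 | h3 | h3
            · exact absurd (h3 ▸ hx) h1
            · exact absurd (h3 ▸ hx) h2
            · exact h3
          · exact hlift x
    have h1 : w1 ∉ S := by
      intro h1
      refine htn (WMf_dec (hS3 w1 h1) fun w => ?_).1
      rw [Finset.mem_erase, hup]
      exact ⟨fun h => h.2, fun h => ⟨WMf_ne1 w, h⟩⟩
    have h2 : w2 v ∉ S := by
      intro h2
      refine htn (WMf_dec (hS3 (w2 v) h2) fun w => ?_).1
      rw [Finset.mem_erase, hup]
      exact ⟨fun h => h.2, fun h => ⟨WMf_ne2 w v, h⟩⟩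
    refine ⟨t, ?_, Or.inl ⟨hvt, ?_⟩⟩
    · refine Finset.mem_filter.2 ⟨Finset.mem_powerset.2 htK, htn, fun x hx => ?_⟩
      exact (WMf_dec (hS3 (up 0 x) ((hup x).2 hx)) (herase x hx)).1
    · ext x
      constructor
      · intro hx
        rcases hcases x hx with h3 | h3 | h3
        · exact absurd (h3 ▸ hx) h1
        · exact absurd (h3 ▸ hx) h2
        · exact h3
      · exact hlift x

end ToricSR
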